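import Pool.Agent.Z72.SH.Ex2

set_option autoImplicit false

/-! Project SH: proof of EX, continued. -/

namespace Pool.Agent.Z72.SH

open Complex Filter Topology MeasureTheory Set
open Pool.Agent.TH612.GS (z zN PN mP SN SP GM zr Sep DD z_cont PN_cont log_ev)
open Pool.Agent.N879.PZ (Wb)
open Pool.Agent.N879.PU (fs fs_norm fs_cont fs_prod card_ii S_WINU)

noncomputable section

/-- window means of zeta are continuous -/
lemma win_cont (U : ℝ) : Continuous fun t : ℝ => ∫ c in (0 : ℝ)..U, ‖z (t + c)‖ ^ 2 := by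
  have hc : Continuous fun p : ℝ × ℝ => ‖z (p.1 + p.2)‖ ^ 2 := by
    have := z_cont; fun_prop
  exact intervalIntegral.continuous_parametric_intervalIntegral_of_continuous'
    (f := fun t c => ‖z (t + c)‖ ^ 2) hc 0 U

lemma pp_cont {ι : Type} [Fintype ι] {f g : ι → ℝ → ℂ} (hf : ∀ i, Continuous (f i)) (hg : ∀ i, Continuous (g i))
    (x y : ℝ) : Continuous fun γ : ι → ℝ => ∫ t in x..y, (∏ i, f i (t + γ i) - ∏ i, g i (t + γ i)) := by
  refine intervalIntegral.continuous_parametric_intervalIntegral_of_continuous'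
    (f := fun (γ : ι → ℝ) (t : ℝ) => ∏ i, f i (t + γ i) - ∏ i, g i (t + γ i)) ?_ x y
  refine Continuous.sub ?_ ?_
  · exact continuous_finsetProd _ fun i _ => (hf i).comp (by fun_prop)
  · exact continuous_finsetProd _ fun i _ => (hg i).comp (by fun_prop)

lemma pp_int {ι : Type} [Fintype ι] {f g : ι → ℝ → ℂ} (hf : ∀ i, Continuous (f i)) (hg : ∀ i, Continuous (g i))
    (x y : ℝ) (γ : ι → ℝ) :
    IntervalIntegrable (fun t => ∏ i, f i (t + γ i) - ∏ i, g i (t + γ i)) volume x y := by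
  refine Continuous.intervalIntegrable (Continuous.sub ?_ ?_) _ _
  · exact continuous_finsetProd _ fun i _ => (hf i).comp (by fun_prop)
  · exact continuous_finsetProd _ fun i _ => (hg i).comp (by fun_prop)

/-- sum of two errors -/
lemma lint_two {ι : Type} [Fintype ι] {U b1 b2 : ℝ} {F G : (ι → ℝ) → ℂ} (hF : Continuous F) (hb1 : 0 ≤ b1)
    (hb2 : 0 ≤ b2) (h1 : ∫⁻ γ, ENNReal.ofReal (‖F γ‖ ^ 2) ∂(mP ι U) ≤ ENNReal.ofReal b1)
    (h2 : ∫⁻ γ, ENNReal.ofReal (‖G γ‖ ^ 2) ∂(mP ι U) ≤ ENNReal.ofReal b2) :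
    ∫⁻ γ, ENNReal.ofReal (‖F γ + G γ‖ ^ 2) ∂(mP ι U) ≤ ENNReal.ofReal (2 * b1 + 2 * b2) := by
  have e : ∀ γ, ENNReal.ofReal (‖F γ + G γ‖ ^ 2) ≤
      2 * ENNReal.ofReal (‖F γ‖ ^ 2) + 2 * ENNReal.ofReal (‖G γ‖ ^ 2) := by
    intro γ
    have e2 : ‖F γ + G γ‖ ^ 2 ≤ 2 * ‖F γ‖ ^ 2 + 2 * ‖G γ‖ ^ 2 := by
      have h5 := pow_le_pow_left₀ (norm_nonneg _) (norm_add_le (F γ) (G γ)) 2
      nlinarith [sq_nonneg (‖F γ‖ - ‖G γ‖)]
    refine (ENNReal.ofReal_le_ofReal e2).trans ?_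
    rw [ENNReal.ofReal_add (by positivity) (by positivity), ENNReal.ofReal_mul (by norm_num),
      ENNReal.ofReal_mul (by norm_num)]
    simp
  have hm : Measurable fun γ => ENNReal.ofReal (‖F γ‖ ^ 2) :=
    (ENNReal.continuous_ofReal.comp ((hF.norm).pow 2)).measurable
  refine (lintegral_mono e).trans ?_
  rw [lintegral_add_left (hm.const_mul 2), lintegral_const_mul _ hm, lintegral_const_mul' _ _ (by simp)]
  rw [ENNReal.ofReal_add (by positivity) (by positivity), ENNReal.ofReal_mul (by norm_num),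
    ENNReal.ofReal_mul (by norm_num)]
  have e3 : ENNReal.ofReal 2 = 2 := by simp
  rw [e3]
  gcongr

/-- the operator for the conjugated factors -/
lemma ker_conj {k : ℕ} {a b U K : ℝ} {f g : ℝ → ℂ} (i : Fin k ⊕ Fin k)
    (h : ∀ F : ℝ → ℂ, Wb a b F → ∫ c in (0 : ℝ)..U, ‖∫ t in a..b, F t * (f (t + c) - g (t + c))‖ ^ 2 ≤
      K * ∫ t in a..b, ‖F t‖ ^ 2) (F : ℝ → ℂ) (hF : Wb a b F) :
    ∫ c in (0 : ℝ)..U, ‖∫ t in a..b, F t * (fs f i (t + c) - fs g i (t + c))‖ ^ 2 ≤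
      K * ∫ t in a..b, ‖F t‖ ^ 2 := by
  cases i with
  | inl j => exact h F hF
  | inr j =>
    obtain ⟨hm, M, hM⟩ := hF
    have hF' : Wb a b fun t => (starRingEnd ℂ) (F t) :=
      ⟨Complex.continuous_conj.measurable.comp hm, M, fun t ht => by rw [RCLike.norm_conj]; exact hM t ht⟩
    have h1 := h _ hF'
    have e1 : ∀ c : ℝ, ‖∫ t in a..b, F t * (fs f (Sum.inr j) (t + c) - fs g (Sum.inr j) (t + c))‖ ^ 2 =
        ‖∫ t in a..b, (starRingEnd ℂ) (F t) * (f (t + c) - g (t + c))‖ ^ 2 := by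
      intro c
      have e2 : ∫ t in a..b, F t * (fs f (Sum.inr j) (t + c) - fs g (Sum.inr j) (t + c)) =
          (starRingEnd ℂ) (∫ t in a..b, (starRingEnd ℂ) (F t) * (f (t + c) - g (t + c))) := by
        rw [← Pool.Agent.TH612.GS.int_conj]
        refine intervalIntegral.integral_congr fun t _ => ?_
        simp only [map_mul, map_sub, Complex.conj_conj]
        rfl
      rw [e2, RCLike.norm_conj]
    simp only [e1]
    refine h1.trans (le_of_eq ?_)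
    simp only [RCLike.norm_conj]

theorem t_EX (hKD : S_KD) (hRW : S_RW) (hWM : S_WM) (hWI : S_WINU) : S_EX := by
  intro k κ hk hκ hκ1
  obtain ⟨m, hm⟩ : ∃ m, 2 * k = m + 3 := ⟨2 * k - 3, by omega⟩
  have hmr : (2 * k : ℝ) = m + 3 := by exact_mod_cast hm
  have hm0 : (0:ℝ) ≤ m := Nat.cast_nonneg m
  have e0 : (2 * k - 3 : ℝ) / (6 * k - 6) = m / (3 * (m + 1)) := by
    have a1 : (2 * k - 3 : ℝ) = m := by linarith
    have a2 : (6 * k - 6 : ℝ) = 3 * (m + 1) := by linarith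
    rw [a1, a2]
  rw [e0, div_lt_iff₀ (by positivity)] at hκ
  have hκ2 : 0 < κ * (m + 1) - m / 3 := by linarith
  have hκ0 : 0 < κ := by
    by_contra hcon
    push Not at hcon
    have : κ * (3 * (m + 1)) ≤ 0 := mul_nonpos_of_nonpos_of_nonneg hcon (by positivity)
    linarith
  obtain ⟨η0, hη0⟩ : ∃ η0, η0 = min κ (κ * (m + 1) - m / 3) := ⟨_, rfl⟩
  have hη0p : 0 < η0 := by rw [hη0]; exact lt_min hκ0 hκ2
  obtain ⟨ε, hεd⟩ : ∃ ε, ε = η0 / (2 * (m + 3)) := ⟨_, rfl⟩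
  have hε : 0 < ε := by rw [hεd]; positivity
  have hεm : (m + 3) * ε = η0 / 2 := by rw [hεd]; field_simp
  obtain ⟨Cm, hCm, hwm⟩ := hWM ε hε
  obtain ⟨C1, A1, hC1, hkd⟩ := hKD
  obtain ⟨Cw, hCw, hwin⟩ := hWI
  have ev1 := log_ev 1 A1 hε
  have ev2 := log_ev 4 2 hε
  have ev3 := (tendsto_rpow_atTop hκ0).eventually_ge_atTop 3
  obtain ⟨T₀, hT₀⟩ := eventually_atTop.1 (ev1.and (ev2.and (ev3.and (eventually_ge_atTop 3))))
  obtain ⟨D1, hD1⟩ : ∃ D1 : ℝ, D1 = 4 ^ (m + 3) * (3 * C1) * (Cm + Cw) ^ m * (2 * Cm + 2 * Cw ^ 2) * 2 ^ m := ⟨_, rfl⟩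
  obtain ⟨D2, hD2⟩ : ∃ D2 : ℝ, D2 = 4 ^ (m + 3) * (10 * C1) * Cw ^ (m + 2) * 4 ^ (m + 2) := ⟨_, rfl⟩
  have hD1p : 0 < D1 := by rw [hD1]; positivity
  have hD2p : 0 < D2 := by rw [hD2]; positivity
  refine ⟨η0 / 2, 2 * D1 + 2 * D2, max 3 T₀, A1 + 2 * (m + 2), by positivity, by positivity, le_max_left _ _,
    fun T U N hT hTU hUT hN hNU => ?_⟩
  obtain ⟨l1, l2, l3, l4⟩ := hT₀ T ((le_max_right _ _).trans hT)
  have hT3 : 3 ≤ T := l4
  have hT0 : 0 < T := by linarith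
  have hT1 : 1 ≤ T := by linarith
  have hU3 : 3 ≤ U := l3.trans hTU
  have hU0 : 0 < U := by linarith
  have hU1 : 1 ≤ U := by linarith
  obtain ⟨L, hL⟩ : ∃ L, L = Real.log T := ⟨_, rfl⟩
  rw [← hL] at l1 l2
  have hL1 : 1 ≤ L := by
    rw [hL, Real.le_log_iff_exp_le hT0]
    exact (Real.exp_one_lt_d9.le.trans (by norm_num)).trans hT3
  have hTε : 0 < T ^ ε := by positivity
  have hTε1 : 1 ≤ T ^ ε := Real.one_le_rpow hT1 hε.le
  rw [one_mul] at l1
  -- the long polynomial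
  obtain ⟨N1, hN1⟩ : ∃ N1, N1 = ⌊U⌋₊ := ⟨_, rfl⟩
  have hN1U : (N1 : ℝ) ≤ U := by rw [hN1]; exact Nat.floor_le hU0.le
  have hN1h : U / 2 ≤ N1 := by
    have := Nat.lt_floor_add_one U
    rw [← hN1] at this
    linarith
  have hN11 : 1 ≤ N1 := by
    have : (0:ℝ) < N1 := by linarith
    exact_mod_cast this
  have hN10 : (0:ℝ) < N1 := by linarith
  have hNr : (1:ℝ) ≤ N := by exact_mod_cast hN
  have hN0 : (0:ℝ) < N := by linarith
  -- windows
  obtain ⟨W2, hW2⟩ : ∃ W2, W2 = Cw * U * (1 + Real.log U) ^ 2 := ⟨_, rfl⟩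
  have hlU0 : 0 ≤ Real.log U := Real.log_nonneg hU1
  have hlUL : Real.log U ≤ L := by rw [hL]; exact Real.log_le_log hU0 hUT
  have hW20 : 0 ≤ W2 := by rw [hW2]; positivity
  have hsq : (1 + Real.log U) ^ 2 ≤ 4 * L ^ 2 := by
    have : (1 + Real.log U) ^ 2 ≤ (2 * L) ^ 2 := pow_le_pow_left₀ (by linarith) (by linarith) 2
    linarith [this, (by ring : (2 * L) ^ 2 = 4 * L ^ 2)]
  have hW2b : W2 ≤ Cw * U * T ^ ε := by
    rw [hW2]
    have := hsq.trans l2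
    gcongr
  have hwP : ∀ (n : ℕ), 1 ≤ n → (n : ℝ) ≤ U → ∀ (i : Fin k ⊕ Fin k) (t : ℝ),
      ∫ c in (0 : ℝ)..U, ‖fs (PN n) i (t + c)‖ ^ 2 ≤ W2 := by
    intro n hn hnU i t
    simp only [fs_norm]
    refine (hwin U t n hU1 hn hnU).trans ?_
    rw [hW2]
    have h1 : Real.log n ≤ Real.log U := Real.log_le_log (by exact_mod_cast (by omega : 0 < n)) hnU
    have h2 : 0 ≤ Real.log n := Real.log_nonneg (by exact_mod_cast hn)
    gcongr
  obtain ⟨w1, hw1⟩ : ∃ w1 : ℝ → ℝ, w1 = fun t => (∫ c in (0 : ℝ)..U, ‖z (t + c)‖ ^ 2) + W2 := ⟨_, rfl⟩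
  have hI0 : ∀ t : ℝ, 0 ≤ ∫ c in (0 : ℝ)..U, ‖z (t + c)‖ ^ 2 := fun t =>
    intervalIntegral.integral_nonneg hU0.le fun c _ => by positivity
  have hw1c : Continuous w1 := by rw [hw1]; exact (win_cont U).add continuous_const
  have hw10 : ∀ t, 0 ≤ w1 t := fun t => by rw [hw1]; exact add_nonneg (hI0 t) hW20
  have hcard := card_ii k
  rw [hm] at hcard
  -- operators
  have kz : ∀ (n : ℕ), 1 ≤ n → (n : ℝ) ≤ U → ∀ F : ℝ → ℂ, Wb U T F →
      ∫ c in (0 : ℝ)..U, ‖∫ t in U..T, F t * (z (t + c) - PN n (t + c))‖ ^ 2 ≤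
        C1 * L ^ A1 * (T * U / n + T) * ∫ t in U..T, ‖F t‖ ^ 2 := fun n hn hnU F hF => by
    rw [hL]; exact hkd T U n F hU3 hUT hn hnU hF
  obtain ⟨K1, hK1⟩ : ∃ K1, K1 = C1 * L ^ A1 * (T * U / N1 + T) := ⟨_, rfl⟩
  obtain ⟨KN, hKN⟩ : ∃ KN, KN = C1 * L ^ A1 * (T * U / N + T) := ⟨_, rfl⟩
  have hLA : 0 < L ^ A1 := by positivity
  have hK10 : 0 ≤ K1 := by rw [hK1]; positivity
  have hKN0 : 0 ≤ KN := by rw [hKN]; positivity
  have hK1b : K1 ≤ C1 * L ^ A1 * (3 * T) := by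
    rw [hK1]
    have : T * U / N1 ≤ 2 * T := by
      rw [div_le_iff₀ hN10]
      nlinarith
    gcongr
    linarith
  obtain ⟨K2, hK2⟩ : ∃ K2, K2 = 2 * K1 + 2 * KN := ⟨_, rfl⟩
  have hK20 : 0 ≤ K2 := by rw [hK2]; positivity
  have hTN : T ≤ T * U / N := by
    rw [le_div_iff₀ hN0]
    gcongr
  have hK2b : K2 ≤ 10 * C1 * L ^ A1 * (T * U / N) := by
    have h1 : KN ≤ C1 * L ^ A1 * (2 * (T * U / N)) := by
      rw [hKN]; gcongr; linarith
    have h2 : C1 * L ^ A1 * (3 * T) ≤ C1 * L ^ A1 * (3 * (T * U / N)) := by gcongr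
    rw [hK2]
    linarith
  -- the two replacements
  have E1 : ∀ x y, U ≤ x → x ≤ y → y ≤ T →
      ∫⁻ γ, ENNReal.ofReal (‖∫ t in x..y, (∏ i : Fin k ⊕ Fin k, fs z i (t + γ i) -
        ∏ i : Fin k ⊕ Fin k, fs (PN N1) i (t + γ i))‖ ^ 2) ∂(mP (Fin k ⊕ Fin k) U) ≤
      ENNReal.ofReal (4 ^ (m + 3) * K1 * ∫ t in x..y, w1 t ^ (m + 2)) := by
    intro x y hx hxy hy
    have := rw_sub hRW (ι := Fin k ⊕ Fin k) (f := fun i => fs z i) (g := fun i => fs (PN N1) i) hUT hU0 hK10 hw1c hw10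
      (fun i => fs_cont z_cont i) (fun i => fs_cont (PN_cont N1) i)
      (fun i F hF => ker_conj i (fun F hF => by rw [hK1]; exact kz N1 hN11 hN1U F hF) F hF)
      (fun i t _ => by
        simp only [fs_norm]
        rw [hw1]
        have := hW20
        linarith)
      (fun i t _ => (hwP N1 hN11 hN1U i t).trans (by
        rw [hw1]
        have := hI0 t
        linarith)) hx hxy hy
    rw [hcard] at this
    exact this
  have E2 : ∀ x y, U ≤ x → x ≤ y → y ≤ T →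
      ∫⁻ γ, ENNReal.ofReal (‖∫ t in x..y, (∏ i : Fin k ⊕ Fin k, fs (PN N1) i (t + γ i) -
        ∏ i : Fin k ⊕ Fin k, fs (PN N) i (t + γ i))‖ ^ 2) ∂(mP (Fin k ⊕ Fin k) U) ≤
      ENNReal.ofReal (4 ^ (m + 3) * K2 * (W2 ^ (m + 2) * (y - x))) := by
    intro x y hx hxy hy
    have := rw_sub hRW (ι := Fin k ⊕ Fin k) (w := fun _ => W2) (f := fun i => fs (PN N1) i) (g := fun i => fs (PN N) i)
      hUT hU0 hK20 continuous_const (fun _ => hW20)
      (fun i => fs_cont (PN_cont N1) i) (fun i => fs_cont (PN_cont N) i)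
      (fun i F hF => ker_conj i (fun F hF => by
        rw [hK2, hK1, hKN]
        exact ker_diff hUT hU0.le z_cont (PN_cont N1) (PN_cont N) (fun F hF => kz N1 hN11 hN1U F hF)
          (fun F hF => kz N hN hNU F hF) F hF) F hF)
      (fun i t _ => hwP N1 hN11 hN1U i t) (fun i t _ => hwP N hN hNU i t) hx hxy hy
    rw [hcard, intervalIntegral.integral_const, smul_eq_mul, mul_comm (y - x)] at this
    exact this
  have hwi : ∀ x y : ℝ, IntervalIntegrable (fun t => w1 t ^ (m + 2)) volume x y := fun x y =>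
    (hw1c.pow _).intervalIntegrable _ _
  refine ⟨fun x y => 2 * (4 ^ (m + 3) * K1 * ∫ t in x..y, w1 t ^ (m + 2)) +
    2 * (4 ^ (m + 3) * K2 * (W2 ^ (m + 2) * (y - x))), ?_, ?_, ?_⟩
  · intro x y hx hxy hy
    have n1 : 0 ≤ 4 ^ (m + 3) * K1 * ∫ t in x..y, w1 t ^ (m + 2) :=
      mul_nonneg (by positivity) (intervalIntegral.integral_nonneg hxy fun t _ => pow_nonneg (hw10 t) _)
    have n2 : 0 ≤ 4 ^ (m + 3) * K2 * (W2 ^ (m + 2) * (y - x)) :=
      mul_nonneg (by positivity) (mul_nonneg (by positivity) (by linarith))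
    refine ⟨by positivity, ?_⟩
    have key := lint_two (pp_cont (ι := Fin k ⊕ Fin k) (f := fun i => fs z i) (g := fun i => fs (PN N1) i)
      (fun i => fs_cont z_cont i) (fun i => fs_cont (PN_cont N1) i) x y) n1 n2 (E1 x y hx hxy hy) (E2 x y hx hxy hy)
    refine le_trans (le_of_eq ?_) key
    refine lintegral_congr fun γ => ?_
    rw [← intervalIntegral.integral_add]
    · congr 4
      funext t
      ring
    · exact pp_int (ι := Fin k ⊕ Fin k) (f := fun i => fs z i) (g := fun i => fs (PN N1) i)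
        (fun i => fs_cont z_cont i) (fun i => fs_cont (PN_cont N1) i) x y γ
    · exact pp_int (ι := Fin k ⊕ Fin k) (f := fun i => fs (PN N1) i) (g := fun i => fs (PN N) i)
        (fun i => fs_cont (PN_cont N1) i) (fun i => fs_cont (PN_cont N) i) x y γ
  · intro x y w hx hxy hyw hw
    have := intervalIntegral.integral_add_adjacent_intervals (hwi x y) (hwi y w)
    simp only
    rw [← this]
    apply le_of_eq
    ring
  · simp only
    -- the first part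
    have hT13 : 0 < T ^ (1 / 3 : ℝ) := by positivity
    have hsup : ∀ t ∈ Icc U T, w1 t ≤ (Cm + Cw) * T ^ ε * (U + T ^ (1 / 3 : ℝ)) := by
      intro t ht
      rw [hw1]
      have h1 := (hwm T U hU3 hUT).1 t ht
      have h2 : Cw * U * T ^ ε ≤ Cw * T ^ ε * (U + T ^ (1 / 3 : ℝ)) := by
        have : Cw * U * T ^ ε = Cw * T ^ ε * U := by ring
        rw [this]
        gcongr
        linarith
      simp only
      linarith
    have hsq2 : ∫ t in U..T, w1 t ^ 2 ≤ (2 * Cm + 2 * Cw ^ 2) * U ^ 2 * T ^ (1 + 2 * ε) := by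
      have h1 := (hwm T U hU3 hUT).2
      have h3 : ∫ t in U..T, w1 t ^ 2 ≤ ∫ t in U..T, (2 * (∫ c in (0 : ℝ)..U, ‖z (t + c)‖ ^ 2) ^ 2 + 2 * W2 ^ 2) := by
        refine intervalIntegral.integral_mono_on hUT ((hw1c.pow 2).intervalIntegrable _ _)
          ((continuous_const.mul ((win_cont U).pow 2)).add continuous_const |>.intervalIntegrable _ _) fun t _ => ?_
        rw [hw1]
        simp only
        nlinarith [sq_nonneg ((∫ c in (0 : ℝ)..U, ‖z (t + c)‖ ^ 2) - W2)]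
      have h4 : ∫ t in U..T, (2 * (∫ c in (0 : ℝ)..U, ‖z (t + c)‖ ^ 2) ^ 2 + 2 * W2 ^ 2) =
          2 * (∫ t in U..T, (∫ c in (0 : ℝ)..U, ‖z (t + c)‖ ^ 2) ^ 2) + (T - U) * (2 * W2 ^ 2) := by
        rw [intervalIntegral.integral_add, intervalIntegral.integral_const_mul, intervalIntegral.integral_const,
          smul_eq_mul]
        · exact (continuous_const.mul ((win_cont U).pow 2)).intervalIntegrable _ _
        · exact continuous_const.intervalIntegrable _ _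
      have h5 : W2 ^ 2 ≤ (Cw * U * T ^ ε) ^ 2 := pow_le_pow_left₀ hW20 hW2b 2
      have h6 : T ^ (1 + ε) ≤ T ^ (1 + 2 * ε) := Real.rpow_le_rpow_of_exponent_le hT1 (by linarith)
      have h7 : T ^ (1 + 2 * ε) = T * (T ^ ε) ^ 2 := by
        rw [Real.rpow_add hT0, Real.rpow_one, two_mul, Real.rpow_add hT0, sq]
      have h8 : (T - U) * (2 * W2 ^ 2) ≤ T * (2 * (Cw * U * T ^ ε) ^ 2) := by
        refine mul_le_mul (by linarith) (by linarith) (by positivity) hT0.le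
      have h9 : Cm * T ^ (1 + ε) * U ^ 2 ≤ Cm * T ^ (1 + 2 * ε) * U ^ 2 := by gcongr
      calc ∫ t in U..T, w1 t ^ 2 ≤ 2 * (∫ t in U..T, (∫ c in (0 : ℝ)..U, ‖z (t + c)‖ ^ 2) ^ 2) +
            (T - U) * (2 * W2 ^ 2) := h3.trans (le_of_eq h4)
        _ ≤ 2 * (Cm * T ^ (1 + 2 * ε) * U ^ 2) + T * (2 * (Cw * U * T ^ ε) ^ 2) := by linarith
        _ = _ := by rw [h7]; ring
    have hpow : ∫ t in U..T, w1 t ^ (m + 2) ≤ ((Cm + Cw) * T ^ ε * (U + T ^ (1 / 3 : ℝ))) ^ m *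
        ((2 * Cm + 2 * Cw ^ 2) * U ^ 2 * T ^ (1 + 2 * ε)) := by
      have h1 : ∫ t in U..T, w1 t ^ (m + 2) ≤
          ∫ t in U..T, ((Cm + Cw) * T ^ ε * (U + T ^ (1 / 3 : ℝ))) ^ m * w1 t ^ 2 := by
        refine intervalIntegral.integral_mono_on hUT (hwi _ _)
          ((continuous_const.mul (hw1c.pow 2)).intervalIntegrable _ _) fun t ht => ?_
        rw [pow_add]
        have := pow_le_pow_left₀ (hw10 t) (hsup t ht) m
        exact mul_le_mul_of_nonneg_right this (by positivity)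
      rw [intervalIntegral.integral_const_mul] at h1
      refine h1.trans ?_
      exact mul_le_mul_of_nonneg_left hsq2 (by positivity)
    have hgap := pow_gap (m := m) hT1 hTU
    rw [← hη0] at hgap
    have hP1 : 2 * (4 ^ (m + 3) * K1 * ∫ t in U..T, w1 t ^ (m + 2)) ≤
        2 * D1 * U ^ (m + 3) * T ^ 2 * T ^ (-(η0 / 2)) := by
      have hK1c : K1 ≤ 3 * C1 * T ^ ε * T := by
        refine hK1b.trans ?_
        calc C1 * L ^ A1 * (3 * T) ≤ C1 * T ^ ε * (3 * T) := by gcongr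
          _ = _ := by ring
      have hexp : T ^ ε * T * ((T ^ ε) ^ m * T ^ (1 + 2 * ε)) * T ^ (-η0) = T ^ 2 * T ^ (-(η0 / 2)) := by
        have a1 : (T ^ ε) ^ m = T ^ (ε * m) := by rw [← Real.rpow_natCast, ← Real.rpow_mul hT0.le]
        have a2 : T ^ (2:ℕ) = T ^ (2:ℝ) := by rw [← Real.rpow_natCast]; norm_num
        have a3 : T = T ^ (1:ℝ) := (Real.rpow_one T).symm
        rw [a1, a2]
        nth_rewrite 2 [a3]
        rw [← Real.rpow_add hT0, ← Real.rpow_add hT0, ← Real.rpow_add hT0, ← Real.rpow_add hT0, ← Real.rpow_add hT0]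
        congr 1
        linarith
      calc 2 * (4 ^ (m + 3) * K1 * ∫ t in U..T, w1 t ^ (m + 2))
          ≤ 2 * (4 ^ (m + 3) * (3 * C1 * T ^ ε * T) * (((Cm + Cw) * T ^ ε * (U + T ^ (1 / 3 : ℝ))) ^ m *
            ((2 * Cm + 2 * Cw ^ 2) * U ^ 2 * T ^ (1 + 2 * ε)))) := by
            have n3 : 0 ≤ ∫ t in U..T, w1 t ^ (m + 2) :=
              intervalIntegral.integral_nonneg hUT fun t _ => pow_nonneg (hw10 t) _
            refine mul_le_mul_of_nonneg_left ?_ (by norm_num)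
            refine mul_le_mul ?_ hpow n3 (by positivity)
            exact mul_le_mul_of_nonneg_left hK1c (by positivity)
        _ = 2 * (4 ^ (m + 3) * (3 * C1) * (Cm + Cw) ^ m * (2 * Cm + 2 * Cw ^ 2)) *
            (T ^ ε * T * ((T ^ ε) ^ m * T ^ (1 + 2 * ε))) * ((U + T ^ (1 / 3 : ℝ)) ^ m * U ^ 2) := by
            rw [mul_pow, mul_pow]; ring
        _ ≤ 2 * (4 ^ (m + 3) * (3 * C1) * (Cm + Cw) ^ m * (2 * Cm + 2 * Cw ^ 2)) *
            (T ^ ε * T * ((T ^ ε) ^ m * T ^ (1 + 2 * ε))) * (2 ^ m * U ^ (m + 3) * T ^ (-η0)) := by gcongr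
        _ = 2 * D1 * U ^ (m + 3) * (T ^ ε * T * ((T ^ ε) ^ m * T ^ (1 + 2 * ε)) * T ^ (-η0)) := by
            rw [hD1]; ring
        _ = _ := by rw [hexp]; ring
    have hP2 : 2 * (4 ^ (m + 3) * K2 * (W2 ^ (m + 2) * (T - U))) ≤
        2 * D2 * U ^ (m + 3) * T ^ 2 * (L ^ (A1 + 2 * (m + 2)) / N) := by
      have hW2c : W2 ≤ Cw * U * (4 * L ^ 2) := by rw [hW2]; gcongr
      have hW2d : W2 ^ (m + 2) ≤ (Cw * U * (4 * L ^ 2)) ^ (m + 2) := pow_le_pow_left₀ hW20 hW2c _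
      calc 2 * (4 ^ (m + 3) * K2 * (W2 ^ (m + 2) * (T - U)))
          ≤ 2 * (4 ^ (m + 3) * (10 * C1 * L ^ A1 * (T * U / N)) * ((Cw * U * (4 * L ^ 2)) ^ (m + 2) * T)) := by
            refine mul_le_mul_of_nonneg_left ?_ (by norm_num)
            refine mul_le_mul ?_ ?_ (mul_nonneg (by positivity) (by linarith)) (by positivity)
            · exact mul_le_mul_of_nonneg_left hK2b (by positivity)
            · exact mul_le_mul hW2d (by linarith) (by linarith) (by positivity)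
        _ = _ := by
            rw [hD2, mul_pow, mul_pow, mul_pow, ← pow_mul, pow_add L, pow_add U m 3, pow_add U m 2]
            field_simp
            try ring
    rw [hm, ← hL]
    have hfin : (2 * D1 + 2 * D2) * U ^ (m + 3) * T ^ 2 * (T ^ (-(η0 / 2)) + L ^ (A1 + 2 * (m + 2)) / N) =
        2 * D1 * U ^ (m + 3) * T ^ 2 * T ^ (-(η0 / 2)) + 2 * D2 * U ^ (m + 3) * T ^ 2 * (L ^ (A1 + 2 * (m + 2)) / N) +
        (2 * D1 * U ^ (m + 3) * T ^ 2 * (L ^ (A1 + 2 * (m + 2)) / N) +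
        2 * D2 * U ^ (m + 3) * T ^ 2 * T ^ (-(η0 / 2))) := by ring
    rw [hfin]
    have p1 : 0 ≤ 2 * D1 * U ^ (m + 3) * T ^ 2 * (L ^ (A1 + 2 * (m + 2)) / N) := by positivity
    have p2 : 0 ≤ 2 * D2 * U ^ (m + 3) * T ^ 2 * T ^ (-(η0 / 2)) := by positivity
    linarith

end

end Pool.Agent.Z72.SH
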