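import Mathlib

set_option autoImplicit false

/-!
Project SH (helper72), statements which need only Mathlib.
-/

namespace Pool.Agent.Z72.SH

open Complex Filter Topology MeasureTheory Set

noncomputable section

/-- the weights of the Gaussian mean value -/
def wg (G : ℝ) (h n : ℕ) : ℝ :=
  ((n : ℝ) * ((n : ℝ) + h)) ^ (-(1 / 2) : ℝ) * Real.exp (-(G * Real.log (1 + (h : ℝ) / n)) ^ 2 / 4)

/-- the oscillating factor -/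
def eph (t : ℝ) (h n : ℕ) : ℂ := Complex.exp (I * ((t * Real.log (1 + (h : ℝ) / n) : ℝ) : ℂ))

/-- GM: Gaussian mean value of a Dirichlet polynomial over a short interval -/
def S_GM : Prop := ∃ C : ℝ, 0 < C ∧ ∀ (X : ℕ) (t G : ℝ), 1 ≤ X → 1 ≤ G →
  ∫ u in t..(t + G), ‖∑ n ∈ Finset.Icc 1 X, (n : ℂ) ^ (-(1 / 2 + I * (u : ℂ)))‖ ^ 2 ≤ C * G * (1 + Real.log X +
    ∑ h ∈ Finset.Icc 1 X, ‖∑ n ∈ Finset.Icc 1 (X - h), (wg G h n : ℂ) * eph t h n‖)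

/-- ES: the exponential sums, second and first derivative test -/
def S_ES : Prop := ∀ ε : ℝ, 0 < ε → ∃ C : ℝ, 0 < C ∧ ∀ (t : ℝ) (h N M : ℕ), 1 ≤ t → 1 ≤ h → h ≤ N → M ≤ N →
  ‖∑ n ∈ Finset.range M, eph t h (N + n)‖ ≤
    C * (N : ℝ) ^ ε * ((t * h / N) ^ (1 / 2 : ℝ) + ((N : ℝ) ^ 3 / (t * h)) ^ (1 / 2 : ℝ)) ∧
  (t * h ≤ (N : ℝ) ^ 2 → ‖∑ n ∈ Finset.range M, eph t h (N + n)‖ ≤ C * ((N : ℝ) ^ 2 / (t * h)))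

/-- CH: chaining over dyadic subintervals -/
def S_CH : Prop := ∀ (ι : Type) [Fintype ι] (μ : Measure (ι → ℝ)) (g : (ι → ℝ) → ℝ → ℂ) (a b lam : ℝ) (J : ℕ)
  (β : ℝ → ℝ → ℝ), a ≤ b → 0 < lam → (Continuous fun p : (ι → ℝ) × ℝ => g p.1 p.2) →
  (∀ x y, a ≤ x → x ≤ y → y ≤ b → 0 ≤ β x y ∧
    ∫⁻ γ, ENNReal.ofReal (‖∫ t in x..y, g γ t‖ ^ 2) ∂μ ≤ ENNReal.ofReal (β x y)) →
  (∀ x y z, a ≤ x → x ≤ y → y ≤ z → z ≤ b → β x y + β y z ≤ β x z) →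
  μ {γ | ∃ i : ℕ, i ≤ 2 ^ J ∧ (J + 1) * lam < ‖∫ t in a..(a + i * ((b - a) / 2 ^ J)), g γ t‖} ≤
    ENNReal.ofReal ((J + 1) * β a b / lam ^ 2)

/-- R1: an analytic function which is small on half of a short interval is small on the whole interval -/
def S_R1 : Prop := ∀ θ : ℝ, 0 < θ → θ < 1 → ∃ r C : ℝ, 0 < r ∧ r ≤ 1 / 2 ∧ 0 < C ∧
  ∀ (f : ℂ → ℂ) (M m : ℝ) (E : Set ℝ), DifferentiableOn ℂ f (Metric.ball 0 1) →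
  (∀ w ∈ Metric.ball (0 : ℂ) 1, ‖f w‖ ≤ M) → 0 < m → m ≤ M → E ⊆ Icc (-r) r →
  ENNReal.ofReal r ≤ volume E → (∀ x ∈ E, ‖f x‖ ≤ m) →
  ∀ x ∈ Icc (-r) r, ‖f x‖ ≤ C * M ^ θ * m ^ (1 - θ)

/-- R2: the same in several variables, one at a time -/
def S_R2 : Prop := ∀ (n : ℕ) (θ : ℝ), 0 < θ → θ < 1 → ∃ r C : ℝ, 0 < r ∧ r ≤ 1 / 2 ∧ 0 < C ∧
  ∀ (f : (Fin n → ℂ) → ℂ) (M m : ℝ) (B : Set (Fin n → ℝ)),
  (∀ i, ∀ x : Fin n → ℝ, (∀ j, |x j| ≤ r) →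
    DifferentiableOn ℂ (fun w => f (Function.update (fun j => (x j : ℂ)) i w)) (Metric.ball 0 1) ∧
    ∀ w ∈ Metric.ball (0 : ℂ) 1, ‖f (Function.update (fun j => (x j : ℂ)) i w)‖ ≤ M) →
  0 < m → m ≤ M → MeasurableSet B →
  (∀ x : Fin n → ℝ, (∀ j, |x j| ≤ r) → x ∉ B → ‖f (fun j => (x j : ℂ))‖ ≤ m) →
  volume (B ∩ {x | ∀ j, |x j| ≤ r}) < ENNReal.ofReal ((r / 2) ^ n) →
  ∀ x : Fin n → ℝ, (∀ j, |x j| ≤ r) → ‖f (fun j => (x j : ℂ))‖ ≤ C * M ^ θ * m ^ (1 - θ)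

/-- GR: polynomial growth of zeta, away from the pole -/
def S_GR : Prop := ∃ (C : ℝ) (A : ℕ), 0 < C ∧ ∀ σ u : ℝ, 2 / 5 ≤ σ → σ ≤ 6 / 5 → (1 ≤ |u| ∨ σ ≤ 3 / 5) →
  ‖riemannZeta (σ + I * u)‖ ≤ C * (1 + |u|) ^ A

end

end Pool.Agent.Z72.SH
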