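import Mathlib
import Pool.Agent.Z72.SH.Stm0
import Pool.Agent.H448R2.GC.X2

/-!
# Polynomial growth of zeta (helper55 for helper72)
-/

set_option autoImplicit false

namespace Pool.Agent.Z72.SH

open Complex

theorem t_GR : S_GR := by
  obtain ⟨C, B, hC, hB, h⟩ := Pool.Agent.H448R2.GC.zeta_growth 0
  refine ⟨C, ⌈B⌉₊, hC, ?_⟩
  intro σ u h1 h2 h3
  have hre : ((σ : ℂ) + I * u).re = σ := by simp
  have him : ((σ : ℂ) + I * u).im = u := by simp
  have hb := h ((σ : ℂ) + I * u) (by rw [hre]; linarith) (by rw [hre]; linarith) (by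
    rcases h3 with h3 | h3
    · have := Complex.abs_im_le_norm ((σ : ℂ) + I * u - 1)
      rw [Complex.sub_im, him, Complex.one_im, sub_zero] at this
      linarith
    · have := Complex.abs_re_le_norm ((σ : ℂ) + I * u - 1)
      rw [Complex.sub_re, hre, Complex.one_re] at this
      have h4 := neg_abs_le (σ - 1)
      linarith)
  rw [him] at hb
  refine hb.trans ?_
  have hone : (1 : ℝ) ≤ 1 + |u| := by linarith [abs_nonneg u]
  rw [← Real.rpow_natCast]
  gcongr
  exact Nat.le_ceil B

end Pool.Agent.Z72.SH
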