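import Pool.Agent.Z72.SH.Stm0

/-!
Chaining over dyadic subintervals.
-/

set_option autoImplicit false

namespace Pool.Agent.Z72.SH

open Complex Filter Topology MeasureTheory Set

noncomputable section

theorem t_CH : S_CH := by
  intro ι _ μ g a b lam J β hab hlam hg hβ hsup
  -- the points
  set s : ℕ → ℕ → ℝ := fun j i => a + i * ((b - a) / 2 ^ j) with hs
  have hs0 : ∀ j, s j 0 = a := fun j => by simp [hs]
  have hs1 : ∀ j, s j (2 ^ j) = b := fun j => by
    simp only [hs]
    push_cast
    field_simp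
    ring
  have hstep : ∀ j, 0 ≤ (b - a) / 2 ^ j := fun j => div_nonneg (by linarith) (by positivity)
  have hmono : ∀ j i k, i ≤ k → s j i ≤ s j k := by
    intro j i k hik
    simp only [hs]
    have : (i : ℝ) ≤ k := by exact_mod_cast hik
    have := mul_le_mul_of_nonneg_right this (hstep j)
    linarith
  have hsa : ∀ j i, a ≤ s j i := fun j i => by
    rw [← hs0 j]; exact hmono j 0 i (Nat.zero_le _)
  have hsb : ∀ j i, i ≤ 2 ^ j → s j i ≤ b := fun j i hi => by
    rw [← hs1 j]; exact hmono j i _ hi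
  have hdbl : ∀ j k, s (j + 1) (2 * k) = s j k := by
    intro j k
    simp only [hs]
    push_cast
    field_simp
    ring
  have hcont : ∀ x y : ℝ, Continuous fun γ => ∫ t in x..y, g γ t := fun x y =>
    intervalIntegral.continuous_parametric_intervalIntegral_of_continuous' hg x y
  have hgi : ∀ γ (x y : ℝ), IntervalIntegrable (g γ) volume x y := fun γ x y =>
    (hg.comp (by fun_prop : Continuous fun t : ℝ => (γ, t))).intervalIntegrable x y
  set X : ℕ → ℕ → (ι → ℝ) → ℂ := fun j i γ => ∫ t in s j i..s j (i + 1), g γ t with hX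
  set M : ℕ → (ι → ℝ) → ℝ := fun j γ => ∑ i ∈ Finset.range (2 ^ j), ‖X j i γ‖ ^ 2 with hM
  have hXM : ∀ j i γ, i < 2 ^ j → M j γ ≤ lam ^ 2 → ‖X j i γ‖ ≤ lam := by
    intro j i γ hi h
    have h1 : ‖X j i γ‖ ^ 2 ≤ M j γ :=
      Finset.single_le_sum (f := fun i => ‖X j i γ‖ ^ 2) (fun i _ => by positivity)
        (Finset.mem_range.2 hi)
    exact abs_le_of_sq_le_sq' (h1.trans h) hlam.le |>.2
  -- chaining
  have hchain : ∀ j γ, (∀ l ≤ j, M l γ ≤ lam ^ 2) → ∀ i ≤ 2 ^ j,
      ‖∫ t in a..s j i, g γ t‖ ≤ (j + 1) * lam := by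
    intro j γ
    induction j with
    | zero =>
      intro h i hi
      rw [pow_zero] at hi
      rcases Nat.lt_or_ge i 1 with h1 | h1
      · have h0 : i = 0 := by omega
        subst h0
        rw [hs0]
        simp [hlam.le]
      · have h0 : i = 1 := by omega
        subst h0
        have := hXM 0 0 γ (by norm_num) (h 0 le_rfl)
        simp only [hX, hs0, zero_add] at this
        simpa using this
    | succ j ih =>
      intro h i hi
      have ih' := ih fun l hl => h l (hl.trans (Nat.le_succ j))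
      obtain ⟨k, hk | hk⟩ : ∃ k, i = 2 * k ∨ i = 2 * k + 1 := ⟨i / 2, by omega⟩
      · subst hk
        rw [hdbl]
        have hk2 : k ≤ 2 ^ j := by rw [pow_succ] at hi; omega
        have := ih' k hk2
        push_cast
        nlinarith
      · subst hk
        have hk2 : k < 2 ^ j := by rw [pow_succ] at hi; omega
        have h1 := ih' k hk2.le
        have h2 := hXM (j + 1) (2 * k) γ (by rw [pow_succ]; omega) (h (j + 1) le_rfl)
        have h3 : ∫ t in a..s (j + 1) (2 * k + 1), g γ t =
            (∫ t in a..s j k, g γ t) + X (j + 1) (2 * k) γ := by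
          simp only [hX]
          rw [← hdbl j k]
          exact (intervalIntegral.integral_add_adjacent_intervals (hgi _ _ _) (hgi _ _ _)).symm
        rw [h3]
        refine (norm_add_le _ _).trans ?_
        push_cast
        linarith
  -- the expectation
  have htel : ∀ j n, n ≤ 2 ^ j → ∑ i ∈ Finset.range n, β (s j i) (s j (i + 1)) ≤ β a (s j n) := by
    intro j n
    induction n with
    | zero =>
      intro _
      rw [Finset.sum_range_zero, hs0]
      exact (hβ a a le_rfl le_rfl hab).1
    | succ n ih =>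
      intro hn
      rw [Finset.sum_range_succ]
      have h1 := ih (by omega)
      have h2 := hsup a (s j n) (s j (n + 1)) le_rfl (hsa j n) (hmono j n _ (Nat.le_succ n))
        (hsb j _ hn)
      linarith
  have hE : ∀ j, ∫⁻ γ, ENNReal.ofReal (M j γ) ∂μ ≤ ENNReal.ofReal (β a b) := by
    intro j
    have h1 : ∀ γ, ENNReal.ofReal (M j γ) =
        ∑ i ∈ Finset.range (2 ^ j), ENNReal.ofReal (‖X j i γ‖ ^ 2) := fun γ =>
      ENNReal.ofReal_sum_of_nonneg fun i _ => by positivity
    simp only [h1]
    rw [lintegral_finsetSum]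
    · calc ∑ i ∈ Finset.range (2 ^ j), ∫⁻ γ, ENNReal.ofReal (‖X j i γ‖ ^ 2) ∂μ
          ≤ ∑ i ∈ Finset.range (2 ^ j), ENNReal.ofReal (β (s j i) (s j (i + 1))) := by
            refine Finset.sum_le_sum fun i hi => ?_
            have hi' := Finset.mem_range.1 hi
            exact (hβ _ _ (hsa j i) (hmono j i _ (Nat.le_succ i)) (hsb j _ hi')).2
        _ = ENNReal.ofReal (∑ i ∈ Finset.range (2 ^ j), β (s j i) (s j (i + 1))) := by
            rw [ENNReal.ofReal_sum_of_nonneg]
            intro i hi
            have hi' := Finset.mem_range.1 hi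
            exact (hβ _ _ (hsa j i) (hmono j i _ (Nat.le_succ i)) (hsb j _ hi')).1
        _ ≤ ENNReal.ofReal (β a b) := by
            apply ENNReal.ofReal_le_ofReal
            have := htel j (2 ^ j) le_rfl
            rwa [hs1] at this
    · intro i _
      exact ((hcont _ _).norm.pow 2).measurable.ennreal_ofReal
  have hlam2 : ENNReal.ofReal (lam ^ 2) ≠ 0 := by
    simp only [ne_eq, ENNReal.ofReal_eq_zero, not_le]
    positivity
  have hmeas : ∀ j, μ {γ | lam ^ 2 < M j γ} ≤ ENNReal.ofReal (β a b / lam ^ 2) := by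
    intro j
    have hm : Measurable fun γ => ENNReal.ofReal (M j γ) := by
      apply Measurable.ennreal_ofReal
      refine Finset.measurable_sum _ fun i _ => ?_
      exact ((hcont _ _).norm.pow 2).measurable
    calc μ {γ | lam ^ 2 < M j γ} ≤ μ {γ | ENNReal.ofReal (lam ^ 2) ≤ ENNReal.ofReal (M j γ)} :=
          measure_mono fun γ hγ => ENNReal.ofReal_le_ofReal (le_of_lt hγ)
      _ ≤ (∫⁻ γ, ENNReal.ofReal (M j γ) ∂μ) / ENNReal.ofReal (lam ^ 2) :=
          meas_ge_le_lintegral_div hm.aemeasurable hlam2 ENNReal.ofReal_ne_top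
      _ ≤ ENNReal.ofReal (β a b) / ENNReal.ofReal (lam ^ 2) :=
          ENNReal.div_le_div_right (hE j) _
      _ = _ := (ENNReal.ofReal_div_of_pos (by positivity)).symm
  calc μ {γ | ∃ i : ℕ, i ≤ 2 ^ J ∧ (J + 1) * lam <
        ‖∫ t in a..(a + i * ((b - a) / 2 ^ J)), g γ t‖}
      ≤ μ (⋃ j ∈ Finset.range (J + 1), {γ | lam ^ 2 < M j γ}) := by
        apply measure_mono
        rintro γ ⟨i, hi, hγ⟩
        simp only [Set.mem_iUnion, Finset.mem_range, Set.mem_setOf_eq]
        by_contra hcon
        push Not at hcon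
        have := hchain J γ (fun l hl => hcon l (Nat.lt_succ_of_le hl)) i hi
        exact absurd hγ (not_lt.2 this)
    _ ≤ ∑ j ∈ Finset.range (J + 1), μ {γ | lam ^ 2 < M j γ} := measure_biUnion_finset_le _ _
    _ ≤ ∑ _j ∈ Finset.range (J + 1), ENNReal.ofReal (β a b / lam ^ 2) :=
        Finset.sum_le_sum fun j _ => hmeas j
    _ = ENNReal.ofReal ((J + 1) * β a b / lam ^ 2) := by
        rw [Finset.sum_const, Finset.card_range, nsmul_eq_mul, mul_div_assoc,
          ENNReal.ofReal_mul (by positivity)]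
        congr 1
        rw [← Nat.cast_succ, ENNReal.ofReal_natCast]

end

end Pool.Agent.Z72.SH
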