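import Mathlib
import Pool.Agent.Z72.SH.Stm0
import Pool.Agent.W347.EH.KT
import Pool.Agent.W903.EH.BK

/-!
# The exponential sums with phase `t log (1 + h / n)` (helper55 for helper72)
-/

set_option autoImplicit false

namespace Pool.Agent.Z72.SH

namespace EsAux

open Complex Finset
open Pool.Agent.Helper153.Vdc (ee dd Cond)
open Pool.Agent.H442R2.EHI (EL EL_bounds SL SL_le)
open Pool.Agent.W186.EH (VB)
open Pool.Agent.W903.EH (dd_EL)

theorem eph_eq (t : ℝ) (h n : ℕ) (hn : 1 ≤ n) :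
    eph t h n = ee (t / (2 * Real.pi) * EL [h] (n : ℝ)) := by
  have hn0 : (0 : ℝ) < n := by exact_mod_cast hn
  have h1 : Real.log (1 + (h : ℝ) / n) = EL [h] (n : ℝ) := by
    simp only [EL]
    rw [← Real.log_div (by positivity) hn0.ne']
    congr 1
    field_simp
  unfold eph ee
  rw [h1]
  congr 1
  have hpi : ((Real.pi : ℝ) : ℂ) ≠ 0 := by exact_mod_cast Real.pi_ne_zero
  push_cast
  field_simp

theorem e_eq_ee (x : ℝ) : Pool.Agent.H469R2.NK.e x = ee x := by
  unfold Pool.Agent.H469R2.NK.e ee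
  push_cast
  rfl

/-- the condition of the second derivative test for the reversed phase. -/
theorem cond_h {Z : ℝ} (hZ : 0 < Z) {N M h : ℕ} (hN : 1 ≤ N) (hh : h ≤ N) (hM : M ≤ N) :
    Cond 2 (fun n : ℕ => Z * EL [h] (((N : ℝ) + M - 1) - n)) M
      (Z * (2 / (3 * (N : ℝ)) ^ 3 * h)) 27 := by
  have hN0 : (0 : ℝ) < N := by exact_mod_cast hN
  have hh' : (h : ℝ) ≤ N := by exact_mod_cast hh
  have hM' : (M : ℝ) ≤ N := by exact_mod_cast hM
  refine ⟨fun n hn => ?_, fun n hn => ?_⟩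
  · rw [dd_EL 2]
    have hn' : (n : ℝ) + 3 ≤ M := by exact_mod_cast hn
    have hn0 : (0 : ℝ) ≤ n := Nat.cast_nonneg n
    have hb := EL_bounds 1 [1, h] (N := (N : ℝ)) (x := ((N : ℝ) + M - 1) - n - (2 : ℕ)) hN0
      (by push_cast; linarith) (by
        simp only [List.sum_cons, List.sum_nil]
        push_cast
        linarith)
    simp only [List.length_cons, List.length_nil, List.prod_cons, List.prod_nil, mul_one,
      one_mul] at hb
    have e1 : List.replicate 2 1 ++ [h] = [1, 1, h] := rfl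
    rw [e1]
    norm_num at hb ⊢
    have e2 : (N : ℝ) + M - 1 - n - 2 = N + M - 1 - n - 2 := rfl
    constructor
    · exact mul_le_mul_of_nonneg_left hb.1 hZ.le
    · have h2 := mul_le_mul_of_nonneg_left hb.2 hZ.le
      refine h2.trans (le_of_eq ?_)
      field_simp
      norm_num
  · rw [dd_EL 3]
    have hn' : (n : ℝ) + 4 ≤ M := by exact_mod_cast hn
    have hn0 : (0 : ℝ) ≤ n := Nat.cast_nonneg n
    have hb := EL_bounds 1 [1, 1, h] (N := (N : ℝ)) (x := ((N : ℝ) + M - 1) - n - (3 : ℕ)) hN0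
      (by push_cast; linarith) (by
        simp only [List.sum_cons, List.sum_nil]
        push_cast
        linarith)
    have hb1 := hb.1
    simp only [List.length_cons, List.length_nil, List.prod_cons, List.prod_nil, mul_one,
      one_mul] at hb1
    have e1 : List.replicate 3 1 ++ [h] = [1, 1, 1, h] := rfl
    rw [e1]
    have h0 : 0 ≤ (-1 : ℝ) ^ (0 + 1 + 1 + 1) * EL [1, 1, 1, h] (((N : ℝ) + M - 1) - n - (3 : ℕ)) :=
      le_trans (by positivity) hb1
    have h3 := mul_nonneg hZ.le h0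
    have e3 : Z * ((-1 : ℝ) ^ (0 + 1 + 1 + 1) * EL [1, 1, 1, h] (((N : ℝ) + M - 1) - n - (3 : ℕ))) =
        Z * (-1) ^ 3 * EL [1, 1, 1, h] (((N : ℝ) + M - 1) - n - (3 : ℕ)) := by ring
    rw [e3] at h3
    exact h3

theorem sum_reflect (t : ℝ) (h N M : ℕ) (hN : 1 ≤ N) :
    ∑ n ∈ range M, eph t h (N + n) =
      ∑ n ∈ range M, ee (t / (2 * Real.pi) * EL [h] (((N : ℝ) + M - 1) - n)) := by
  rw [← Finset.sum_range_reflect]
  refine Finset.sum_congr rfl fun n hn => ?_
  have hn' := Finset.mem_range.1 hn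
  rw [eph_eq t h _ (by omega)]
  congr 3
  have : ((N + (M - 1 - n) : ℕ) : ℝ) = (N : ℝ) + M - 1 - n := by
    have e : N + (M - 1 - n) + 1 + n = N + M := by omega
    have e' : ((N + (M - 1 - n) : ℕ) : ℝ) + 1 + n = (N : ℝ) + M := by exact_mod_cast e
    linarith
  exact this

end EsAux

open EsAux Finset
open Pool.Agent.H442R2.EHI (EL EL_bounds SL SL_le)
open Pool.Agent.W186.EH (VB)

theorem t_ES : S_ES := by
  intro ε hε
  obtain ⟨C, hC, hbase⟩ := Pool.Agent.W347.EH.base 27 (by norm_num) ε hε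
  refine ⟨max (C * (27 * Real.pi)) (36 * Real.pi), by positivity, ?_⟩
  intro t h N M ht hh hhN hMN
  have hN : 1 ≤ N := hh.trans hhN
  have hN1 : (1 : ℝ) ≤ N := by exact_mod_cast hN
  have hN0 : (0 : ℝ) < N := by linarith
  have hh0 : (0 : ℝ) < h := by exact_mod_cast hh
  have hpi := Real.pi_pos
  have ht0 : (0 : ℝ) < t := by linarith
  have hZ : 0 < t / (2 * Real.pi) := by positivity
  constructor
  · set lam := t / (2 * Real.pi) * (2 / (3 * (N : ℝ)) ^ 3 * h) with hlam
    have hlam0 : 0 < lam := by positivity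
    have h1 := hbase N M (fun n : ℕ => t / (2 * Real.pi) * EL [h] (((N : ℝ) + M - 1) - n)) lam hN hMN
      hlam0 (cond_h hZ hN hhN hMN)
    rw [← sum_reflect t h N M hN] at h1
    have hlam2 : lam = (1 / (27 * Real.pi)) * (t * h / N ^ 3) := by
      rw [hlam]
      field_simp
      norm_num
    have h27 : (1 : ℝ) ≤ 27 * Real.pi := by
      have := Real.pi_gt_three
      linarith
    have hVB : VB 2 N lam = N * lam ^ ((1 : ℝ) / 2) + lam ^ (-((1 : ℝ) / 2)) := by
      unfold VB
      norm_num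
    have hA : (N : ℝ) * lam ^ ((1 : ℝ) / 2) ≤ (27 * Real.pi) * (t * h / N) ^ ((1 : ℝ) / 2) := by
      have e1 : (N : ℝ) = ((N : ℝ) ^ 2) ^ ((1 : ℝ) / 2) := by
        rw [← Real.sqrt_eq_rpow, Real.sqrt_sq hN0.le]
      have e2 : (N : ℝ) * lam ^ ((1 : ℝ) / 2) = ((N : ℝ) ^ 2 * lam) ^ ((1 : ℝ) / 2) := by
        rw [Real.mul_rpow (by positivity) hlam0.le, ← e1]
      have e3 : (N : ℝ) ^ 2 * lam = (1 / (27 * Real.pi)) * (t * h / N) := by
        rw [hlam2]
        field_simp
      rw [e2, e3]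
      have h2 : (1 / (27 * Real.pi)) * (t * h / N) ≤ t * h / N := by
        have h4 : 1 / (27 * Real.pi) ≤ 1 := by
          rw [div_le_one (by positivity)]
          exact h27
        have h5 : 0 ≤ t * h / N := by positivity
        nlinarith
      have h3 : ((1 / (27 * Real.pi)) * (t * h / N)) ^ ((1 : ℝ) / 2) ≤ (t * h / N) ^ ((1 : ℝ) / 2) :=
        Real.rpow_le_rpow (by positivity) h2 (by norm_num)
      have h6 : 0 ≤ (t * h / N) ^ ((1 : ℝ) / 2) := by positivity
      nlinarith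
    have hB : lam ^ (-((1 : ℝ) / 2)) ≤ (27 * Real.pi) * ((N : ℝ) ^ 3 / (t * h)) ^ ((1 : ℝ) / 2) := by
      rw [Real.rpow_neg hlam0.le, ← Real.inv_rpow hlam0.le]
      have e3 : lam⁻¹ = (27 * Real.pi) * ((N : ℝ) ^ 3 / (t * h)) := by
        rw [hlam2]
        field_simp
      rw [e3, Real.mul_rpow (by positivity) (by positivity)]
      have h3 : (27 * Real.pi) ^ ((1 : ℝ) / 2) ≤ 27 * Real.pi := by
        have := Real.rpow_le_rpow_of_exponent_le h27 (show (1 : ℝ) / 2 ≤ 1 by norm_num)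
        rwa [Real.rpow_one] at this
      have h6 : 0 ≤ ((N : ℝ) ^ 3 / (t * h)) ^ ((1 : ℝ) / 2) := by positivity
      exact mul_le_mul_of_nonneg_right h3 h6
    refine h1.trans ?_
    rw [hVB]
    have hNe : 0 < (N : ℝ) ^ ε := by positivity
    have hX : 0 ≤ (t * h / N) ^ ((1 : ℝ) / 2) + ((N : ℝ) ^ 3 / (t * h)) ^ ((1 : ℝ) / 2) := by
      positivity
    calc C * (N : ℝ) ^ ε * (N * lam ^ ((1 : ℝ) / 2) + lam ^ (-((1 : ℝ) / 2)))
        ≤ C * (N : ℝ) ^ ε * ((27 * Real.pi) * (t * h / N) ^ ((1 : ℝ) / 2) +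
            (27 * Real.pi) * ((N : ℝ) ^ 3 / (t * h)) ^ ((1 : ℝ) / 2)) := by
          gcongr
      _ = (C * (27 * Real.pi)) * (N : ℝ) ^ ε * ((t * h / N) ^ ((1 : ℝ) / 2) +
            ((N : ℝ) ^ 3 / (t * h)) ^ ((1 : ℝ) / 2)) := by ring
      _ ≤ _ := by
          gcongr
          exact le_max_left _ _
  · intro hth
    have hSL : SL (t / (2 * Real.pi)) (N : ℝ) (M + h) [h] = ∑ n ∈ range M, eph t h (N + n) := by
      unfold SL
      simp only [List.sum_cons, List.sum_nil, add_zero, Nat.add_sub_cancel]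
      refine Finset.sum_congr rfl fun n _ => ?_
      rw [eph_eq t h _ (by omega), e_eq_ee]
      push_cast
      rfl
    have hb := SL_le (t / (2 * Real.pi)) hZ N (N : ℝ) (M + h) hN le_rfl (by
      have h1 : (h : ℝ) ≤ N := by exact_mod_cast hhN
      have h2 : (M : ℝ) ≤ N := by exact_mod_cast hMN
      push_cast
      linarith) [h] (by simp only [List.prod_cons, List.prod_nil, mul_one]; omega) (by
        simp only [List.length_cons, List.length_nil, List.prod_cons, List.prod_nil, mul_one]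
        norm_num
        have h3 : (3 : ℝ) < Real.pi := Real.pi_gt_three
        have e1 : 2 * (t / (2 * Real.pi) * (((N : ℝ) ^ 2)⁻¹ * h)) = (t * h / N ^ 2) / Real.pi := by
          field_simp
        rw [e1, div_le_one hpi, div_le_iff₀ (by positivity)]
        nlinarith [sq_nonneg (N : ℝ)])
    rw [hSL] at hb
    refine hb.trans ?_
    simp only [List.length_cons, List.length_nil, List.prod_cons, List.prod_nil, mul_one]
    norm_num
    have e1 : 2 * (3 * (N : ℝ)) ^ 2 / (t / (2 * Real.pi) * h) =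
        (36 * Real.pi) * ((N : ℝ) ^ 2 / (t * h)) := by
      field_simp
      ring
    rw [e1]
    have h5 : 0 ≤ (N : ℝ) ^ 2 / (t * h) := by positivity
    exact mul_le_mul_of_nonneg_right (le_max_right _ _) h5

end Pool.Agent.Z72.SH
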