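import Pool.Agent.Z72.SH.Fin

/-!
FIN3: as FIN, with the separation of the good shift vectors.
-/

set_option autoImplicit false

namespace Pool.Agent.Z72.SH

open Complex Filter Topology MeasureTheory Set
open Pool.Agent.TH612.GS (mP DD vol_cube)
open Pool.Agent.TH612.CF (Zg GG Qs)

variable {k : ℕ}

/-- FIN3: all points outside few unit cubes; these points are separated -/
def S_FIN3 : Prop := ∀ (k : ℕ) (κ : ℝ), 2 ≤ k → (2 * k - 3) / (6 * k - 6) < κ → ∃ δ T₀ : ℝ, 0 < δ ∧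
  ∀ T U : ℝ, T₀ ≤ T → T ^ κ ≤ U → U ≤ T → ∃ E : Finset (Fin k ⊕ Fin k → ℤ),
  (E.card : ℝ) ≤ U ^ (2 * k) * T ^ (-δ) ∧
  ∀ γ : Fin k ⊕ Fin k → ℝ, (∀ i, 0 ≤ γ i ∧ γ i ≤ U) → (fun i => ⌊γ i⌋) ∉ E →
    (∀ p q, p ≠ q → 4 ≤ |γ p - γ q|) ∧ ∀ S : ℝ, 0 ≤ S → S ≤ T → ‖DD S γ‖ ≤ T ^ (1 - δ)

open FinC in
theorem t_FIN3 (hMU : S_MU) (hR2 : S_R2) (hR3 : S_R3) : S_FIN3 := by
  classical
  intro k κ hk hκ
  have hk' : (2 : ℝ) ≤ k := by exact_mod_cast hk
  have hκ0 : 0 < κ := by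
    have h1 : (0 : ℝ) ≤ (2 * k - 3) / (6 * k - 6) := div_nonneg (by linarith) (by linarith)
    linarith
  obtain ⟨δ, T₁, hδ, H1⟩ := hMU k κ hk hκ
  obtain ⟨C3, A, hC3, H3⟩ := hR3 k
  set δ₁ : ℝ := min δ (1 / 2) with hδ₁
  have hδ₁0 : 0 < δ₁ := lt_min hδ (by norm_num)
  have hδ₁δ : δ₁ ≤ δ := min_le_left _ _
  have hδ₁h : δ₁ ≤ 1 / 2 := min_le_right _ _
  set θ : ℝ := δ₁ / (4 * (A + 1)) with hθ
  have hθ0 : 0 < θ := by positivity
  have hθA : (A + 1) * θ = δ₁ / 4 := by rw [hθ]; field_simp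
  have hθ1 : θ < 1 := by
    have h1 : θ ≤ (A + 1) * θ := by
      have : (0 : ℝ) ≤ A := Nat.cast_nonneg _
      nlinarith
    linarith
  obtain ⟨r, C, hr, hr2, hC, HP⟩ := hR2 (2 * k) θ hθ0 hθ1
  set c : ℝ := (r / 20) ^ (2 * k) with hc
  have hc0 : 0 < c := by positivity
  set δ₂ : ℝ := min κ δ₁ / 2 with hδ₂
  have hδ₂0 : 0 < δ₂ := by have := lt_min hκ0 hδ₁0; rw [hδ₂]; linarith
  have hδ₂κ : 2 * δ₂ ≤ κ := by have := min_le_left κ δ₁; rw [hδ₂]; linarith
  have hδ₂δ : 2 * δ₂ ≤ δ₁ := by have := min_le_right κ δ₁; rw [hδ₂]; linarith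
  set K₁ : ℝ := (3 * (2 * k) + 9 * (2 * k) * (2 * k)) * 2 ^ (2 * k) + 4 ^ (2 * k) / c with hK₁
  set K : ℝ := max K₁ (C * (C3 + 1)) with hK
  obtain ⟨T₂, hT₂⟩ := Filter.eventually_atTop.1
    ((tendsto_rpow_atTop (by linarith : 0 < δ₂ / 2)).eventually_ge_atTop K)
  refine ⟨δ₂, max (max T₁ T₂) 3, hδ₂0, fun T U hT hU1 hU2 => ?_⟩
  have hTT1 : T₁ ≤ T := (le_max_left _ _).trans ((le_max_left _ _).trans hT)
  have hTT2 : T₂ ≤ T := (le_max_right _ _).trans ((le_max_left _ _).trans hT)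
  have hT3 : 3 ≤ T := (le_max_right _ _).trans hT
  have hT0 : 0 < T := by linarith
  have hT1 : 1 ≤ T := by linarith
  have hKT := hT₂ T hTT2
  have hU1' : 1 ≤ U := (Real.one_le_rpow hT1 hκ0.le).trans hU1
  have hU0 : 0 < U := by linarith
  set m₀ : ℝ := T ^ (1 - δ₁) with hm₀
  have hm₀0 : 0 < m₀ := by positivity
  set Bad := BadU k T U m₀ with hBad
  have hBadv : volume Bad ≤ ENNReal.ofReal (U ^ (2 * k) * T ^ (-δ₁)) := by
    have h1 : Bad ⊆ BadU k T U (T ^ (1 - δ)) := by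
      rintro γ ⟨h1, S, h2, h3, h4⟩
      refine ⟨h1, S, h2, h3, lt_of_le_of_lt ?_ h4⟩
      exact Real.rpow_le_rpow_of_exponent_le hT1 (by linarith)
    have h2 : volume Bad = mP (Fin k ⊕ Fin k) U Bad := vol_cube fun γ hγ => hγ.1
    rw [h2]
    refine (measure_mono h1).trans ((H1 T U hTT1 hU1 hU2).trans ?_)
    refine ENNReal.ofReal_le_ofReal (mul_le_mul_of_nonneg_left ?_ (by positivity))
    exact Real.rpow_le_rpow_of_exponent_le hT1 (by linarith)
  set H := toMeasurable volume Bad with hH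
  have hHm : MeasurableSet H := measurableSet_toMeasurable _ _
  have hHv : volume H ≤ ENNReal.ofReal (U ^ (2 * k) * T ^ (-δ₁)) := by
    rw [hH, measure_toMeasurable]; exact hBadv
  have hHB : Bad ⊆ H := subset_toMeasurable _ _
  set L : ℤ := ⌊U⌋ with hL
  have hL1 : 1 ≤ L := by rw [hL, Int.le_floor]; exact_mod_cast hU1'
  have hLU : (L : ℝ) ≤ U := Int.floor_le U
  set Ea := (bx (Fin k ⊕ Fin k) L).filter fun m => ∃ i, m i ∈ ({0, L - 1, L} : Finset ℤ) with hEa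
  set Eb := (bx (Fin k ⊕ Fin k) L).filter fun m => ∃ p q, p ≠ q ∧
    m p - m q ∈ Finset.Icc (-4 : ℤ) 4 with hEb
  set Ec := (bx (Fin k ⊕ Fin k) L).filter fun m => ENNReal.ofReal c ≤ volume (H ∩ Qb m) with hEc
  have hcard : Fintype.card (Fin k ⊕ Fin k) = 2 * k := by
    rw [Fintype.card_sum, Fintype.card_fin]; ring
  refine ⟨Ea ∪ Eb ∪ Ec, ?_, ?_⟩
  · -- counting
    have ha := card_a (ι := Fin k ⊕ Fin k) L (by omega) ({0, L - 1, L} : Finset ℤ)
    have hb := card_b (ι := Fin k ⊕ Fin k) L (by omega) (Finset.Icc (-4 : ℤ) 4)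
    have hcc := card_c H Ec c (U ^ (2 * k) * T ^ (-δ₁)) hc0 (by positivity) hHv
      (fun m hm => (Finset.mem_filter.1 hm).2)
    rw [hcard] at ha hb hcc
    have hV : ((({0, L - 1, L} : Finset ℤ)).card : ℝ) ≤ 3 := by
      exact_mod_cast Finset.card_le_three
    have hW : (((Finset.Icc (-4 : ℤ) 4)).card : ℝ) = 9 := by
      have h1 : (Finset.Icc (-4 : ℤ) 4).card = 9 := by decide
      rw [h1]; norm_num
    rw [hW] at hb
    have hpw : ((L : ℝ) + 1) ^ (2 * k - 1) ≤ 2 ^ (2 * k) * U ^ (2 * k) * T ^ (-κ) := by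
      have h1 : ((L : ℝ) + 1) ^ (2 * k - 1) ≤ (2 * U) ^ (2 * k - 1) := by
        have h2 : (0 : ℝ) ≤ L := by exact_mod_cast (by omega : (0 : ℤ) ≤ L)
        exact pow_le_pow_left₀ (by linarith) (by linarith) _
      have h2 : T ^ (-κ) * U ≥ 1 := by
        have h3 := mul_le_mul_of_nonneg_left hU1 (by positivity : 0 ≤ T ^ (-κ))
        rw [← Real.rpow_add hT0, neg_add_cancel, Real.rpow_zero] at h3
        exact h3
      have h3 : (2 * U) ^ (2 * k) = (2 * U) ^ (2 * k - 1) * (2 * U) := by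
        rw [← pow_succ]; congr 1; omega
      have h4 : 0 ≤ (2 * U) ^ (2 * k - 1) := by positivity
      calc ((L : ℝ) + 1) ^ (2 * k - 1) ≤ (2 * U) ^ (2 * k - 1) := h1
        _ ≤ (2 * U) ^ (2 * k - 1) * (2 * (T ^ (-κ) * U)) := by
            nlinarith
        _ = (2 * U) ^ (2 * k) * T ^ (-κ) := by rw [h3]; ring
        _ = _ := by rw [mul_pow]
    have hT2 : T ^ (-κ) ≤ T ^ (-(2 * δ₂)) :=
      Real.rpow_le_rpow_of_exponent_le hT1 (by linarith)
    have hT3' : T ^ (-δ₁) ≤ T ^ (-(2 * δ₂)) :=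
      Real.rpow_le_rpow_of_exponent_le hT1 (by linarith)
    have hpw0 : (0 : ℝ) ≤ ((L : ℝ) + 1) ^ (2 * k - 1) := by
      have : (0 : ℝ) ≤ L := by exact_mod_cast (by omega : (0 : ℤ) ≤ L)
      positivity
    have hpw2 : ((L : ℝ) + 1) ^ (2 * k - 1) ≤ 2 ^ (2 * k) * U ^ (2 * k) * T ^ (-(2 * δ₂)) :=
      hpw.trans (mul_le_mul_of_nonneg_left hT2 (by positivity))
    have h1 : (((Ea ∪ Eb ∪ Ec).card : ℕ) : ℝ) ≤ Ea.card + Eb.card + Ec.card := by
      have h2 := Finset.card_union_le (Ea ∪ Eb) Ec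
      have h3 := Finset.card_union_le Ea Eb
      have h4 : (Ea ∪ Eb ∪ Ec).card ≤ Ea.card + Eb.card + Ec.card := by omega
      exact_mod_cast h4
    have h2 : (Ea.card : ℝ) ≤ 3 * (2 * k) * (2 ^ (2 * k) * U ^ (2 * k) * T ^ (-(2 * δ₂))) := by
      refine ha.trans ?_
      push_cast
      have h5 : (2 * (k : ℝ)) * ((({0, L - 1, L} : Finset ℤ)).card : ℝ) ≤ 3 * (2 * k) := by
        nlinarith
      exact mul_le_mul h5 hpw2 hpw0 (by positivity)
    have h3 : (Eb.card : ℝ) ≤ 9 * (2 * k) * (2 * k) *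
        (2 ^ (2 * k) * U ^ (2 * k) * T ^ (-(2 * δ₂))) := by
      refine hb.trans ?_
      push_cast
      have h5 : (2 * (k : ℝ)) * (2 * k) * 9 ≤ 9 * (2 * k) * (2 * k) := by
        apply le_of_eq; ring
      exact mul_le_mul h5 hpw2 hpw0 (by positivity)
    have h4 : (Ec.card : ℝ) ≤ 4 ^ (2 * k) / c * (U ^ (2 * k) * T ^ (-(2 * δ₂))) := by
      refine hcc.trans ?_
      rw [mul_div_right_comm]
      refine mul_le_mul_of_nonneg_left ?_ (by positivity)
      exact mul_le_mul_of_nonneg_left hT3' (by positivity)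
    have h5 : (((Ea ∪ Eb ∪ Ec).card : ℕ) : ℝ) ≤ K₁ * (U ^ (2 * k) * T ^ (-(2 * δ₂))) := by
      refine h1.trans ((add_le_add (add_le_add h2 h3) h4).trans (le_of_eq ?_))
      rw [hK₁]; ring
    have h6 : K₁ ≤ T ^ δ₂ := by
      refine (le_max_left K₁ (C * (C3 + 1))).trans (hKT.trans ?_)
      exact Real.rpow_le_rpow_of_exponent_le hT1 (by linarith)
    calc (((Ea ∪ Eb ∪ Ec).card : ℕ) : ℝ) ≤ K₁ * (U ^ (2 * k) * T ^ (-(2 * δ₂))) := h5
      _ ≤ T ^ δ₂ * (U ^ (2 * k) * T ^ (-(2 * δ₂))) :=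
          mul_le_mul_of_nonneg_right h6 (by positivity)
      _ = U ^ (2 * k) * (T ^ δ₂ * T ^ (-(2 * δ₂))) := by ring
      _ = U ^ (2 * k) * T ^ (-δ₂) := by
          rw [← Real.rpow_add hT0]; congr 2; ring
  · intro γ hγ hγE
    set mm : Fin k ⊕ Fin k → ℤ := fun i => ⌊γ i⌋ with hmm
    have hmem : mm ∈ bx (Fin k ⊕ Fin k) L := by
      refine Fintype.mem_piFinset.2 fun i => Finset.mem_Icc.2 ⟨Int.floor_nonneg.2 (hγ i).1, ?_⟩
      exact Int.floor_le_floor (hγ i).2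
    have hna : ∀ i, mm i ∉ ({0, L - 1, L} : Finset ℤ) := by
      intro i hi
      apply hγE
      exact Finset.mem_union_left _ (Finset.mem_union_left _ (Finset.mem_filter.2 ⟨hmem, i, hi⟩))
    have hnb : ∀ p q, p ≠ q → mm p - mm q ∉ Finset.Icc (-4 : ℤ) 4 := by
      intro p q hpq hi
      apply hγE
      exact Finset.mem_union_left _ (Finset.mem_union_right _
        (Finset.mem_filter.2 ⟨hmem, p, q, hpq, hi⟩))
    have hnc : volume (H ∩ Qb mm) < ENNReal.ofReal c := by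
      by_contra hcon
      push Not at hcon
      apply hγE
      exact Finset.mem_union_right _ (Finset.mem_filter.2 ⟨hmem, hcon⟩)
    have hsep4 : ∀ p q, p ≠ q → 4 ≤ |γ p - γ q| := by
      intro p q hpq
      have h2 := hnb p q hpq
      rw [Finset.mem_Icc] at h2
      have a1 : ((mm p : ℤ) : ℝ) ≤ γ p := Int.floor_le _
      have a2 : γ p < ((mm p : ℤ) : ℝ) + 1 := Int.lt_floor_add_one _
      have b1 : ((mm q : ℤ) : ℝ) ≤ γ q := Int.floor_le _
      have b2 : γ q < ((mm q : ℤ) : ℝ) + 1 := Int.lt_floor_add_one _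
      have h3 : 5 ≤ mm p - mm q ∨ 5 ≤ mm q - mm p := by omega
      rcases h3 with h3 | h3
      · have h4 : (5 : ℝ) ≤ (mm p : ℝ) - mm q := by exact_mod_cast h3
        exact le_trans (by linarith) (le_abs_self _)
      · have h4 : (5 : ℝ) ≤ (mm q : ℝ) - mm p := by exact_mod_cast h3
        exact le_trans (by linarith) (neg_le_abs _)
    refine ⟨hsep4, fun S hS0 hST => ?_⟩
    have hM1 : m₀ ≤ (C3 + 1) * T ^ (A + 1) := by
      have h1 : m₀ ≤ T ^ (1 : ℝ) := Real.rpow_le_rpow_of_exponent_le hT1 (by linarith)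
      rw [Real.rpow_one] at h1
      have h2 : T ≤ T ^ (A + 1) := by
        calc T = T ^ 1 := (pow_one T).symm
          _ ≤ T ^ (A + 1) := pow_le_pow_right₀ hT1 (by omega)
      have h3 : 0 < T ^ (A + 1) := by positivity
      nlinarith
    have h1 := fin_core (k := k) hr hr2 HP ((C3 + 1) * T ^ (A + 1)) m₀ T U S hT3 hU2 hm₀0 hM1
      (by
        intro c' a1 a2 a3
        obtain ⟨b1, b2⟩ := H3 T S c' hT3 hS0 hST a1 a2 a3
        refine ⟨b1.trans ?_, b2⟩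
        exact mul_le_mul (by linarith) (pow_le_pow_right₀ hT1 (by omega)) (by positivity)
          (by positivity))
      H hHm
      (by
        intro γ' h2 h3
        by_contra hcon
        push Not at hcon
        exact h3 (hHB ⟨h2, S, hS0, hST, hcon⟩))
      γ
      (by
        intro i
        have h2 := hna i
        simp only [Finset.mem_insert, Finset.mem_singleton, not_or] at h2
        have h3 := Finset.mem_Icc.1 (Fintype.mem_piFinset.1 hmem i)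
        have h4 : 1 ≤ mm i := by omega
        have h5 : mm i + 2 ≤ L := by omega
        have h6 : ((1 : ℤ) : ℝ) ≤ mm i := by exact_mod_cast h4
        have h7 : ((mm i : ℤ) : ℝ) + 2 ≤ L := by exact_mod_cast h5
        have h8 : ((mm i : ℤ) : ℝ) ≤ γ i := Int.floor_le _
        have h9 : γ i < ((mm i : ℤ) : ℝ) + 1 := Int.lt_floor_add_one _
        push_cast at h6
        constructor <;> linarith)
      hsep4
      hnc
    refine h1.trans ?_
    have hC1 : 1 ≤ C3 + 1 := by linarith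
    have h2 : ((C3 + 1) * T ^ (A + 1)) ^ θ ≤ (C3 + 1) * T ^ (δ₁ / 4) := by
      rw [Real.mul_rpow (by positivity) (by positivity)]
      have h3 : (T ^ (A + 1)) ^ θ = T ^ (δ₁ / 4) := by
        rw [← Real.rpow_natCast, ← Real.rpow_mul hT0.le, ← hθA]; push_cast; rfl
      rw [h3]
      refine mul_le_mul_of_nonneg_right ?_ (by positivity)
      calc (C3 + 1) ^ θ ≤ (C3 + 1) ^ (1 : ℝ) := Real.rpow_le_rpow_of_exponent_le hC1 hθ1.le
        _ = C3 + 1 := Real.rpow_one _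
    have h3 : m₀ ^ (1 - θ) ≤ T ^ (1 - δ₁) := by
      rw [hm₀, ← Real.rpow_mul hT0.le]
      apply Real.rpow_le_rpow_of_exponent_le hT1
      nlinarith
    have h4 : C * (C3 + 1) ≤ T ^ (δ₂ / 2) := (le_max_right _ _).trans hKT
    calc C * ((C3 + 1) * T ^ (A + 1)) ^ θ * m₀ ^ (1 - θ)
        ≤ C * ((C3 + 1) * T ^ (δ₁ / 4)) * T ^ (1 - δ₁) := by
          refine mul_le_mul (mul_le_mul_of_nonneg_left h2 hC.le) h3 (by positivity)
            (by positivity)
      _ = C * (C3 + 1) * (T ^ (δ₁ / 4) * T ^ (1 - δ₁)) := by ring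
      _ ≤ T ^ (δ₂ / 2) * (T ^ (δ₁ / 4) * T ^ (1 - δ₁)) :=
          mul_le_mul_of_nonneg_right h4 (by positivity)
      _ = T ^ (δ₂ / 2 + (δ₁ / 4 + (1 - δ₁))) := by
          rw [← Real.rpow_add hT0, ← Real.rpow_add hT0]
      _ ≤ T ^ (1 - δ₂) := by
          apply Real.rpow_le_rpow_of_exponent_le hT1
          linarith

end Pool.Agent.Z72.SH
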