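import Pool.Agent.Z72.SH.Stm0

/-!
# GM: the Gaussian mean value of a Dirichlet polynomial
-/

set_option autoImplicit false
set_option linter.all false

open Complex Filter Topology MeasureTheory Set

namespace Pool.Agent.Z72.SH.Gm

/-- sums over pairs, by the difference -/
theorem sum_pairs {E : Type} [AddCommMonoid E] (F : ℕ → ℕ → E) (X : ℕ) :
    ∑ m ∈ Finset.Icc 1 X, ∑ n ∈ Finset.Icc 1 X, F m n = ∑ n ∈ Finset.Icc 1 X, F n n +
      (∑ h ∈ Finset.Icc 1 X, ∑ n ∈ Finset.Icc 1 (X - h), F (n + h) n +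
      ∑ h ∈ Finset.Icc 1 X, ∑ n ∈ Finset.Icc 1 (X - h), F n (n + h)) := by
  classical
  rw [← Finset.sum_product', ← Finset.sum_filter_add_sum_filter_not _ (fun p : ℕ × ℕ => p.1 = p.2)]
  congr 1
  · refine Finset.sum_nbij' (fun p => p.1) (fun n => (n, n)) ?_ ?_ ?_ ?_ ?_
    · intro p hp
      rw [Finset.mem_filter, Finset.mem_product] at hp
      exact hp.1.1
    · intro n hn
      rw [Finset.mem_filter, Finset.mem_product]
      exact ⟨⟨hn, hn⟩, rfl⟩
    · intro p hp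
      rw [Finset.mem_filter] at hp
      exact Prod.ext rfl hp.2
    · intro n _
      rfl
    · intro p hp
      rw [Finset.mem_filter] at hp
      show F p.1 p.2 = F p.1 p.1
      rw [← hp.2]
  · rw [← Finset.sum_filter_add_sum_filter_not _ (fun p : ℕ × ℕ => p.2 < p.1), Finset.sum_sigma',
      Finset.sum_sigma']
    congr 1
    · refine Finset.sum_nbij' (fun p => (⟨p.1 - p.2, p.2⟩ : Σ _ : ℕ, ℕ)) (fun s => (s.2 + s.1, s.2))
        ?_ ?_ ?_ ?_ ?_
      · rintro ⟨m, n⟩ hp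
        simp only [Finset.mem_filter, Finset.mem_product, Finset.mem_Icc, Finset.mem_sigma] at hp ⊢
        omega
      · rintro ⟨h, n⟩ hp
        simp only [Finset.mem_filter, Finset.mem_product, Finset.mem_Icc, Finset.mem_sigma] at hp ⊢
        omega
      · rintro ⟨m, n⟩ hp
        simp only [Finset.mem_filter, Finset.mem_product, Finset.mem_Icc] at hp
        refine Prod.ext ?_ rfl
        show n + (m - n) = m
        omega
      · rintro ⟨h, n⟩ hp
        simp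
      · rintro ⟨m, n⟩ hp
        simp only [Finset.mem_filter, Finset.mem_product, Finset.mem_Icc] at hp
        show F m n = F (n + (m - n)) n
        rw [Nat.add_sub_cancel' hp.2.le]
    · refine Finset.sum_nbij' (fun p => (⟨p.2 - p.1, p.1⟩ : Σ _ : ℕ, ℕ)) (fun s => (s.2, s.2 + s.1))
        ?_ ?_ ?_ ?_ ?_
      · rintro ⟨m, n⟩ hp
        simp only [Finset.mem_filter, Finset.mem_product, Finset.mem_Icc, Finset.mem_sigma] at hp ⊢
        omega
      · rintro ⟨h, n⟩ hp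
        simp only [Finset.mem_filter, Finset.mem_product, Finset.mem_Icc, Finset.mem_sigma] at hp ⊢
        omega
      · rintro ⟨m, n⟩ hp
        simp only [Finset.mem_filter, Finset.mem_product, Finset.mem_Icc] at hp
        refine Prod.ext rfl ?_
        show m + (n - m) = n
        omega
      · rintro ⟨h, n⟩ hp
        simp
      · rintro ⟨m, n⟩ hp
        simp only [Finset.mem_filter, Finset.mem_product, Finset.mem_Icc] at hp
        show F m n = F m (m + (n - m))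
        rw [Nat.add_sub_cancel' (by omega)]

/-- the weight as a quadratic exponential -/
theorem quad_eq (t G lam : ℝ) (hG : 0 < G) (u : ℝ) :
    cexp ((-((u - t) / G) ^ 2 : ℝ) : ℂ) * cexp (-(I * (lam * u))) =
      cexp ((-(1 / (G : ℂ) ^ 2)) * (u : ℂ) ^ 2 + (2 * t / (G : ℂ) ^ 2 - I * lam) * u +
        (-(t : ℂ) ^ 2 / (G : ℂ) ^ 2)) := by
  have hG' : (G : ℂ) ≠ 0 := by exact_mod_cast hG.ne'
  rw [← Complex.exp_add]
  congr 1
  push_cast
  field_simp
  ring

theorem re_neg {G : ℝ} (hG : 0 < G) : (-(1 / (G : ℂ) ^ 2)).re < 0 := by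
  have : (-(1 / (G : ℂ) ^ 2)) = ((-(1 / G ^ 2) : ℝ) : ℂ) := by push_cast; rfl
  rw [this, Complex.ofReal_re]
  have : 0 < 1 / G ^ 2 := by positivity
  linarith

/-- the Fourier transform of the Gaussian -/
theorem gauss (t G lam : ℝ) (hG : 0 < G) :
    ∫ u : ℝ, cexp ((-((u - t) / G) ^ 2 : ℝ) : ℂ) * cexp (-(I * (lam * u))) =
      ((Real.sqrt Real.pi * G * Real.exp (-(G * lam) ^ 2 / 4) : ℝ) : ℂ) * cexp (-(I * (lam * t))) := by
  have hG' : (G : ℂ) ≠ 0 := by exact_mod_cast hG.ne'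
  simp_rw [quad_eq t G lam hG]
  rw [integral_cexp_quadratic (re_neg hG)]
  have e1 : (Real.pi : ℂ) / -(-(1 / (G : ℂ) ^ 2)) = (((Real.pi * G ^ 2 : ℝ)) : ℂ) := by
    push_cast
    field_simp
  have e2 : ((((Real.pi * G ^ 2 : ℝ)) : ℂ)) ^ (1 / 2 : ℂ) = ((Real.sqrt Real.pi * G : ℝ) : ℂ) := by
    have h1 : (1 / 2 : ℂ) = ((1 / 2 : ℝ) : ℂ) := by push_cast; rfl
    rw [h1, ← Complex.ofReal_cpow (by positivity), ← Real.sqrt_eq_rpow,
      Real.sqrt_mul Real.pi_pos.le, Real.sqrt_sq hG.le]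
  have e3 : -(t : ℂ) ^ 2 / (G : ℂ) ^ 2 - (2 * t / (G : ℂ) ^ 2 - I * lam) ^ 2 / (4 * (-(1 / (G : ℂ) ^ 2))) =
      ((-(G * lam) ^ 2 / 4 : ℝ) : ℂ) + (-(I * (lam * t))) := by
    push_cast
    field_simp
    ring_nf
    rw [Complex.I_sq]
    ring
  rw [e1, e2, e3, Complex.exp_add, ← Complex.ofReal_exp]
  push_cast
  ring

theorem integ (t G lam : ℝ) (hG : 0 < G) :
    Integrable fun u : ℝ => cexp ((-((u - t) / G) ^ 2 : ℝ) : ℂ) * cexp (-(I * (lam * u))) := by
  simp_rw [quad_eq t G lam hG]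
  exact integrable_cexp_quadratic' (re_neg hG) _ _

/-- the terms -/
theorem term_eq {n : ℕ} (hn : 1 ≤ n) (u : ℝ) : (n : ℂ) ^ (-(1 / 2 + I * (u : ℂ))) =
    (((n : ℝ) ^ (-(1 / 2) : ℝ) : ℝ) : ℂ) * cexp (-(I * (Real.log n * u))) := by
  have hn0 : (n : ℂ) ≠ 0 := by exact_mod_cast (by omega : n ≠ 0)
  have hn1 : (0 : ℝ) < n := by exact_mod_cast hn
  rw [Complex.cpow_def_of_ne_zero hn0, Real.rpow_def_of_pos hn1, ← Complex.natCast_log,
    Complex.ofReal_exp, ← Complex.exp_add]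
  congr 1
  push_cast
  ring

theorem conj_exp (x : ℝ) : (starRingEnd ℂ) (cexp (-(I * (x : ℂ)))) = cexp (I * (x : ℂ)) := by
  rw [← Complex.exp_conj, map_neg, map_mul, Complex.conj_I, Complex.conj_ofReal]
  congr 1
  ring

/-- the square of the Dirichlet polynomial -/
theorem sq_eq (X : ℕ) (u : ℝ) :
    ((‖∑ n ∈ Finset.Icc 1 X, (n : ℂ) ^ (-(1 / 2 + I * (u : ℂ)))‖ ^ 2 : ℝ) : ℂ) =
      ∑ m ∈ Finset.Icc 1 X, ∑ n ∈ Finset.Icc 1 X,
        (((m : ℝ) ^ (-(1 / 2) : ℝ) * (n : ℝ) ^ (-(1 / 2) : ℝ) : ℝ) : ℂ) *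
          cexp (-(I * ((Real.log m - Real.log n : ℝ) * u))) := by
  push_cast
  rw [← Complex.mul_conj', map_sum, Finset.sum_mul_sum]
  refine Finset.sum_congr rfl fun m hm => Finset.sum_congr rfl fun n hn => ?_
  rw [term_eq (Finset.mem_Icc.1 hm).1, term_eq (Finset.mem_Icc.1 hn).1, map_mul,
    Complex.conj_ofReal]
  have h1 := conj_exp (Real.log n * u)
  push_cast at h1
  rw [← Complex.natCast_log] at h1
  rw [h1, mul_mul_mul_comm, ← Complex.exp_add]
  congr 2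
  push_cast
  ring

theorem t_GM : S_GM := by
  classical
  refine ⟨2 * Real.exp 1 * Real.sqrt Real.pi, by positivity, ?_⟩
  intro X t G hX hG
  have hG0 : 0 < G := by linarith
  set PN : ℝ → ℂ := fun u => ∑ n ∈ Finset.Icc 1 X, (n : ℂ) ^ (-(1 / 2 + I * (u : ℂ))) with hPN
  set w : ℝ → ℝ := fun u => Real.exp (-((u - t) / G) ^ 2) with hw
  set F : ℕ → ℕ → ℂ := fun m n => (((m : ℝ) ^ (-(1 / 2) : ℝ) * (n : ℝ) ^ (-(1 / 2) : ℝ) : ℝ) : ℂ) *
    (((Real.sqrt Real.pi * G * Real.exp (-(G * (Real.log m - Real.log n)) ^ 2 / 4) : ℝ) : ℂ) *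
      cexp (-(I * (((Real.log m - Real.log n : ℝ) : ℂ) * t)))) with hF
  -- the weighted function
  have e1 : ∀ u : ℝ, ((w u * ‖PN u‖ ^ 2 : ℝ) : ℂ) = ∑ m ∈ Finset.Icc 1 X, ∑ n ∈ Finset.Icc 1 X,
      (((m : ℝ) ^ (-(1 / 2) : ℝ) * (n : ℝ) ^ (-(1 / 2) : ℝ) : ℝ) : ℂ) *
        (cexp ((-((u - t) / G) ^ 2 : ℝ) : ℂ) *
          cexp (-(I * (((Real.log m - Real.log n : ℝ) : ℂ) * u)))) := by
    intro u
    rw [Complex.ofReal_mul, sq_eq X u, Finset.mul_sum]
    refine Finset.sum_congr rfl fun m _ => ?_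
    rw [Finset.mul_sum]
    refine Finset.sum_congr rfl fun n _ => ?_
    rw [← Complex.ofReal_exp]
    ring
  have hint : ∀ m n : ℕ, Integrable fun u : ℝ =>
      (((m : ℝ) ^ (-(1 / 2) : ℝ) * (n : ℝ) ^ (-(1 / 2) : ℝ) : ℝ) : ℂ) *
        (cexp ((-((u - t) / G) ^ 2 : ℝ) : ℂ) *
          cexp (-(I * (((Real.log m - Real.log n : ℝ) : ℂ) * u)))) := fun m n =>
    (integ t G (Real.log m - Real.log n) hG0).const_mul _
  have i1 : Integrable fun u : ℝ => ((w u * ‖PN u‖ ^ 2 : ℝ) : ℂ) := by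
    simp_rw [e1]
    exact integrable_finset_sum _ fun m _ => integrable_finset_sum _ fun n _ => hint m n
  have i2 : Integrable fun u : ℝ => w u * ‖PN u‖ ^ 2 := by
    exact i1.re.congr (Eventually.of_forall fun u => Complex.ofReal_re _)
  have e2 : ((∫ u, w u * ‖PN u‖ ^ 2 : ℝ) : ℂ) = ∑ m ∈ Finset.Icc 1 X, ∑ n ∈ Finset.Icc 1 X,
      F m n := by
    rw [← integral_complex_ofReal]
    simp_rw [e1]
    rw [integral_finset_sum _ fun m _ => integrable_finset_sum _ fun n _ => hint m n]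
    refine Finset.sum_congr rfl fun m _ => ?_
    rw [integral_finset_sum _ fun n _ => hint m n]
    refine Finset.sum_congr rfl fun n _ => ?_
    rw [integral_const_mul, gauss t G _ hG0]
  -- from the interval to the weight
  have hwpos : ∀ u, 0 ≤ w u * ‖PN u‖ ^ 2 := fun u => by
    have := Real.exp_pos (-((u - t) / G) ^ 2)
    positivity
  have hcont : Continuous PN := by
    rw [hPN]
    refine continuous_finset_sum _ fun n hn => ?_
    have hn0 : (n : ℂ) ≠ 0 := by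
      have := (Finset.mem_Icc.1 hn).1
      exact_mod_cast (by omega : n ≠ 0)
    refine Continuous.const_cpow (by fun_prop) (Or.inl hn0)
  have s1 : ∫ u in t..(t + G), ‖PN u‖ ^ 2 ≤ Real.exp 1 * ∫ u, w u * ‖PN u‖ ^ 2 := by
    rw [intervalIntegral.integral_of_le (by linarith), ← integral_const_mul]
    refine le_trans (setIntegral_mono_on ?_ (i2.const_mul _).integrableOn measurableSet_Ioc ?_)
      (setIntegral_le_integral (i2.const_mul (Real.exp 1)) (Eventually.of_forall fun u =>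
        mul_nonneg (Real.exp_pos _).le (hwpos u)))
    · have : IntervalIntegrable (fun u => ‖PN u‖ ^ 2) volume t (t + G) :=
        (hcont.norm.pow 2).intervalIntegrable _ _
      exact (intervalIntegrable_iff_integrableOn_Ioc_of_le (by linarith)).1 this
    · intro u hu
      have h1 : ((u - t) / G) ^ 2 ≤ 1 := by
        have h2 : 0 ≤ (u - t) / G := div_nonneg (by linarith [hu.1]) hG0.le
        have h3 : (u - t) / G ≤ 1 := by
          rw [div_le_one hG0]
          linarith [hu.2]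
        nlinarith
      have h4 : 1 ≤ Real.exp 1 * w u := by
        rw [hw]
        show 1 ≤ Real.exp 1 * Real.exp (-((u - t) / G) ^ 2)
        rw [← Real.exp_add]
        exact Real.one_le_exp (by linarith)
      calc ‖PN u‖ ^ 2 = 1 * ‖PN u‖ ^ 2 := (one_mul _).symm
        _ ≤ (Real.exp 1 * w u) * ‖PN u‖ ^ 2 := by gcongr
        _ = _ := by ring
  -- the expansion
  have hK : 0 ≤ Real.sqrt Real.pi * G := by positivity
  have s2 : ∫ u, w u * ‖PN u‖ ^ 2 ≤ 2 * (Real.sqrt Real.pi * G) * (1 + Real.log X +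
      ∑ h ∈ Finset.Icc 1 X, ‖∑ n ∈ Finset.Icc 1 (X - h), (wg G h n : ℂ) * eph t h n‖) := by
    have h0 : ∫ u, w u * ‖PN u‖ ^ 2 ≤ ‖((∫ u, w u * ‖PN u‖ ^ 2 : ℝ) : ℂ)‖ := by
      rw [Complex.norm_real]
      exact Real.le_norm_self _
    refine h0.trans ?_
    rw [e2, sum_pairs]
    have d1 : ‖∑ n ∈ Finset.Icc 1 X, F n n‖ ≤ Real.sqrt Real.pi * G * (1 + Real.log X) := by
      have h1 : ∑ n ∈ Finset.Icc 1 X, F n n =
          ((Real.sqrt Real.pi * G * ((harmonic X : ℚ) : ℝ) : ℝ) : ℂ) := by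
        rw [harmonic_eq_sum_Icc]
        push_cast
        rw [Finset.mul_sum]
        refine Finset.sum_congr rfl fun n hn => ?_
        have hn1 : (0 : ℝ) < n := by exact_mod_cast (Finset.mem_Icc.1 hn).1
        have h2 : (n : ℝ) ^ (-(1 / 2) : ℝ) * (n : ℝ) ^ (-(1 / 2) : ℝ) = (n : ℝ)⁻¹ := by
          rw [← Real.rpow_add hn1]
          norm_num
          exact Real.rpow_neg_one _
        rw [hF]
        simp only [sub_self, mul_zero]
        rw [h2]
        norm_num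
        ring
      rw [h1, Complex.norm_real, Real.norm_of_nonneg]
      · exact mul_le_mul_of_nonneg_left (harmonic_le_one_add_log X) hK
      · have : (0 : ℝ) ≤ ((harmonic X : ℚ) : ℝ) := by
          rw [harmonic_eq_sum_Icc]
          push_cast
          positivity
        positivity
    have hlog : ∀ h n : ℕ, 1 ≤ n → Real.log ((n + h : ℕ) : ℝ) - Real.log n =
        Real.log (1 + (h : ℝ) / n) := by
      intro h n hn
      have hn1 : (0 : ℝ) < n := by exact_mod_cast hn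
      rw [← Real.log_div (by positivity) hn1.ne']
      congr 1
      push_cast
      field_simp
    have hwt : ∀ h n : ℕ, ((n + h : ℕ) : ℝ) ^ (-(1 / 2) : ℝ) * (n : ℝ) ^ (-(1 / 2) : ℝ) =
        ((n : ℝ) * ((n : ℝ) + h)) ^ (-(1 / 2) : ℝ) := by
      intro h n
      rw [Real.mul_rpow (by positivity) (by positivity)]
      push_cast
      ring
    have f1 : ∀ h n : ℕ, 1 ≤ n → F (n + h) n = ((Real.sqrt Real.pi * G : ℝ) : ℂ) *
        (starRingEnd ℂ) ((wg G h n : ℂ) * eph t h n) := by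
      intro h n hn
      rw [hF]
      show (((((n + h : ℕ) : ℝ) ^ (-(1 / 2) : ℝ) * (n : ℝ) ^ (-(1 / 2) : ℝ) : ℝ)) : ℂ) *
        (((Real.sqrt Real.pi * G * Real.exp (-(G * (Real.log ((n + h : ℕ) : ℝ) - Real.log n)) ^ 2 / 4) : ℝ) : ℂ) *
        cexp (-(I * (((Real.log ((n + h : ℕ) : ℝ) - Real.log n : ℝ) : ℂ) * t)))) = _
      rw [hwt, hlog h n hn, map_mul, Complex.conj_ofReal]
      unfold wg eph
      rw [← Complex.exp_conj, map_mul, Complex.conj_I, Complex.conj_ofReal]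
      have h5 : -I * ((t * Real.log (1 + (h : ℝ) / n) : ℝ) : ℂ) =
          -(I * (((Real.log (1 + (h : ℝ) / n) : ℝ) : ℂ) * t)) := by
        push_cast
        ring
      rw [h5, Complex.ofReal_mul, Complex.ofReal_mul (r := ((n : ℝ) * ((n : ℝ) + h)) ^ (-(1 / 2) : ℝ))]
      ring
    have f2 : ∀ h n : ℕ, 1 ≤ n → F n (n + h) = ((Real.sqrt Real.pi * G : ℝ) : ℂ) *
        ((wg G h n : ℂ) * eph t h n) := by
      intro h n hn
      rw [hF]
      show ((((n : ℝ) ^ (-(1 / 2) : ℝ) * ((n + h : ℕ) : ℝ) ^ (-(1 / 2) : ℝ) : ℝ)) : ℂ) *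
        (((Real.sqrt Real.pi * G * Real.exp (-(G * (Real.log n - Real.log ((n + h : ℕ) : ℝ))) ^ 2 / 4) : ℝ) : ℂ) *
        cexp (-(I * (((Real.log n - Real.log ((n + h : ℕ) : ℝ) : ℝ) : ℂ) * t)))) = _
      have h3 : Real.log n - Real.log ((n + h : ℕ) : ℝ) = -Real.log (1 + (h : ℝ) / n) := by
        rw [← hlog h n hn]
        ring
      rw [mul_comm ((n : ℝ) ^ (-(1 / 2) : ℝ)), hwt, h3]
      unfold wg eph
      have h4 : -(G * -Real.log (1 + (h : ℝ) / n)) ^ 2 / 4 = -(G * Real.log (1 + (h : ℝ) / n)) ^ 2 / 4 := by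
        ring
      have h5 : -(I * (((-Real.log (1 + (h : ℝ) / n) : ℝ) : ℂ) * t)) =
          I * ((t * Real.log (1 + (h : ℝ) / n) : ℝ) : ℂ) := by
        push_cast
        ring
      rw [h4, h5, Complex.ofReal_mul, Complex.ofReal_mul (r := ((n : ℝ) * ((n : ℝ) + h)) ^ (-(1 / 2) : ℝ))]
      ring
    set T := ∑ h ∈ Finset.Icc 1 X, ‖∑ n ∈ Finset.Icc 1 (X - h), (wg G h n : ℂ) * eph t h n‖ with hT
    have d2 : ‖∑ h ∈ Finset.Icc 1 X, ∑ n ∈ Finset.Icc 1 (X - h), F (n + h) n‖ ≤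
        Real.sqrt Real.pi * G * T := by
      rw [hT, Finset.mul_sum]
      refine norm_sum_le_of_le _ fun h _ => ?_
      rw [Finset.sum_congr rfl fun n hn => f1 h n (Finset.mem_Icc.1 hn).1, ← Finset.mul_sum,
        ← map_sum, norm_mul, Complex.norm_real, Real.norm_of_nonneg hK, Complex.norm_conj]
    have d3 : ‖∑ h ∈ Finset.Icc 1 X, ∑ n ∈ Finset.Icc 1 (X - h), F n (n + h)‖ ≤
        Real.sqrt Real.pi * G * T := by
      rw [hT, Finset.mul_sum]
      refine norm_sum_le_of_le _ fun h _ => ?_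
      rw [Finset.sum_congr rfl fun n hn => f2 h n (Finset.mem_Icc.1 hn).1, ← Finset.mul_sum,
        norm_mul, Complex.norm_real, Real.norm_of_nonneg hK]
    have hl : 0 ≤ 1 + Real.log X := by
      have := Real.log_natCast_nonneg X
      linarith
    refine (norm_add_le _ _).trans ((add_le_add d1 ((norm_add_le _ _).trans
      (add_le_add d2 d3))).trans ?_)
    nlinarith [mul_nonneg hK hl]
  calc ∫ u in t..(t + G), ‖PN u‖ ^ 2 ≤ Real.exp 1 * ∫ u, w u * ‖PN u‖ ^ 2 := s1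
    _ ≤ Real.exp 1 * (2 * (Real.sqrt Real.pi * G) * (1 + Real.log X +
      ∑ h ∈ Finset.Icc 1 X, ‖∑ n ∈ Finset.Icc 1 (X - h), (wg G h n : ℂ) * eph t h n‖)) :=
      mul_le_mul_of_nonneg_left s2 (Real.exp_pos 1).le
    _ = _ := by ring

end Pool.Agent.Z72.SH.Gm
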