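import Pool.Agent.Z72.SH.Stm
import Pool.Agent.N879.PU.Ku
import Pool.Agent.N879.PU.Em
import Pool.Agent.N879.PU.Mv
import Pool.Agent.N879.PZ.Telc

set_option autoImplicit false
set_option linter.all false

/-!
Project SH (helper4): zeta minus a short Dirichlet polynomial, as an operator on functions on `[U, T]`.
-/

namespace Pool.Agent.Z72.SH

open Complex Filter Topology MeasureTheory Set
open Pool.Agent.TH612.GS (z PN z_cont PN_cont)
open Pool.Agent.N879.PZ (Wb)
open Pool.Agent.N879.PZ.Telcaux (meas_int wb_mul wb_int wb_int2)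

noncomputable section

namespace Kdaux

/-- the square of the transform is integrable -/
lemma int_sq {a b U : ℝ} (hab : a ≤ b) (hU : 0 ≤ U) {f v : ℝ → ℂ} (hf : Continuous f) (hv : Wb a b v) :
    IntervalIntegrable (fun y : ℝ => ‖∫ t in a..b, v t * f (t + y)‖ ^ 2) volume 0 U := by
  have e0 : ∀ y, ∫ t in a..b, v t * f (t + y) = ∫ t in Icc a b, v t * f (t + y) := fun y => by
    rw [intervalIntegral.integral_of_le hab, ← integral_Icc_eq_integral_Ioc]
  have hm : Measurable fun y : ℝ => ∫ t in Icc a b, v t * f (t + y) := by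
    refine meas_int ((hv.1.comp measurable_snd).mul (Continuous.measurable ?_))
    fun_prop
  obtain ⟨C, hC⟩ := isCompact_Icc.exists_bound_of_continuousOn (s := Icc a (b + U))
    (f := fun x => f x) hf.continuousOn
  obtain ⟨M, hM⟩ := hv.2
  have hM0 : 0 ≤ M := (norm_nonneg _).trans (hM a ⟨le_rfl, hab⟩)
  have hbd : ∀ y ∈ Icc (0 : ℝ) U, ‖∫ t in Icc a b, v t * f (t + y)‖ ≤ M * C * (b - a) := by
    intro y hy
    have h4 : ∀ t ∈ Icc a b, ‖v t * f (t + y)‖ ≤ M * C := by
      intro t ht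
      rw [norm_mul]
      exact mul_le_mul (hM t ht) (hC (t + y) ⟨by linarith [ht.1, hy.1], by linarith [ht.2, hy.2]⟩)
        (norm_nonneg _) hM0
    have h5 := norm_setIntegral_le_of_norm_le_const (μ := volume) (s := Icc a b)
      (by rw [Real.volume_Icc]; exact ENNReal.ofReal_lt_top) h4
    rw [measureReal_def, Real.volume_Icc, ENNReal.toReal_ofReal (by linarith)] at h5
    exact h5
  simp_rw [e0]
  rw [intervalIntegrable_iff_integrableOn_Icc_of_le hU]
  refine Integrable.mono' (g := fun _ => (M * C * (b - a)) ^ 2) (integrable_const _)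
    (hm.norm.pow_const 2).aestronglyMeasurable ?_
  refine (ae_restrict_mem measurableSet_Icc).mono fun y hy => ?_
  rw [Real.norm_of_nonneg (by positivity)]
  exact pow_le_pow_left₀ (norm_nonneg _) (hbd y hy) 2

/-- the number of dyadic intervals -/
lemma dyad {T U : ℝ} (hU : 3 ≤ U) (hUT : U < T) : ∃ J : ℕ, T ≤ 2 ^ J * U ∧ (∀ j < J, 2 ^ j * U < T) ∧
    (J : ℝ) ≤ 2 * Real.log T := by
  have hex : ∃ J : ℕ, T ≤ 2 ^ J * U := by
    obtain ⟨J, hJ⟩ := pow_unbounded_of_one_lt T (by norm_num : (1 : ℝ) < 2)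
    refine ⟨J, hJ.le.trans ?_⟩
    have : (0 : ℝ) < 2 ^ J := by positivity
    nlinarith
  classical
  refine ⟨Nat.find hex, Nat.find_spec hex, fun j hj => not_le.1 (Nat.find_min hex hj), ?_⟩
  obtain ⟨J, hJ⟩ : ∃ J, J = Nat.find hex := ⟨_, rfl⟩
  rw [← hJ]
  rcases Nat.eq_zero_or_pos J with h0 | h0
  · rw [h0]
    have : 0 ≤ Real.log T := Real.log_nonneg (by linarith)
    simpa using this
  have h1 : 2 ^ (J - 1) * U < T := not_le.1 (Nat.find_min hex (by omega))
  have h2 : (2 : ℝ) ^ J ≤ T := by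
    obtain ⟨m, hm⟩ : ∃ m, J = m + 1 := ⟨J - 1, by omega⟩
    rw [hm, Nat.add_sub_cancel] at h1
    rw [hm, pow_succ]
    have : (0 : ℝ) < 2 ^ m := by positivity
    nlinarith
  have h3 : (J : ℝ) * Real.log 2 ≤ Real.log T := by
    rw [← Real.log_pow]
    exact Real.log_le_log (by positivity) h2
  have h4 : (1 : ℝ) / 2 ≤ Real.log 2 := by linarith [Real.log_two_gt_d9]
  have h5 : (J : ℝ) * (1 / 2) ≤ J * Real.log 2 := by gcongr
  linarith

lemma fin_uIoc (a b : ℝ) : IsFiniteMeasure ((volume : Measure ℝ).restrict (uIoc a b)) := by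
  refine ⟨?_⟩
  rw [Measure.restrict_apply_univ, uIoc, Real.volume_Ioc]
  exact ENNReal.ofReal_lt_top

end Kdaux

open Kdaux in
theorem t_KD : S_KD := by
  obtain ⟨C, A, hC, H⟩ := Pool.Agent.N879.PU.t_KU Pool.Agent.N879.PU.t_EM Pool.Agent.N879.PU.t_MVS
    (Pool.Agent.N879.PU.t_MVT Pool.Agent.N879.PU.t_MVS)
  refine ⟨4 * C, A + 2, by positivity, ?_⟩
  intro T U N F hU hUT hN hNU hF
  have hT : 3 ≤ T := hU.trans hUT
  have hlog : 0 ≤ Real.log T := Real.log_nonneg (by linarith)
  have hN0 : (0 : ℝ) < N := by exact_mod_cast hN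
  rcases hUT.lt_or_eq with hlt | heq
  swap
  · subst heq
    simp
  obtain ⟨J, hJ1, hJ2, hJ3⟩ := dyad hU hlt
  obtain ⟨F', hF'⟩ : ∃ F' : ℝ → ℂ, F' = (Icc U T).indicator F := ⟨_, rfl⟩
  obtain ⟨D, hD⟩ : ∃ D : ℝ → ℂ, D = fun u => z u - PN N u := ⟨_, rfl⟩
  have hDc : Continuous D := by
    rw [hD]
    exact z_cont.sub (PN_cont N)
  obtain ⟨M, hM⟩ := hF.2
  have hM0 : 0 ≤ M := (norm_nonneg _).trans (hM U ⟨le_rfl, hUT⟩)
  have hF'm : Measurable F' := by
    rw [hF']
    exact hF.1.indicator measurableSet_Icc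
  have hF'b : ∀ t, ‖F' t‖ ≤ M := by
    intro t
    rw [hF']
    by_cases ht : t ∈ Icc U T
    · rw [indicator_of_mem ht]
      exact hM t ht
    · rw [indicator_of_notMem ht, norm_zero]
      exact hM0
  have hwb : ∀ a b, Wb a b F' := fun a b => ⟨hF'm, M, fun t _ => hF'b t⟩
  obtain ⟨x, hx⟩ : ∃ x : ℕ → ℝ, x = fun j => 2 ^ j * U := ⟨_, rfl⟩
  have hx0 : x 0 = U := by rw [hx]; simp
  have hxs : ∀ j, x (j + 1) = x j + x j := fun j => by
    rw [hx]
    simp only
    rw [pow_succ]
    ring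
  have hxU : ∀ j, U ≤ x j := fun j => by
    rw [hx]
    simp only
    have : (1 : ℝ) ≤ 2 ^ j := one_le_pow₀ (by norm_num)
    nlinarith
  have hint : ∀ (G : ℝ → ℂ), Continuous G → ∀ a b : ℝ, IntervalIntegrable (fun t => F' t * G t) volume a b := by
    intro G hG a b
    haveI := fin_uIoc a b
    rw [intervalIntegrable_iff]
    obtain ⟨C', hC'⟩ := isCompact_uIcc.exists_bound_of_continuousOn (s := uIcc a b) hG.continuousOn
    refine Integrable.mono' (g := fun _ => M * C') (integrable_const _)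
      (hF'm.mul hG.measurable).aestronglyMeasurable ?_
    refine (ae_restrict_mem measurableSet_uIoc).mono fun t ht => ?_
    rw [norm_mul]
    exact mul_le_mul (hF'b t) (hC' t (uIoc_subset_uIcc ht)) (norm_nonneg _) hM0
  have hint2 : ∀ a b : ℝ, IntervalIntegrable (fun t => ‖F' t‖ ^ 2) volume a b := by
    intro a b
    haveI := fin_uIoc a b
    rw [intervalIntegrable_iff]
    refine Integrable.mono' (g := fun _ => M ^ 2) (integrable_const _)
      (hF'm.norm.pow_const 2).aestronglyMeasurable ?_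
    refine Filter.Eventually.of_forall fun t => ?_
    rw [Real.norm_of_nonneg (by positivity)]
    exact pow_le_pow_left₀ (norm_nonneg _) (hF'b t) 2
  -- splitting of the integral
  have hsplit : ∀ c, ∫ t in U..T, F t * D (t + c) =
      ∑ j ∈ Finset.range J, ∫ t in (x j)..(x (j + 1)), F' t * D (t + c) := by
    intro c
    have hc : Continuous fun t => D (t + c) := hDc.comp (by fun_prop)
    rw [intervalIntegral.sum_integral_adjacent_intervals fun k _ => hint _ hc _ _, hx0,
      ← intervalIntegral.integral_add_adjacent_intervals (hint _ hc U T) (hint _ hc T (x J))]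
    have e1 : ∫ t in T..(x J), F' t * D (t + c) = 0 := by
      apply intervalIntegral.integral_zero_ae
      refine Filter.Eventually.of_forall fun t ht => ?_
      have hTx : T ≤ x J := by rw [hx]; exact hJ1
      rw [uIoc_of_le hTx] at ht
      rw [hF', indicator_of_notMem (fun h => absurd h.2 (not_le.2 ht.1)), zero_mul]
    rw [e1, add_zero]
    apply intervalIntegral.integral_congr
    intro t ht
    rw [uIcc_of_le hUT] at ht
    simp only
    rw [hF', indicator_of_mem ht]
  have hsplit2 : ∑ j ∈ Finset.range J, ∫ t in (x j)..(x (j + 1)), ‖F' t‖ ^ 2 = ∫ t in U..T, ‖F t‖ ^ 2 := by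
    rw [intervalIntegral.sum_integral_adjacent_intervals fun k _ => hint2 _ _, hx0,
      ← intervalIntegral.integral_add_adjacent_intervals (hint2 U T) (hint2 T (x J))]
    have e1 : ∫ t in T..(x J), ‖F' t‖ ^ 2 = 0 := by
      apply intervalIntegral.integral_zero_ae
      refine Filter.Eventually.of_forall fun t ht => ?_
      have hTx : T ≤ x J := by rw [hx]; exact hJ1
      rw [uIoc_of_le hTx] at ht
      rw [hF', indicator_of_notMem (fun h => absurd h.2 (not_le.2 ht.1)), norm_zero]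
      norm_num
    rw [e1, add_zero]
    apply intervalIntegral.integral_congr
    intro t ht
    rw [uIcc_of_le hUT] at ht
    simp only
    rw [hF', indicator_of_mem ht]
  -- the bound for each dyadic interval
  have hblock : ∀ j ∈ Finset.range J, ∫ c in (0 : ℝ)..U, ‖∫ t in (x j)..(x (j + 1)), F' t * D (t + c)‖ ^ 2 ≤
      C * Real.log T ^ A * (T * U / N + T) * ∫ t in (x j)..(x (j + 1)), ‖F' t‖ ^ 2 := by
    intro j hj
    have h1 : x j < T := by rw [hx]; exact hJ2 j (Finset.mem_range.1 hj)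
    have h2 := H (x j) (x j) U N F' (hU.trans (hxU j)) (by linarith [hxU j]) le_rfl (by linarith) (hxU j) hN
      (hNU.trans (hxU j)) (hwb _ _)
    rw [hxs, hD]
    refine h2.trans ?_
    refine mul_le_mul_of_nonneg_right ?_ (intervalIntegral.integral_nonneg
      (by linarith [hxU j]) fun t _ => sq_nonneg _)
    have hxj : 0 < x j := by linarith [hxU j]
    have h3 : Real.log (x j) ≤ Real.log T := Real.log_le_log hxj h1.le
    have h4 : 0 ≤ Real.log (x j) := Real.log_nonneg (by linarith [hxU j])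
    have h5 : x j * U / N + x j ≤ T * U / N + T := by
      gcongr
    have h6 : 0 ≤ x j * U / N + x j := by positivity
    gcongr
  have hmono : ∫ c in (0 : ℝ)..U, ‖∫ t in U..T, F t * D (t + c)‖ ^ 2 ≤
      ∫ c in (0 : ℝ)..U, J * ∑ j ∈ Finset.range J, ‖∫ t in (x j)..(x (j + 1)), F' t * D (t + c)‖ ^ 2 := by
    have hi2 : IntervalIntegrable (fun c => (J : ℝ) * ∑ j ∈ Finset.range J,
        ‖∫ t in (x j)..(x (j + 1)), F' t * D (t + c)‖ ^ 2) volume 0 U := by
      apply IntervalIntegrable.const_mul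
      have := IntervalIntegrable.sum (μ := volume) (a := (0 : ℝ)) (b := U) (Finset.range J)
        (f := fun j c => ‖∫ t in (x j)..(x (j + 1)), F' t * D (t + c)‖ ^ 2) fun j _ =>
        int_sq (by linarith [hxU j, hxs j]) (by linarith) hDc (hwb _ _)
      refine this.congr ?_
      intro c _
      simp only [Finset.sum_apply]
    refine intervalIntegral.integral_mono_on (by linarith) (int_sq hUT (by linarith) hDc hF) hi2 ?_
    intro c _
    rw [hsplit c]
    have h1 : ‖∑ j ∈ Finset.range J, ∫ t in (x j)..(x (j + 1)), F' t * D (t + c)‖ ≤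
        ∑ j ∈ Finset.range J, ‖∫ t in (x j)..(x (j + 1)), F' t * D (t + c)‖ := norm_sum_le _ _
    have h2 : (∑ j ∈ Finset.range J, ‖∫ t in (x j)..(x (j + 1)), F' t * D (t + c)‖) ^ 2 ≤
        J * ∑ j ∈ Finset.range J, ‖∫ t in (x j)..(x (j + 1)), F' t * D (t + c)‖ ^ 2 := by
      have := sq_sum_le_card_mul_sum_sq (s := Finset.range J)
        (f := fun j => ‖∫ t in (x j)..(x (j + 1)), F' t * D (t + c)‖)
      rwa [Finset.card_range] at this
    exact (pow_le_pow_left₀ (norm_nonneg _) h1 2).trans h2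
  have hfin : ∫ c in (0 : ℝ)..U, J * ∑ j ∈ Finset.range J, ‖∫ t in (x j)..(x (j + 1)), F' t * D (t + c)‖ ^ 2 ≤
      J * (C * Real.log T ^ A * (T * U / N + T) * ∫ t in U..T, ‖F t‖ ^ 2) := by
    rw [intervalIntegral.integral_const_mul, intervalIntegral.integral_finsetSum fun j _ =>
      int_sq (by linarith [hxU j, hxs j]) (by linarith) hDc (hwb _ _)]
    refine mul_le_mul_of_nonneg_left ?_ (Nat.cast_nonneg _)
    rw [← hsplit2, Finset.mul_sum]
    exact Finset.sum_le_sum hblock
  have hI : 0 ≤ ∫ t in U..T, ‖F t‖ ^ 2 := intervalIntegral.integral_nonneg hUT fun t _ => sq_nonneg _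
  have e : ∫ c in (0 : ℝ)..U, ‖∫ t in U..T, F t * (z (t + c) - PN N (t + c))‖ ^ 2 =
      ∫ c in (0 : ℝ)..U, ‖∫ t in U..T, F t * D (t + c)‖ ^ 2 := by
    rw [hD]
  rw [e]
  refine (hmono.trans hfin).trans ?_
  have hlog1 : 1 ≤ Real.log T := by
    rw [Real.le_log_iff_exp_le (by linarith)]
    linarith [Real.exp_one_lt_d9]
  have hB : 0 ≤ C * Real.log T ^ A * (T * U / N + T) * ∫ t in U..T, ‖F t‖ ^ 2 := by positivity
  calc (J : ℝ) * (C * Real.log T ^ A * (T * U / N + T) * ∫ t in U..T, ‖F t‖ ^ 2)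
      ≤ (2 * Real.log T) * (C * Real.log T ^ A * (T * U / N + T) * ∫ t in U..T, ‖F t‖ ^ 2) := by gcongr
    _ ≤ (4 * Real.log T ^ 2) * (C * Real.log T ^ A * (T * U / N + T) * ∫ t in U..T, ‖F t‖ ^ 2) := by
        refine mul_le_mul_of_nonneg_right ?_ hB
        nlinarith
    _ = 4 * C * Real.log T ^ (A + 2) * (T * U / N + T) * ∫ t in U..T, ‖F t‖ ^ 2 := by ring

end

end Pool.Agent.Z72.SH
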