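import Pool.Agent.Z72.SH.Stm

set_option autoImplicit false

/-! # Project SH, part QB: bounds and regularity of the main term for complex shifts -/

namespace Pool.Agent.Z72.SH

open Complex Filter Topology MeasureTheory Set
open Pool.Agent.TH612.CF

noncomputable section

variable {k : ℕ}

lemma qb_ne (π : Equiv.Perm (Fin k ⊕ Fin k)) (j l : Fin k) :
    π (Sum.inl j) ≠ π (Sum.inr l) := fun h => by
  have := π.injective h
  simp at this

/-- the bound for the factors of the functional equation -/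
lemma qb_chi {K : ℝ} (hK : ∀ x u : ℝ, |x| ≤ 1 / 4 → ‖chi (1 / 2 + (x + u * I))‖ ≤ K * (1 + |u|) ^ (-x))
    (hK1 : 1 ≤ K) {T : ℝ} (hT : 3 ≤ T) {x u : ℝ} (hx : |x| ≤ 1 / 10) (hu : |u| ≤ 4 * T) :
    ‖chi (1 / 2 + (x + u * I))‖ ≤ 5 * K * T := by
  refine (hK x u (by linarith)).trans ?_
  have h1 : (1:ℝ) ≤ 1 + |u| := by have := abs_nonneg u; linarith
  have h2 : (1 + |u|) ^ (-x) ≤ (1 + |u|) ^ (1:ℝ) :=
    Real.rpow_le_rpow_of_exponent_le h1 (by have := abs_le.1 hx; linarith)
  rw [Real.rpow_one] at h2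
  have h3 : 1 + |u| ≤ 5 * T := by linarith
  calc K * (1 + |u|) ^ (-x) ≤ K * (5 * T) := by
        refine mul_le_mul_of_nonneg_left (h2.trans h3) (by linarith)
    _ = 5 * K * T := by ring

lemma qb_GG {K : ℝ} (hK : ∀ x u : ℝ, |x| ≤ 1 / 4 → ‖chi (1 / 2 + (x + u * I))‖ ≤ K * (1 + |u|) ^ (-x))
    (hK1 : 1 ≤ K) {T : ℝ} (hT : 3 ≤ T) {t : ℝ} (ht0 : 0 ≤ t) (htT : t ≤ T)
    {c : Fin k ⊕ Fin k → ℂ} (hc : c ∈ Dom k T) (π : Equiv.Perm (Fin k ⊕ Fin k)) :
    ‖GG t c π‖ ≤ (5 * K * T) ^ k * (5 * K * T) ^ k := by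
  have hB : (1:ℝ) ≤ 5 * K * T := by nlinarith
  have hre : ∀ i, |t + (c i).re| ≤ 4 * T := by
    intro i
    have h1 := abs_le.1 (hc.2.1 i)
    rw [abs_le]
    constructor <;> linarith
  unfold GG
  rw [norm_mul, norm_prod, norm_prod]
  refine mul_le_mul ?_ ?_ (Finset.prod_nonneg fun _ _ => norm_nonneg _) (by positivity)
  · refine (Finset.prod_le_prod (fun _ _ => norm_nonneg _) (g := fun _ => 5 * K * T) fun j _ => ?_).trans
      (by simp)
    split_ifs
    · have e : (1 / 2 - I * t - I * c (π (Sum.inl j)) : ℂ) =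
          1 / 2 + ((((c (π (Sum.inl j))).im : ℝ) : ℂ) + ((-(t + (c (π (Sum.inl j))).re) : ℝ) : ℂ) * I) := by
        conv_lhs => rw [← Complex.re_add_im (c (π (Sum.inl j)))]
        push_cast
        linear_combination (-((c (π (Sum.inl j))).im : ℂ)) * I_sq
      rw [e]
      exact qb_chi hK hK1 hT (hc.1 _) (by rw [abs_neg]; exact hre _)
    · rw [norm_one]; exact hB
  · refine (Finset.prod_le_prod (fun _ _ => norm_nonneg _) (g := fun _ => 5 * K * T) fun j _ => ?_).trans
      (by simp)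
    split_ifs
    · have e : (1 / 2 + I * t + I * c (π (Sum.inr j)) : ℂ) =
          1 / 2 + (((-(c (π (Sum.inr j))).im : ℝ) : ℂ) + (((t + (c (π (Sum.inr j))).re) : ℝ) : ℂ) * I) := by
        conv_lhs => rw [← Complex.re_add_im (c (π (Sum.inr j)))]
        push_cast
        linear_combination ((c (π (Sum.inr j))).im : ℂ) * I_sq
      rw [e]
      exact qb_chi hK hK1 hT (by rw [abs_neg]; exact hc.1 _) (hre _)
    · rw [norm_one]; exact hB

lemma qb_zab {C : ℝ} {A : ℕ} (hC : 0 < C)
    (h : ∀ σ u : ℝ, 2 / 5 ≤ σ → σ ≤ 6 / 5 → (1 ≤ |u| ∨ σ ≤ 3 / 5) →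
      ‖riemannZeta (σ + I * u)‖ ≤ C * (1 + |u|) ^ A) {T : ℝ} (hT : 3 ≤ T)
    {c : Fin k ⊕ Fin k → ℂ} (hc : c ∈ Dom k T) (π : Equiv.Perm (Fin k ⊕ Fin k)) :
    ‖zab (fun j => c (π (Sum.inl j))) (fun j => c (π (Sum.inr j)))‖ ≤
      BF k (1 / 10) * (C * (7 * T) ^ A) ^ (k ^ 2) := by
  have hBF : 0 ≤ BF k (1 / 10) := (Real.exp_pos _).le
  have hb : 0 ≤ C * (7 * T) ^ A := by positivity
  unfold zab
  rw [norm_mul, norm_prod]
  refine mul_le_mul ?_ ?_ (Finset.prod_nonneg fun _ _ => norm_nonneg _) hBF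
  · exact FH_le (by norm_num) fun j => ⟨hc.1 _, hc.1 _⟩
  · have h2 : ∀ j l : Fin k, ‖riemannZeta (1 + I * c (π (Sum.inl j)) - I * c (π (Sum.inr l)))‖ ≤
        C * (7 * T) ^ A := by
      intro j l
      set a := c (π (Sum.inl j)) with ha
      set b := c (π (Sum.inr l)) with hb
      have e : (1 + I * a - I * b : ℂ) = ((1 - a.im + b.im : ℝ) : ℂ) + I * ((a.re - b.re : ℝ) : ℂ) := by
        conv_lhs => rw [← Complex.re_add_im a, ← Complex.re_add_im b]
        push_cast
        linear_combination ((a.im : ℂ) - (b.im : ℂ)) * I_sq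
      rw [e]
      have a1 := abs_le.1 (hc.1 (π (Sum.inl j)))
      have a2 := abs_le.1 (hc.1 (π (Sum.inr l)))
      have a3 := abs_le.1 (hc.2.1 (π (Sum.inl j)))
      have a4 := abs_le.1 (hc.2.1 (π (Sum.inr l)))
      rw [← ha] at a1 a3
      rw [← hb] at a2 a4
      refine (h (1 - a.im + b.im) (a.re - b.re) (by linarith) (by linarith)
        (Or.inl (hc.2.2 _ _ (qb_ne π j l)))).trans ?_
      refine mul_le_mul_of_nonneg_left (pow_le_pow_left₀ (by positivity) ?_ _) hC.le
      have : |a.re - b.re| ≤ 6 * T := by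
        rw [abs_le]; constructor <;> linarith
      linarith
    calc ∏ j, ‖∏ l, riemannZeta (1 + I * c (π (Sum.inl j)) - I * c (π (Sum.inr l)))‖
        ≤ ∏ _j : Fin k, (C * (7 * T) ^ A) ^ k := by
          refine Finset.prod_le_prod (fun _ _ => norm_nonneg _) fun j _ => ?_
          rw [norm_prod]
          refine (Finset.prod_le_prod (fun _ _ => norm_nonneg _) fun l _ => h2 j l).trans ?_
          simp
      _ = (C * (7 * T) ^ A) ^ (k ^ 2) := by
          rw [Finset.prod_const, Finset.card_univ, Fintype.card_fin, ← pow_mul]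
          congr 1; ring

/-- the open domain of continuity -/
def qbU (k : ℕ) : Set ((Fin k ⊕ Fin k → ℂ) × ℝ) :=
  {p | (∀ i, |(p.1 i).im| < 1 / 5) ∧ ∀ a b, a ≠ b → p.1 a ≠ p.1 b}

lemma qbU_open : IsOpen (qbU k) := by
  have e : qbU k = (⋂ i, {p : (Fin k ⊕ Fin k → ℂ) × ℝ | |(p.1 i).im| < 1 / 5}) ∩
      ⋂ a, ⋂ b, {p : (Fin k ⊕ Fin k → ℂ) × ℝ | a ≠ b → p.1 a ≠ p.1 b} := by
    ext p
    simp [qbU]
  rw [e]
  refine IsOpen.inter (isOpen_iInter_of_finite fun i => ?_)
    (isOpen_iInter_of_finite fun a => isOpen_iInter_of_finite fun b => ?_)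
  · refine isOpen_lt ?_ continuous_const
    exact (Complex.continuous_im.comp ((continuous_apply i).comp continuous_fst)).abs
  · by_cases hab : a = b
    · simp [hab]
    · have : {p : (Fin k ⊕ Fin k → ℂ) × ℝ | a ≠ b → p.1 a ≠ p.1 b} =
          {p : (Fin k ⊕ Fin k → ℂ) × ℝ | p.1 a ≠ p.1 b} := by
        ext p; simp [hab]
      rw [this]
      exact isOpen_ne_fun ((continuous_apply a).comp continuous_fst)
        ((continuous_apply b).comp continuous_fst)

lemma dom_ne {T : ℝ} {c : Fin k ⊕ Fin k → ℂ} (hc : c ∈ Dom k T) {a b : Fin k ⊕ Fin k} (hab : a ≠ b) :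
    c a ≠ c b := by
  intro h
  have h1 := hc.2.2 a b hab
  rw [h, sub_self, abs_zero] at h1
  linarith

theorem t_QB (h : S_GR) : S_QB := by
  intro k
  obtain ⟨C, A, hC, hz⟩ := h
  obtain ⟨K, hK1, hK⟩ := chi_le
  have hBF : 0 < BF k (1 / 10) := Real.exp_pos _
  refine ⟨(Fintype.card (Equiv.Perm (Fin k ⊕ Fin k))) *
    (((5 * K) ^ k * (5 * K) ^ k) * (BF k (1 / 10) * (C * 7 ^ A) ^ (k ^ 2))),
    2 * k + A * k ^ 2, ?_, ?_⟩
  · have : (0:ℝ) < Fintype.card (Equiv.Perm (Fin k ⊕ Fin k)) := by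
      exact_mod_cast Fintype.card_pos
    positivity
  intro T hT
  refine ⟨?_, ?_⟩
  · have h1 : ContinuousOn (fun p : (Fin k ⊕ Fin k → ℂ) × ℝ => Qs p.2 p.1) (qbU k) := by
      unfold Qs
      refine continuousOn_finsetSum _ fun π _ => ?_
      refine Rt_cont (T := fun p : (Fin k ⊕ Fin k → ℂ) × ℝ => p.2)
        (Γ := fun p : (Fin k ⊕ Fin k → ℂ) × ℝ => p.1) qbU_open (c := 1 / 5) (by norm_num)
        continuous_snd.continuousOn
        (fun i => ((continuous_apply i).comp continuous_fst).continuousOn)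
        (fun p hp i => (hp.1 i).le) π (fun p hp j l => hp.2 _ _ (qb_ne π j l))
    refine h1.mono ?_
    rintro ⟨c, t⟩ ⟨hc, _⟩
    refine ⟨fun i => lt_of_le_of_lt (hc.1 i) (by norm_num), fun a b hab => dom_ne hc hab⟩
  · intro t c ht0 htT hc
    refine ⟨?_, ?_⟩
    · have h1 : ∀ π : Equiv.Perm (Fin k ⊕ Fin k), ‖Rt t c π‖ ≤
          ((5 * K * T) ^ k * (5 * K * T) ^ k) * (BF k (1 / 10) * (C * (7 * T) ^ A) ^ (k ^ 2)) := by
        intro π
        unfold Rt
        rw [norm_mul]
        refine mul_le_mul (qb_GG hK hK1 hT ht0 htT hc π) (qb_zab hC hz hT hc π) (norm_nonneg _) ?_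
        have : (0:ℝ) ≤ 5 * K * T := by nlinarith
        positivity
      unfold Qs
      refine (norm_sum_le _ _).trans ((Finset.sum_le_sum fun π _ => h1 π).trans (le_of_eq ?_))
      rw [Finset.sum_const, Finset.card_univ, nsmul_eq_mul]
      ring
    · intro i
      let U : Set ℂ := {w | |w.im| < 1 / 5 ∧ ∀ j, j ≠ i → w ≠ c j}
      have hU : IsOpen U := by
        have e : U = {w : ℂ | |w.im| < 1 / 5} ∩ ⋂ j, {w : ℂ | j ≠ i → w ≠ c j} := by
          ext w; simp [U]
        rw [e]
        refine IsOpen.inter (isOpen_lt (Complex.continuous_im.abs) continuous_const)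
          (isOpen_iInter_of_finite fun j => ?_)
        by_cases hj : j = i
        · simp [hj]
        · have : {w : ℂ | j ≠ i → w ≠ c j} = {w : ℂ | w ≠ c j} := by ext w; simp [hj]
          rw [this]
          exact isOpen_ne
      have hmem : c i ∈ U := ⟨lt_of_le_of_lt (hc.1 i) (by norm_num),
        fun j hj => dom_ne hc (Ne.symm hj)⟩
      have hd : DifferentiableOn ℂ (fun w => Qs t (Function.update c i w)) U := by
        unfold Qs
        refine DifferentiableOn.fun_sum fun π _ => ?_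
        refine Rt_diff (Γ := fun w => Function.update c i w) hU (c := 1 / 5) (by norm_num) t ?_ ?_ π ?_
        · intro j
          by_cases hj : j = i
          · subst hj
            simp only [Function.update_self]
            exact differentiableOn_id
          · simp only [Function.update_of_ne hj]
            exact differentiableOn_const _
        · intro w hw j
          by_cases hj : j = i
          · subst hj
            rw [Function.update_self]
            exact hw.1.le
          · rw [Function.update_of_ne hj]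
            exact (hc.1 j).trans (by norm_num)
        · intro w hw j l
          have hne := qb_ne π j l
          by_cases h1 : π (Sum.inl j) = i
          · rw [h1, Function.update_self, Function.update_of_ne (by rw [← h1]; exact hne.symm)]
            exact hw.2 _ (by rw [← h1]; exact hne.symm)
          · rw [Function.update_of_ne h1]
            by_cases h2 : π (Sum.inr l) = i
            · rw [h2, Function.update_self]
              exact (hw.2 _ h1).symm
            · rw [Function.update_of_ne h2]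
              exact dom_ne hc hne
      exact (hd (c i) hmem).differentiableAt (hU.mem_nhds hmem)

end

end Pool.Agent.Z72.SH
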