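import Pool.Agent.Z72.SH.Stm0

/-!
R1: a discrete Remez inequality for analytic functions (helper1, board t72).
-/

set_option autoImplicit false

namespace Pool.Agent.Z72.SH.R1

open Finset Polynomial MeasureTheory

/-- Taylor polynomials -/
theorem taylor (f : ℂ → ℂ) (M : ℝ) (hf : DifferentiableOn ℂ f (Metric.ball 0 1))
    (hM : ∀ w ∈ Metric.ball (0 : ℂ) 1, ‖f w‖ ≤ M) (r : ℝ) (hr0 : 0 < r) (hr : r ≤ 1 / 4) (d : ℕ) :
    ∃ P : ℂ[X], P.degree < ((d + 1 : ℕ) : WithBot ℕ) ∧
      ∀ x : ℝ, |x| ≤ r → ‖f x - P.eval (x : ℂ)‖ ≤ 2 * M * (2 * r) ^ (d + 1) := by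
  have hsub : Metric.closedBall (0 : ℂ) (1 / 2) ⊆ Metric.ball 0 1 :=
    Metric.closedBall_subset_ball (by norm_num)
  have hM0 : 0 ≤ M := (norm_nonneg _).trans (hM 0 (by simp))
  have hps : HasFPowerSeriesOnBall f (cauchyPowerSeries f 0 ((1 / 2 : NNReal) : ℝ)) 0 (1 / 2 : NNReal) := by
    apply DifferentiableOn.hasFPowerSeriesOnBall
    · have : (((1 / 2 : NNReal)) : ℝ) = 1 / 2 := by simp
      rw [this]
      exact hf.mono hsub
    · norm_num
  set p := cauchyPowerSeries f 0 ((1 / 2 : NNReal) : ℝ) with hp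
  have hco : ∀ n, ‖p.coeff n‖ ≤ M * 2 ^ n := by
    intro n
    rw [← FormalMultilinearSeries.norm_apply_eq_norm_coef]
    refine (norm_cauchyPowerSeries_le f 0 _ n).trans ?_
    have h1 : (2 * Real.pi)⁻¹ * ∫ θ in (0 : ℝ)..2 * Real.pi, ‖f (circleMap 0 ((1 / 2 : NNReal) : ℝ) θ)‖ ≤ M := by
      have h2 : ∫ θ in (0 : ℝ)..2 * Real.pi, ‖f (circleMap 0 ((1 / 2 : NNReal) : ℝ) θ)‖ ≤
          M * |2 * Real.pi - 0| := by
        have h3 := intervalIntegral.norm_integral_le_of_norm_le_const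
          (a := 0) (b := 2 * Real.pi) (C := M)
          (f := fun θ => ‖f (circleMap 0 ((1 / 2 : NNReal) : ℝ) θ)‖) (fun θ _ => by
            rw [norm_norm]
            apply hM
            apply hsub
            have := circleMap_mem_closedBall (0 : ℂ) (R := ((1 / 2 : NNReal) : ℝ)) (by simp) θ
            simpa using this)
        exact (le_abs_self _).trans h3
      have h4 : |2 * Real.pi - 0| = 2 * Real.pi := by
        rw [sub_zero, abs_of_pos Real.two_pi_pos]
      rw [h4] at h2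
      rw [inv_mul_le_iff₀ Real.two_pi_pos]
      linarith
    have h5 : |((1 / 2 : NNReal) : ℝ)|⁻¹ = 2 := by simp
    rw [h5]
    exact mul_le_mul_of_nonneg_right h1 (by positivity)
  refine ⟨∑ n ∈ range (d + 1), Polynomial.monomial n (p.coeff n), ?_, ?_⟩
  · refine (Polynomial.degree_sum_le _ _).trans_lt ?_
    rw [Finset.sup_lt_iff]
    · intro n hn
      refine (Polynomial.degree_monomial_le _ _).trans_lt ?_
      exact_mod_cast Finset.mem_range.1 hn
    · exact WithBot.bot_lt_coe _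
  · intro x hx
    have hxb : (x : ℂ) ∈ Metric.eball (0 : ℂ) ((1 / 2 : NNReal) : ENNReal) := by
      rw [Metric.mem_eball, edist_zero_right]
      rw [← ofReal_norm]
      rw [show ((1 / 2 : NNReal) : ENNReal) = ENNReal.ofReal (1 / 2) by
        rw [ENNReal.ofReal]; congr 1; ext; simp]
      rw [ENNReal.ofReal_lt_ofReal_iff (by norm_num)]
      rw [Complex.norm_real, Real.norm_eq_abs]
      linarith
    have hs := hps.hasSum hxb
    rw [zero_add] at hs
    have h1 : ∀ n, (p n fun _ => (x : ℂ)) = p.coeff n * (x : ℂ) ^ n := by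
      intro n
      rw [FormalMultilinearSeries.apply_eq_pow_smul_coeff, smul_eq_mul, mul_comm]
    simp only [h1] at hs
    have h2 := (hasSum_nat_add_iff' (d + 1)).2 hs
    have h3 : Polynomial.eval (x : ℂ) (∑ n ∈ range (d + 1), Polynomial.monomial n (p.coeff n)) =
        ∑ n ∈ range (d + 1), p.coeff n * (x : ℂ) ^ n := by
      rw [Polynomial.eval_finsetSum]
      simp only [Polynomial.eval_monomial]
    rw [h3]
    have h4 : ∀ n, ‖p.coeff (n + (d + 1)) * (x : ℂ) ^ (n + (d + 1))‖ ≤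
        M * (2 * r) ^ (d + 1) * (1 / 2) ^ n := by
      intro n
      rw [norm_mul, norm_pow, Complex.norm_real, Real.norm_eq_abs]
      calc ‖p.coeff (n + (d + 1))‖ * |x| ^ (n + (d + 1))
          ≤ (M * 2 ^ (n + (d + 1))) * r ^ (n + (d + 1)) := by
            refine mul_le_mul (hco _) (pow_le_pow_left₀ (abs_nonneg _) hx _) (by positivity)
              (by positivity)
        _ = M * (2 * r) ^ (d + 1) * (2 * r) ^ n := by
            rw [pow_add, pow_add, mul_pow, mul_pow]; ring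
        _ ≤ _ := by
            refine mul_le_mul_of_nonneg_left ?_ (by positivity)
            exact pow_le_pow_left₀ (by positivity) (by linarith) _
    have h5 : HasSum (fun n : ℕ => M * (2 * r) ^ (d + 1) * (1 / 2 : ℝ) ^ n)
        (M * (2 * r) ^ (d + 1) * 2) := hasSum_geometric_two.mul_left _
    have h6 := tsum_of_norm_bounded h5 h4
    rw [h2.tsum_eq] at h6
    linarith

/-- strictly increasing maps of `Fin n` into `ℕ` -/
theorem mono_gap {n : ℕ} (g : Fin n → ℕ) (hg : StrictMono g) :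
    ∀ (k : ℕ) (i j : Fin n), (j : ℕ) = i + k → g i + k ≤ g j := by
  intro k
  induction k with
  | zero =>
    intro i j h
    have : i = j := Fin.ext (by omega)
    rw [this]; omega
  | succ k ih =>
    intro i j h
    have hj : (j : ℕ) < n := j.2
    have h1 := ih i ⟨i + k, by omega⟩ rfl
    have h2 : g ⟨i + k, by omega⟩ < g j := hg (by rw [Fin.lt_def]; simp; omega)
    omega

/-- separated points in a set of large measure -/
theorem points (r : ℝ) (hr : 0 < r) (E : Set ℝ) (hE : E ⊆ Set.Icc (-r) r)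
    (hv : ENNReal.ofReal r ≤ volume E) (d : ℕ) : ∃ x : Fin (d + 1) → ℝ, (∀ j, x j ∈ E) ∧
      ∀ i j : Fin (d + 1), i < j → (((j : ℕ) : ℝ) - ((i : ℕ) : ℝ)) * (r / (2 * (d + 1))) ≤ x j - x i := by
  classical
  set len : ℝ := r / (2 * (d + 1)) with hlen
  have hl0 : 0 < len := by positivity
  set I : ℕ → Set ℝ := fun k => Set.Icc (-r + k * len) (-r + (k + 1) * len) with hI
  set S : Finset ℕ := (range (4 * (d + 1) + 1)).filter fun k => (E ∩ I k).Nonempty with hS
  have hcov : E ⊆ ⋃ k ∈ S, I k := by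
    intro x hx
    obtain ⟨h1, h2⟩ := hE hx
    have h3 : 0 ≤ (x + r) / len := div_nonneg (by linarith) hl0.le
    have hk1 := Nat.floor_le h3
    have hk2 := (Nat.lt_floor_add_one ((x + r) / len)).le
    rw [le_div_iff₀ hl0] at hk1
    rw [div_le_iff₀ hl0] at hk2
    have hxI : x ∈ I ⌊(x + r) / len⌋₊ := by
      rw [hI]
      constructor
      · linarith
      · linarith
    have hk : ⌊(x + r) / len⌋₊ < 4 * (d + 1) + 1 := by
      have h4 : (x + r) / len ≤ 4 * (d + 1) := by
        rw [div_le_iff₀ hl0, hlen]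
        have : 4 * ((d : ℝ) + 1) * (r / (2 * (d + 1))) = 2 * r := by field_simp; ring
        rw [this]; linarith
      have h5 : ⌊(x + r) / len⌋₊ ≤ 4 * (d + 1) := by
        have h6 := (Nat.floor_le h3).trans h4
        exact_mod_cast h6
      omega
    exact Set.mem_biUnion (show ⌊(x + r) / len⌋₊ ∈ S from
      Finset.mem_filter.2 ⟨Finset.mem_range.2 hk, ⟨x, hx, hxI⟩⟩) hxI
  have hcard : 2 * (d + 1) ≤ S.card := by
    have h1 : volume E ≤ ∑ k ∈ S, volume (I k) :=
      (measure_mono hcov).trans (measure_biUnion_finset_le _ _)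
    have h2 : ∀ k ∈ S, volume (I k) = ENNReal.ofReal len := by
      intro k _
      rw [hI]
      simp only [Real.volume_Icc]
      congr 1; ring
    rw [Finset.sum_congr rfl h2, Finset.sum_const, nsmul_eq_mul] at h1
    have h3 := hv.trans h1
    rw [← ENNReal.ofReal_natCast, ← ENNReal.ofReal_mul (by positivity),
      ENNReal.ofReal_le_ofReal_iff (by positivity)] at h3
    have h4 : (2 * ((d : ℝ) + 1)) ≤ S.card := by
      have h5 : r = 2 * (d + 1) * len := by rw [hlen]; field_simp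
      rw [h5] at h3
      exact le_of_mul_le_mul_right h3 hl0
    exact_mod_cast h4
  set e := S.orderEmbOfCardLe hcard with he
  have hmem : ∀ k, e k ∈ S := fun k => S.orderEmbOfCardLe_mem hcard k
  have hpt : ∀ k, ∃ y, y ∈ E ∩ I (e k) := fun k => (Finset.mem_filter.1 (hmem k)).2
  choose y hy using hpt
  refine ⟨fun j => y ⟨2 * j, by have := j.2; omega⟩, fun j => (hy _).1, ?_⟩
  intro i j hij
  have hij' : (i : ℕ) < j := hij
  have h1 := (hy ⟨2 * i, by have := i.2; omega⟩).2.2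
  have h2 := (hy ⟨2 * j, by have := j.2; omega⟩).2.1
  have h3 := mono_gap e e.strictMono (2 * j - 2 * i) ⟨2 * i, by have := i.2; omega⟩
    ⟨2 * j, by have := j.2; omega⟩ (by simp; omega)
  have h4 : ((e ⟨2 * i, by have := i.2; omega⟩ : ℕ) : ℝ) + (2 * (j : ℕ) - 2 * (i : ℕ)) ≤
      ((e ⟨2 * j, by have := j.2; omega⟩ : ℕ) : ℝ) := by
    have h5 : ((2 * (j : ℕ) - 2 * (i : ℕ) : ℕ) : ℝ) = 2 * (j : ℕ) - 2 * (i : ℕ) := by
      rw [Nat.cast_sub (by omega)]; push_cast; ring
    rw [← h5]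
    exact_mod_cast h3
  have h6 : (1 : ℝ) ≤ (j : ℕ) - (i : ℕ) := by
    have : ((i : ℕ) : ℝ) + 1 ≤ (j : ℕ) := by exact_mod_cast hij'
    linarith
  have h7 := mul_le_mul_of_nonneg_right h4 hl0.le
  have h8 := mul_le_mul_of_nonneg_right h6 hl0.le
  nlinarith

theorem prod_dist (d j : ℕ) (hj : j ≤ d) :
    ∏ i ∈ (range (d + 1)).erase j, |(j : ℝ) - i| = (j.factorial : ℝ) * (d - j).factorial := by
  have h1 : (range (d + 1)).erase j = (range j) ∪ ((range (d - j)).map (addRightEmbedding (j + 1))) := by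
    ext k
    simp only [Finset.mem_erase, Finset.mem_range, Finset.mem_union, Finset.mem_map,
      addRightEmbedding_apply]
    constructor
    · rintro ⟨h1, h2⟩
      rcases lt_or_gt_of_ne h1 with h | h
      · exact Or.inl h
      · exact Or.inr ⟨k - (j + 1), by omega, by omega⟩
    · rintro (h | ⟨a, ha, rfl⟩)
      · exact ⟨by omega, by omega⟩
      · exact ⟨by omega, by omega⟩
  have hdis : Disjoint (range j) ((range (d - j)).map (addRightEmbedding (j + 1))) := by
    rw [Finset.disjoint_left]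
    intro a ha hb
    simp only [Finset.mem_range, Finset.mem_map, addRightEmbedding_apply] at ha hb
    obtain ⟨b, _, rfl⟩ := hb
    omega
  rw [h1, Finset.prod_union hdis, Finset.prod_map]
  congr 1
  · rw [← Finset.prod_range_add_one_eq_factorial, Nat.cast_prod, ← Finset.prod_range_reflect]
    refine Finset.prod_congr rfl fun i hi => ?_
    have hi' := Finset.mem_range.1 hi
    have h2 : ((j - 1 - i : ℕ) : ℝ) = j - 1 - i := by
      rw [Nat.sub_sub, Nat.cast_sub (by omega)]; push_cast; ring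
    rw [h2]
    have h3 : (j : ℝ) - (j - 1 - i) = i + 1 := by ring
    rw [h3, abs_of_pos (by positivity)]
    push_cast; rfl
  · rw [← Finset.prod_range_add_one_eq_factorial, Nat.cast_prod]
    refine Finset.prod_congr rfl fun i _ => ?_
    simp only [addRightEmbedding_apply]
    push_cast
    have h3 : (j : ℝ) - (i + (j + 1)) = -(i + 1) := by ring
    rw [h3, abs_neg, abs_of_pos (by positivity)]

theorem sum_inv (d : ℕ) : ∑ j ∈ range (d + 1), ((j.factorial : ℝ) * (d - j).factorial)⁻¹ =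
    2 ^ d / d.factorial := by
  have h1 : ∀ j ∈ range (d + 1), ((j.factorial : ℝ) * (d - j).factorial)⁻¹ =
      (d.choose j : ℝ) / d.factorial := by
    intro j hj
    have hj' : j ≤ d := by have := Finset.mem_range.1 hj; omega
    rw [Nat.cast_choose ℝ hj']
    field_simp
  rw [Finset.sum_congr rfl h1, ← Finset.sum_div]
  congr 1
  have := Nat.sum_range_choose d
  exact_mod_cast this

/-- Lagrange interpolation -/
theorem lagrange (d : ℕ) (r K : ℝ) (hr : 0 < r) (hK : 0 ≤ K) (x : Fin (d + 1) → ℝ)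
    (hx : ∀ j, |x j| ≤ r)
    (hsep : ∀ i j : Fin (d + 1), i < j →
      (((j : ℕ) : ℝ) - ((i : ℕ) : ℝ)) * (r / (2 * (d + 1))) ≤ x j - x i)
    (P : ℂ[X]) (hP : P.degree < ((d + 1 : ℕ) : WithBot ℕ)) (hb : ∀ j, ‖P.eval (x j : ℂ)‖ ≤ K)
    (y : ℝ) (hy : |y| ≤ r) : ‖P.eval (y : ℂ)‖ ≤ (8 * Real.exp 1) ^ (d + 1) * K := by
  classical
  set len : ℝ := r / (2 * (d + 1)) with hlen
  have hl0 : 0 < len := by positivity
  have habs : ∀ i j : Fin (d + 1), |((j : ℕ) : ℝ) - ((i : ℕ) : ℝ)| * len ≤ |x j - x i| := by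
    intro i j
    rcases lt_trichotomy i j with h | h | h
    · have h1 : ((i : ℕ) : ℝ) ≤ (j : ℕ) := by exact_mod_cast (show (i : ℕ) ≤ j from h.le)
      rw [abs_of_nonneg (by linarith)]
      exact (hsep i j h).trans (le_abs_self _)
    · subst h; simp
    · have h1 : ((j : ℕ) : ℝ) ≤ (i : ℕ) := by exact_mod_cast (show (j : ℕ) ≤ i from h.le)
      rw [abs_sub_comm, abs_of_nonneg (by linarith), abs_sub_comm (x j)]
      exact (hsep j i h).trans (le_abs_self _)
  have hne : ∀ i j : Fin (d + 1), i ≠ j → 0 < |((j : ℕ) : ℝ) - ((i : ℕ) : ℝ)| := by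
    intro i j h
    rw [abs_pos, sub_ne_zero]
    intro h'
    apply h
    have : (j : ℕ) = i := by exact_mod_cast h'
    exact Fin.ext this.symm
  set v : Fin (d + 1) → ℂ := fun j => (x j : ℂ) with hv
  have hinj : Set.InjOn v ((Finset.univ : Finset (Fin (d + 1))) : Set (Fin (d + 1))) := by
    intro i _ j _ hij
    by_contra h
    have h1 := habs i j
    have h2 : x i = x j := by
      have : (x i : ℂ) = x j := hij
      exact_mod_cast this
    rw [h2, sub_self, abs_zero] at h1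
    have h3 := mul_pos (hne i j h) hl0
    linarith
  have hint := Lagrange.eq_interpolate (f := P) hinj (by simpa using hP)
  have hev : P.eval (y : ℂ) = ∑ j, P.eval (v j) * (Lagrange.basis univ v j).eval (y : ℂ) := by
    conv_lhs => rw [hint, Lagrange.interpolate_apply, Polynomial.eval_finsetSum]
    simp only [Polynomial.eval_mul, Polynomial.eval_C]
  have hbas : ∀ j : Fin (d + 1), ‖(Lagrange.basis univ v j).eval (y : ℂ)‖ ≤
      (4 * ((d : ℝ) + 1)) ^ d * (((j : ℕ).factorial : ℝ) * (d - (j : ℕ)).factorial)⁻¹ := by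
    intro j
    have hj : (j : ℕ) ≤ d := by have := j.2; omega
    unfold Lagrange.basis
    rw [Polynomial.eval_prod, norm_prod]
    have h1 : ∀ i ∈ (univ : Finset (Fin (d + 1))).erase j,
        ‖(Lagrange.basisDivisor (v j) (v i)).eval (y : ℂ)‖ ≤
          4 * ((d : ℝ) + 1) / |((j : ℕ) : ℝ) - ((i : ℕ) : ℝ)| := by
      intro i hi
      have hij : i ≠ j := (Finset.mem_erase.1 hi).1
      have h2 := hne i j hij
      unfold Lagrange.basisDivisor
      rw [Polynomial.eval_mul, Polynomial.eval_C, Polynomial.eval_sub, Polynomial.eval_X,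
        Polynomial.eval_C, norm_mul, norm_inv, hv]
      simp only
      rw [← Complex.ofReal_sub, ← Complex.ofReal_sub, Complex.norm_real, Complex.norm_real,
        Real.norm_eq_abs, Real.norm_eq_abs]
      have h3 : |y - x i| ≤ 2 * r := by
        have h4 := abs_sub y (x i)
        have h5 := hx i
        linarith
      have h4 : 0 < |((j : ℕ) : ℝ) - ((i : ℕ) : ℝ)| * len := mul_pos h2 hl0
      have h5 : |x j - x i|⁻¹ ≤ (|((j : ℕ) : ℝ) - ((i : ℕ) : ℝ)| * len)⁻¹ :=
        inv_anti₀ h4 (habs i j)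
      calc |x j - x i|⁻¹ * |y - x i| ≤ (|((j : ℕ) : ℝ) - ((i : ℕ) : ℝ)| * len)⁻¹ * (2 * r) :=
            mul_le_mul h5 h3 (abs_nonneg _) (by positivity)
        _ = _ := by
            rw [hlen]; field_simp; ring
    refine (Finset.prod_le_prod (fun i _ => norm_nonneg _) h1).trans ?_
    rw [Finset.prod_div_distrib, Finset.prod_const, Finset.card_erase_of_mem (Finset.mem_univ _),
      Finset.card_univ, Fintype.card_fin, Nat.add_sub_cancel, div_eq_mul_inv]
    refine le_of_eq ?_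
    congr 2
    rw [← prod_dist d j hj]
    have h6 : ∏ i ∈ (univ : Finset (Fin (d + 1))).erase j, |((j : ℕ) : ℝ) - ((i : ℕ) : ℝ)| =
        ∏ i ∈ ((univ : Finset (Fin (d + 1))).erase j).map Fin.valEmbedding,
          |((j : ℕ) : ℝ) - (i : ℝ)| := by
      rw [Finset.prod_map]; rfl
    rw [h6]
    refine Finset.prod_congr ?_ fun _ _ => rfl
    rw [Finset.map_erase]
    congr 1
    ext k
    simp only [Finset.mem_map, Finset.mem_univ, true_and, Fin.valEmbedding_apply,
      Finset.mem_range]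
    exact ⟨fun ⟨a, ha⟩ => ha ▸ a.2, fun h => ⟨⟨k, h⟩, rfl⟩⟩
  rw [hev]
  calc ‖∑ j, P.eval (v j) * (Lagrange.basis univ v j).eval (y : ℂ)‖
      ≤ ∑ j : Fin (d + 1), K * ((4 * ((d : ℝ) + 1)) ^ d *
          (((j : ℕ).factorial : ℝ) * (d - (j : ℕ)).factorial)⁻¹) := by
        refine (norm_sum_le _ _).trans (Finset.sum_le_sum fun j _ => ?_)
        rw [norm_mul]
        exact mul_le_mul (hb j) (hbas j) (norm_nonneg _) hK
    _ = K * (4 * ((d : ℝ) + 1)) ^ d * (2 ^ d / d.factorial) := by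
        rw [← sum_inv d, ← Finset.mul_sum, ← Finset.mul_sum, mul_assoc,
          Finset.sum_range (fun j => ((j.factorial : ℝ) * (d - j).factorial)⁻¹)]
    _ = K * (8 ^ d * (((d : ℝ) + 1) ^ d / d.factorial)) := by
        rw [mul_pow, show (8 : ℝ) = 4 * 2 by norm_num, mul_pow]; ring
    _ ≤ K * (8 ^ (d + 1) * Real.exp (d + 1)) := by
        refine mul_le_mul_of_nonneg_left ?_ hK
        refine mul_le_mul ?_ ?_ (by positivity) (by positivity)
        · exact pow_le_pow_right₀ (by norm_num) (Nat.le_succ d)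
        · exact Real.pow_div_factorial_le_exp _ (by positivity) d
    _ = (8 * Real.exp 1) ^ (d + 1) * K := by
        rw [mul_pow, ← Real.exp_nat_mul]; push_cast; ring_nf

end Pool.Agent.Z72.SH.R1

namespace Pool.Agent.Z72.SH

open R1 MeasureTheory

theorem t_R1 : S_R1 := by
  intro θ hθ hθ1
  set C1 : ℝ := 8 * Real.exp 1 with hC1
  have hC1' : 8 ≤ C1 := by
    rw [hC1]; have := Real.add_one_le_exp (1 : ℝ); linarith
  have hC10 : 0 < C1 := by linarith
  set l : ℝ := Real.log C1 with hl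
  have hl0 : 0 < l := Real.log_pos (by linarith)
  have hC1l : C1 = Real.exp l := (Real.exp_log hC10).symm
  set q : ℝ := l / θ with hq
  have hq0 : 0 < q := by positivity
  have hlq : l ≤ q := by rw [hq, le_div_iff₀ hθ]; nlinarith
  set r : ℝ := Real.exp (-q) / 2 with hr
  have hr0 : 0 < r := by positivity
  have hr8 : Real.exp (-q) ≤ 1 / 8 := by
    have h1 : Real.exp (-q) ≤ Real.exp (-l) := Real.exp_le_exp.2 (by linarith)
    rw [Real.exp_neg l, ← hC1l] at h1
    have h2 : C1⁻¹ ≤ 8⁻¹ := inv_anti₀ (by norm_num) hC1'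
    linarith
  have hr4 : r ≤ 1 / 4 := by rw [hr]; linarith
  refine ⟨r, 5 * C1 ^ 2, hr0, by linarith, by positivity, ?_⟩
  intro f M m E hf hM hm hmM hE hv hEm x hx
  have hM0 : 0 < M := hm.trans_le hmM
  set L : ℝ := Real.log (M / m) with hL
  have hL0 : 0 ≤ L := Real.log_nonneg (by rw [le_div_iff₀ hm]; linarith)
  set d : ℕ := ⌈L / q⌉₊ with hd
  have hd1 : L / q ≤ d := Nat.le_ceil _
  have hd2 : (d : ℝ) < L / q + 1 := Nat.ceil_lt_add_one (div_nonneg hL0 hq0.le)
  have hx' : |x| ≤ r := abs_le.2 ⟨hx.1, hx.2⟩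
  have h2r : 2 * r = Real.exp (-q) := by rw [hr]; ring
  -- the tail is small
  have htail : M * (2 * r) ^ (d + 1) ≤ m := by
    rw [h2r, ← Real.exp_nat_mul]
    have h1 : L ≤ d * q := by rwa [div_le_iff₀ hq0] at hd1
    have h2 : Real.exp (((d + 1 : ℕ) : ℝ) * -q) ≤ Real.exp (-L) := by
      apply Real.exp_le_exp.2
      push_cast
      nlinarith
    have h3 : Real.exp (-L) = m / M := by
      rw [hL, Real.exp_neg, Real.exp_log (by positivity), inv_div]
    rw [h3] at h2
    calc M * Real.exp (((d + 1 : ℕ) : ℝ) * -q) ≤ M * (m / M) :=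
          mul_le_mul_of_nonneg_left h2 hM0.le
      _ = m := by field_simp
  have hpow : C1 ^ (d + 1) ≤ C1 ^ 2 * (M / m) ^ θ := by
    have h1 : C1 ^ (d + 1) = Real.exp (((d + 1 : ℕ) : ℝ) * l) := by
      rw [Real.exp_nat_mul, ← hC1l]
    have h2 : C1 ^ 2 = Real.exp (2 * l) := by
      rw [show (2 : ℝ) * l = ((2 : ℕ) : ℝ) * l by norm_num, Real.exp_nat_mul, ← hC1l]
    have h3 : (M / m) ^ θ = Real.exp (L * θ) := by
      rw [hL, Real.exp_mul, Real.exp_log (by positivity)]
    rw [h1, h2, h3, ← Real.exp_add]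
    apply Real.exp_le_exp.2
    push_cast
    have h4 : (d : ℝ) + 1 ≤ L / q + 2 := by linarith
    have h5 : L / q * l = L * θ := by rw [hq]; field_simp
    have h6 := mul_le_mul_of_nonneg_right h4 hl0.le
    linarith
  obtain ⟨P, hPd, hP⟩ := taylor f M hf hM r hr0 hr4 d
  obtain ⟨y, hyE, hysep⟩ := points r hr0 E hE hv d
  have hyr : ∀ j, |y j| ≤ r := fun j => abs_le.2 ⟨(hE (hyE j)).1, (hE (hyE j)).2⟩
  have hPy : ∀ j, ‖P.eval (y j : ℂ)‖ ≤ 3 * m := by
    intro j
    have h1 := hP (y j) (hyr j)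
    have h2 := hEm (y j) (hyE j)
    have h3 : ‖P.eval (y j : ℂ)‖ ≤ ‖f (y j)‖ + ‖f (y j) - P.eval (y j : ℂ)‖ := by
      have := norm_sub_le (f (y j)) (f (y j) - P.eval (y j : ℂ))
      rwa [sub_sub_cancel] at this
    nlinarith
  have hPx := lagrange d r (3 * m) hr0 (by positivity) y hyr hysep P hPd hPy x hx'
  have h1 := hP x hx'
  have h2 : ‖f x‖ ≤ ‖P.eval (x : ℂ)‖ + ‖f x - P.eval (x : ℂ)‖ := by
    have := norm_add_le (P.eval (x : ℂ)) (f x - P.eval (x : ℂ))
    rwa [add_sub_cancel] at this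
  have hC1pow : 1 ≤ C1 ^ (d + 1) := one_le_pow₀ (by linarith)
  have h3 : ‖f x‖ ≤ 5 * C1 ^ (d + 1) * m := by
    rw [← hC1] at hPx
    nlinarith
  have h4 : M ^ θ * m ^ (1 - θ) = (M / m) ^ θ * m := by
    rw [Real.div_rpow hM0.le hm.le, Real.rpow_sub hm, Real.rpow_one]
    field_simp
  calc ‖f x‖ ≤ 5 * C1 ^ (d + 1) * m := h3
    _ ≤ 5 * (C1 ^ 2 * (M / m) ^ θ) * m := by
        refine mul_le_mul_of_nonneg_right ?_ hm.le
        linarith
    _ = 5 * C1 ^ 2 * (M ^ θ * m ^ (1 - θ)) := by rw [h4]; ring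
    _ = _ := by ring

end Pool.Agent.Z72.SH
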