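import Pool.Agent.Z72.SH.Stm

/-!
# Task R3 (helper25)
-/

set_option autoImplicit false

namespace Pool.Agent.Z72.SH

open Complex Filter Topology MeasureTheory Set

noncomputable section

namespace R3T

/-- An integral with a parameter, over a compact interval. -/
theorem param (g : ℂ → ℝ → ℂ) (w0 : ℂ) (r M S : ℝ) (hr : 0 < r) (hS : 0 ≤ S)
    (hc : ∀ w ∈ Metric.ball w0 r, ContinuousOn (g w) (Icc 0 S))
    (hM : ∀ w ∈ Metric.ball w0 r, ∀ t ∈ Icc 0 S, ‖g w t‖ ≤ M)
    (hd : ∀ w ∈ Metric.ball w0 r, ∀ t ∈ Icc 0 S, DifferentiableAt ℂ (fun w => g w t) w) :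
    DifferentiableAt ℂ (fun w => ∫ t in (0 : ℝ)..S, g w t) w0 := by
  have hI : uIoc 0 S ⊆ Icc 0 S := by rw [uIoc_of_le hS]; exact Ioc_subset_Icc_self
  have hmeas : ∀ w ∈ Metric.ball w0 r, AEStronglyMeasurable (g w) (volume.restrict (uIoc 0 S)) :=
    fun w hw => ((hc w hw).mono hI).aestronglyMeasurable measurableSet_uIoc
  have hsub : ∀ w ∈ Metric.ball w0 (r / 2), ∀ z ∈ Metric.closedBall w (r / 4), z ∈ Metric.ball w0 r := by
    intro w hw z hz
    rw [Metric.mem_ball] at hw ⊢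
    rw [Metric.mem_closedBall] at hz
    have := dist_triangle z w w0
    linarith
  have hw0 : w0 ∈ Metric.ball w0 (r / 2) := Metric.mem_ball_self (by linarith)
  refine (intervalIntegral.hasDerivAt_integral_of_dominated_loc_of_deriv_le (μ := volume)
    (F := g) (F' := fun w t => deriv (fun w => g w t) w) (s := Metric.ball w0 (r / 2))
    (bound := fun _ => M / (r / 4)) (Metric.ball_mem_nhds _ (by linarith)) ?_ ?_ ?_ ?_ ?_
    ?_).2.differentiableAt
  · filter_upwards [Metric.ball_mem_nhds w0 hr] with w hw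
    exact hmeas w hw
  · refine ContinuousOn.intervalIntegrable ?_
    rw [uIcc_of_le hS]
    exact hc w0 (Metric.mem_ball_self hr)
  · -- measurability of the derivative
    have hlim : ∀ t ∈ uIoc 0 S, Tendsto (fun n : ℕ => ((r / (n + 2 : ℝ) : ℝ) : ℂ)⁻¹ *
        (g (w0 + ((r / (n + 2 : ℝ) : ℝ) : ℂ)) t - g w0 t)) atTop
        (𝓝 (deriv (fun w => g w t) w0)) := by
      intro t ht
      have h1 := (hd w0 (Metric.mem_ball_self hr) t (hI ht)).hasDerivAt.tendsto_slope_zero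
      have h2 : Tendsto (fun n : ℕ => ((r / (n + 2 : ℝ) : ℝ) : ℂ)) atTop (𝓝[≠] 0) := by
        rw [tendsto_nhdsWithin_iff]
        constructor
        · rw [show (0 : ℂ) = ((0 : ℝ) : ℂ) by simp]
          refine (Complex.continuous_ofReal.tendsto 0).comp ?_
          refine Tendsto.div_atTop (a := r) tendsto_const_nhds ?_
          exact tendsto_atTop_add_const_right _ _ tendsto_natCast_atTop_atTop
        · refine Eventually.of_forall fun n => ?_
          rw [mem_compl_iff, mem_singleton_iff, Complex.ofReal_eq_zero]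
          positivity
      have h3 := h1.comp h2
      refine h3.congr fun n => ?_
      simp only [Function.comp, smul_eq_mul]
    have hmem : ∀ n : ℕ, w0 + ((r / (n + 2 : ℝ) : ℝ) : ℂ) ∈ Metric.ball w0 r := by
      intro n
      rw [Metric.mem_ball, dist_eq_norm, add_sub_cancel_left, Complex.norm_real, Real.norm_eq_abs,
        abs_of_pos (by positivity), div_lt_iff₀ (by positivity)]
      have : (0 : ℝ) ≤ n := Nat.cast_nonneg n
      nlinarith
    refine aestronglyMeasurable_of_tendsto_ae (u := atTop) (f := fun (n : ℕ) (t : ℝ) =>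
      ((r / (n + 2 : ℝ) : ℝ) : ℂ)⁻¹ * (g (w0 + ((r / (n + 2 : ℝ) : ℝ) : ℂ)) t - g w0 t)) ?_ ?_
    · intro n
      exact ((hmeas _ (hmem n)).sub (hmeas w0 (Metric.mem_ball_self hr))).const_mul _
    · exact (ae_restrict_iff' measurableSet_uIoc).2 (Eventually.of_forall hlim)
  · refine Eventually.of_forall fun t ht w hw => ?_
    refine Complex.norm_deriv_le_of_forall_mem_sphere_norm_le (by linarith) ?_ ?_
    · refine DifferentiableOn.diffContOnCl ?_
      rw [closure_ball _ (by linarith)]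
      intro z hz
      exact (hd z (hsub w hw z hz) t (hI ht)).differentiableWithinAt
    · intro z hz
      exact hM z (hsub w hw z (Metric.sphere_subset_closedBall hz)) t (hI ht)
  · exact intervalIntegrable_const
  · refine Eventually.of_forall fun t ht w hw => ?_
    refine (hd w ?_ t (hI ht)).hasDerivAt
    rw [Metric.mem_ball] at hw ⊢
    linarith

variable {k : ℕ}

/-- strict inequalities -/
def DomS (k : ℕ) (T : ℝ) : Set (Fin k ⊕ Fin k → ℂ) :=
  {c | (∀ i, |(c i).im| < 1 / 10) ∧ (∀ i, |(c i).re| < 3 * T) ∧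
    ∀ p q, p ≠ q → 1 < |(c p).re - (c q).re|}

theorem DomS_sub (k : ℕ) (T : ℝ) : DomS k T ⊆ Dom k T := fun _ hc =>
  ⟨fun i => (hc.1 i).le, fun i => (hc.2.1 i).le, fun p q h => (hc.2.2 p q h).le⟩

theorem DomS_open (k : ℕ) (T : ℝ) : IsOpen (DomS k T) := by
  have e : DomS k T = (⋂ i, {c | |(c i).im| < 1 / 10}) ∩ ((⋂ i, {c | |(c i).re| < 3 * T}) ∩
      ⋂ p, ⋂ q, {c | p ≠ q → 1 < |(c p).re - (c q).re|}) := by
    ext c
    simp [DomS]
  rw [e]
  refine IsOpen.inter (isOpen_iInter_of_finite fun i => ?_) (IsOpen.inter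
    (isOpen_iInter_of_finite fun i => ?_) (isOpen_iInter_of_finite fun p =>
      isOpen_iInter_of_finite fun q => ?_))
  · exact isOpen_lt (by fun_prop) continuous_const
  · exact isOpen_lt (by fun_prop) continuous_const
  · by_cases h : p = q
    · simp [h]
    · simp only [ne_eq, h, not_false_eq_true, forall_const]
      exact isOpen_lt continuous_const (by fun_prop)

theorem upd_ball {T : ℝ} {c : Fin k ⊕ Fin k → ℂ} (hc : c ∈ DomS k T) (i : Fin k ⊕ Fin k) :
    ∃ r : ℝ, 0 < r ∧ ∀ w ∈ Metric.ball (c i) r, Function.update c i w ∈ DomS k T := by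
  have h1 : Continuous (fun w : ℂ => Function.update c i w) := continuous_const.update i continuous_id
  have h2 : {w | Function.update c i w ∈ DomS k T} ∈ 𝓝 (c i) := by
    refine (DomS_open k T).preimage h1 |>.mem_nhds ?_
    rw [mem_preimage, Function.update_eq_self]
    exact hc
  obtain ⟨r, hr, h3⟩ := Metric.mem_nhds_iff.1 h2
  exact ⟨r, hr, fun w hw => h3 hw⟩

theorem comp_cont {T S : ℝ} (hST : S ≤ T) (G : (Fin k ⊕ Fin k → ℂ) × ℝ → ℂ)
    (hG : ContinuousOn G (Dom k T ×ˢ Icc 0 T)) (c : Fin k ⊕ Fin k → ℂ) (hc : c ∈ Dom k T) :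
    ContinuousOn (fun t : ℝ => G (c, t)) (Icc 0 S) := by
  have hpair : ContinuousOn (fun t : ℝ => ((c, t) : (Fin k ⊕ Fin k → ℂ) × ℝ)) (Icc 0 S) := by
    fun_prop
  have hmap : MapsTo (fun t : ℝ => ((c, t) : (Fin k ⊕ Fin k → ℂ) × ℝ)) (Icc 0 S)
      (Dom k T ×ˢ Icc 0 T) := fun t ht => ⟨hc, ht.1, ht.2.trans hST⟩
  exact hG.comp hpair hmap

theorem sub_cont {I : Set ℝ} (a b f : ℝ → ℂ) (κ : ℂ) (ha : ContinuousOn a I)
    (hb : ContinuousOn b I) (hf : ∀ t, f t = a t - κ * b t) : ContinuousOn f I := by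
  have e : f = fun t => a t - κ * b t := funext hf
  rw [e]
  exact ha.sub (continuousOn_const.mul hb)

end R3T

open R3T

theorem t_R3 (h1 : S_ZB) (h2 : S_QB) : S_R3 := by
  intro k
  obtain ⟨C1, A1, hC1, hZ⟩ := h1 k
  obtain ⟨C2, A2, hC2, hQ⟩ := h2 k
  obtain ⟨κ, hκ⟩ : ∃ κ : ℂ, κ = ((Nat.factorial k : ℂ) ^ 2)⁻¹ := ⟨_, rfl⟩
  refine ⟨C1 + ‖κ‖ * C2, A1 + A2 + 1, by positivity, fun T S c hT hS0 hST b1 b2 b3 => ?_⟩
  have hc : c ∈ DomS k T := ⟨b1, b2, b3⟩
  obtain ⟨cZ, kZ⟩ := hZ T hT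
  obtain ⟨cQ, kQ⟩ := hQ T hT
  have hT1 : 1 ≤ T := by linarith
  -- the integrand
  obtain ⟨f, hf⟩ : ∃ f : (Fin k ⊕ Fin k → ℂ) → ℝ → ℂ, ∀ c t, f c t =
      Zc c t - κ * Pool.Agent.TH612.CF.Qs t c := ⟨_, fun _ _ => rfl⟩
  have hFS : ∀ c, FS S c = ∫ t in (0 : ℝ)..S, f c t := by
    intro c
    unfold FS
    simp only [hf, hκ]
  have hcont : ∀ c ∈ Dom k T, ContinuousOn (f c) (Icc 0 S) := by
    intro c hc
    have q1 := comp_cont hST _ cZ c hc
    have q2 := comp_cont hST _ cQ c hc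
    exact sub_cont _ _ _ κ q1 q2 (hf c)
  have hbd : ∀ c ∈ Dom k T, ∀ t ∈ Icc 0 S, ‖f c t‖ ≤ (C1 + ‖κ‖ * C2) * T ^ (A1 + A2) := by
    intro c hc t ht
    rw [hf]
    refine (norm_sub_le _ _).trans ?_
    rw [norm_mul]
    have e1 := (kZ t c ht.1 (ht.2.trans hST) hc).1
    have e2 := (kQ t c ht.1 (ht.2.trans hST) hc).1
    have p1 : T ^ A1 ≤ T ^ (A1 + A2) := pow_le_pow_right₀ hT1 (by omega)
    have p2 : T ^ A2 ≤ T ^ (A1 + A2) := pow_le_pow_right₀ hT1 (by omega)
    have e3 : C1 * T ^ A1 ≤ C1 * T ^ (A1 + A2) := mul_le_mul_of_nonneg_left p1 hC1.le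
    have e4 : ‖κ‖ * ‖Pool.Agent.TH612.CF.Qs t c‖ ≤ ‖κ‖ * (C2 * T ^ (A1 + A2)) :=
      mul_le_mul_of_nonneg_left (e2.trans (mul_le_mul_of_nonneg_left p2 hC2.le)) (norm_nonneg _)
    calc ‖Zc c t‖ + ‖κ‖ * ‖Pool.Agent.TH612.CF.Qs t c‖ ≤ C1 * T ^ (A1 + A2) +
          ‖κ‖ * (C2 * T ^ (A1 + A2)) := add_le_add (e1.trans e3) e4
      _ = (C1 + ‖κ‖ * C2) * T ^ (A1 + A2) := by ring
  constructor
  · rw [hFS]
    have e1 := intervalIntegral.norm_integral_le_of_norm_le_const (a := 0) (b := S)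
      (f := f c) (C := (C1 + ‖κ‖ * C2) * T ^ (A1 + A2)) (fun t ht => by
        rw [uIoc_of_le hS0] at ht
        exact hbd c (DomS_sub k T hc) t ⟨ht.1.le, ht.2⟩)
    refine e1.trans ?_
    rw [sub_zero, abs_of_nonneg hS0, pow_succ, ← mul_assoc]
    exact mul_le_mul_of_nonneg_left hST (by positivity)
  · intro i
    obtain ⟨r, hr, hball⟩ := upd_ball hc i
    have e : (fun w => FS S (Function.update c i w)) = fun w => ∫ t in (0 : ℝ)..S,
        f (Function.update c i w) t := funext fun w => hFS _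
    rw [e]
    refine param (fun w t => f (Function.update c i w) t) (c i) r
      ((C1 + ‖κ‖ * C2) * T ^ (A1 + A2)) S hr hS0 ?_ ?_ ?_
    · intro w hw
      exact hcont _ (DomS_sub k T (hball w hw))
    · intro w hw t ht
      exact hbd _ (DomS_sub k T (hball w hw)) t ht
    · intro w hw t ht
      have d1 := (kZ t _ ht.1 (ht.2.trans hST) (DomS_sub k T (hball w hw))).2 i
      have d2 := (kQ t _ ht.1 (ht.2.trans hST) (DomS_sub k T (hball w hw))).2 i
      simp only [Function.update_idem, Function.update_self] at d1 d2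
      have e2 : (fun w => f (Function.update c i w) t) = fun w =>
          Zc (Function.update c i w) t - κ * Pool.Agent.TH612.CF.Qs t (Function.update c i w) :=
        funext fun w => hf _ _
      rw [e2]
      exact d1.sub (d2.const_mul κ)

end

end Pool.Agent.Z72.SH
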