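import Pool.Agent.Z72.SH.Stm
import Pool.Agent.TH805.GS.SW
import Pool.Agent.TH406.GS.CHI

set_option autoImplicit false

/-! # Project SH, part SWU: the terms with at least one swap are small on average over `[0,U]^{2k}` -/

namespace Pool.Agent.Z72.SH

open Complex Filter Topology MeasureTheory Set
open Pool.Agent.TH612.CF Pool.Agent.TH612.GS Pool.Agent.TH805.GS
open scoped ComplexConjugate

noncomputable section

theorem t_SWU : S_SWU := by
  intro k
  obtain ⟨C, T₀, hC, hT₀, hchi⟩ := Pool.Agent.TH406.GS.t_CHI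
  refine ⟨C, T₀, hC, hT₀, ?_⟩
  rintro T U S π hT hU hUT hS hST ⟨j₀, hj₀⟩
  have hT0 : 0 < T := by linarith
  set p : Fin k ⊕ Fin k := π (Sum.inr j₀) with hp
  set F : (Fin k ⊕ Fin k → ℝ) → ENNReal :=
    fun γ => ENNReal.ofReal (‖∫ t in (0:ℝ)..S, GG t (fun i => (γ i : ℂ)) π‖ ^ 2) with hF
  have hFm : Measurable F := by
    have : Continuous F := ENNReal.continuous_ofReal.comp (((cont_int π S).norm).pow 2)
    exact this.measurable
  have hin : ∀ γ : Fin k ⊕ Fin k → ℝ,
      ∫⁻ y, F (Function.update γ p y) ∂(volume.restrict (Icc 0 U)) ≤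
        ENNReal.ofReal (C * T ^ 2 * Real.log T ^ 2) := by
    intro γ
    have h1 := hchi T S (fun t => RR j₀ t γ π) hT hS hST (cont_RR j₀ γ π)
      (fun t => norm_RR j₀ t γ π)
    have hc : Continuous fun y : ℝ =>
        ‖∫ t in (0:ℝ)..S, chi (1 / 2 + I * (t + y)) * RR j₀ t γ π‖ ^ 2 := by
      refine Continuous.pow (Continuous.norm ?_) 2
      refine intervalIntegral.continuous_parametric_intervalIntegral_of_continuous'
        (f := fun (y t : ℝ) => chi (1 / 2 + I * ((t : ℂ) + (y : ℂ))) * RR j₀ t γ π) ?_ 0 S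
      have h2 : Continuous fun q : ℝ × ℝ => chi (1 / 2 + I * ((q.2 : ℂ) + (q.1 : ℂ))) := by
        have h := cont_chi.comp (g := fun u : ℝ => chi (1 / 2 + I * (u : ℂ)))
          (f := fun q : ℝ × ℝ => q.2 + q.1) (by fun_prop)
        refine h.congr fun t => ?_
        simp only [Function.comp]
        congr 1
        push_cast
        ring
      exact h2.mul ((cont_RR j₀ γ π).comp continuous_snd)
    have h3 : ∀ y : ℝ, F (Function.update γ p y) =
        ENNReal.ofReal (‖∫ t in (0:ℝ)..S, chi (1 / 2 + I * (t + y)) * RR j₀ t γ π‖ ^ 2) := by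
      intro y
      simp only [hF]
      congr 3
      refine intervalIntegral.integral_congr fun t _ => ?_
      rw [GG_split j₀ t (Function.update γ p y) π hj₀, RR_update, ← hp, Function.update_self]
    simp only [h3]
    rw [← ofReal_integral_eq_lintegral_ofReal]
    · refine ENNReal.ofReal_le_ofReal ?_
      rw [integral_Icc_eq_integral_Ioc, ← intervalIntegral.integral_of_le hU.le]
      refine le_trans ?_ h1
      exact intervalIntegral.integral_mono_interval le_rfl hU.le hUT
        (Eventually.of_forall fun y => by positivity) (hc.intervalIntegrable _ _)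
    · exact hc.continuousOn.integrableOn_compact isCompact_Icc
    · exact Eventually.of_forall fun y => by positivity
  change ∫⁻ γ, F γ ∂(Measure.pi fun _ => volume.restrict (Icc 0 U)) ≤ _
  rw [lintegral_eq_lmarginal_univ (fun _ => (0 : ℝ)), lmarginal_erase' F hFm (Finset.mem_univ p)]
  refine (lmarginal_mono (g := fun _ => ENNReal.ofReal (C * T ^ 2 * Real.log T ^ 2))
    (fun γ => hin γ) _).trans ?_
  unfold lmarginal
  rw [lintegral_const, Measure.pi_univ]
  have hm : (∏ i : {x // x ∈ Finset.univ.erase p}, (volume.restrict (Icc 0 U) : Measure ℝ) univ)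
      = ENNReal.ofReal U ^ (2 * k - 1) := by
    rw [Measure.restrict_apply_univ, Real.volume_Icc, sub_zero, Finset.prod_const]
    congr 1
    rw [Finset.card_univ, Fintype.card_coe, Finset.card_erase_of_mem (Finset.mem_univ _),
      Finset.card_univ, Fintype.card_sum, Fintype.card_fin]
    omega
  rw [hm, ← ENNReal.ofReal_pow hU.le, ← ENNReal.ofReal_mul (by positivity)]
  refine ENNReal.ofReal_le_ofReal (le_of_eq ?_)
  ring

end

end Pool.Agent.Z72.SH
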