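import Pool.Agent.Z72.SH.Stm
import Pool.Agent.N879.PU.Em
import Pool.Agent.TH612.GS.Z

set_option autoImplicit false
set_option linter.all false

open Complex Filter Topology MeasureTheory Set

namespace Pool.Agent.Z72.SH.Vs

open Pool.Agent.TH612.GS (z PN)

/-- Abel summation, decreasing weights -/
theorem abel_anti (u : ℕ → ℝ) (a : ℕ → ℂ) (B : ℝ) (M : ℕ) (hB0 : 0 ≤ B) (hu : ∀ n, 0 ≤ u n)
    (hanti : ∀ n, u (n + 1) ≤ u n) (hB : ∀ m, m ≤ M → ‖∑ n ∈ Finset.range m, a n‖ ≤ B) :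
    ‖∑ n ∈ Finset.range M, (u n : ℂ) * a n‖ ≤ u 0 * B := by
  rcases Nat.eq_zero_or_pos M with rfl | hM
  · simp only [Finset.range_zero, Finset.sum_empty, norm_zero]
    exact mul_nonneg (hu 0) hB0
  · have h1 := Finset.sum_range_by_parts (fun n => (u n : ℂ)) a M
    simp only [smul_eq_mul] at h1
    rw [h1]
    have h2 : ‖∑ i ∈ Finset.range (M - 1), ((u (i + 1) : ℂ) - (u i : ℂ)) * ∑ j ∈ Finset.range (i + 1), a j‖ ≤
        (u 0 - u (M - 1)) * B := by
      calc _ ≤ ∑ i ∈ Finset.range (M - 1), (u i - u (i + 1)) * B := by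
            refine (norm_sum_le _ _).trans (Finset.sum_le_sum ?_)
            intro i hi
            rw [Finset.mem_range] at hi
            rw [norm_mul]
            refine mul_le_mul ?_ (hB _ (by omega)) (norm_nonneg _) (by linarith [hanti i])
            rw [← Complex.ofReal_sub, Complex.norm_real, Real.norm_eq_abs, abs_sub_comm]
            rw [abs_of_nonneg (by linarith [hanti i])]
        _ = (u 0 - u (M - 1)) * B := by
            rw [← Finset.sum_mul, Finset.sum_range_sub']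
    have h3 : ‖(u (M - 1) : ℂ) * ∑ i ∈ Finset.range M, a i‖ ≤ u (M - 1) * B := by
      rw [norm_mul, Complex.norm_real, Real.norm_eq_abs, abs_of_nonneg (hu _)]
      exact mul_le_mul_of_nonneg_left (hB _ le_rfl) (hu _)
    calc _ ≤ _ := norm_sub_le _ _
      _ ≤ u (M - 1) * B + (u 0 - u (M - 1)) * B := add_le_add h3 h2
      _ = u 0 * B := by ring

/-- Abel summation, increasing weights -/
theorem abel_mono (v : ℕ → ℝ) (a : ℕ → ℂ) (B V : ℝ) (M : ℕ) (hB0 : 0 ≤ B) (hv : ∀ n, 0 ≤ v n)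
    (hmono : ∀ n, v n ≤ v (n + 1)) (hV0 : 0 ≤ V) (hV : ∀ n, n < M → v n ≤ V)
    (hB : ∀ m, m ≤ M → ‖∑ n ∈ Finset.range m, a n‖ ≤ B) :
    ‖∑ n ∈ Finset.range M, (v n : ℂ) * a n‖ ≤ 2 * V * B := by
  rcases Nat.eq_zero_or_pos M with rfl | hM
  · simp only [Finset.range_zero, Finset.sum_empty, norm_zero]
    positivity
  · have h1 := Finset.sum_range_by_parts (fun n => (v n : ℂ)) a M
    simp only [smul_eq_mul] at h1
    rw [h1]
    have h2 : ‖∑ i ∈ Finset.range (M - 1), ((v (i + 1) : ℂ) - (v i : ℂ)) * ∑ j ∈ Finset.range (i + 1), a j‖ ≤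
        (v (M - 1) - v 0) * B := by
      calc _ ≤ ∑ i ∈ Finset.range (M - 1), (v (i + 1) - v i) * B := by
            refine (norm_sum_le _ _).trans (Finset.sum_le_sum ?_)
            intro i hi
            rw [Finset.mem_range] at hi
            rw [norm_mul]
            refine mul_le_mul ?_ (hB _ (by omega)) (norm_nonneg _) (by linarith [hmono i])
            rw [← Complex.ofReal_sub, Complex.norm_real, Real.norm_eq_abs]
            rw [abs_of_nonneg (by linarith [hmono i])]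
        _ = (v (M - 1) - v 0) * B := by
            rw [← Finset.sum_mul, Finset.sum_range_sub]
    have h3 : ‖(v (M - 1) : ℂ) * ∑ i ∈ Finset.range M, a i‖ ≤ v (M - 1) * B := by
      rw [norm_mul, Complex.norm_real, Real.norm_eq_abs, abs_of_nonneg (hv _)]
      exact mul_le_mul_of_nonneg_left (hB _ le_rfl) (hv _)
    have h4 : v (M - 1) ≤ V := hV _ (by omega)
    calc _ ≤ _ := norm_sub_le _ _
      _ ≤ v (M - 1) * B + (v (M - 1) - v 0) * B := add_le_add h3 h2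
      _ ≤ V * B + (V - 0) * B := by
          have := hv 0
          gcongr
      _ = 2 * V * B := by ring

/-- one block -/
theorem block (t G B : ℝ) (h N M : ℕ) (hG : 0 ≤ G) (hh : 1 ≤ h) (hN : h ≤ N) (hM : M ≤ N) (hB0 : 0 ≤ B)
    (hB : ∀ m, m ≤ M → ‖∑ n ∈ Finset.range m, eph t h (N + n)‖ ≤ B) :
    ‖∑ n ∈ Finset.range M, (wg G h (N + n) : ℂ) * eph t h (N + n)‖ ≤
      2 / N * Real.exp (-(G * h / N) ^ 2 / 64) * B := by
  have hN1 : (1 : ℝ) ≤ N := by exact_mod_cast hh.trans hN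
  have hh1 : (1 : ℝ) ≤ h := by exact_mod_cast hh
  have hhN : (h : ℝ) ≤ N := by exact_mod_cast hN
  set u : ℕ → ℝ := fun n => (((N + n : ℕ) : ℝ) * (((N + n : ℕ) : ℝ) + h)) ^ (-(1 / 2) : ℝ) with hu
  set v : ℕ → ℝ := fun n => Real.exp (-(G * Real.log (1 + (h : ℝ) / ((N + n : ℕ) : ℝ))) ^ 2 / 4) with hv
  have hpos : ∀ n : ℕ, (0 : ℝ) < ((N + n : ℕ) : ℝ) := by
    intro n
    push_cast
    positivity
  have e1 : ∀ n, (wg G h (N + n) : ℂ) * eph t h (N + n) = (u n : ℂ) * ((v n : ℂ) * eph t h (N + n)) := by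
    intro n
    unfold wg
    rw [Complex.ofReal_mul, mul_assoc]
  have e2 : ∑ n ∈ Finset.range M, (wg G h (N + n) : ℂ) * eph t h (N + n) =
      ∑ n ∈ Finset.range M, (u n : ℂ) * ((v n : ℂ) * eph t h (N + n)) := Finset.sum_congr rfl fun n _ => e1 n
  rw [e2]
  have hV : ∀ n, n < M → v n ≤ Real.exp (-(G * h / N) ^ 2 / 64) := by
    intro n hn
    show Real.exp (-(G * Real.log (1 + (h : ℝ) / ((N + n : ℕ) : ℝ))) ^ 2 / 4) ≤ _
    refine Real.exp_le_exp.mpr ?_
    have h1 : (((N + n : ℕ) : ℝ)) ≤ 2 * N := by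
      push_cast
      have : (n : ℝ) ≤ N := by exact_mod_cast (hn.le.trans hM)
      linarith
    have h2 : (h : ℝ) / (4 * N) ≤ Real.log (1 + (h : ℝ) / ((N + n : ℕ) : ℝ)) := by
      have h3 : (h : ℝ) / (2 * N) ≤ (h : ℝ) / ((N + n : ℕ) : ℝ) :=
        div_le_div_of_nonneg_left (by linarith) (hpos n) h1
      have h4 : 1 - (1 + (h : ℝ) / (2 * N))⁻¹ ≤ Real.log (1 + (h : ℝ) / (2 * N)) :=
        Real.one_sub_inv_le_log_of_pos (by positivity)
      have h5 : Real.log (1 + (h : ℝ) / (2 * N)) ≤ Real.log (1 + (h : ℝ) / ((N + n : ℕ) : ℝ)) :=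
        Real.log_le_log (by positivity) (by linarith)
      have h6 : (h : ℝ) / (4 * N) ≤ 1 - (1 + (h : ℝ) / (2 * N))⁻¹ := by
        have h7 : (1 + (h : ℝ) / (2 * N))⁻¹ = 2 * N / (2 * N + h) := by
          field_simp
        rw [h7, div_le_iff₀ (by positivity)]
        have h8 : (1 - 2 * (N : ℝ) / (2 * N + h)) * (4 * N) = 4 * N * h / (2 * N + h) := by
          field_simp
          ring
        rw [h8, le_div_iff₀ (by positivity)]
        nlinarith
      linarith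
    have h9 : G * h / N / 4 ≤ G * Real.log (1 + (h : ℝ) / ((N + n : ℕ) : ℝ)) := by
      calc G * h / N / 4 = G * ((h : ℝ) / (4 * N)) := by
            field_simp
        _ ≤ _ := mul_le_mul_of_nonneg_left h2 hG
    have h10 : 0 ≤ G * h / N / 4 := by positivity
    have h11 : (G * h / N / 4) ^ 2 ≤ (G * Real.log (1 + (h : ℝ) / ((N + n : ℕ) : ℝ))) ^ 2 :=
      pow_le_pow_left₀ h10 h9 2
    have h12 : (G * h / N / 4) ^ 2 = (G * h / N) ^ 2 / 16 := by ring
    rw [h12] at h11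
    linarith
  have hvm : ∀ n, v n ≤ v (n + 1) := by
    intro n
    show Real.exp _ ≤ Real.exp _
    refine Real.exp_le_exp.mpr ?_
    have h3 : (h : ℝ) / ((N + (n + 1) : ℕ) : ℝ) ≤ (h : ℝ) / ((N + n : ℕ) : ℝ) := by
      refine div_le_div_of_nonneg_left (by linarith) (hpos n) ?_
      push_cast
      linarith
    have h5 : Real.log (1 + (h : ℝ) / ((N + (n + 1) : ℕ) : ℝ)) ≤ Real.log (1 + (h : ℝ) / ((N + n : ℕ) : ℝ)) := by
      refine Real.log_le_log ?_ (by linarith)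
      have := hpos (n + 1)
      positivity
    have h6 : 0 ≤ Real.log (1 + (h : ℝ) / ((N + (n + 1) : ℕ) : ℝ)) := by
      refine Real.log_nonneg ?_
      have := hpos (n + 1)
      have : 0 ≤ (h : ℝ) / ((N + (n + 1) : ℕ) : ℝ) := by positivity
      linarith
    have h7 : (G * Real.log (1 + (h : ℝ) / ((N + (n + 1) : ℕ) : ℝ))) ^ 2 ≤
        (G * Real.log (1 + (h : ℝ) / ((N + n : ℕ) : ℝ))) ^ 2 :=
      pow_le_pow_left₀ (mul_nonneg hG h6) (mul_le_mul_of_nonneg_left h5 hG) 2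
    linarith
  have hum : ∀ n, u (n + 1) ≤ u n := by
    intro n
    show (((N + (n + 1) : ℕ) : ℝ) * (((N + (n + 1) : ℕ) : ℝ) + h)) ^ (-(1 / 2) : ℝ) ≤
      (((N + n : ℕ) : ℝ) * (((N + n : ℕ) : ℝ) + h)) ^ (-(1 / 2) : ℝ)
    have := hpos n
    refine Real.rpow_le_rpow_of_nonpos (by positivity) ?_ (by norm_num)
    have h8 : ((N + n : ℕ) : ℝ) ≤ ((N + (n + 1) : ℕ) : ℝ) := by
      push_cast
      linarith
    gcongr
  have hu0 : ∀ n, 0 ≤ u n := by
    intro n
    have := hpos n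
    exact Real.rpow_nonneg (by positivity) _
  have hv0 : ∀ n, 0 ≤ v n := fun n => (Real.exp_pos _).le
  have k1 := abel_anti u (fun n => (v n : ℂ) * eph t h (N + n)) (2 * Real.exp (-(G * h / N) ^ 2 / 64) * B) M
    (by positivity) hu0 hum (fun m hm => abel_mono v (fun n => eph t h (N + n)) B _ m hB0 hv0 hvm
      (Real.exp_pos _).le (fun n hn => hV n (hn.trans_le hm)) (fun m' hm' => hB m' (hm'.trans hm)))
  have hu00 : u 0 ≤ 1 / N := by
    show (((N + 0 : ℕ) : ℝ) * (((N + 0 : ℕ) : ℝ) + h)) ^ (-(1 / 2) : ℝ) ≤ 1 / N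
    have h9 : (N : ℝ) ^ 2 ≤ ((N + 0 : ℕ) : ℝ) * (((N + 0 : ℕ) : ℝ) + h) := by
      push_cast
      nlinarith
    calc _ ≤ ((N : ℝ) ^ 2) ^ (-(1 / 2) : ℝ) :=
          Real.rpow_le_rpow_of_nonpos (by positivity) h9 (by norm_num)
      _ = 1 / N := by
          rw [← Real.rpow_natCast (N : ℝ) 2, ← Real.rpow_mul (by positivity)]
          norm_num
          rw [Real.rpow_neg_one]
  calc _ ≤ u 0 * (2 * Real.exp (-(G * h / N) ^ 2 / 64) * B) := k1
    _ ≤ 1 / N * (2 * Real.exp (-(G * h / N) ^ 2 / 64) * B) :=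
        mul_le_mul_of_nonneg_right hu00 (by positivity)
    _ = _ := by ring

/-- powers beat exponentials -/
theorem exp_bound (ε : ℝ) (hε : 0 < ε) : ∃ C : ℝ, 0 < C ∧ ∀ T : ℝ, 1 ≤ T →
    Real.exp (-(T ^ ε) ^ 2 / 64) ≤ C / T := by
  obtain ⟨m, hm⟩ := exists_nat_ge (1 / (2 * ε))
  refine ⟨64 ^ m * (m.factorial : ℝ), by positivity, fun T hT => ?_⟩
  have hT0 : (0 : ℝ) < T := by linarith
  have h1 : ((T ^ ε) ^ 2 / 64) ^ m / (m.factorial : ℝ) ≤ Real.exp ((T ^ ε) ^ 2 / 64) :=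
    Real.pow_div_factorial_le_exp _ (by positivity) m
  have h2 : T ≤ ((T ^ ε) ^ 2) ^ m := by
    rw [← pow_mul, ← Real.rpow_natCast (T ^ ε) (2 * m), ← Real.rpow_mul hT0.le]
    calc T = T ^ (1 : ℝ) := (Real.rpow_one T).symm
      _ ≤ _ := by
        refine Real.rpow_le_rpow_of_exponent_le hT ?_
        push_cast
        rw [div_le_iff₀ (by positivity)] at hm
        linarith
  have h3 : T / (64 ^ m * (m.factorial : ℝ)) ≤ Real.exp ((T ^ ε) ^ 2 / 64) := by
    refine le_trans ?_ h1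
    rw [div_pow, div_div]
    exact div_le_div_of_nonneg_right h2 (by positivity)
  have h4 : -(T ^ ε) ^ 2 / 64 = -((T ^ ε) ^ 2 / 64) := by ring
  rw [h4, Real.exp_neg, inv_le_comm₀ (Real.exp_pos _) (by positivity), inv_div]
  exact h3

/-- one block, final bound -/
theorem block_bound (hES : S_ES) (ε : ℝ) (hε : 0 < ε) : ∃ C : ℝ, 0 < C ∧ ∀ (T G : ℝ) (h N M : ℕ),
    3 ≤ T → T ^ (1 / 3 : ℝ) ≤ G → 1 ≤ h → h ≤ N → (N : ℝ) ≤ 8 * T → M ≤ N →
    ‖∑ n ∈ Finset.range M, (wg G h (N + n) : ℂ) * eph T h (N + n)‖ ≤ C * (T ^ ε) ^ 3 / h := by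
  obtain ⟨C1, hC1, H1⟩ := hES ε hε
  obtain ⟨C2, hC2, H2⟩ := exp_bound ε hε
  refine ⟨16 * C2 + 4 * 8 ^ ε * C1 + 16 * C1, by positivity, ?_⟩
  intro T G h N M hT hG hh hN hNT hM
  have hT0 : (0 : ℝ) < T := by linarith
  set p := T ^ ε with hp
  have hp1 : 1 ≤ p := Real.one_le_rpow (by linarith) hε.le
  set q := T ^ (1 / 3 : ℝ) with hq
  have hq1 : 1 ≤ q := Real.one_le_rpow (by linarith) (by norm_num)
  have hq3 : q ^ 3 = T := by
    rw [hq, ← Real.rpow_natCast, ← Real.rpow_mul hT0.le]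
    norm_num
  have hN1 : (1 : ℝ) ≤ N := by exact_mod_cast hh.trans hN
  have hh1 : (1 : ℝ) ≤ h := by exact_mod_cast hh
  have hhN : (h : ℝ) ≤ N := by exact_mod_cast hN
  have hG0 : 0 < G := by linarith
  have hp3 : 1 ≤ p ^ 3 := one_le_pow₀ hp1
  have he1 : Real.exp (-(G * h / N) ^ 2 / 64) ≤ 1 := by
    refine Real.exp_le_one_iff.mpr ?_
    have := sq_nonneg (G * h / N)
    linarith
  have fin : ∀ B : ℝ, 0 ≤ B → (∀ m, m ≤ M → ‖∑ n ∈ Finset.range m, eph T h (N + n)‖ ≤ B) →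
      ‖∑ n ∈ Finset.range M, (wg G h (N + n) : ℂ) * eph T h (N + n)‖ ≤ 2 / N * B := by
    intro B hB0 hB
    refine (block T G B h N M hG0.le hh hN hM hB0 hB).trans ?_
    have h5 : 2 / (N : ℝ) * Real.exp (-(G * h / N) ^ 2 / 64) ≤ 2 / N * 1 :=
      mul_le_mul_of_nonneg_left he1 (by positivity)
    calc _ ≤ (2 / (N : ℝ) * 1) * B := mul_le_mul_of_nonneg_right h5 hB0
      _ = _ := by ring
  rcases le_or_gt ((N : ℝ) * p) (h * G) with hc1 | hc1
  · -- small blocks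
    have hB : ∀ m, m ≤ M → ‖∑ n ∈ Finset.range m, eph T h (N + n)‖ ≤ N := by
      intro m hm
      calc _ ≤ ∑ n ∈ Finset.range m, (1 : ℝ) := by
            refine norm_sum_le_of_le _ fun n _ => ?_
            unfold eph
            rw [mul_comm I, Complex.norm_exp_ofReal_mul_I]
        _ = m := by simp
        _ ≤ N := by exact_mod_cast hm.trans hM
    have hk := block T G N h N M hG0.le hh hN hM (by linarith) hB
    have h6 : Real.exp (-(G * h / N) ^ 2 / 64) ≤ Real.exp (-p ^ 2 / 64) := by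
      refine Real.exp_le_exp.mpr ?_
      have h7 : p ≤ G * h / N := by
        rw [le_div_iff₀ (by linarith)]
        linarith
      have h8 : p ^ 2 ≤ (G * h / N) ^ 2 := pow_le_pow_left₀ (by linarith) h7 2
      linarith
    have h9 := H2 T (by linarith)
    calc _ ≤ 2 / (N : ℝ) * Real.exp (-(G * h / N) ^ 2 / 64) * N := hk
      _ = 2 * Real.exp (-(G * h / N) ^ 2 / 64) := by
          field_simp
      _ ≤ 2 * (C2 / T) := by linarith
      _ ≤ 16 * C2 / h := by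
          rw [← mul_div_assoc, div_le_div_iff₀ hT0 (by linarith)]
          nlinarith
      _ ≤ (16 * C2 + 4 * 8 ^ ε * C1 + 16 * C1) * p ^ 3 / h := by
          refine div_le_div_of_nonneg_right ?_ (by linarith)
          have h10 : 0 ≤ 4 * (8 : ℝ) ^ ε * C1 + 16 * C1 := by positivity
          nlinarith
  · rcases le_or_gt (T * h) ((N : ℝ) ^ 2) with hc2 | hc2
    · -- large blocks
      have hk := fin (C1 * ((N : ℝ) ^ 2 / (T * h))) (by positivity) (fun m hm =>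
        (H1 T h N m (by linarith) hh hN (hm.trans hM)).2 hc2)
      calc _ ≤ 2 / (N : ℝ) * (C1 * ((N : ℝ) ^ 2 / (T * h))) := hk
        _ = 2 * C1 * N / T / h := by
            field_simp
        _ ≤ 16 * C1 / h := by
            refine div_le_div_of_nonneg_right ?_ (by linarith)
            rw [div_le_iff₀ hT0]
            nlinarith
        _ ≤ (16 * C2 + 4 * 8 ^ ε * C1 + 16 * C1) * p ^ 3 / h := by
            refine div_le_div_of_nonneg_right ?_ (by linarith)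
            have h10 : 0 ≤ 4 * (8 : ℝ) ^ ε * C1 + 16 * C2 := by positivity
            nlinarith
    · -- middle
      have a1 : h * q < N * p := lt_of_le_of_lt (mul_le_mul_of_nonneg_left hG (by linarith)) hc1
      have a2 : (N : ℝ) < q ^ 2 * p := by
        have h11 : (N : ℝ) ^ 2 * q < q ^ 3 * (N * p) := by
          calc (N : ℝ) ^ 2 * q < (T * h) * q := mul_lt_mul_of_pos_right hc2 (by linarith)
            _ = q ^ 3 * (h * q) := by rw [hq3]; ring
            _ ≤ q ^ 3 * (N * p) := mul_le_mul_of_nonneg_left a1.le (by positivity)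
        have h12 : (N : ℝ) * (N * q) < (q ^ 2 * p * q) * N := by nlinarith
        have h13 : (N : ℝ) * q < q ^ 2 * p * q := by
          have : (N * q) * (N : ℝ) < (q ^ 2 * p * q) * N := by linarith
          exact lt_of_mul_lt_mul_right this (by linarith)
        exact lt_of_mul_lt_mul_right h13 (by linarith)
      have a3 : (h : ℝ) < q * p ^ 2 := by
        have h14 : h * q < (q * p ^ 2) * q := by
          calc h * q < N * p := a1
            _ ≤ (q ^ 2 * p) * p := mul_le_mul_of_nonneg_right a2.le (by linarith)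
            _ = (q * p ^ 2) * q := by ring
        exact lt_of_mul_lt_mul_right h14 (by linarith)
      have a4 : (N : ℝ) * h ≤ T * p ^ 4 := by
        calc (N : ℝ) * h ≤ (q ^ 2 * p) * (q * p ^ 2) :=
              mul_le_mul a2.le a3.le (by linarith) (by positivity)
          _ = T * p ^ 3 := by rw [← hq3]; ring
          _ ≤ T * p ^ 4 := by
              refine mul_le_mul_of_nonneg_left ?_ hT0.le
              exact pow_le_pow_right₀ hp1 (by norm_num)
      have a5 : T * (h : ℝ) ^ 3 ≤ N ^ 3 * p ^ 4 := by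
        calc T * (h : ℝ) ^ 3 = (h * q) ^ 3 := by rw [← hq3]; ring
          _ ≤ (N * p) ^ 3 := pow_le_pow_left₀ (by positivity) a1.le 3
          _ = N ^ 3 * p ^ 3 := by ring
          _ ≤ N ^ 3 * p ^ 4 := by
              refine mul_le_mul_of_nonneg_left ?_ (by positivity)
              exact pow_le_pow_right₀ hp1 (by norm_num)
      have b1 : (T * h / N) ^ (1 / 2 : ℝ) ≤ N * p ^ 2 / h := by
        rw [← Real.sqrt_eq_rpow]
        refine Real.sqrt_le_iff.mpr ⟨by positivity, ?_⟩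
        rw [div_pow, div_le_div_iff₀ (by linarith) (by positivity)]
        calc T * h * h ^ 2 = T * (h : ℝ) ^ 3 := by ring
          _ ≤ N ^ 3 * p ^ 4 := a5
          _ = (N * p ^ 2) ^ 2 * N := by ring
      have b2 : ((N : ℝ) ^ 3 / (T * h)) ^ (1 / 2 : ℝ) ≤ N * p ^ 2 / h := by
        rw [← Real.sqrt_eq_rpow]
        refine Real.sqrt_le_iff.mpr ⟨by positivity, ?_⟩
        rw [div_pow, div_le_div_iff₀ (by positivity) (by positivity)]
        calc (N : ℝ) ^ 3 * h ^ 2 = (N ^ 2 * h) * (N * h) := by ring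
          _ ≤ (N ^ 2 * h) * (T * p ^ 4) := mul_le_mul_of_nonneg_left a4 (by positivity)
          _ = (N * p ^ 2) ^ 2 * (T * h) := by ring
      have b3 : (N : ℝ) ^ ε ≤ 8 ^ ε * p := by
        calc (N : ℝ) ^ ε ≤ (8 * T) ^ ε := Real.rpow_le_rpow (by linarith) hNT hε.le
          _ = 8 ^ ε * p := Real.mul_rpow (by norm_num) hT0.le
      have hk := fin (C1 * (N : ℝ) ^ ε * ((T * h / N) ^ (1 / 2 : ℝ) + ((N : ℝ) ^ 3 / (T * h)) ^ (1 / 2 : ℝ)))
        (by positivity) (fun m hm => (H1 T h N m (by linarith) hh hN (hm.trans hM)).1)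
      calc _ ≤ 2 / (N : ℝ) * (C1 * (N : ℝ) ^ ε *
            ((T * h / N) ^ (1 / 2 : ℝ) + ((N : ℝ) ^ 3 / (T * h)) ^ (1 / 2 : ℝ))) := hk
        _ ≤ 2 / (N : ℝ) * (C1 * (8 ^ ε * p) * (N * p ^ 2 / h + N * p ^ 2 / h)) := by gcongr
        _ = (4 * 8 ^ ε * C1) * p ^ 3 / h := by
            field_simp
            ring
        _ ≤ (16 * C2 + 4 * 8 ^ ε * C1 + 16 * C1) * p ^ 3 / h := by
            refine div_le_div_of_nonneg_right ?_ (by linarith)
            refine mul_le_mul_of_nonneg_right ?_ (by positivity)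
            have h10 : 0 ≤ 16 * C2 + 16 * C1 := by positivity
            linarith

/-- the terms with `n < h` -/
theorem small_bound : ∃ C : ℝ, 0 < C ∧ ∀ (T G : ℝ) (h L : ℕ), 3 ≤ T → T ^ (1 / 3 : ℝ) ≤ G → 1 ≤ h →
    (h : ℝ) ≤ 8 * T →
    ‖∑ n ∈ Finset.Ico 1 h, (if n ≤ L then (wg G h n : ℂ) * eph T h n else 0)‖ ≤ C / h := by
  refine ⟨6 * 64 / Real.log 2 ^ 6 * 64, by have := Real.log_pos (by norm_num : (1 : ℝ) < 2); positivity, ?_⟩
  intro T G h L hT hG hh hhT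
  have hT0 : (0 : ℝ) < T := by linarith
  have hl2 : 0 < Real.log 2 := Real.log_pos (by norm_num)
  set q := T ^ (1 / 3 : ℝ) with hq
  have hq1 : 1 ≤ q := Real.one_le_rpow (by linarith) (by norm_num)
  have hq3 : q ^ 3 = T := by
    rw [hq, ← Real.rpow_natCast, ← Real.rpow_mul hT0.le]
    norm_num
  have hh1 : (1 : ℝ) ≤ h := by exact_mod_cast hh
  have hG0 : 0 < G := by linarith
  have h0 : Real.exp (-(G * Real.log 2) ^ 2 / 4) ≤ 6 * 64 / Real.log 2 ^ 6 / T ^ 2 := by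
    have k1 : (q * Real.log 2) ^ 2 ≤ (G * Real.log 2) ^ 2 :=
      pow_le_pow_left₀ (by positivity) (mul_le_mul_of_nonneg_right hG hl2.le) 2
    have k2 : ((q * Real.log 2) ^ 2 / 4) ^ 3 / ((3 : ℕ).factorial : ℝ) ≤ Real.exp ((q * Real.log 2) ^ 2 / 4) :=
      Real.pow_div_factorial_le_exp _ (by positivity) 3
    have k3 : ((q * Real.log 2) ^ 2 / 4) ^ 3 / ((3 : ℕ).factorial : ℝ) = T ^ 2 * Real.log 2 ^ 6 / (6 * 64) := by
      have : ((3 : ℕ).factorial : ℝ) = 6 := by norm_num [Nat.factorial]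
      rw [this, ← hq3]
      ring
    rw [k3] at k2
    have k4 : -(G * Real.log 2) ^ 2 / 4 ≤ -((q * Real.log 2) ^ 2 / 4) := by linarith
    calc _ ≤ Real.exp (-((q * Real.log 2) ^ 2 / 4)) := Real.exp_le_exp.mpr k4
      _ ≤ _ := by
        rw [Real.exp_neg, inv_le_comm₀ (Real.exp_pos _) (by positivity)]
        refine le_trans (le_of_eq ?_) k2
        field_simp
  have h1 : ∀ n ∈ Finset.Ico 1 h, ‖(if n ≤ L then (wg G h n : ℂ) * eph T h n else 0)‖ ≤
      6 * 64 / Real.log 2 ^ 6 / T ^ 2 := by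
    intro n hn
    rw [Finset.mem_Ico] at hn
    have hn1 : (1 : ℝ) ≤ n := by exact_mod_cast hn.1
    have hnh : (n : ℝ) ≤ h := by exact_mod_cast hn.2.le
    split_ifs with hL
    · have e1 : ‖eph T h n‖ = 1 := by
        unfold eph
        rw [mul_comm I, Complex.norm_exp_ofReal_mul_I]
      rw [norm_mul, e1, mul_one, Complex.norm_real, Real.norm_eq_abs]
      unfold wg
      rw [abs_of_nonneg (mul_nonneg (Real.rpow_nonneg (by positivity) _) (Real.exp_pos _).le)]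
      have e2 : ((n : ℝ) * ((n : ℝ) + h)) ^ (-(1 / 2) : ℝ) ≤ 1 := by
        refine Real.rpow_le_one_of_one_le_of_nonpos ?_ (by norm_num)
        nlinarith
      have e3 : Real.log 2 ≤ Real.log (1 + (h : ℝ) / n) := by
        refine Real.log_le_log (by norm_num) ?_
        have : 1 ≤ (h : ℝ) / n := by
          rw [le_div_iff₀ (by linarith)]
          linarith
        linarith
      have e4 : (G * Real.log 2) ^ 2 ≤ (G * Real.log (1 + (h : ℝ) / n)) ^ 2 :=
        pow_le_pow_left₀ (by positivity) (mul_le_mul_of_nonneg_left e3 hG0.le) 2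
      have e5 : Real.exp (-(G * Real.log (1 + (h : ℝ) / n)) ^ 2 / 4) ≤ Real.exp (-(G * Real.log 2) ^ 2 / 4) :=
        Real.exp_le_exp.mpr (by linarith)
      calc _ ≤ 1 * Real.exp (-(G * Real.log 2) ^ 2 / 4) :=
            mul_le_mul e2 e5 (Real.exp_pos _).le (by norm_num)
        _ ≤ _ := by rw [one_mul]; exact h0
    · rw [norm_zero]
      positivity
  calc _ ≤ ∑ n ∈ Finset.Ico 1 h, 6 * 64 / Real.log 2 ^ 6 / T ^ 2 := norm_sum_le_of_le _ h1
    _ = ((h - 1 : ℕ) : ℝ) * (6 * 64 / Real.log 2 ^ 6 / T ^ 2) := by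
        rw [Finset.sum_const, Nat.card_Ico, nsmul_eq_mul]
    _ ≤ h * (6 * 64 / Real.log 2 ^ 6 / T ^ 2) := by
        refine mul_le_mul_of_nonneg_right ?_ (by positivity)
        exact_mod_cast Nat.sub_le h 1
    _ = 6 * 64 / Real.log 2 ^ 6 * h / T ^ 2 := by ring
    _ ≤ 6 * 64 / Real.log 2 ^ 6 * 64 / h := by
        rw [div_le_div_iff₀ (by positivity) (by linarith)]
        have k5 : (h : ℝ) * h ≤ 64 * T ^ 2 := by nlinarith
        calc 6 * 64 / Real.log 2 ^ 6 * (h : ℝ) * h = 6 * 64 / Real.log 2 ^ 6 * ((h : ℝ) * h) := by ring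
          _ ≤ 6 * 64 / Real.log 2 ^ 6 * (64 * T ^ 2) := mul_le_mul_of_nonneg_left k5 (by positivity)
          _ = _ := by ring

/-- dyadic blocks -/
theorem dyadic (f : ℕ → ℂ) (h : ℕ) (B : ℝ) (hB0 : 0 ≤ B) (J : ℕ) : ∀ L : ℕ, L < h * 2 ^ J →
    (∀ N M : ℕ, h ≤ N → N ≤ L → M ≤ N → ‖∑ n ∈ Finset.range M, f (N + n)‖ ≤ B) →
    ‖∑ n ∈ Finset.Ico h (L + 1), f n‖ ≤ J * B := by
  induction J with
  | zero =>
    intro L hL _
    rw [Finset.Ico_eq_empty (by omega)]
    simp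
  | succ J ih =>
    intro L hL H
    rcases lt_or_ge L (h * 2 ^ J) with hc | hc
    · refine (ih L hc H).trans ?_
      push_cast
      nlinarith
    · have hpos : 1 ≤ 2 ^ J := Nat.one_le_two_pow
      have h1 : h ≤ h * 2 ^ J := Nat.le_mul_of_pos_right h hpos
      rw [pow_succ, ← mul_assoc] at hL
      rw [← Finset.sum_Ico_consecutive f h1 (show h * 2 ^ J ≤ L + 1 by omega)]
      rcases Nat.eq_zero_or_pos h with h0 | h0
      · subst h0
        omega
      have h2 : h * 2 ^ J ≠ 0 := by positivity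
      obtain ⟨L', hL'⟩ : ∃ L', h * 2 ^ J = L' + 1 := ⟨h * 2 ^ J - 1, by omega⟩
      have k1 : ‖∑ n ∈ Finset.Ico h (h * 2 ^ J), f n‖ ≤ J * B := by
        have := ih L' (by omega) (fun N M a b c => H N M a (by omega) c)
        rw [← hL'] at this
        exact this
      have k2 : ‖∑ n ∈ Finset.Ico (h * 2 ^ J) (L + 1), f n‖ ≤ B := by
        rw [Finset.sum_Ico_eq_sum_range]
        exact H _ _ h1 hc (by omega)
      refine (norm_add_le _ _).trans ?_
      push_cast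
      linarith

/-- the inner sum -/
theorem inner_bound (hES : S_ES) (ε : ℝ) (hε : 0 < ε) : ∃ C : ℝ, 0 < C ∧ ∀ (T G : ℝ) (h X : ℕ),
    3 ≤ T → T ^ (1 / 3 : ℝ) ≤ G → 1 ≤ h → h ≤ X → (X : ℝ) ≤ 8 * T →
    ‖∑ n ∈ Finset.Icc 1 (X - h), (wg G h n : ℂ) * eph T h n‖ ≤ C * (T ^ ε) ^ 4 / h := by
  obtain ⟨C1, hC1, H1⟩ := block_bound hES ε hε
  obtain ⟨C2, hC2, H2⟩ := small_bound
  have hl2 : 0 < Real.log 2 := Real.log_pos (by norm_num)
  refine ⟨C2 + (1 + 8 ^ ε / ε / Real.log 2) * C1, by positivity, ?_⟩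
  intro T G h X hT hG hh hhX hX
  have hT0 : (0 : ℝ) < T := by linarith
  set p := T ^ ε with hp
  have hp1 : 1 ≤ p := Real.one_le_rpow (by linarith) hε.le
  have hh1 : (1 : ℝ) ≤ h := by exact_mod_cast hh
  have hhX' : (h : ℝ) ≤ X := by exact_mod_cast hhX
  set L := X - h with hL
  set f : ℕ → ℂ := fun n => (wg G h n : ℂ) * eph T h n with hf
  have hsplit : ∑ n ∈ Finset.Icc 1 L, f n =
      ∑ n ∈ Finset.Ico 1 h, (if n ≤ L then f n else 0) + ∑ n ∈ Finset.Ico h (L + 1), f n := by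
    rw [← Finset.sum_filter]
    have e1 : (Finset.Ico 1 h).filter (fun n => n ≤ L) = (Finset.Icc 1 L).filter (fun n => n < h) := by
      ext n
      simp only [Finset.mem_filter, Finset.mem_Ico, Finset.mem_Icc]
      omega
    have e2 : Finset.Ico h (L + 1) = (Finset.Icc 1 L).filter (fun n => ¬ n < h) := by
      ext n
      simp only [Finset.mem_filter, Finset.mem_Ico, Finset.mem_Icc]
      omega
    rw [e1, e2, Finset.sum_filter_add_sum_filter_not]
  have hJ : L < h * 2 ^ (Nat.log 2 X + 1) := by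
    have h3 : X < 2 ^ (Nat.log 2 X + 1) := Nat.lt_pow_succ_log_self (by norm_num) X
    calc L ≤ X := Nat.sub_le _ _
      _ < 2 ^ (Nat.log 2 X + 1) := h3
      _ ≤ h * 2 ^ (Nat.log 2 X + 1) := Nat.le_mul_of_pos_left _ hh
  have k1 := dyadic f h (C1 * p ^ 3 / h) (by positivity) (Nat.log 2 X + 1) L hJ (fun N M a b c =>
    H1 T G h N M hT hG hh a (by
      have : (N : ℝ) ≤ X := by exact_mod_cast (b.trans (Nat.sub_le _ _))
      linarith) c)
  have k2 := H2 T G h L hT hG hh (hhX'.trans hX)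
  have hX1 : 1 ≤ X := hh.trans hhX
  have hX1' : (1 : ℝ) ≤ X := by exact_mod_cast hX1
  have k3 : ((Nat.log 2 X + 1 : ℕ) : ℝ) ≤ (1 + 8 ^ ε / ε / Real.log 2) * p := by
    have h4 : ((Nat.log 2 X : ℕ) : ℝ) ≤ Real.logb 2 X := by
      exact_mod_cast Real.natLog_le_logb X 2
    have h5 : Real.logb 2 X = Real.log X / Real.log 2 := rfl
    have h6 : Real.log X ≤ (X : ℝ) ^ ε / ε := Real.log_le_rpow_div (by linarith) hε
    have h7 : (X : ℝ) ^ ε ≤ 8 ^ ε * p := by
      calc (X : ℝ) ^ ε ≤ (8 * T) ^ ε := Real.rpow_le_rpow (by linarith) hX hε.le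
        _ = 8 ^ ε * p := Real.mul_rpow (by norm_num) hT0.le
    have h8 : Real.log X / Real.log 2 ≤ 8 ^ ε * p / ε / Real.log 2 := by
      gcongr
      exact h6.trans (by gcongr)
    push_cast
    calc ((Nat.log 2 X : ℕ) : ℝ) + 1 ≤ 8 ^ ε * p / ε / Real.log 2 + p := by linarith
      _ = _ := by ring
  rw [hsplit]
  calc _ ≤ C2 / h + ((Nat.log 2 X + 1 : ℕ) : ℝ) * (C1 * p ^ 3 / h) := (norm_add_le _ _).trans (add_le_add k2 k1)
    _ ≤ C2 * p ^ 4 / h + ((1 + 8 ^ ε / ε / Real.log 2) * p) * (C1 * p ^ 3 / h) := by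
        have hp4 : 1 ≤ p ^ 4 := one_le_pow₀ hp1
        have : C2 / h ≤ C2 * p ^ 4 / h := by
          refine div_le_div_of_nonneg_right ?_ (by linarith)
          nlinarith
        have h9 : 0 ≤ C1 * p ^ 3 / h := by positivity
        have := mul_le_mul_of_nonneg_right k3 h9
        linarith
    _ = _ := by ring

/-- VS for `h ≥ T^(1/3)` -/
theorem vs_large (hGM : S_GM) (hES : S_ES) (ε : ℝ) (hε : 0 < ε) : ∃ C : ℝ, 0 < C ∧ ∀ T h : ℝ, 3 ≤ T →
    T ^ (1 / 3 : ℝ) ≤ h → h ≤ T → ∫ u in T..(T + h), ‖z u‖ ^ 2 ≤ C * (T ^ ε) ^ 5 * h := by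
  obtain ⟨CG, hCG, HG⟩ := hGM
  obtain ⟨CE, hCE, HE⟩ := Pool.Agent.N879.PU.t_EM
  obtain ⟨CI, hCI, HI⟩ := inner_bound hES ε hε
  refine ⟨2 * CE ^ 2 + 2 * CG * ((1 + CI) * (1 + 8 ^ ε / ε)), by positivity, ?_⟩
  intro T h hT hh hhT
  have hT0 : (0 : ℝ) < T := by linarith
  set p := T ^ ε with hp
  have hp1 : 1 ≤ p := Real.one_le_rpow (by linarith) hε.le
  have hh1 : 1 ≤ h := (Real.one_le_rpow (by linarith) (by norm_num)).trans hh
  set X := ⌈4 * T⌉₊ with hX
  have hX4 : 4 * T ≤ X := Nat.le_ceil _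
  have hX8 : (X : ℝ) ≤ 8 * T := by
    have : (X : ℝ) < 4 * T + 1 := Nat.ceil_lt_add_one (by linarith)
    linarith
  have hX1' : (1 : ℝ) ≤ X := by linarith
  have hX1 : 1 ≤ X := by exact_mod_cast hX1'
  have h1 : ∀ u ∈ Icc T (T + h), ‖z u‖ ^ 2 ≤ 2 * ‖PN X u‖ ^ 2 + 2 * CE ^ 2 := by
    intro u hu
    have h2 := HE T u X hT hu.1 (by linarith [hu.2]) hX4 hX8
    have h3 : T ^ (-(1 / 2) : ℝ) ≤ 1 := Real.rpow_le_one_of_one_le_of_nonpos (by linarith) (by norm_num)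
    have h4 : ‖z u - PN X u‖ ≤ CE := h2.trans (by nlinarith)
    have h5 : ‖z u‖ ≤ ‖PN X u‖ + CE := by
      calc ‖z u‖ = ‖PN X u + (z u - PN X u)‖ := by ring_nf
        _ ≤ _ := (norm_add_le _ _).trans (by linarith)
    calc ‖z u‖ ^ 2 ≤ (‖PN X u‖ + CE) ^ 2 := pow_le_pow_left₀ (norm_nonneg _) h5 2
      _ ≤ _ := by nlinarith [sq_nonneg (‖PN X u‖ - CE)]
  have hzc : Continuous fun u : ℝ => ‖z u‖ ^ 2 := (Pool.Agent.TH612.GS.z_cont.norm).pow 2
  have hPc : Continuous fun u : ℝ => ‖PN X u‖ ^ 2 := ((Pool.Agent.TH612.GS.PN_cont X).norm).pow 2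
  have h6 : ∫ u in T..(T + h), ‖z u‖ ^ 2 ≤ ∫ u in T..(T + h), (2 * ‖PN X u‖ ^ 2 + 2 * CE ^ 2) :=
    intervalIntegral.integral_mono_on (by linarith) (hzc.intervalIntegrable _ _)
      (((hPc.const_mul 2).add continuous_const).intervalIntegrable _ _) h1
  have h7 : ∫ u in T..(T + h), (2 * ‖PN X u‖ ^ 2 + 2 * CE ^ 2) =
      2 * (∫ u in T..(T + h), ‖PN X u‖ ^ 2) + 2 * CE ^ 2 * h := by
    rw [intervalIntegral.integral_add ((hPc.const_mul 2).intervalIntegrable _ _)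
      (continuous_const.intervalIntegrable _ _), intervalIntegral.integral_const_mul,
      intervalIntegral.integral_const, smul_eq_mul]
    ring
  have h8 : ∫ u in T..(T + h), ‖PN X u‖ ^ 2 ≤ CG * h * (1 + Real.log X +
      ∑ hh ∈ Finset.Icc 1 X, ‖∑ n ∈ Finset.Icc 1 (X - hh), (wg h hh n : ℂ) * eph T hh n‖) :=
    HG X T h hX1 hh1
  have h9 : ∑ hh ∈ Finset.Icc 1 X, ‖∑ n ∈ Finset.Icc 1 (X - hh), (wg h hh n : ℂ) * eph T hh n‖ ≤
      CI * p ^ 4 * (1 + Real.log X) := by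
    calc _ ≤ ∑ hh ∈ Finset.Icc 1 X, CI * p ^ 4 * ((hh : ℝ)⁻¹) := by
          refine Finset.sum_le_sum fun hh hhh => ?_
          rw [Finset.mem_Icc] at hhh
          have := HI T h hh X hT (by assumption) hhh.1 hhh.2 hX8
          rw [div_eq_mul_inv] at this
          exact this
      _ = CI * p ^ 4 * ∑ hh ∈ Finset.Icc 1 X, ((hh : ℝ)⁻¹) := by rw [Finset.mul_sum]
      _ ≤ _ := by
          refine mul_le_mul_of_nonneg_left ?_ (by positivity)
          have k1 := harmonic_le_one_add_log X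
          have k2 : ((harmonic X : ℚ) : ℝ) = ∑ hh ∈ Finset.Icc 1 X, ((hh : ℝ)⁻¹) := by
            rw [harmonic_eq_sum_Icc]
            push_cast
            rfl
          rw [k2] at k1
          exact k1
  have h10 : 1 + Real.log X ≤ (1 + 8 ^ ε / ε) * p := by
    have h6 : Real.log X ≤ (X : ℝ) ^ ε / ε := Real.log_le_rpow_div (by linarith) hε
    have h7 : (X : ℝ) ^ ε ≤ 8 ^ ε * p := by
      calc (X : ℝ) ^ ε ≤ (8 * T) ^ ε := Real.rpow_le_rpow (by linarith) hX8 hε.le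
        _ = 8 ^ ε * p := Real.mul_rpow (by norm_num) hT0.le
    have h8 : (X : ℝ) ^ ε / ε ≤ 8 ^ ε * p / ε := by gcongr
    calc 1 + Real.log X ≤ p + 8 ^ ε * p / ε := by linarith
      _ = _ := by ring
  have hlog : 0 ≤ Real.log X := Real.log_nonneg hX1'
  have hp4 : 1 ≤ p ^ 4 := one_le_pow₀ hp1
  have h11 : 1 + Real.log X +
      ∑ hh ∈ Finset.Icc 1 X, ‖∑ n ∈ Finset.Icc 1 (X - hh), (wg h hh n : ℂ) * eph T hh n‖ ≤
      (1 + CI) * (1 + 8 ^ ε / ε) * p ^ 5 := by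
    calc _ ≤ (1 + Real.log X) + CI * p ^ 4 * (1 + Real.log X) := add_le_add le_rfl h9
      _ = (1 + CI * p ^ 4) * (1 + Real.log X) := by ring
      _ ≤ (p ^ 4 + CI * p ^ 4) * ((1 + 8 ^ ε / ε) * p) := by
          gcongr
      _ = _ := by ring
  have hp5 : 1 ≤ p ^ 5 := one_le_pow₀ hp1
  calc ∫ u in T..(T + h), ‖z u‖ ^ 2 ≤ 2 * (∫ u in T..(T + h), ‖PN X u‖ ^ 2) + 2 * CE ^ 2 * h := h6.trans_eq h7
    _ ≤ 2 * (CG * h * ((1 + CI) * (1 + 8 ^ ε / ε) * p ^ 5)) + 2 * CE ^ 2 * h * p ^ 5 := by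
        have h12 : CG * h * (1 + Real.log X +
          ∑ hh ∈ Finset.Icc 1 X, ‖∑ n ∈ Finset.Icc 1 (X - hh), (wg h hh n : ℂ) * eph T hh n‖) ≤
          CG * h * ((1 + CI) * (1 + 8 ^ ε / ε) * p ^ 5) :=
          mul_le_mul_of_nonneg_left h11 (by positivity)
        have h13 : 2 * CE ^ 2 * h ≤ 2 * CE ^ 2 * h * p ^ 5 :=
          le_mul_of_one_le_right (by positivity) hp5
        linarith
    _ = _ := by ring

end Pool.Agent.Z72.SH.Vs

namespace Pool.Agent.Z72.SH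

open Pool.Agent.TH612.GS (z PN)

/-- VS: the second moment of zeta in short intervals -/
theorem t_VS (hGM : S_GM) (hES : S_ES) : S_VS := by
  intro ε hε
  obtain ⟨C, hC, H⟩ := Vs.vs_large hGM hES (ε / 5) (by positivity)
  refine ⟨C, hC, ?_⟩
  intro T h hT hh hhT
  have hT0 : (0 : ℝ) < T := by linarith
  have hp : (T ^ (ε / 5)) ^ 5 = T ^ ε := by
    rw [← Real.rpow_natCast, ← Real.rpow_mul hT0.le]
    congr 1
    push_cast
    ring
  have hq0 : 0 ≤ T ^ (1 / 3 : ℝ) := by positivity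
  have hqT : T ^ (1 / 3 : ℝ) ≤ T := by
    calc T ^ (1 / 3 : ℝ) ≤ T ^ (1 : ℝ) := Real.rpow_le_rpow_of_exponent_le (by linarith) (by norm_num)
      _ = T := Real.rpow_one T
  have k := H T (max h (T ^ (1 / 3 : ℝ))) hT (le_max_right _ _) (max_le hhT hqT)
  rw [hp] at k
  have hzc : Continuous fun u : ℝ => ‖z u‖ ^ 2 := (Pool.Agent.TH612.GS.z_cont.norm).pow 2
  have k2 : ∫ u in T..(T + h), ‖z u‖ ^ 2 ≤ ∫ u in T..(T + max h (T ^ (1 / 3 : ℝ))), ‖z u‖ ^ 2 :=
    intervalIntegral.integral_mono_interval le_rfl (by linarith) (by linarith [le_max_left h (T ^ (1 / 3 : ℝ))])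
      (Filter.Eventually.of_forall fun u => by positivity) (hzc.intervalIntegrable _ _)
  refine k2.trans (k.trans ?_)
  refine mul_le_mul_of_nonneg_left ?_ (by positivity)
  exact max_le (by linarith) (by linarith)

end Pool.Agent.Z72.SH
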