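import Mathlib

/-!
# Task WM (helper25), abstract part
-/

set_option autoImplicit false

namespace Pool.Agent.Z72.SH.WMA

open MeasureTheory Set

/-- Cauchy–Schwarz on an interval. -/
theorem cs {U : ℝ} (hU : 0 < U) (g : ℝ → ℝ) (hg : Continuous g) :
    (∫ c in (0 : ℝ)..U, g c) ^ 2 ≤ U * ∫ c in (0 : ℝ)..U, g c ^ 2 := by
  set m : ℝ := ∫ c in (0 : ℝ)..U, g c with hm
  have h0 : 0 ≤ ∫ c in (0 : ℝ)..U, (g c - m / U) ^ 2 :=
    intervalIntegral.integral_nonneg hU.le fun c _ => sq_nonneg _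
  have i1 : IntervalIntegrable (fun c => g c ^ 2) volume 0 U := (hg.pow 2).intervalIntegrable _ _
  have i2 : IntervalIntegrable (fun c => 2 * (m / U) * g c) volume 0 U :=
    (continuous_const.mul hg).intervalIntegrable _ _
  have i3 : IntervalIntegrable (fun _ : ℝ => (m / U) ^ 2) volume 0 U := continuous_const.intervalIntegrable _ _
  have e1 : (∫ c in (0 : ℝ)..U, (g c - m / U) ^ 2) = (∫ c in (0 : ℝ)..U, g c ^ 2) - m ^ 2 / U := by
    have e2 : (fun c => (g c - m / U) ^ 2) = fun c => g c ^ 2 - 2 * (m / U) * g c + (m / U) ^ 2 := by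
      funext c
      ring
    rw [e2, intervalIntegral.integral_add (i1.sub i2) i3, intervalIntegral.integral_sub i1 i2,
      intervalIntegral.integral_const_mul, ← hm, intervalIntegral.integral_const, smul_eq_mul]
    field_simp
    ring
  rw [e1] at h0
  have h1 : m ^ 2 / U ≤ ∫ c in (0 : ℝ)..U, g c ^ 2 := by linarith
  rw [div_le_iff₀ hU] at h1
  linarith

/-- The second moment of the window means. -/
theorem wm {f : ℝ → ℝ} (hf : Continuous f) {T U : ℝ} (hU : 0 < U) (hUT : U ≤ T) :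
    ∫ t in U..T, (∫ c in (0 : ℝ)..U, f (t + c)) ^ 2 ≤ U ^ 2 * ∫ u in (0 : ℝ)..(2 * T), f u ^ 2 := by
  have hf2 : Continuous fun u => f u ^ 2 := hf.pow 2
  have hc1 : Continuous fun p : ℝ × ℝ => f (p.1 + p.2) := hf.comp (continuous_fst.add continuous_snd)
  have hc2 : Continuous fun p : ℝ × ℝ => f (p.1 + p.2) ^ 2 := hc1.pow 2
  have hW1 : Continuous fun t : ℝ => ∫ c in (0 : ℝ)..U, f (t + c) :=
    intervalIntegral.continuous_parametric_intervalIntegral_of_continuous' hc1 0 U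
  have hW2 : Continuous fun t : ℝ => ∫ c in (0 : ℝ)..U, f (t + c) ^ 2 :=
    intervalIntegral.continuous_parametric_intervalIntegral_of_continuous' hc2 0 U
  have step1 : ∫ t in U..T, (∫ c in (0 : ℝ)..U, f (t + c)) ^ 2 ≤
      ∫ t in U..T, U * ∫ c in (0 : ℝ)..U, f (t + c) ^ 2 := by
    refine intervalIntegral.integral_mono_on hUT ((hW1.pow 2).intervalIntegrable _ _)
      ((continuous_const.mul hW2).intervalIntegrable _ _) fun t _ => ?_
    exact cs hU (fun c => f (t + c)) (hf.comp (continuous_const.add continuous_id))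
  refine step1.trans ?_
  rw [intervalIntegral.integral_const_mul]
  have step2 : ∫ t in U..T, ∫ c in (0 : ℝ)..U, f (t + c) ^ 2 =
      ∫ c in (0 : ℝ)..U, ∫ t in U..T, f (t + c) ^ 2 := by
    refine intervalIntegral_intervalIntegral_swap (F := fun t c => f (t + c) ^ 2) ?_
    refine IntegrableOn.mono_set (t := Icc U T ×ˢ Icc 0 U) ?_ ?_
    · exact hc2.continuousOn.integrableOn_compact (isCompact_Icc.prod isCompact_Icc)
    · refine prod_mono ?_ ?_
      · rw [uIoc_of_le hUT]; exact Ioc_subset_Icc_self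
      · rw [uIoc_of_le hU.le]; exact Ioc_subset_Icc_self
  rw [step2]
  have step3 : ∫ c in (0 : ℝ)..U, ∫ t in U..T, f (t + c) ^ 2 ≤
      ∫ c in (0 : ℝ)..U, ∫ u in (0 : ℝ)..(2 * T), f u ^ 2 := by
    have hW3 : Continuous fun c : ℝ => ∫ t in U..T, f (t + c) ^ 2 :=
      intervalIntegral.continuous_parametric_intervalIntegral_of_continuous'
        (f := fun c t => f (t + c) ^ 2) (hc2.comp continuous_swap) U T
    refine intervalIntegral.integral_mono_on hU.le (hW3.intervalIntegrable _ _)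
      (continuous_const.intervalIntegrable _ _) fun c hc => ?_
    rw [intervalIntegral.integral_comp_add_right (fun u => f u ^ 2) c]
    refine intervalIntegral.integral_mono_interval (by linarith [hc.1]) (by linarith)
      (by linarith [hc.2]) ?_ (hf2.intervalIntegrable _ _)
    exact Filter.Eventually.of_forall fun u => sq_nonneg _
  have step4 : ∫ c in (0 : ℝ)..U, ∫ u in (0 : ℝ)..(2 * T), f u ^ 2 =
      U * ∫ u in (0 : ℝ)..(2 * T), f u ^ 2 := by
    rw [intervalIntegral.integral_const, smul_eq_mul, sub_zero]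
  rw [step4] at step3
  calc U * ∫ c in (0 : ℝ)..U, ∫ t in U..T, f (t + c) ^ 2 ≤
        U * (U * ∫ u in (0 : ℝ)..(2 * T), f u ^ 2) := mul_le_mul_of_nonneg_left step3 hU.le
    _ = U ^ 2 * ∫ u in (0 : ℝ)..(2 * T), f u ^ 2 := by ring

/-- The fourth moment with an epsilon. -/
theorem four {g : ℝ → ℝ} (hg : Continuous g) (h0 : ∀ u, 0 ≤ g u)
    (h4 : ∀ T : ℝ, 1000 ≤ T → ∫ t in (0 : ℝ)..T, g t ≤ 4 / 5 * (T * Real.log T ^ 4)) (ε : ℝ) (hε : 0 < ε) :
    ∃ C : ℝ, 0 < C ∧ ∀ T : ℝ, 3 ≤ T → ∫ t in (0 : ℝ)..(2 * T), g t ≤ C * T ^ (1 + ε) := by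
  obtain ⟨K, hK⟩ : ∃ K : ℝ, K = 4 / 5 * (1000 * Real.log 1000 ^ 4) := ⟨_, rfl⟩
  have hK0 : 0 < K := by
    rw [hK]
    have : 0 < Real.log 1000 := Real.log_pos (by norm_num)
    positivity
  refine ⟨8 / 5 * (2 ^ ε * (4 / ε) ^ 4) + K, by positivity, fun T hT => ?_⟩
  have hT1 : (1 : ℝ) ≤ T ^ (1 + ε) := Real.one_le_rpow (by linarith) (by linarith)
  rcases le_total 1000 (2 * T) with h | h
  · refine (h4 _ h).trans ?_
    have hl : Real.log (2 * T) ≤ (2 * T) ^ (ε / 4) / (ε / 4) :=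
      Real.log_le_rpow_div (by linarith) (by linarith)
    have hl0 : 0 ≤ Real.log (2 * T) := Real.log_nonneg (by linarith)
    have hl4 : Real.log (2 * T) ^ 4 ≤ ((2 * T) ^ (ε / 4) / (ε / 4)) ^ 4 := pow_le_pow_left₀ hl0 hl 4
    have e1 : ((2 * T) ^ (ε / 4) / (ε / 4)) ^ 4 = (2 * T) ^ ε * (4 / ε) ^ 4 := by
      rw [div_pow, ← Real.rpow_natCast ((2 * T) ^ (ε / 4)) 4, ← Real.rpow_mul (by linarith)]
      have : ε / 4 * ((4 : ℕ) : ℝ) = ε := by push_cast; ring
      rw [this]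
      field_simp
    rw [e1, Real.mul_rpow (by norm_num) (by linarith)] at hl4
    have e2 : T ^ (1 + ε) = T * T ^ ε := by
      rw [Real.rpow_add (by linarith), Real.rpow_one]
    calc 4 / 5 * (2 * T * Real.log (2 * T) ^ 4) ≤ 4 / 5 * (2 * T * (2 ^ ε * T ^ ε * (4 / ε) ^ 4)) := by
          gcongr
      _ = 8 / 5 * (2 ^ ε * (4 / ε) ^ 4) * T ^ (1 + ε) := by rw [e2]; ring
      _ ≤ (8 / 5 * (2 ^ ε * (4 / ε) ^ 4) + K) * T ^ (1 + ε) := by
          refine mul_le_mul_of_nonneg_right (by linarith) (by linarith)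
  · have h1 : ∫ t in (0 : ℝ)..(2 * T), g t ≤ ∫ t in (0 : ℝ)..1000, g t :=
      intervalIntegral.integral_mono_interval le_rfl (by linarith) h
        (Filter.Eventually.of_forall fun u => h0 u) (hg.intervalIntegrable _ _)
    have h2 := h4 1000 le_rfl
    rw [← hK] at h2
    have h3 : (0 : ℝ) ≤ 8 / 5 * (2 ^ ε * (4 / ε) ^ 4) := by positivity
    calc ∫ t in (0 : ℝ)..(2 * T), g t ≤ K := h1.trans h2
      _ ≤ K * T ^ (1 + ε) := le_mul_of_one_le_right hK0.le hT1
      _ ≤ (8 / 5 * (2 ^ ε * (4 / ε) ^ 4) + K) * T ^ (1 + ε) :=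
          mul_le_mul_of_nonneg_right (by linarith) (by linarith)

end Pool.Agent.Z72.SH.WMA
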