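import Pool.Agent.Z72.SH.Stm
import Pool.Agent.Z72.SH.WmAbs
import Pool.Agent.TH612.GS.Z
import Pool.Agent.TH158.FM.Main

/-!
# Task WM (helper25): moments of the window means
-/

set_option autoImplicit false

namespace Pool.Agent.Z72.SH

open Complex MeasureTheory Set

theorem wm_four (h4 : ∀ T : ℝ, 1000 ≤ T →
      ∫ t in (0:ℝ)..T, ‖riemannZeta (((1 / 2 : ℝ) : ℂ) + (t : ℂ) * I)‖ ^ 4 ≤ 4 / 5 * (T * Real.log T ^ 4))
    (ε : ℝ) (hε : 0 < ε) : ∃ C : ℝ, 0 < C ∧ ∀ T : ℝ, 3 ≤ T →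
      ∫ t in (0 : ℝ)..(2 * T), (‖Pool.Agent.TH612.GS.z t‖ ^ 2) ^ 2 ≤ C * T ^ (1 + ε) := by
  have hz2 : ∀ u : ℝ, Pool.Agent.TH612.GS.z u = riemannZeta (((1 / 2 : ℝ) : ℂ) + (u : ℂ) * I) := by
    intro u
    unfold Pool.Agent.TH612.GS.z
    congr 1
    push_cast
    ring
  refine WMA.four (g := fun t => (‖Pool.Agent.TH612.GS.z t‖ ^ 2) ^ 2)
    ((Pool.Agent.TH612.GS.z_cont.norm.pow 2).pow 2) (fun u => sq_nonneg _) ?_ ε hε
  intro T hT
  refine le_trans (le_of_eq ?_) (h4 T hT)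
  congr 1
  funext t
  simp only [hz2]
  ring

theorem t_WM (hVS : S_VS) : S_WM := by
  intro ε hε
  obtain ⟨C1, hC1, h1⟩ := hVS ε hε
  obtain ⟨C2, hC2, h2⟩ := wm_four Pool.Agent.TH158.FM.fourth_all ε hε
  refine ⟨C1 + C2, by positivity, fun T U hU hUT => ⟨fun t ht => ?_, ?_⟩⟩
  · rw [intervalIntegral.integral_comp_add_left (fun u => ‖Pool.Agent.TH612.GS.z u‖ ^ 2) t, add_zero]
    have ht0 : 0 ≤ t := by linarith [ht.1]
    have hT0 : 0 ≤ T := by linarith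
    refine (h1 t U (hU.trans ht.1) (by linarith) ht.1).trans ?_
    have e1 : t ^ ε ≤ T ^ ε := Real.rpow_le_rpow ht0 ht.2 hε.le
    have e2 : t ^ (1 / 3 : ℝ) ≤ T ^ (1 / 3 : ℝ) := Real.rpow_le_rpow ht0 ht.2 (by norm_num)
    have e3 : 0 ≤ t ^ (1 / 3 : ℝ) := Real.rpow_nonneg ht0 _
    have e4 : 0 ≤ t ^ ε := Real.rpow_nonneg ht0 _
    have e5 : 0 ≤ T ^ ε := Real.rpow_nonneg hT0 _
    refine mul_le_mul ?_ (by linarith) (by linarith) (by positivity)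
    exact mul_le_mul (by linarith) e1 e4 (by positivity)
  · have hU0 : 0 < U := by linarith
    refine (WMA.wm (Pool.Agent.TH612.GS.z_cont.norm.pow 2) hU0 hUT).trans ?_
    have e1 := h2 T (hU.trans hUT)
    have e2 : 0 ≤ T ^ (1 + ε) := Real.rpow_nonneg (by linarith) _
    calc U ^ 2 * ∫ u in (0 : ℝ)..(2 * T), (‖Pool.Agent.TH612.GS.z u‖ ^ 2) ^ 2 ≤
          U ^ 2 * (C2 * T ^ (1 + ε)) := mul_le_mul_of_nonneg_left e1 (sq_nonneg _)
      _ = C2 * T ^ (1 + ε) * U ^ 2 := by ring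
      _ ≤ (C1 + C2) * T ^ (1 + ε) * U ^ 2 := by
          refine mul_le_mul_of_nonneg_right ?_ (sq_nonneg _)
          exact mul_le_mul_of_nonneg_right (by linarith) e2

end Pool.Agent.Z72.SH
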