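import Pool.Agent.Z72.SH.Stm

/-!
# Task ZB (helper25)
-/

set_option autoImplicit false

namespace Pool.Agent.Z72.SH

open Complex Filter Topology MeasureTheory Set

noncomputable section

namespace ZbT

variable {k : ℕ}

theorem upd_diff (c : Fin k ⊕ Fin k → ℂ) (i j : Fin k ⊕ Fin k) (w : ℂ) :
    DifferentiableAt ℂ (fun w : ℂ => Function.update c i w j) w := by
  by_cases h : j = i
  · subst h
    simp only [Function.update_self]
    exact differentiableAt_id
  · simp only [Function.update_of_ne h]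
    exact differentiableAt_const _

/-- the arguments of the zeta function -/
def zarg (s : ℂ) (t : ℝ) (c : ℂ) : ℂ := 1 / 2 + s * (t + c)

theorem arg_re {s : ℂ} (hs : s = I ∨ s = -I) {t : ℝ} {c : ℂ} (hc : |c.im| ≤ 1 / 10) :
    2 / 5 ≤ (zarg s t c).re ∧ (zarg s t c).re ≤ 3 / 5 := by
  rw [abs_le] at hc
  rcases hs with rfl | rfl <;> simp [zarg] <;> constructor <;> linarith

theorem arg_im {s : ℂ} (hs : s = I ∨ s = -I) {T t : ℝ} {c : ℂ} (h0 : 0 ≤ t) (ht : t ≤ T)
    (hc : |c.re| ≤ 3 * T) : |(zarg s t c).im| ≤ 4 * T := by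
  rw [abs_le] at hc
  rcases hs with rfl | rfl <;> simp [zarg] <;> rw [abs_le] <;> constructor <;> linarith

theorem arg_ne {s : ℂ} (hs : s = I ∨ s = -I) {t : ℝ} {c : ℂ} (hc : |c.im| ≤ 1 / 10) :
    zarg s t c ≠ 1 := by
  intro h
  have := (arg_re (t := t) hs hc).2
  rw [h] at this
  norm_num at this

theorem zbound {C : ℝ} {A : ℕ} (hC : 0 < C) (hG : ∀ σ u : ℝ, 2 / 5 ≤ σ → σ ≤ 6 / 5 →
    (1 ≤ |u| ∨ σ ≤ 3 / 5) → ‖riemannZeta (σ + I * u)‖ ≤ C * (1 + |u|) ^ A) {s : ℂ}
    (hs : s = I ∨ s = -I) {T t : ℝ} {c : ℂ} (hT : 3 ≤ T) (h0 : 0 ≤ t) (ht : t ≤ T)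
    (hc : |c.im| ≤ 1 / 10) (hc' : |c.re| ≤ 3 * T) :
    ‖riemannZeta (zarg s t c)‖ ≤ C * (5 * T) ^ A := by
  obtain ⟨h1, h2⟩ := arg_re (t := t) hs hc
  have h3 := arg_im hs h0 ht hc'
  have e : zarg s t c = ((zarg s t c).re : ℂ) + I * ((zarg s t c).im : ℂ) := by
    rw [mul_comm]; exact (re_add_im _).symm
  rw [e]
  refine (hG _ _ h1 (by linarith) (Or.inr h2)).trans ?_
  refine mul_le_mul_of_nonneg_left ?_ hC.le
  exact pow_le_pow_left₀ (by positivity) (by linarith) A

/-- the product in terms of `zarg` -/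
theorem Zc_eq (c : Fin k ⊕ Fin k → ℂ) (t : ℝ) : Zc c t =
    ∏ j : Fin k, riemannZeta (zarg I t (c (Sum.inl j))) * riemannZeta (zarg (-I) t (c (Sum.inr j))) := by
  unfold Zc zarg
  refine Finset.prod_congr rfl fun j _ => ?_
  congr 2
  ring

end ZbT

open ZbT

theorem t_ZB (h : S_GR) : S_ZB := by
  intro k
  obtain ⟨C, A, hC, hG⟩ := h
  refine ⟨(C * 5 ^ A) ^ (2 * k), A * (2 * k), by positivity, fun T hT => ⟨?_, ?_⟩⟩
  · rintro ⟨c, t⟩ ⟨hc, ht⟩
    refine ContinuousAt.continuousWithinAt ?_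
    simp only [Zc_eq]
    refine tendsto_finsetProd _ fun j _ => ?_
    have key : ∀ (s : ℂ) (i : Fin k ⊕ Fin k), (s = I ∨ s = -I) →
        ContinuousAt (fun p : (Fin k ⊕ Fin k → ℂ) × ℝ => riemannZeta (zarg s p.2 (p.1 i))) (c, t) := by
      intro s i hs
      have h1 : ContinuousAt (fun p : (Fin k ⊕ Fin k → ℂ) × ℝ => zarg s p.2 (p.1 i)) (c, t) := by
        unfold zarg
        fun_prop
      exact ContinuousAt.comp (g := riemannZeta)
        (f := fun p : (Fin k ⊕ Fin k → ℂ) × ℝ => zarg s p.2 (p.1 i))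
        (differentiableAt_riemannZeta (arg_ne hs (hc.1 i))).continuousAt h1
    exact (key I (Sum.inl j) (Or.inl rfl)).mul (key (-I) (Sum.inr j) (Or.inr rfl))
  · intro t c h0 ht hc
    constructor
    · rw [Zc_eq, Finset.prod_mul_distrib, norm_mul, norm_prod, norm_prod]
      have key : ∀ (s : ℂ) (i : Fin k ⊕ Fin k), (s = I ∨ s = -I) →
          ‖riemannZeta (zarg s t (c i))‖ ≤ C * 5 ^ A * T ^ A := by
        intro s i hs
        refine (zbound hC hG hs hT h0 ht (hc.1 i) (hc.2.1 i)).trans (le_of_eq ?_)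
        rw [mul_pow, mul_assoc]
      have k1 : ∏ j : Fin k, ‖riemannZeta (zarg I t (c (Sum.inl j)))‖ ≤ (C * 5 ^ A * T ^ A) ^ k := by
        refine (Finset.prod_le_prod (fun _ _ => norm_nonneg _)
          (fun j _ => key I (Sum.inl j) (Or.inl rfl))).trans (le_of_eq ?_)
        rw [Finset.prod_const, Finset.card_univ, Fintype.card_fin]
      have k2 : ∏ j : Fin k, ‖riemannZeta (zarg (-I) t (c (Sum.inr j)))‖ ≤
          (C * 5 ^ A * T ^ A) ^ k := by
        refine (Finset.prod_le_prod (fun _ _ => norm_nonneg _)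
          (fun j _ => key (-I) (Sum.inr j) (Or.inr rfl))).trans (le_of_eq ?_)
        rw [Finset.prod_const, Finset.card_univ, Fintype.card_fin]
      refine (mul_le_mul k1 k2 (Finset.prod_nonneg fun _ _ => norm_nonneg _)
        (by positivity)).trans (le_of_eq ?_)
      rw [← pow_add, ← two_mul, mul_pow, ← pow_mul T]
    · intro i
      simp only [Zc_eq]
      refine DifferentiableAt.fun_finsetProd fun j _ => ?_
      have key : ∀ (s : ℂ) (l : Fin k ⊕ Fin k), (s = I ∨ s = -I) →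
          DifferentiableAt ℂ (fun w : ℂ => riemannZeta (zarg s t (Function.update c i w l))) (c i) := by
        intro s l hs
        have h1 : DifferentiableAt ℂ (fun w : ℂ => zarg s t (Function.update c i w l)) (c i) := by
          unfold zarg
          exact ((((upd_diff c i l (c i)).const_add (t : ℂ)).const_mul s).const_add (1 / 2))
        have h2 : DifferentiableAt ℂ riemannZeta (zarg s t (Function.update c i (c i) l)) := by
          rw [Function.update_eq_self]
          exact differentiableAt_riemannZeta (arg_ne hs (hc.1 l))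
        exact DifferentiableAt.comp (g := riemannZeta) (c i) h2 h1
      exact (key I (Sum.inl j) (Or.inl rfl)).mul (key (-I) (Sum.inr j) (Or.inr rfl))

end

end Pool.Agent.Z72.SH
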