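import Pool.Agent.Z72.SH.As3
import Pool.Agent.Z72.SH.Ex3
import Pool.Agent.Z72.SH.Gm
import Pool.Agent.Z72.SH.Es
import Pool.Agent.Z72.SH.Vs
import Pool.Agent.Z72.SH.Wm
import Pool.Agent.Z72.SH.Ch
import Pool.Agent.Z72.SH.Gr
import Pool.Agent.Z72.SH.Zb
import Pool.Agent.Z72.SH.Qb
import Pool.Agent.Z72.SH.R3
import Pool.Agent.Z72.SH.R1
import Pool.Agent.Z72.SH.Swu
import Pool.Agent.Z72.SH.Fin2
import Pool.Agent.Z72.SH.Kd
import Pool.Agent.Z72.SH.Rw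
import Pool.Agent.TH612.GS.All
import Pool.Agent.TH809.MZ.Fin
import Pool.Agent.N879.PU.Mv
import Pool.Agent.N879.PU.Winu

set_option autoImplicit false

/-!
All parts together.
-/

namespace Pool.Agent.Z72.SH

open Complex Filter Topology MeasureTheory Set
open Pool.Agent.TH612.GS (z zN PN mP DD)

theorem t_ZG : S_ZG := by
  obtain ⟨C, hC⟩ := Pool.Agent.TH809.MZ.growth_weyl (5 / 6) (by norm_num)
  refine ⟨max C 1, le_max_right _ _, fun u => ?_⟩
  have h1 := hC u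
  have h2 : (1 / 6 + 5 / 6 : ℝ) = 1 := by norm_num
  rw [h2, Real.rpow_one] at h1
  have h3 : z u = riemannZeta ⟨1 / 2, u⟩ := by
    unfold Pool.Agent.TH612.GS.z
    congr 1
    apply Complex.ext <;> simp
  rw [h3]
  refine h1.trans ?_
  exact mul_le_mul_of_nonneg_right (le_max_left _ _) (by positivity)

theorem t_FINAL (hKD : S_KD) (hRW : S_RW) : S_FIN3 := by
  have hVS : S_VS := t_VS Gm.t_GM t_ES
  have hEX : S_EX := t_EX hKD hRW (t_WM hVS) (Pool.Agent.N879.PU.t_WINU Pool.Agent.N879.PU.t_MVS)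
  have hMV := Pool.Agent.TH928.GS.t_MV
  have hFL := Pool.Agent.TH448.GS.t_FL2
  have hSS := Pool.Agent.TH367.GS.t_SS hFL
  have hC := Pool.Agent.TH757.GS.t_CONT
  have hG := Pool.Agent.TH753.GS.t_GL2 hFL
  have hONE := Pool.Agent.TH811.GS.t_ONE hMV
  have hZM := Pool.Agent.TH228.GS.t_ZM hONE
  have hA4 := Pool.Agent.TH347.GS.t_A4 hC hG
  have hNS := Pool.Agent.TH767.GS.t_NS
  have hD := Pool.Agent.TH509.GS.t_DIAG
  have hMU : S_MU := t_MU hEX t_CH t_SWU t_ZG Pool.Agent.TH612.GS.all_main hSS hA4 hZM hONE hNS hD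
    Pool.Agent.TH612.GS.t_INV
  exact t_FIN3 hMU (t_R2 t_R1) (t_R3 (t_ZB t_GR) (t_QB t_GR))

theorem final : S_FIN3 := t_FINAL t_KD t_RW

end Pool.Agent.Z72.SH
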