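import Pool.Agent.Z72.SH.As2

set_option autoImplicit false

/-! Project SH: assembly, the measure of the exceptional set. -/

namespace Pool.Agent.Z72.SH

open Complex Filter Topology MeasureTheory Set
open Pool.Agent.TH612.GS (z zN PN mP SN SP GM zr Sep DD z_cont PN_cont zp IG Pk ZB zp_bd inv_le_one DD_eq Zg_fz
  Zg_cont IG_cont GG_cont_t norm_GG S_INV S_DIAG Bad cheb S_SS S_A4 S_ZM S_ONE S_NS SN_cont SP_cont GM0_cont zr_cont
  Sep_meas exists_cut BF_nonneg sum_ofReal_le')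
open Pool.Agent.TH612.CF (Zg GG Qs BF)
open Pool.Agent.N879.PU (fs fs_norm fs_cont fs_prod)

noncomputable section

/-- GS: the case `U = T` -/
def S_GS : Prop := ∀ k : ℕ, ∃ δ : ℝ, 0 < δ ∧ ∃ T₀ : ℝ, ∀ T : ℝ, T₀ ≤ T →
    mP (Fin k ⊕ Fin k) T (Bad k T (T ^ (1 - δ))) ≤ ENNReal.ofReal (T ^ (2 * k - δ : ℝ))

lemma gd_cont {k : ℕ} (N : ℕ) : Continuous fun p : (Fin k ⊕ Fin k → ℝ) × ℝ => gd N p.1 p.2 := by
  unfold gd
  refine Continuous.sub ?_ ?_
  · exact continuous_finsetProd _ fun i _ => (fs_cont z_cont i).comp (by fun_prop)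
  · exact continuous_finsetProd _ fun i _ => (fs_cont (PN_cont N) i).comp (by fun_prop)

/-- the number of levels of the chaining -/
lemma exists_Jc (k : ℕ) {T : ℝ} (hT : 1 ≤ Real.log T) (hT0 : 0 < T) : ∃ Jc : ℕ, T ^ (2 * k + 2) ≤ 2 ^ Jc ∧
    (Jc : ℝ) + 1 ≤ (4 * k + 6) * Real.log T := by
  obtain ⟨Jc, hJ⟩ : ∃ Jc : ℕ, Jc = ⌈(2 * k + 2) * Real.log T / Real.log 2⌉₊ := ⟨_, rfl⟩
  have hl2 : 1 / 2 < Real.log 2 := by
    have := Real.log_two_gt_d9; linarith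
  have hl0 : 0 < Real.log 2 := by linarith
  have hk0 : (0:ℝ) ≤ k := Nat.cast_nonneg k
  refine ⟨Jc, ?_, ?_⟩
  · have h1 : (2 * k + 2) * Real.log T / Real.log 2 ≤ Jc := by rw [hJ]; exact Nat.le_ceil _
    rw [div_le_iff₀ hl0] at h1
    have e1 : T ^ (2 * k + 2) = Real.exp ((2 * k + 2) * Real.log T) := by
      have : ((2 * k + 2 : ℕ) : ℝ) * Real.log T = (2 * k + 2) * Real.log T := by push_cast; ring
      rw [← this, Real.exp_nat_mul, Real.exp_log hT0]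
    have e2 : (2:ℝ) ^ Jc = Real.exp (Jc * Real.log 2) := by
      rw [Real.exp_nat_mul, Real.exp_log (by norm_num)]
    rw [e1, e2]
    exact Real.exp_le_exp.2 h1
  · have h1 : (Jc : ℝ) < (2 * k + 2) * Real.log T / Real.log 2 + 1 := by
      rw [hJ]
      exact Nat.ceil_lt_add_one (by positivity)
    have h2 : (2 * k + 2) * Real.log T / Real.log 2 ≤ (2 * k + 2) * Real.log T * 2 := by
      rw [div_le_iff₀ hl0]
      have : 0 ≤ (2 * (k:ℝ) + 2) * Real.log T := by positivity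
      nlinarith
    nlinarith

theorem t_MU (hEX : S_EX) (hCH : S_CH) (hSWU : S_SWU) (hZG : S_ZG) (hGS : S_GS) (hSS : S_SS) (hA4 : S_A4)
    (hZM : S_ZM) (hONE : S_ONE) (hNS : S_NS) (hD : S_DIAG) (hINV : S_INV) : S_MU := by
  intro k κ hk hκ
  classical
  rcases lt_or_ge 1 κ with hκ1 | hκ1
  · refine ⟨1, 2, one_pos, fun T U hT hTU hUT => ?_⟩
    exfalso
    have h1 : T ^ (1:ℝ) < T ^ κ := Real.rpow_lt_rpow_of_exponent_lt (by linarith) hκ1
    rw [Real.rpow_one] at h1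
    linarith
  have hκ0 : 0 < κ := by
    have hk2 : (2:ℝ) ≤ k := by exact_mod_cast hk
    refine lt_of_le_of_lt ?_ hκ
    exact div_nonneg (by linarith) (by linarith)
  obtain ⟨ψ, hψ⟩ := exists_cut
  obtain ⟨η, C8, T8, A8, hη, hC8, hT8, h8⟩ := hEX k κ hk hκ hκ1
  obtain ⟨δ1, hδ1, T1, hg⟩ := hGS k
  obtain ⟨C3, hC3, h3⟩ := hSS k ψ hψ
  obtain ⟨C4, M0, hC4, hM0, h4⟩ := hA4 k ψ hψ
  obtain ⟨C5, T5, B5, hC5, hT5, h5⟩ := hZM k
  obtain ⟨C6, T6, hC6, hT6, h6⟩ := hSWU k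
  obtain ⟨C7, T7, hC7, hT7, h7⟩ := hONE
  obtain ⟨C9, hC9, h9⟩ := hZG
  obtain ⟨θ, hθ, hpar⟩ := paramsU k κ η δ1 hκ0 hη hδ1
  obtain ⟨P0, hP0⟩ : ∃ P0 : ℝ, P0 = (Fintype.card (Equiv.Perm (Fin k ⊕ Fin k)) : ℝ) := ⟨_, rfl⟩
  have hP0' : 0 ≤ P0 := by rw [hP0]; exact Nat.cast_nonneg _
  obtain ⟨Z7, hZ7⟩ : ∃ Z7 : ℝ, Z7 = P0 * (BF k (1 / 8) * C7 ^ (k ^ 2)) := ⟨_, rfl⟩
  have hZ7' : 0 ≤ Z7 := by rw [hZ7]; exact mul_nonneg hP0' (mul_nonneg (BF_nonneg _ _) (by positivity))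
  obtain ⟨C10, hC10⟩ : ∃ C10 : ℝ, C10 = 2 * (3 * C9) ^ (2 * k) := ⟨_, rfl⟩
  have hC10' : 0 ≤ C10 := by rw [hC10]; positivity
  have hk0 : (0:ℝ) ≤ k := Nat.cast_nonneg k
  obtain ⟨Ct, hCt⟩ : ∃ Ct : ℝ, Ct = C3 + C4 + C5 + P0 * C6 + Z7 + 8 * k ^ 2 + C8 + (4 * k + 6) + C10 + 1 := ⟨_, rfl⟩
  obtain ⟨Bt, hBt⟩ : ∃ Bt : ℕ, Bt = B5 + 2 + k ^ 2 + A8 := ⟨_, rfl⟩
  obtain ⟨T0, hT0⟩ := hpar Ct Bt M0
  have ev := (tendsto_rpow_atTop hκ0).eventually_ge_atTop (max T1 (max T5 T7))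
  obtain ⟨T9, hT9⟩ := eventually_atTop.1 ev
  refine ⟨2 * κ * θ, max T0 (max T6 (max T8 T9)), by positivity, fun T U hT hTU hUT => ?_⟩
  obtain ⟨y, N, J, P⟩ := hT0 T U ((le_max_left _ _).trans hT) hTU hUT
  have hT' := (le_max_right _ _).trans hT
  have hTT6 : T6 ≤ T := (le_max_left _ _).trans hT'
  have hTT8 : T8 ≤ T := ((le_max_left _ _).trans (le_max_right _ _)).trans hT'
  have hTT9 : T9 ≤ T := ((le_max_right _ _).trans (le_max_right _ _)).trans hT'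
  have hUm : max T1 (max T5 T7) ≤ U := (hT9 T hTT9).trans hTU
  have hUT1 : T1 ≤ U := (le_max_left _ _).trans hUm
  have hUT5 : T5 ≤ U := ((le_max_left _ _).trans (le_max_right _ _)).trans hUm
  have hUT7 : T7 ≤ U := ((le_max_right _ _).trans (le_max_right _ _)).trans hUm
  have hU3 := P.hU
  have hU0 : 0 < U := by linarith
  have hU1 : 1 ≤ U := by linarith
  have hTp : 0 < T := by linarith
  have hT3 : 3 ≤ T := by linarith
  have hLU := P.hlog
  have hlUT : Real.log U ≤ Real.log T := Real.log_le_log hU0 hUT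
  have hL : 1 ≤ Real.log T := by linarith
  have hy16 := P.hy16
  have hy0 : 0 < y := by linarith
  have hy1 : 1 ≤ y := by linarith
  have hN1 : 1 ≤ N := by have := P.hN2; omega
  have hN0 : (0:ℝ) < N := by exact_mod_cast (by omega : 0 < N)
  have hJ0 : (0:ℝ) < J := by have := P.hJ1; exact_mod_cast (by omega : 0 < J)
  have hTJ : 0 < T / J := by positivity
  have cst : ∀ (c : ℝ) (b : ℕ), 0 ≤ c → c ≤ Ct → b ≤ Bt → c * Real.log T ^ b ≤ y := by
    intro c b hc0 hc hb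
    refine le_trans ?_ P.hC
    have : Real.log T ^ b ≤ Real.log T ^ Bt := pow_le_pow_right₀ hL hb
    have hCt0 : 0 ≤ Ct := hc0.trans hc
    gcongr
  have hPC : 0 ≤ P0 * C6 := mul_nonneg hP0' hC6.le
  have hk8 : (0:ℝ) ≤ 8 * k ^ 2 := by positivity
  have c3 : C3 ≤ y := by simpa using cst C3 0 hC3.le (by rw [hCt]; linarith) (by omega)
  have c4 : C4 ≤ y := by simpa using cst C4 0 hC4.le (by rw [hCt]; linarith) (by omega)
  have c5 : C5 * Real.log T ^ B5 ≤ y := cst C5 _ hC5.le (by rw [hCt]; linarith) (by omega)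
  have c6 : P0 * C6 * Real.log T ^ 2 ≤ y := cst _ _ hPC (by rw [hCt]; linarith) (by omega)
  have c7 : Z7 * Real.log T ^ (k ^ 2) ≤ y := cst _ _ hZ7' (by rw [hCt]; linarith) (by omega)
  have c8 : 8 * (k:ℝ) ^ 2 ≤ y := by simpa using cst _ 0 hk8 (by rw [hCt]; linarith) (by omega)
  have c8' : C8 ≤ y := by simpa using cst _ 0 hC8.le (by rw [hCt]; linarith) (by omega)
  have c10 : C10 ≤ y := by simpa using cst _ 0 hC10' (by rw [hCt]; linarith) (by omega)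
  have c11 : (4 * (k:ℝ) + 6) * Real.log T ≤ y := by
    simpa using cst (4 * (k:ℝ) + 6) 1 (by positivity) (by rw [hCt]; linarith) (by omega)
  have c12 : Real.log T ^ A8 ≤ y := by
    simpa using cst 1 A8 zero_le_one (by rw [hCt]; linarith) (by omega)
  obtain ⟨Jc, hJc1, hJc2⟩ := exists_Jc k hL hTp
  have hJcy : (Jc : ℝ) + 1 ≤ y := hJc2.trans c11
  have hone := (h7 U N hUT7 hN1 P.hNU).1
  have hZ : P0 * ZB k C7 U ≤ y := by
    refine le_trans ?_ c7
    unfold ZB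
    rw [hZ7, mul_pow]
    have hlp : Real.log U ^ (k ^ 2) ≤ Real.log T ^ (k ^ 2) := pow_le_pow_left₀ (by linarith) hlUT _
    have hb := BF_nonneg k (1 / 8)
    calc P0 * (BF k (1 / 8) * (C7 ^ (k ^ 2) * Real.log U ^ (k ^ 2)))
        ≤ P0 * (BF k (1 / 8) * (C7 ^ (k ^ 2) * Real.log T ^ (k ^ 2))) := by gcongr
      _ = _ := by ring
  have hZ0 : 0 ≤ ZB k C7 U := by
    unfold ZB
    exact mul_nonneg (BF_nonneg _ _) (by positivity)
  have hUh : U ^ (1 / 2 : ℝ) * U ^ (1 / 2 : ℝ) = U := by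
    rw [← Real.rpow_add hU0]; norm_num
  have hUh1 : 1 ≤ U ^ (1 / 2 : ℝ) := Real.one_le_rpow hU1 (by norm_num)
  have hy40U : y ^ 40 ≤ U := P.hyU.trans (by nlinarith)
  -- the target for each piece
  obtain ⟨b, hb⟩ : ∃ b : ℝ, b = U ^ (2 * k) / y ^ 3 := ⟨_, rfl⟩
  have hUk : 0 < U ^ (2 * k) := by positivity
  have hb0 : 0 < b := by rw [hb]; positivity
  have hNinv : 1 / (N:ℝ) ≤ 2 / y ^ 320 := by
    rw [div_le_div_iff₀ hN0 (by positivity)]
    have := P.hN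
    linarith
  have hy1' : ∀ n : ℕ, 1 ≤ y ^ n := fun n => one_le_pow₀ hy1
  have hyn : ∀ n : ℕ, 1 ≤ n → 16 ≤ y ^ n := fun n hn => hy16.trans (le_self_pow₀ hy1 (by omega))
  -- U3
  have u3 : mP (Fin k ⊕ Fin k) U {γ | 1 / y ^ 4 < ‖SN N γ - SP ψ N γ‖} ≤ ENNReal.ofReal b := by
    refine (cheb (((SN_cont N).sub (SP_cont ψ N)).norm.aemeasurable) (by positivity)
      (h3 U N P.hN2 P.hN1)).trans (ENNReal.ofReal_le_ofReal ?_)
    have e := P.hN8
    calc C3 * U ^ (2 * k) * (N:ℝ) ^ (-(1 / 8) : ℝ) / (1 / y ^ 4) ^ 2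
        ≤ y * U ^ (2 * k) * (2 / y ^ 40) / (1 / y ^ 4) ^ 2 := by gcongr
      _ = U ^ (2 * k) / y ^ 3 * (2 / y ^ 28) := by field_simp
      _ ≤ U ^ (2 * k) / y ^ 3 * 1 := by
          gcongr
          rw [div_le_one (by positivity)]
          linarith [hyn 28 (by norm_num)]
      _ = b := by rw [mul_one, hb]
  -- U4
  have u4 : mP (Fin k ⊕ Fin k) U {γ | 1 / y ^ 4 < ‖SP ψ N γ - GM N γ 0‖} ≤ ENNReal.ofReal b := by
    refine (cheb (((SP_cont ψ N).sub (GM0_cont N)).norm.aemeasurable) (by positivity)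
      (h4 U N P.hM (by linarith) P.hN3)).trans (ENNReal.ofReal_le_ofReal ?_)
    have e := P.hN8
    calc C4 * U ^ (2 * k) * (N:ℝ) ^ (-(1 / 8) : ℝ) / (1 / y ^ 4) ^ 2
        ≤ y * U ^ (2 * k) * (2 / y ^ 40) / (1 / y ^ 4) ^ 2 := by gcongr
      _ = U ^ (2 * k) / y ^ 3 * (2 / y ^ 28) := by field_simp
      _ ≤ U ^ (2 * k) / y ^ 3 * 1 := by
          gcongr
          rw [div_le_one (by positivity)]
          linarith [hyn 28 (by norm_num)]
      _ = b := by rw [mul_one, hb]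
  -- U5
  have u5 : mP (Fin k ⊕ Fin k) U (Sep k U ∩ {γ | 1 / y ^ 4 < ‖GM N γ 0 - zr γ‖}) ≤
      ENNReal.ofReal b := by
    have hm : AEMeasurable (fun γ : Fin k ⊕ Fin k → ℝ => ‖GM N γ 0 - zr γ‖)
        ((mP (Fin k ⊕ Fin k) U).restrict (Sep k U)) :=
      (((GM0_cont N).continuousOn.sub (zr_cont (by linarith))).norm).aemeasurable (Sep_meas k U)
    have hcb := cheb hm (lam := 1 / y ^ 4) (by positivity) (h5 U N hUT5 hN1 P.hNU)
    have e0 : mP (Fin k ⊕ Fin k) U (Sep k U ∩ {γ | 1 / y ^ 4 < ‖GM N γ 0 - zr γ‖}) ≤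
        ((mP (Fin k ⊕ Fin k) U).restrict (Sep k U)) {γ | 1 / y ^ 4 < ‖GM N γ 0 - zr γ‖} := by
      rw [inter_comm]
      exact Measure.le_restrict_apply _ _
    refine e0.trans (hcb.trans (ENNReal.ofReal_le_ofReal ?_))
    have hlp : Real.log U ^ B5 ≤ Real.log T ^ B5 := pow_le_pow_left₀ (by linarith) hlUT _
    calc C5 * Real.log U ^ B5 * U ^ (2 * k) / N / (1 / y ^ 4) ^ 2
        = (C5 * Real.log U ^ B5) * U ^ (2 * k) * (1 / N) / (1 / y ^ 4) ^ 2 := by ring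
      _ ≤ (C5 * Real.log T ^ B5) * U ^ (2 * k) * (1 / N) / (1 / y ^ 4) ^ 2 := by gcongr
      _ ≤ y * U ^ (2 * k) * (2 / y ^ 320) / (1 / y ^ 4) ^ 2 := by gcongr
      _ = U ^ (2 * k) / y ^ 3 * (2 / y ^ 308) := by field_simp
      _ ≤ U ^ (2 * k) / y ^ 3 * 1 := by
          gcongr
          rw [div_le_one (by positivity)]
          linarith [hyn 308 (by norm_num)]
      _ = b := by rw [mul_one, hb]
  have hgrid : ∀ i ∈ Finset.range (J + 1), 0 ≤ (i:ℝ) * (T / J) ∧ (i:ℝ) * (T / J) ≤ T := by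
    intro i hi
    have hi' : (i:ℝ) ≤ J := by exact_mod_cast Nat.lt_succ_iff.1 (Finset.mem_range.1 hi)
    refine ⟨by positivity, ?_⟩
    calc (i:ℝ) * (T / J) ≤ J * (T / J) := by gcongr
      _ = T := by field_simp
  have hJ3 : ((J + 1 : ℕ) : ℝ) ≤ 3 * y ^ 16 := by
    push_cast
    have := P.hJu
    linarith [hyn 16 (by norm_num)]
  -- the replacement
  obtain ⟨β, hβ1, hβ2, hβ3⟩ := h8 T U N hTT8 hTU hUT hN1 (P.hNU.trans (by nlinarith))
  have u1 : mP (Fin k ⊕ Fin k) U {γ | ∃ i : ℕ, i ≤ 2 ^ Jc ∧ (Jc + 1) * (T / y ^ 5) <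
      ‖∫ t in U..(U + i * ((T - U) / 2 ^ Jc)), gd N γ t‖} ≤ ENNReal.ofReal b := by
    refine (hCH (Fin k ⊕ Fin k) (mP (Fin k ⊕ Fin k) U) (fun γ t => gd N γ t) U T (T / y ^ 5) Jc β hUT
      (by positivity) (gd_cont N) hβ1 hβ2).trans (ENNReal.ofReal_le_ofReal ?_)
    have hη' := P.hη
    have d1 : Real.log T ^ A8 / N ≤ 2 / y ^ 319 := by
      calc Real.log T ^ A8 / N = Real.log T ^ A8 * (1 / N) := by ring
        _ ≤ y * (2 / y ^ 320) := by gcongr
        _ = 2 / y ^ 319 := by field_simp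
    have d2 : β U T ≤ y * U ^ (2 * k) * T ^ 2 * (1 / y ^ 20 + 2 / y ^ 319) := by
      refine hβ3.trans ?_
      have : 0 ≤ Real.log T ^ A8 / N := by positivity
      gcongr
    calc (Jc + 1) * β U T / (T / y ^ 5) ^ 2
        ≤ y * (y * U ^ (2 * k) * T ^ 2 * (1 / y ^ 20 + 2 / y ^ 319)) / (T / y ^ 5) ^ 2 := by
          have hb00 := (hβ1 U T le_rfl hUT le_rfl).1
          gcongr
      _ = U ^ (2 * k) / y ^ 3 * (1 / y ^ 5 + 2 / y ^ 304) := by
          field_simp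
      _ ≤ U ^ (2 * k) / y ^ 3 * 1 := by
          gcongr
          have q1 : 1 / y ^ 5 ≤ 1 / 16 := one_div_le_one_div_of_le (by norm_num) (hyn 5 (by norm_num))
          have q2 : 2 / y ^ 304 ≤ 2 / 16 := by
            have := hyn 304 (by norm_num)
            gcongr
          linarith
      _ = b := by rw [mul_one, hb]
  -- U6
  have u6 : ∑ i ∈ Finset.range (J + 1), mP (Fin k ⊕ Fin k) U
      (⋃ π ∈ (Pk k)ᶜ, {γ | T / y ^ 8 < ‖IG (i * (T / J)) γ π‖}) ≤ ENNReal.ofReal b := by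
    refine sum_ofReal_le' (b := P0 * (C6 * U ^ (2 * k - 1) * T ^ 2 * Real.log T ^ 2 / (T / y ^ 8) ^ 2))
      (fun i hi => ?_) ?_
    · obtain ⟨g0, g1⟩ := hgrid i hi
      refine (measure_biUnion_finset_le _ _).trans ?_
      calc ∑ π ∈ (Pk k)ᶜ, mP (Fin k ⊕ Fin k) U {γ | T / y ^ 8 < ‖IG (i * (T / J)) γ π‖}
          ≤ ∑ _π ∈ (Pk k)ᶜ, ENNReal.ofReal (C6 * U ^ (2 * k - 1) * T ^ 2 * Real.log T ^ 2 / (T / y ^ 8) ^ 2) := by
            refine Finset.sum_le_sum fun π hπ => ?_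
            have hπ' : ∃ j, (π (Sum.inr j)).isLeft = true := by
              rw [Finset.mem_compl, Pk, Finset.mem_filter, not_and] at hπ
              have := hπ (Finset.mem_univ _)
              push Not at this
              obtain ⟨j, hj⟩ := this
              exact ⟨j, by simpa using hj⟩
            exact cheb ((IG_cont _ π).norm.aemeasurable) (by positivity)
              (h6 T U _ π hTT6 hU0 hUT g0 g1 hπ')
        _ = ENNReal.ofReal (((Pk k)ᶜ.card : ℝ) * (C6 * U ^ (2 * k - 1) * T ^ 2 * Real.log T ^ 2 /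
              (T / y ^ 8) ^ 2)) := by
            rw [Finset.sum_const, nsmul_eq_mul, ENNReal.ofReal_mul (by positivity),
              ENNReal.ofReal_natCast]
        _ ≤ _ := by
            refine ENNReal.ofReal_le_ofReal ?_
            gcongr
            rw [hP0]
            exact_mod_cast Finset.card_le_univ _
    · have hUk1 : U ^ (2 * k) = U ^ (2 * k - 1) * U := by
        rw [← pow_succ]; congr 1; omega
      calc ((J + 1 : ℕ) : ℝ) * (P0 * (C6 * U ^ (2 * k - 1) * T ^ 2 * Real.log T ^ 2 / (T / y ^ 8) ^ 2))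
          = ((J + 1 : ℕ) : ℝ) * ((P0 * C6 * Real.log T ^ 2) * U ^ (2 * k - 1) * y ^ 16) := by
            field_simp
        _ ≤ (3 * y ^ 16) * (y * U ^ (2 * k - 1) * y ^ 16) := by gcongr
        _ = U ^ (2 * k) / y ^ 3 * (3 * y ^ 36 / U) := by
            rw [hUk1]; field_simp
        _ ≤ U ^ (2 * k) / y ^ 3 * 1 := by
            gcongr
            rw [div_le_one hU0]
            refine le_trans ?_ hy40U
            calc 3 * y ^ 36 ≤ y ^ 4 * y ^ 36 := by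
                  gcongr
                  linarith [hyn 4 (by norm_num)]
              _ = y ^ 40 := by ring
        _ = b := by rw [mul_one, hb]
  -- U8
  have u8 : mP (Fin k ⊕ Fin k) U (Sep k U)ᶜ ≤ ENNReal.ofReal b := by
    refine (hNS k U (by linarith)).trans (ENNReal.ofReal_le_ofReal ?_)
    have e : U ^ (2 * k - 1 / 2 : ℝ) = U ^ (2 * k) / U ^ (1 / 2 : ℝ) := by
      rw [Real.rpow_sub hU0]
      congr 1
      rw [← Real.rpow_natCast]; push_cast; rfl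
    rw [e]
    have hyT2 := P.hyU
    calc 8 * (k:ℝ) ^ 2 * (U ^ (2 * k) / U ^ (1 / 2 : ℝ)) ≤ y * (U ^ (2 * k) / y ^ 40) := by gcongr
      _ = U ^ (2 * k) / y ^ 3 * (1 / y ^ 36) := by field_simp
      _ ≤ U ^ (2 * k) / y ^ 3 * 1 := by
          gcongr
          rw [div_le_one (by positivity)]
          exact hy1' 36
      _ = b := by rw [mul_one, hb]
  -- up to `U`
  have u9 : mP (Fin k ⊕ Fin k) U (Bad k U (U ^ (1 - δ1))) ≤ ENNReal.ofReal b := by
    refine (hg U hUT1).trans (ENNReal.ofReal_le_ofReal ?_)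
    have e : U ^ (2 * k - δ1 : ℝ) = U ^ (2 * k) * U ^ (-δ1) := by
      rw [sub_eq_add_neg, Real.rpow_add hU0]
      congr 1
      rw [← Real.rpow_natCast]; push_cast; rfl
    rw [e]
    have hδ' := P.hδ
    calc U ^ (2 * k) * U ^ (-δ1) ≤ U ^ (2 * k) * (1 / y ^ 8) := by gcongr
      _ = U ^ (2 * k) / y ^ 3 * (1 / y ^ 5) := by field_simp
      _ ≤ U ^ (2 * k) / y ^ 3 * 1 := by
          gcongr
          rw [div_le_one (by positivity)]
          exact hy1' 5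
      _ = b := by rw [mul_one, hb]
  -- conclusion
  have hyT : T ^ (2 * κ * θ) ≤ y ^ 2 := P.hfin
  have hTθ : 0 < T ^ (2 * κ * θ) := by positivity
  have hthr : T / y ^ 2 ≤ T ^ (1 - 2 * κ * θ) := by
    rw [Real.rpow_sub hTp, Real.rpow_one]
    gcongr
  have hsub0 : BadU k T U (T ^ (1 - 2 * κ * θ)) ⊆ BadU k T U (T / y ^ 2) := by
    rintro γ ⟨q1, S, q2, q3, q4⟩
    exact ⟨q1, S, q2, q3, lt_of_le_of_lt hthr q4⟩
  rw [hP0] at hZ
  rw [hC10] at c10
  refine (measure_mono (hsub0.trans (BadU_sub hINV hD ψ P hC7 hone hZ hZ0 hC9 h9 hJc1 hJcy c10))).trans ?_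
  have step : ∀ {A B : Set (Fin k ⊕ Fin k → ℝ)} {x z : ℝ}, 0 ≤ x → 0 ≤ z →
      mP (Fin k ⊕ Fin k) U A ≤ ENNReal.ofReal x → mP (Fin k ⊕ Fin k) U B ≤ ENNReal.ofReal z →
      mP (Fin k ⊕ Fin k) U (A ∪ B) ≤ ENNReal.ofReal (x + z) := by
    intro A B x z hx hz hA hB
    rw [ENNReal.ofReal_add hx hz]
    exact (measure_union_le _ _).trans (add_le_add hA hB)
  have tot := step (by positivity) (by positivity) (step (by positivity) (by positivity)
    (step (by positivity) (by positivity) (step (by positivity) (by positivity)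
    (step (by positivity) (by positivity) (step (by positivity) (by positivity) u8 u3) u4) u5) u1)
    ((measure_biUnion_finset_le _ _).trans u6)) u9
  refine tot.trans (ENNReal.ofReal_le_ofReal ?_)
  have e7 : b + b + b + b + b + b + b = 7 * b := by ring
  rw [e7, hb]
  calc 7 * (U ^ (2 * k) / y ^ 3) ≤ y * (U ^ (2 * k) / y ^ 3) := by
        gcongr
        linarith
    _ = U ^ (2 * k) * (1 / y ^ 2) := by field_simp
    _ ≤ U ^ (2 * k) * T ^ (-(2 * κ * θ)) := by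
        rw [Real.rpow_neg hTp.le, ← one_div]
        gcongr

end

end Pool.Agent.Z72.SH
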