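import Pool.Agent.Z72.SH.Pa
import Pool.Agent.Z72.SH.Ex3

set_option autoImplicit false

/-! Project SH: assembly, the decomposition beyond `U`. -/

namespace Pool.Agent.Z72.SH

open Complex Filter Topology MeasureTheory Set
open Pool.Agent.TH612.GS (z zN PN mP SN SP GM zr Sep DD z_cont PN_cont zp IG Pk ZB zp_bd inv_le_one DD_eq Zg_fz
  Zg_cont IG_cont GG_cont_t norm_GG S_INV S_DIAG)
open Pool.Agent.TH612.CF (Zg GG Qs)
open Pool.Agent.N879.PU (fs fs_norm fs_cont fs_prod)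

noncomputable section

variable {k : ℕ}

/-- ZG: growth of zeta on the critical line -/
def S_ZG : Prop := ∃ C : ℝ, 1 ≤ C ∧ ∀ u : ℝ, ‖z u‖ ≤ C * (1 + |u|)

lemma IG_lip {a b : ℝ} (hab : a ≤ b) (γ : Fin k ⊕ Fin k → ℝ) (π : Equiv.Perm (Fin k ⊕ Fin k)) :
    ‖IG b γ π - IG a γ π‖ ≤ b - a := by
  have e : IG b γ π - IG a γ π = ∫ t in a..b, GG t (fun i => (γ i : ℂ)) π := by
    unfold IG
    exact intervalIntegral.integral_interval_sub_left ((GG_cont_t γ π).intervalIntegrable _ _)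
      ((GG_cont_t γ π).intervalIntegrable _ _)
  rw [e]
  have := intervalIntegral.norm_integral_le_of_norm_le_const (a := a) (b := b) (C := 1)
    (f := fun t => GG t (fun i => (γ i : ℂ)) π) (fun t _ => (norm_GG t γ π).le)
  rwa [one_mul, abs_of_nonneg (by linarith)] at this

lemma IG_all {T : ℝ} {J : ℕ} (hT : 0 < T) (hJ : 1 ≤ J) {γ : Fin k ⊕ Fin k → ℝ} {π : Equiv.Perm (Fin k ⊕ Fin k)}
    {b : ℝ} (h : ∀ i ∈ Finset.range (J + 1), ‖IG (i * (T / J)) γ π‖ ≤ b) {S : ℝ} (hS0 : 0 ≤ S) (hST : S ≤ T) :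
    ‖IG S γ π‖ ≤ b + T / J := by
  have hJ0 : (0:ℝ) < J := by exact_mod_cast (by omega : 0 < J)
  have hTJ : 0 < T / J := by positivity
  obtain ⟨i, hi⟩ : ∃ i : ℕ, i = ⌊S / (T / J)⌋₊ := ⟨_, rfl⟩
  have hiS : (i:ℝ) * (T / J) ≤ S := by
    have := Nat.floor_le (a := S / (T / J)) (by positivity)
    rwa [← hi, le_div_iff₀ hTJ] at this
  have hiS2 : S < ((i:ℝ) + 1) * (T / J) := by
    have := Nat.lt_floor_add_one (S / (T / J))
    rwa [← hi, div_lt_iff₀ hTJ] at this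
  have hiJ : i ≤ J := by
    have h2 : (i:ℝ) * (T / J) ≤ J * (T / J) := by
      refine (hiS.trans hST).trans (le_of_eq ?_)
      field_simp
    have h3 := le_of_mul_le_mul_right h2 hTJ
    exact_mod_cast h3
  have h4 := IG_lip hiS γ π
  have h5 := h i (Finset.mem_range.2 (by omega))
  have h6 : ‖IG S γ π‖ ≤ ‖IG (i * (T / J)) γ π‖ + ‖IG S γ π - IG (i * (T / J)) γ π‖ := by
    have := norm_add_le (IG (i * (T / J)) γ π) (IG S γ π - IG (i * (T / J)) γ π)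
    rwa [add_sub_cancel] at this
  linarith

lemma DD_sub (hINV : S_INV) (U S : ℝ) (γ : Fin k ⊕ Fin k → ℝ) : DD S γ - DD U γ =
    (∫ t in U..S, ∏ i, fs z i (t + γ i)) - ((S - U : ℝ) : ℂ) * zr γ -
      ((Nat.factorial k : ℂ) ^ 2)⁻¹ * ∑ π ∈ (Pk k)ᶜ, (IG S γ π - IG U γ π) * zp γ π := by
  rw [DD_eq hINV, DD_eq hINV]
  have e1 : (∫ t in U..S, ∏ i, fs z i (t + γ i)) = (∫ t in (0:ℝ)..S, Zg γ t) - ∫ t in (0:ℝ)..U, Zg γ t := by
    rw [intervalIntegral.integral_interval_sub_left ((Zg_cont γ).intervalIntegrable _ _)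
      ((Zg_cont γ).intervalIntegrable _ _)]
    refine intervalIntegral.integral_congr fun t _ => ?_
    rw [fs_prod, Zg_fz]
  rw [e1]
  have e2 : ∑ π ∈ (Pk k)ᶜ, (IG S γ π - IG U γ π) * zp γ π =
      ∑ π ∈ (Pk k)ᶜ, IG S γ π * zp γ π - ∑ π ∈ (Pk k)ᶜ, IG U γ π * zp γ π := by
    rw [← Finset.sum_sub_distrib]
    exact Finset.sum_congr rfl fun π _ => by ring
  rw [e2]
  push_cast
  ring

lemma DD_tail (hINV : S_INV) (hD : S_DIAG) (ψ : ℝ → ℝ) {N : ℕ} (hN : 1 ≤ N) {U T S C : ℝ} (hU : 3 ≤ U)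
    (hUS : U ≤ S) (hST : S ≤ T) (hC : 0 < C)
    (h1 : ∀ v : ℝ, 1 ≤ |v| → |v| ≤ U → ‖riemannZeta (1 + I * v)‖ ≤ C * Real.log U)
    {γ : Fin k ⊕ Fin k → ℝ} (hγ : γ ∈ Sep k U) :
    ‖DD S γ - DD U γ‖ ≤ ‖∫ t in U..S, (∏ i, fs z i (t + γ i) - ∏ i, fs (PN N) i (t + γ i))‖ +
      4 * (N : ℝ) ^ (3 * k) + T * ‖SN N γ - SP ψ N γ‖ +
      T * ‖SP ψ N γ - GM N γ 0‖ + T * ‖GM N γ 0 - zr γ‖ +
      ZB k C U * ∑ π ∈ (Pk k)ᶜ, (‖IG S γ π‖ + ‖IG U γ π‖) := by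
  rw [DD_sub hINV]
  obtain ⟨I2, hI2⟩ : ∃ I2 : ℂ, I2 = ∫ t in U..S, ∏ i, fs (PN N) i (t + γ i) := ⟨_, rfl⟩
  obtain ⟨I1, hI1⟩ : ∃ I1 : ℂ, I1 = ∫ t in U..S, (∏ i, fs z i (t + γ i) - ∏ i, fs (PN N) i (t + γ i)) := ⟨_, rfl⟩
  have cz : Continuous fun t : ℝ => ∏ i, fs z i (t + γ i) :=
    continuous_finsetProd _ fun i _ => (fs_cont z_cont i).comp (by fun_prop)
  have cp : Continuous fun t : ℝ => ∏ i, fs (PN N) i (t + γ i) :=
    continuous_finsetProd _ fun i _ => (fs_cont (PN_cont N) i).comp (by fun_prop)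
  have e1 : (∫ t in U..S, ∏ i, fs z i (t + γ i)) = I1 + I2 := by
    rw [hI1, hI2, intervalIntegral.integral_sub (cz.intervalIntegrable _ _) (cp.intervalIntegrable _ _)]
    ring
  have e2 : (∫ t in U..S, ∏ i, fs z i (t + γ i)) - ((S - U : ℝ) : ℂ) * zr γ -
      ((Nat.factorial k : ℂ) ^ 2)⁻¹ * ∑ π ∈ (Pk k)ᶜ, (IG S γ π - IG U γ π) * zp γ π =
      I1 + (I2 - ((S - U : ℝ) : ℂ) * SN N γ) + ((S - U : ℝ) : ℂ) * (SN N γ - SP ψ N γ) +
      ((S - U : ℝ) : ℂ) * (SP ψ N γ - GM N γ 0) +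
      ((S - U : ℝ) : ℂ) * (GM N γ 0 - zr γ) -
      ((Nat.factorial k : ℂ) ^ 2)⁻¹ * ∑ π ∈ (Pk k)ᶜ, (IG S γ π - IG U γ π) * zp γ π := by
    rw [e1]; ring
  rw [e2, ← hI1]
  have n1 : ∀ w : ℂ, ‖((S - U : ℝ) : ℂ) * w‖ ≤ T * ‖w‖ := by
    intro w
    rw [norm_mul, Complex.norm_real, Real.norm_of_nonneg (by linarith)]
    gcongr
    linarith
  have n2 : ‖((Nat.factorial k : ℂ) ^ 2)⁻¹ * ∑ π ∈ (Pk k)ᶜ, (IG S γ π - IG U γ π) * zp γ π‖ ≤
      ZB k C U * ∑ π ∈ (Pk k)ᶜ, (‖IG S γ π‖ + ‖IG U γ π‖) := by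
    rw [norm_mul]
    calc _ ≤ 1 * ‖∑ π ∈ (Pk k)ᶜ, (IG S γ π - IG U γ π) * zp γ π‖ := by
          gcongr
          exact inv_le_one
      _ ≤ 1 * ∑ π ∈ (Pk k)ᶜ, ‖(IG S γ π - IG U γ π) * zp γ π‖ := by
          gcongr
          exact norm_sum_le _ _
      _ ≤ 1 * ∑ π ∈ (Pk k)ᶜ, (‖IG S γ π‖ + ‖IG U γ π‖) * ZB k C U := by
          gcongr with π hπ
          rw [norm_mul]
          gcongr
          · exact norm_sub_le _ _
          · exact zp_bd hU hC h1 hγ π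
      _ = _ := by rw [one_mul, ← Finset.sum_mul, mul_comm]
  have n3 : ‖I2 - ((S - U : ℝ) : ℂ) * SN N γ‖ ≤ 4 * (N : ℝ) ^ (3 * k) := by
    have a1 := hD k N S γ hN (by linarith)
    have a2 := hD k N U γ hN (by linarith)
    have e3 : I2 - ((S - U : ℝ) : ℂ) * SN N γ =
        ((∫ t in (0:ℝ)..S, ∏ j : Fin k, PN N (t + γ (Sum.inl j)) *
          (starRingEnd ℂ) (PN N (t + γ (Sum.inr j)))) - S * SN N γ) -
        ((∫ t in (0:ℝ)..U, ∏ j : Fin k, PN N (t + γ (Sum.inl j)) *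
          (starRingEnd ℂ) (PN N (t + γ (Sum.inr j)))) - U * SN N γ) := by
      rw [hI2]
      simp only [fs_prod] at cp ⊢
      rw [← intervalIntegral.integral_interval_sub_left (cp.intervalIntegrable 0 S) (cp.intervalIntegrable 0 U)]
      push_cast
      ring
    rw [e3]
    refine (norm_sub_le _ _).trans ?_
    linarith
  have n4 := n1 (SN N γ - SP ψ N γ)
  have n5 := n1 (SP ψ N γ - GM N γ 0)
  have n6 := n1 (GM N γ 0 - zr γ)
  refine (norm_sub_le _ _).trans (add_le_add ?_ n2)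
  refine (norm_add_le _ _).trans (add_le_add ?_ n6)
  refine (norm_add_le _ _).trans (add_le_add ?_ n5)
  refine (norm_add_le _ _).trans (add_le_add ?_ n4)
  exact (norm_add_le _ _).trans (add_le_add le_rfl n3)

/-- trivial bound for the replacement over a short interval -/
lemma triv_bd {C T : ℝ} {N : ℕ} (hC1 : 1 ≤ C) (hC : ∀ u : ℝ, ‖z u‖ ≤ C * (1 + |u|)) (hT : 3 ≤ T) (hN : (N : ℝ) ≤ T)
    {a b : ℝ} (ha : 0 ≤ a) (hab : a ≤ b) (hb : b ≤ T) {γ : Fin k ⊕ Fin k → ℝ} (hγ : ∀ i, 0 ≤ γ i ∧ γ i ≤ T) :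
    ‖∫ t in a..b, (∏ i, fs z i (t + γ i) - ∏ i, fs (PN N) i (t + γ i))‖ ≤
      (b - a) * (2 * (3 * C * T) ^ (2 * k)) := by
  have hP : ∀ u : ℝ, ‖PN N u‖ ≤ N := by
    intro u
    unfold PN zN
    refine (norm_sum_le _ _).trans ?_
    calc ∑ n ∈ Finset.Icc 1 N, ‖(n : ℂ) ^ (-(1 / 2 + I * (u : ℂ)))‖ ≤ ∑ _n ∈ Finset.Icc 1 N, (1:ℝ) := by
          refine Finset.sum_le_sum fun n hn => ?_
          have hn1 : 1 ≤ n := (Finset.mem_Icc.1 hn).1
          rw [Complex.norm_natCast_cpow_of_pos (by omega)]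
          refine Real.rpow_le_one_of_one_le_of_nonpos (by exact_mod_cast hn1) ?_
          simp
      _ = N := by simp
  have hbd : ∀ t ∈ uIoc a b, ‖∏ i, fs z i (t + γ i) - ∏ i, fs (PN N) i (t + γ i)‖ ≤ 2 * (3 * C * T) ^ (2 * k) := by
    intro t ht
    rw [uIoc_of_le hab] at ht
    have h1 : ‖∏ i, fs z i (t + γ i)‖ ≤ (3 * C * T) ^ (2 * k) := by
      rw [norm_prod]
      calc ∏ i, ‖fs z i (t + γ i)‖ ≤ ∏ _i : Fin k ⊕ Fin k, (3 * C * T) := by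
            refine Finset.prod_le_prod (fun _ _ => norm_nonneg _) fun i _ => ?_
            rw [fs_norm]
            refine (hC _).trans ?_
            have h2 : |t + γ i| ≤ 2 * T := by
              rw [abs_of_nonneg (by linarith [(hγ i).1, ht.1])]
              linarith [(hγ i).2, ht.2]
            calc C * (1 + |t + γ i|) ≤ C * (3 * T) := by gcongr; linarith
              _ = 3 * C * T := by ring
        _ = (3 * C * T) ^ (2 * k) := by
            rw [Finset.prod_const, Finset.card_univ, Pool.Agent.N879.PU.card_ii]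
    have h3 : ‖∏ i, fs (PN N) i (t + γ i)‖ ≤ (3 * C * T) ^ (2 * k) := by
      rw [norm_prod]
      calc ∏ i, ‖fs (PN N) i (t + γ i)‖ ≤ ∏ _i : Fin k ⊕ Fin k, (3 * C * T) := by
            refine Finset.prod_le_prod (fun _ _ => norm_nonneg _) fun i _ => ?_
            rw [fs_norm]
            refine (hP _).trans (hN.trans ?_)
            nlinarith
        _ = (3 * C * T) ^ (2 * k) := by
            rw [Finset.prod_const, Finset.card_univ, Pool.Agent.N879.PU.card_ii]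
    refine (norm_sub_le _ _).trans ?_
    linarith
  refine (intervalIntegral.norm_integral_le_of_norm_le_const hbd).trans (le_of_eq ?_)
  rw [abs_of_nonneg (by linarith)]
  ring

end

end Pool.Agent.Z72.SH
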