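import Pool.Agent.Z72.SH.As1

set_option autoImplicit false

/-! Project SH: assembly, the exceptional set. -/

namespace Pool.Agent.Z72.SH

open Complex Filter Topology MeasureTheory Set
open Pool.Agent.TH612.GS (z zN PN mP SN SP GM zr Sep DD z_cont PN_cont zp IG Pk ZB zp_bd inv_le_one DD_eq Zg_fz
  Zg_cont IG_cont GG_cont_t norm_GG S_INV S_DIAG Bad)
open Pool.Agent.TH612.CF (Zg GG Qs)
open Pool.Agent.N879.PU (fs fs_norm fs_cont fs_prod)

noncomputable section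

variable {k : ℕ}

/-- the difference of the products -/
def gd (N : ℕ) (γ : Fin k ⊕ Fin k → ℝ) (t : ℝ) : ℂ := ∏ i, fs z i (t + γ i) - ∏ i, fs (PN N) i (t + γ i)

/-- the pieces of the exceptional set -/
lemma BadU_sub (hINV : S_INV) (hD : S_DIAG) (ψ : ℝ → ℝ) {κ η δ θ C : ℝ} {B M₀ : ℕ} {T U y : ℝ} {N J : ℕ}
    (P : ParU k κ η δ θ C B M₀ T U y N J) {C7 : ℝ} (hC7 : 0 < C7)
    (h1 : ∀ v : ℝ, 1 ≤ |v| → |v| ≤ U → ‖riemannZeta (1 + I * v)‖ ≤ C7 * Real.log U)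
    (hZ : (Fintype.card (Equiv.Perm (Fin k ⊕ Fin k)) : ℝ) * ZB k C7 U ≤ y) (hZ0 : 0 ≤ ZB k C7 U)
    {C9 : ℝ} (hC9 : 1 ≤ C9) (h9 : ∀ u : ℝ, ‖z u‖ ≤ C9 * (1 + |u|)) {Jc : ℕ} (hJc : T ^ (2 * k + 2) ≤ 2 ^ Jc)
    (hJcy : (Jc : ℝ) + 1 ≤ y) (hC9y : 2 * (3 * C9) ^ (2 * k) ≤ y) :
    BadU k T U (T / y ^ 2) ⊆ (Sep k U)ᶜ ∪ {γ | 1 / y ^ 4 < ‖SN N γ - SP ψ N γ‖} ∪
      {γ | 1 / y ^ 4 < ‖SP ψ N γ - GM N γ 0‖} ∪ (Sep k U ∩ {γ | 1 / y ^ 4 < ‖GM N γ 0 - zr γ‖}) ∪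
      {γ | ∃ i : ℕ, i ≤ 2 ^ Jc ∧ (Jc + 1) * (T / y ^ 5) < ‖∫ t in U..(U + i * ((T - U) / 2 ^ Jc)), gd N γ t‖} ∪
      (⋃ i ∈ Finset.range (J + 1), ⋃ π ∈ (Pk k)ᶜ, {γ | T / y ^ 8 < ‖IG (i * (T / J)) γ π‖}) ∪
      Bad k U (U ^ (1 - δ)) := by
  intro γ hγ
  by_contra hcon
  simp only [mem_union, not_or, mem_iUnion, mem_ofPred_eq, not_exists, not_lt, mem_compl_iff,
    not_not, mem_inter_iff, not_and] at hcon
  obtain ⟨⟨⟨⟨⟨⟨g1, g2⟩, g3⟩, g4⟩, g5⟩, g6⟩, g7⟩ := hcon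
  obtain ⟨hcube, S, hS0, hST, hS⟩ := hγ
  have hU3 := P.hU
  have hUT := P.hUT
  have hU0 : 0 < U := by linarith
  have hU1 : 1 ≤ U := by linarith
  have hT0 : 0 < T := by linarith
  have hT3 : 3 ≤ T := by linarith
  have hy16 := P.hy16
  have hy0 : 0 < y := by linarith
  have hy1 : 1 ≤ y := by linarith
  have hJ : (0:ℝ) < J := by have := P.hJ1; exact_mod_cast (by omega : 0 < J)
  have hUh : U ^ (1 / 2 : ℝ) * U ^ (1 / 2 : ℝ) = U := by
    rw [← Real.rpow_add hU0]; norm_num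
  have hUh1 : 1 ≤ U ^ (1 / 2 : ℝ) := Real.one_le_rpow hU1 (by norm_num)
  have hyn : ∀ n : ℕ, 1 ≤ n → 16 ≤ y ^ n := fun n hn => hy16.trans (le_self_pow₀ hy1 (by omega))
  have hy40 : y ^ 40 ≤ T := by
    refine P.hyU.trans ?_
    nlinarith
  -- up to `U`
  have key0 : ∀ S, 0 ≤ S → S ≤ U → ‖DD S γ‖ ≤ T / y ^ 8 := by
    intro S hS0 hSU
    have h2 : ‖DD S γ‖ ≤ U ^ (1 - δ) := by
      by_contra hc
      push Not at hc
      exact g7 ⟨hcube, S, hS0, hSU, hc⟩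
    refine h2.trans ?_
    have e : U ^ (1 - δ) = U * U ^ (-δ) := by
      rw [sub_eq_add_neg, Real.rpow_add hU0, Real.rpow_one]
    rw [e]
    calc U * U ^ (-δ) ≤ T * (1 / y ^ 8) := by
          have := P.hδ
          gcongr
      _ = T / y ^ 8 := by ring
  have hTy : ∀ m n : ℕ, m ≤ n → T / y ^ n ≤ T / y ^ m := fun m n h => by
    have : y ^ m ≤ y ^ n := pow_le_pow_right₀ hy1 h
    gcongr
  rcases le_or_gt S U with hSU | hUS
  · exact absurd ((key0 S hS0 hSU).trans (hTy 2 8 (by norm_num))) (not_le.2 hS)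
  -- beyond `U`
  have hTU : 0 < T - U := by linarith
  have hN1 : 1 ≤ N := by have := P.hN2; omega
  have hNT : (N : ℝ) ≤ T := by
    refine P.hNU.trans ?_
    nlinarith
  obtain ⟨s, hs⟩ : ∃ s : ℝ, s = (T - U) / 2 ^ Jc := ⟨_, rfl⟩
  have hs0 : 0 < s := by rw [hs]; positivity
  obtain ⟨i, hi⟩ : ∃ i : ℕ, i = ⌊(S - U) / s⌋₊ := ⟨_, rfl⟩
  have hiS : (i:ℝ) * s ≤ S - U := by
    have := Nat.floor_le (a := (S - U) / s) (div_nonneg (by linarith) hs0.le)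
    rwa [← hi, le_div_iff₀ hs0] at this
  have hiS2 : S - U < ((i:ℝ) + 1) * s := by
    have := Nat.lt_floor_add_one ((S - U) / s)
    rwa [← hi, div_lt_iff₀ hs0] at this
  have hiJ : i ≤ 2 ^ Jc := by
    have h2 : (i:ℝ) * s ≤ 2 ^ Jc * s := by
      refine (hiS.trans (by linarith : S - U ≤ T - U)).trans (le_of_eq ?_)
      rw [hs]; field_simp
    have h3 := le_of_mul_le_mul_right h2 hs0
    exact_mod_cast h3
  have a1 : ‖∫ t in U..S, (∏ i, fs z i (t + γ i) - ∏ i, fs (PN N) i (t + γ i))‖ ≤ T / y ^ 4 + T / y ^ 4 := by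
    have b1 : ‖∫ t in U..(U + i * s), gd N γ t‖ ≤ (Jc + 1) * (T / y ^ 5) := by
      rw [hs]; exact g5 i hiJ
    have b2 : (Jc + 1) * (T / y ^ 5) ≤ T / y ^ 4 := by
      calc (Jc + 1) * (T / y ^ 5) ≤ y * (T / y ^ 5) := by gcongr
        _ = T / y ^ 4 := by field_simp
    have b3 : ‖∫ t in (U + i * s)..S, gd N γ t‖ ≤ (S - (U + i * s)) * (2 * (3 * C9 * T) ^ (2 * k)) := by
      have hi0 : 0 ≤ (i:ℝ) * s := by positivity
      exact triv_bd hC9 h9 hT3 hNT (a := U + i * s) (b := S) (by linarith) (by linarith) hST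
        (fun j => ⟨(hcube j).1, (hcube j).2.trans hUT⟩)
    have b4 : (S - (U + i * s)) * (2 * (3 * C9 * T) ^ (2 * k)) ≤ T / y ^ 4 := by
      have c1 : S - (U + i * s) ≤ s := by linarith
      have c2 : s ≤ T / T ^ (2 * k + 2) := by
        rw [hs]
        calc (T - U) / 2 ^ Jc ≤ T / 2 ^ Jc := by gcongr; linarith
          _ ≤ T / T ^ (2 * k + 2) := by gcongr
      calc (S - (U + i * s)) * (2 * (3 * C9 * T) ^ (2 * k))
          ≤ (T / T ^ (2 * k + 2)) * (2 * (3 * C9 * T) ^ (2 * k)) := by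
            gcongr
            linarith
        _ = 2 * (3 * C9) ^ (2 * k) / T := by
            rw [mul_pow (3 * C9) T, pow_add]
            field_simp
        _ ≤ y / T := by gcongr
        _ ≤ T / y ^ 4 := by
            rw [div_le_div_iff₀ hT0 (by positivity)]
            calc y * y ^ 4 = y ^ 5 := by ring
              _ ≤ y ^ 40 := pow_le_pow_right₀ hy1 (by norm_num)
              _ ≤ T := hy40
              _ ≤ T * T := by nlinarith
    have hcg : Continuous fun t : ℝ => gd N γ t := by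
      unfold gd
      refine Continuous.sub ?_ ?_
      · exact continuous_finsetProd _ fun i _ => (fs_cont z_cont i).comp (by fun_prop)
      · exact continuous_finsetProd _ fun i _ => (fs_cont (PN_cont N) i).comp (by fun_prop)
    have e3 : ∫ t in U..S, (∏ i, fs z i (t + γ i) - ∏ i, fs (PN N) i (t + γ i)) =
        (∫ t in U..(U + i * s), gd N γ t) + ∫ t in (U + i * s)..S, gd N γ t := by
      rw [intervalIntegral.integral_add_adjacent_intervals (hcg.intervalIntegrable _ _)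
        (hcg.intervalIntegrable _ _)]
      rfl
    rw [e3]
    refine (norm_add_le _ _).trans (add_le_add (b1.trans b2) (b3.trans b4))
  have a2 : 4 * (N : ℝ) ^ (3 * k) ≤ T / y ^ 4 := by
    rw [le_div_iff₀ (by positivity)]
    have c1 := P.hN4
    have c3 : 4 * y ^ 4 ≤ U ^ (1 / 2 : ℝ) := by
      refine le_trans ?_ P.hyU
      calc 4 * y ^ 4 ≤ y ^ 36 * y ^ 4 := by
            have := hyn 36 (by norm_num)
            gcongr
            linarith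
        _ = y ^ 40 := by ring
    calc 4 * (N:ℝ) ^ (3 * k) * y ^ 4 = (N:ℝ) ^ (3 * k) * (4 * y ^ 4) := by ring
      _ ≤ U ^ (1 / 2 : ℝ) * U ^ (1 / 2 : ℝ) := by gcongr
      _ = U := hUh
      _ ≤ T := hUT
  have a3 : T * ‖SN N γ - SP ψ N γ‖ ≤ T / y ^ 4 := by
    calc _ ≤ T * (1 / y ^ 4) := by gcongr
      _ = _ := by ring
  have a4 : T * ‖SP ψ N γ - GM N γ 0‖ ≤ T / y ^ 4 := by
    calc _ ≤ T * (1 / y ^ 4) := by gcongr
      _ = _ := by ring
  have a5 : T * ‖GM N γ 0 - zr γ‖ ≤ T / y ^ 4 := by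
    have := g4 g1
    calc _ ≤ T * (1 / y ^ 4) := by gcongr
      _ = _ := by ring
  have hIGall : ∀ π ∈ (Pk k)ᶜ, ∀ S', 0 ≤ S' → S' ≤ T → ‖IG S' γ π‖ ≤ 2 * (T / y ^ 8) := by
    intro π hπ S' h0 hT'
    have := IG_all hT0 P.hJ1 (γ := γ) (π := π) (b := T / y ^ 8) (fun i hi => g6 i hi π hπ) h0 hT'
    have d2 : T / (J:ℝ) ≤ T / y ^ 16 := by
      have := P.hJl
      gcongr
    have d3 := hTy 8 16 (by norm_num)
    linarith
  have a6 : ZB k C7 U * ∑ π ∈ (Pk k)ᶜ, (‖IG S γ π‖ + ‖IG U γ π‖) ≤ T / y ^ 4 := by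
    have c1 : ∑ π ∈ (Pk k)ᶜ, (‖IG S γ π‖ + ‖IG U γ π‖) ≤
        (Fintype.card (Equiv.Perm (Fin k ⊕ Fin k)) : ℝ) * (4 * (T / y ^ 8)) := by
      calc _ ≤ ∑ _π ∈ (Pk k)ᶜ, 4 * (T / y ^ 8) := Finset.sum_le_sum fun π hπ => by
            have q1 := hIGall π hπ S hS0 hST
            have q2 := hIGall π hπ U hU0.le hUT
            linarith
        _ = ((Pk k)ᶜ.card : ℝ) * (4 * (T / y ^ 8)) := by rw [Finset.sum_const, nsmul_eq_mul]
        _ ≤ _ := by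
            gcongr
            exact_mod_cast Finset.card_le_univ _
    calc _ ≤ ZB k C7 U * ((Fintype.card (Equiv.Perm (Fin k ⊕ Fin k)) : ℝ) * (4 * (T / y ^ 8))) := by gcongr
      _ = ((Fintype.card (Equiv.Perm (Fin k ⊕ Fin k)) : ℝ) * ZB k C7 U) * (4 * (T / y ^ 8)) := by ring
      _ ≤ y * (4 * (T / y ^ 8)) := by gcongr
      _ = T / y ^ 4 * (4 / y ^ 3) := by field_simp
      _ ≤ T / y ^ 4 * 1 := by
          gcongr
          rw [div_le_one (by positivity)]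
          linarith [hyn 3 (by norm_num)]
      _ = _ := mul_one _
  have a0 : ‖DD U γ‖ ≤ T / y ^ 4 := (key0 U hU0.le le_rfl).trans (hTy 4 8 (by norm_num))
  have htail := DD_tail hINV hD ψ hN1 hU3 hUS.le hST hC7 h1 g1
  have k4 : ‖DD S γ‖ ≤ ‖DD U γ‖ + ‖DD S γ - DD U γ‖ := by
    have := norm_add_le (DD U γ) (DD S γ - DD U γ)
    rwa [add_sub_cancel] at this
  have k5 : 8 * (T / y ^ 4) ≤ T / y ^ 2 := by
    have : T / y ^ 2 = (T / y ^ 4) * y ^ 2 := by field_simp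
    rw [this, mul_comm]
    gcongr
    nlinarith
  linarith

end

end Pool.Agent.Z72.SH
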