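import Pool.Agent.Z72.SH.Stm
import Pool.Agent.N879.PU.Asm2

set_option autoImplicit false

/-! Project SH: mean square over the shifts of the replacement, over all subintervals of `[U,T]`. -/

namespace Pool.Agent.Z72.SH

open Complex Filter Topology MeasureTheory Set
open Pool.Agent.TH612.GS (z zN PN mP SN SP GM zr Sep DD z_cont PN_cont)
open Pool.Agent.N879.PZ (Wb)
open Pool.Agent.N879.PU (fs fs_norm fs_cont fs_prod card_ii S_WINU)

noncomputable section

/-- EX: the replacement of zeta by a short Dirichlet polynomial over all subintervals of `[U,T]` -/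
def S_EX : Prop := ∀ (k : ℕ) (κ : ℝ), 2 ≤ k → (2 * k - 3) / (6 * k - 6) < κ → κ ≤ 1 →
  ∃ (η C T₀ : ℝ) (A : ℕ), 0 < η ∧ 0 < C ∧ 3 ≤ T₀ ∧ ∀ (T U : ℝ) (N : ℕ), T₀ ≤ T → T ^ κ ≤ U → U ≤ T → 1 ≤ N →
  (N : ℝ) ≤ U → ∃ β : ℝ → ℝ → ℝ, (∀ x y, U ≤ x → x ≤ y → y ≤ T → 0 ≤ β x y ∧
    ∫⁻ γ, ENNReal.ofReal (‖∫ t in x..y, (∏ i : Fin k ⊕ Fin k, fs z i (t + γ i) -
      ∏ i : Fin k ⊕ Fin k, fs (PN N) i (t + γ i))‖ ^ 2) ∂(mP (Fin k ⊕ Fin k) U) ≤ ENNReal.ofReal (β x y)) ∧
  (∀ x y w, U ≤ x → x ≤ y → y ≤ w → w ≤ T → β x y + β y w ≤ β x w) ∧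
  β U T ≤ C * U ^ (2 * k) * T ^ 2 * (T ^ (-η) + Real.log T ^ A / N)

/-- continuity in the shift -/
lemma conv_cont {a b : ℝ} (hab : a ≤ b) {F g : ℝ → ℂ} (hF : Wb a b F) (hg : Continuous g) :
    Continuous fun c : ℝ => ∫ t in a..b, F t * g (t + c) := by
  obtain ⟨hm, M, hM⟩ := hF
  rw [continuous_iff_continuousAt]
  intro c0
  obtain ⟨M', hM'⟩ := (isCompact_Icc (a := a + (c0 - 1)) (b := b + (c0 + 1))).exists_bound_of_continuousOn
    hg.continuousOn
  refine intervalIntegral.continuousAt_of_dominated_interval (bound := fun _ => |M| * |M'|) ?_ ?_ ?_ ?_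
  · exact Eventually.of_forall fun c => (hm.mul (hg.measurable.comp (measurable_id.add_const c))).aestronglyMeasurable
  · filter_upwards [Metric.ball_mem_nhds c0 one_pos] with c hc
    refine Eventually.of_forall fun t ht => ?_
    rw [uIoc_of_le hab] at ht
    rw [norm_mul]
    rw [Metric.mem_ball, Real.dist_eq, abs_lt] at hc
    have h1 := hM t ⟨ht.1.le, ht.2⟩
    have h2 := hM' (t + c) ⟨by linarith [ht.1, hc.1], by linarith [ht.2, hc.2]⟩
    exact mul_le_mul (h1.trans (le_abs_self _)) (h2.trans (le_abs_self _)) (norm_nonneg _) (abs_nonneg _)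
  · exact intervalIntegrable_const
  · refine Eventually.of_forall fun t _ => ?_
    exact (continuous_const.mul (hg.comp (by fun_prop))).continuousAt

lemma wb_mul_int {a b : ℝ} (hab : a ≤ b) {F g : ℝ → ℂ} (hF : Wb a b F) (hg : Continuous g) :
    IntervalIntegrable (fun t => F t * g t) volume a b := by
  obtain ⟨hm, M, hM⟩ := hF
  rw [intervalIntegrable_iff_integrableOn_Ioc_of_le hab]
  obtain ⟨M', hM'⟩ := (isCompact_Icc (a := a) (b := b)).exists_bound_of_continuousOn hg.continuousOn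
  refine Measure.integrableOn_of_bounded (M := |M| * |M'|) (by simp)
    (hm.mul hg.measurable).aestronglyMeasurable ?_
  refine (ae_restrict_iff' measurableSet_Ioc).2 (Eventually.of_forall fun t ht => ?_)
  rw [norm_mul]
  exact mul_le_mul ((hM t ⟨ht.1.le, ht.2⟩).trans (le_abs_self _)) ((hM' t ⟨ht.1.le, ht.2⟩).trans (le_abs_self _))
    (norm_nonneg _) (abs_nonneg _)

/-- the operator for the difference of two polynomials -/
lemma ker_diff {a b U K1 K2 : ℝ} (hab : a ≤ b) (hU : 0 ≤ U) {f g h : ℝ → ℂ} (hf : Continuous f) (hg : Continuous g)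
    (hh : Continuous h)
    (h1 : ∀ F : ℝ → ℂ, Wb a b F → ∫ c in (0 : ℝ)..U, ‖∫ t in a..b, F t * (f (t + c) - g (t + c))‖ ^ 2 ≤
      K1 * ∫ t in a..b, ‖F t‖ ^ 2)
    (h2 : ∀ F : ℝ → ℂ, Wb a b F → ∫ c in (0 : ℝ)..U, ‖∫ t in a..b, F t * (f (t + c) - h (t + c))‖ ^ 2 ≤
      K2 * ∫ t in a..b, ‖F t‖ ^ 2) (F : ℝ → ℂ) (hF : Wb a b F) :
    ∫ c in (0 : ℝ)..U, ‖∫ t in a..b, F t * (g (t + c) - h (t + c))‖ ^ 2 ≤
      (2 * K1 + 2 * K2) * ∫ t in a..b, ‖F t‖ ^ 2 := by
  have c1 : Continuous fun c : ℝ => ‖∫ t in a..b, F t * (f (t + c) - g (t + c))‖ ^ 2 :=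
    ((conv_cont hab hF (hf.sub hg)).norm).pow 2
  have c2 : Continuous fun c : ℝ => ‖∫ t in a..b, F t * (f (t + c) - h (t + c))‖ ^ 2 :=
    ((conv_cont hab hF (hf.sub hh)).norm).pow 2
  have c3 : Continuous fun c : ℝ => ‖∫ t in a..b, F t * (g (t + c) - h (t + c))‖ ^ 2 :=
    ((conv_cont hab hF (hg.sub hh)).norm).pow 2
  have e : ∀ c : ℝ, ‖∫ t in a..b, F t * (g (t + c) - h (t + c))‖ ^ 2 ≤
      2 * ‖∫ t in a..b, F t * (f (t + c) - g (t + c))‖ ^ 2 +
      2 * ‖∫ t in a..b, F t * (f (t + c) - h (t + c))‖ ^ 2 := by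
    intro c
    have i1 : IntervalIntegrable (fun t => F t * (f (t + c) - g (t + c))) volume a b :=
      wb_mul_int hab hF (g := fun t => f (t + c) - g (t + c)) (by fun_prop)
    have i2 : IntervalIntegrable (fun t => F t * (f (t + c) - h (t + c))) volume a b :=
      wb_mul_int hab hF (g := fun t => f (t + c) - h (t + c)) (by fun_prop)
    have e1 : ∫ t in a..b, F t * (g (t + c) - h (t + c)) =
        (∫ t in a..b, F t * (f (t + c) - h (t + c))) - ∫ t in a..b, F t * (f (t + c) - g (t + c)) := by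
      rw [← intervalIntegral.integral_sub i2 i1]
      refine intervalIntegral.integral_congr fun t _ => ?_
      ring
    rw [e1]
    have h4 := norm_sub_le (∫ t in a..b, F t * (f (t + c) - h (t + c))) (∫ t in a..b, F t * (f (t + c) - g (t + c)))
    have h5 := pow_le_pow_left₀ (norm_nonneg _) h4 2
    nlinarith [sq_nonneg (‖∫ t in a..b, F t * (f (t + c) - h (t + c))‖ -
      ‖∫ t in a..b, F t * (f (t + c) - g (t + c))‖)]
  calc ∫ c in (0 : ℝ)..U, ‖∫ t in a..b, F t * (g (t + c) - h (t + c))‖ ^ 2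
      ≤ ∫ c in (0 : ℝ)..U, (2 * ‖∫ t in a..b, F t * (f (t + c) - g (t + c))‖ ^ 2 +
        2 * ‖∫ t in a..b, F t * (f (t + c) - h (t + c))‖ ^ 2) :=
        intervalIntegral.integral_mono_on hU (c3.intervalIntegrable _ _)
          (((continuous_const.mul c1).add (continuous_const.mul c2)).intervalIntegrable _ _) fun c _ => e c
    _ = 2 * (∫ c in (0 : ℝ)..U, ‖∫ t in a..b, F t * (f (t + c) - g (t + c))‖ ^ 2) +
        2 * ∫ c in (0 : ℝ)..U, ‖∫ t in a..b, F t * (f (t + c) - h (t + c))‖ ^ 2 := by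
        rw [intervalIntegral.integral_add, intervalIntegral.integral_const_mul, intervalIntegral.integral_const_mul]
        · exact (continuous_const.mul c1).intervalIntegrable _ _
        · exact (continuous_const.mul c2).intervalIntegrable _ _
    _ ≤ 2 * (K1 * ∫ t in a..b, ‖F t‖ ^ 2) + 2 * (K2 * ∫ t in a..b, ‖F t‖ ^ 2) := by
        gcongr
        · exact h1 F hF
        · exact h2 F hF
    _ = _ := by ring

end

end Pool.Agent.Z72.SH
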