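import Pool.Agent.Z72.SH.Ex

set_option autoImplicit false

/-! Project SH: proof of EX. -/

namespace Pool.Agent.Z72.SH

open Complex Filter Topology MeasureTheory Set
open Pool.Agent.TH612.GS (z zN PN mP SN SP GM zr Sep DD z_cont PN_cont log_ev)
open Pool.Agent.N879.PZ (Wb)
open Pool.Agent.N879.PU (fs fs_norm fs_cont fs_prod card_ii S_WINU)

noncomputable section

/-- the replacement on a subinterval -/
lemma rw_sub (hRW : S_RW) {ι : Type} [Fintype ι] {a b U K : ℝ} {w : ℝ → ℝ} {f g : ι → ℝ → ℂ} (hab : a ≤ b)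
    (hU : 0 < U) (hK : 0 ≤ K) (hw : Continuous w) (hw0 : ∀ t, 0 ≤ w t) (hf : ∀ i, Continuous (f i))
    (hg : ∀ i, Continuous (g i))
    (h1 : ∀ i, ∀ F : ℝ → ℂ, Wb a b F → ∫ c in (0 : ℝ)..U, ‖∫ t in a..b, F t * (f i (t + c) - g i (t + c))‖ ^ 2 ≤
      K * ∫ t in a..b, ‖F t‖ ^ 2)
    (h2 : ∀ i, ∀ t ∈ Icc a b, ∫ c in (0 : ℝ)..U, ‖f i (t + c)‖ ^ 2 ≤ w t)
    (h3 : ∀ i, ∀ t ∈ Icc a b, ∫ c in (0 : ℝ)..U, ‖g i (t + c)‖ ^ 2 ≤ w t) {x y : ℝ} (hx : a ≤ x) (hxy : x ≤ y)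
    (hy : y ≤ b) :
    ∫⁻ γ, ENNReal.ofReal (‖∫ t in x..y, (∏ i, f i (t + γ i) - ∏ i, g i (t + γ i))‖ ^ 2) ∂(mP ι U) ≤
      ENNReal.ofReal (4 ^ Fintype.card ι * K * ∫ t in x..y, w t ^ (Fintype.card ι - 1)) := by
  obtain ⟨v, hv⟩ : ∃ v : ℝ → ℂ, v = (Ioc x y).indicator fun _ => (1:ℂ) := ⟨_, rfl⟩
  have hvW : Wb a b v := by
    refine ⟨?_, 1, fun t _ => ?_⟩
    · rw [hv]; exact measurable_const.indicator measurableSet_Ioc
    · by_cases h : t ∈ Ioc x y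
      · rw [hv, indicator_of_mem h, norm_one]
      · rw [hv, indicator_of_notMem h, norm_zero]; norm_num
  have hsub : Ioc x y ⊆ Ioc a b := Ioc_subset_Ioc hx hy
  have key := hRW ι a b U K w f g v hab hU hK hw hw0 hf hg h1 h2 h3 hvW
  have e1 : ∀ G : ℝ → ℂ, ∫ t in a..b, v t * G t = ∫ t in x..y, G t := by
    intro G
    rw [intervalIntegral.integral_of_le hab, intervalIntegral.integral_of_le hxy]
    have : ∀ t, v t * G t = (Ioc x y).indicator G t := by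
      intro t
      by_cases h : t ∈ Ioc x y
      · rw [hv, indicator_of_mem h, indicator_of_mem h, one_mul]
      · rw [hv, indicator_of_notMem h, indicator_of_notMem h, zero_mul]
    simp only [this]
    rw [setIntegral_indicator measurableSet_Ioc, inter_eq_self_of_subset_right hsub]
  have e2 : ∀ G : ℝ → ℝ, ∫ t in a..b, ‖v t‖ ^ 2 * G t = ∫ t in x..y, G t := by
    intro G
    rw [intervalIntegral.integral_of_le hab, intervalIntegral.integral_of_le hxy]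
    have : ∀ t, ‖v t‖ ^ 2 * G t = (Ioc x y).indicator G t := by
      intro t
      by_cases h : t ∈ Ioc x y
      · rw [hv, indicator_of_mem h, indicator_of_mem h, norm_one]; ring
      · rw [hv, indicator_of_notMem h, indicator_of_notMem h, norm_zero]; ring
    simp only [this]
    rw [setIntegral_indicator measurableSet_Ioc, inter_eq_self_of_subset_right hsub]
  simp only [e1, e2] at key
  exact key

/-- the gain -/
lemma pow_gap {m : ℕ} {κ T U : ℝ} (hT : 1 ≤ T) (hTU : T ^ κ ≤ U) :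
    (U + T ^ (1 / 3 : ℝ)) ^ m * U ^ 2 ≤
      2 ^ m * U ^ (m + 3) * T ^ (-(min κ (κ * (m + 1) - m / 3))) := by
  have hT0 : 0 < T := by linarith
  have hTk : 0 < T ^ κ := by positivity
  have hU : 0 < U := lt_of_lt_of_le hTk hTU
  have ht : 0 < T ^ (1 / 3 : ℝ) := by positivity
  rcases le_total (T ^ (1 / 3 : ℝ)) U with h | h
  · have h1 : U + T ^ (1 / 3 : ℝ) ≤ 2 * U := by linarith
    have h2 : T ^ (-κ) ≤ T ^ (-(min κ (κ * (m + 1) - m / 3))) :=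
      Real.rpow_le_rpow_of_exponent_le hT (neg_le_neg (min_le_left _ _))
    have h3 : 1 ≤ U * T ^ (-κ) := by
      calc (1:ℝ) = T ^ κ * T ^ (-κ) := by rw [← Real.rpow_add hT0]; simp
        _ ≤ U * T ^ (-κ) := by gcongr
    calc (U + T ^ (1 / 3 : ℝ)) ^ m * U ^ 2 ≤ (2 * U) ^ m * U ^ 2 := by gcongr
      _ = 2 ^ m * U ^ (m + 2) * 1 := by rw [mul_pow, pow_add]; ring
      _ ≤ 2 ^ m * U ^ (m + 2) * (U * T ^ (-κ)) := by gcongr
      _ = 2 ^ m * U ^ (m + 3) * T ^ (-κ) := by rw [pow_add, pow_add]; ring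
      _ ≤ _ := by gcongr
  · have h1 : U + T ^ (1 / 3 : ℝ) ≤ 2 * T ^ (1 / 3 : ℝ) := by linarith
    have h2 : T ^ (-(κ * (m + 1) - m / 3)) ≤ T ^ (-(min κ (κ * (m + 1) - m / 3))) :=
      Real.rpow_le_rpow_of_exponent_le hT (neg_le_neg (min_le_right _ _))
    have h3 : (T ^ (1 / 3 : ℝ)) ^ m ≤ U ^ (m + 1) * T ^ (-(κ * (m + 1) - m / 3)) := by
      have h4 : T ^ (κ * (m + 1)) ≤ U ^ (m + 1) := by
        rw [Real.rpow_mul hT0.le]
        calc (T ^ κ) ^ ((m:ℝ) + 1) = (T ^ κ) ^ (m + 1) := by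
              rw [← Real.rpow_natCast]; push_cast; rfl
          _ ≤ U ^ (m + 1) := by gcongr
      calc (T ^ (1 / 3 : ℝ)) ^ m = T ^ (κ * (m + 1)) * T ^ (-(κ * (m + 1) - m / 3)) := by
            rw [← Real.rpow_natCast, ← Real.rpow_mul hT0.le, ← Real.rpow_add hT0]
            congr 1; ring
        _ ≤ _ := by gcongr
    calc (U + T ^ (1 / 3 : ℝ)) ^ m * U ^ 2 ≤ (2 * T ^ (1 / 3 : ℝ)) ^ m * U ^ 2 := by gcongr
      _ = 2 ^ m * (T ^ (1 / 3 : ℝ)) ^ m * U ^ 2 := by rw [mul_pow]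
      _ ≤ 2 ^ m * (U ^ (m + 1) * T ^ (-(κ * (m + 1) - m / 3))) * U ^ 2 := by gcongr
      _ = 2 ^ m * U ^ (m + 3) * T ^ (-(κ * (m + 1) - m / 3)) := by rw [pow_add, pow_add]; ring
      _ ≤ _ := by gcongr

end

end Pool.Agent.Z72.SH
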