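import Mathlib

/-!
Counting lemmas for FIN (helper1, board t72).
-/

set_option autoImplicit false

namespace Pool.Agent.Z72.SH.FinC

open MeasureTheory

variable {ι : Type} [Fintype ι] [DecidableEq ι]

/-- the integer points of a cube -/
noncomputable def bx (ι : Type) [Fintype ι] [DecidableEq ι] (L : ℤ) : Finset (ι → ℤ) :=
  Fintype.piFinset fun _ => Finset.Icc 0 L

theorem card_fiber (L : ℤ) (hL : 0 ≤ L) (i : ι) (G : Finset (ι → ℤ)) (hG : G ⊆ bx ι L)
    (hinj : ∀ m ∈ G, ∀ m' ∈ G, (∀ j, j ≠ i → m j = m' j) → m = m') :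
    (G.card : ℝ) ≤ ((L : ℝ) + 1) ^ (Fintype.card ι - 1) := by
  classical
  have h1 : G.card ≤ (Fintype.piFinset fun _ : {j : ι // j ≠ i} => Finset.Icc (0 : ℤ) L).card := by
    refine Finset.card_le_card_of_injOn (fun m => fun j : {j : ι // j ≠ i} => m j) ?_ ?_
    · intro m hm
      have h2 := hG hm
      rw [Finset.mem_coe, Fintype.mem_piFinset]
      intro j
      exact (Fintype.mem_piFinset.1 h2) j
    · intro m hm m' hm' h
      apply hinj m hm m' hm'
      intro j hj
      exact congrFun h ⟨j, hj⟩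
  rw [Fintype.card_piFinset] at h1
  simp only [Int.card_Icc, sub_zero, Finset.prod_const, Finset.card_univ] at h1
  have h2 : Fintype.card {j : ι // j ≠ i} = Fintype.card ι - 1 := by
    have := Set.card_ne_eq i
    exact this
  rw [h2] at h1
  have h3 : (((L + 1).toNat : ℕ) : ℝ) = (L : ℝ) + 1 := by
    have : (((L + 1).toNat : ℕ) : ℤ) = L + 1 := Int.toNat_of_nonneg (by omega)
    have h4 : ((((L + 1).toNat : ℕ) : ℤ) : ℝ) = ((L + 1 : ℤ) : ℝ) := by rw [this]
    push_cast at h4
    exact h4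
  rw [← h3]
  exact_mod_cast h1

theorem card_a (L : ℤ) (hL : 0 ≤ L) (V : Finset ℤ) :
    ((((bx ι L).filter fun m => ∃ i, m i ∈ V)).card : ℝ) ≤
      Fintype.card ι * V.card * ((L : ℝ) + 1) ^ (Fintype.card ι - 1) := by
  classical
  have h1 : ((bx ι L).filter fun m => ∃ i, m i ∈ V) ⊆
      (Finset.univ : Finset ι).biUnion fun i => V.biUnion fun v =>
        (bx ι L).filter fun m => m i = v := by
    intro m hm
    obtain ⟨h2, i, hi⟩ := Finset.mem_filter.1 hm
    simp only [Finset.mem_biUnion, Finset.mem_univ, true_and, Finset.mem_filter]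
    exact ⟨i, m i, hi, h2, rfl⟩
  have h2 : (((bx ι L).filter fun m => ∃ i, m i ∈ V).card : ℝ) ≤
      ∑ i : ι, ∑ v ∈ V, ((((bx ι L).filter fun m => m i = v)).card : ℝ) := by
    have h3 := (Finset.card_le_card h1).trans (Finset.card_biUnion_le)
    have h4 := h3.trans (Finset.sum_le_sum fun i _ => Finset.card_biUnion_le)
    exact_mod_cast h4
  refine h2.trans ?_
  calc ∑ i : ι, ∑ v ∈ V, ((((bx ι L).filter fun m => m i = v)).card : ℝ)
      ≤ ∑ i : ι, ∑ v ∈ V, ((L : ℝ) + 1) ^ (Fintype.card ι - 1) := by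
        refine Finset.sum_le_sum fun i _ => Finset.sum_le_sum fun v _ => ?_
        refine card_fiber L hL i _ (Finset.filter_subset _ _) ?_
        intro m hm m' hm' h
        funext j
        by_cases hj : j = i
        · subst hj
          rw [(Finset.mem_filter.1 hm).2, (Finset.mem_filter.1 hm').2]
        · exact h j hj
    _ = _ := by
        rw [Finset.sum_const, Finset.sum_const, Finset.card_univ, nsmul_eq_mul, nsmul_eq_mul]
        ring

theorem card_b (L : ℤ) (hL : 0 ≤ L) (V : Finset ℤ) :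
    ((((bx ι L).filter fun m => ∃ p q, p ≠ q ∧ m p - m q ∈ V)).card : ℝ) ≤
      Fintype.card ι * Fintype.card ι * V.card * ((L : ℝ) + 1) ^ (Fintype.card ι - 1) := by
  classical
  have h1 : ((bx ι L).filter fun m => ∃ p q, p ≠ q ∧ m p - m q ∈ V) ⊆
      (Finset.univ : Finset (ι × ι)).biUnion fun x => V.biUnion fun v =>
        (bx ι L).filter fun m => x.1 ≠ x.2 ∧ m x.1 - m x.2 = v := by
    intro m hm
    obtain ⟨h2, p, q, hpq, hi⟩ := Finset.mem_filter.1 hm
    simp only [Finset.mem_biUnion, Finset.mem_univ, true_and, Finset.mem_filter]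
    exact ⟨(p, q), m p - m q, hi, h2, hpq, rfl⟩
  have h2 : (((bx ι L).filter fun m => ∃ p q, p ≠ q ∧ m p - m q ∈ V).card : ℝ) ≤
      ∑ x : ι × ι, ∑ v ∈ V,
        ((((bx ι L).filter fun m => x.1 ≠ x.2 ∧ m x.1 - m x.2 = v)).card : ℝ) := by
    have h3 := (Finset.card_le_card h1).trans (Finset.card_biUnion_le)
    have h4 := h3.trans (Finset.sum_le_sum fun i _ => Finset.card_biUnion_le)
    exact_mod_cast h4
  refine h2.trans ?_
  calc ∑ x : ι × ι, ∑ v ∈ V,
        ((((bx ι L).filter fun m => x.1 ≠ x.2 ∧ m x.1 - m x.2 = v)).card : ℝ)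
      ≤ ∑ x : ι × ι, ∑ v ∈ V, ((L : ℝ) + 1) ^ (Fintype.card ι - 1) := by
        refine Finset.sum_le_sum fun x _ => Finset.sum_le_sum fun v _ => ?_
        refine card_fiber L hL x.1 _ (Finset.filter_subset _ _) ?_
        intro m hm m' hm' h
        obtain ⟨-, a1, a2⟩ := Finset.mem_filter.1 hm
        obtain ⟨-, b1, b2⟩ := Finset.mem_filter.1 hm'
        funext j
        by_cases hj : j = x.1
        · subst hj
          have := h x.2 (fun h => a1 h.symm)
          omega
        · exact h j hj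
    _ = _ := by
        rw [Finset.sum_const, Finset.sum_const, Finset.card_univ, nsmul_eq_mul, nsmul_eq_mul,
          Fintype.card_prod]
        push_cast
        ring

/-- the enlarged cube -/
def Qb (m : ι → ℤ) : Set (ι → ℝ) := {x | ∀ i, (m i : ℝ) - 1 ≤ x i ∧ x i ≤ m i + 2}

theorem Qb_meas (m : ι → ℤ) : MeasurableSet (Qb m) := by
  have : Qb m = Set.univ.pi fun i => Set.Icc ((m i : ℝ) - 1) (m i + 2) := by
    ext x
    constructor
    · intro h i _
      exact h i
    · intro h i
      exact h i (Set.mem_univ i)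
  rw [this]
  exact MeasurableSet.univ_pi fun i => measurableSet_Icc

theorem overlap (H : Set (ι → ℝ)) (F : Finset (ι → ℤ)) :
    ∑ m ∈ F, volume (H ∩ Qb m) ≤ 4 ^ Fintype.card ι * volume H := by
  classical
  have h1 : ∀ m, volume (H ∩ Qb m) = ∫⁻ x in H, (Qb m).indicator 1 x := by
    intro m
    rw [lintegral_indicator_one (Qb_meas m), Measure.restrict_apply (Qb_meas m), Set.inter_comm]
  simp only [h1]
  rw [← lintegral_finsetSum _ (fun m _ => measurable_one.indicator (Qb_meas m))]
  have h2 : ∀ x : ι → ℝ, ∑ m ∈ F, (Qb m).indicator (1 : (ι → ℝ) → ENNReal) x ≤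
      4 ^ Fintype.card ι := by
    intro x
    have h3 : ∑ m ∈ F, (Qb m).indicator (1 : (ι → ℝ) → ENNReal) x =
        ((F.filter fun m => x ∈ Qb m).card : ENNReal) := by
      simp only [Set.indicator_apply, Pi.one_apply]
      rw [Finset.sum_ite, Finset.sum_const_zero, add_zero, Finset.sum_const, nsmul_eq_mul, mul_one]
    rw [h3]
    have h4 : (F.filter fun m => x ∈ Qb m) ⊆
        Fintype.piFinset fun i => Finset.Icc (⌈x i⌉ - 2) (⌊x i⌋ + 1) := by
      intro m hm
      have h5 := (Finset.mem_filter.1 hm).2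
      rw [Fintype.mem_piFinset]
      intro i
      obtain ⟨h6, h7⟩ := h5 i
      rw [Finset.mem_Icc]
      constructor
      · have : ⌈x i⌉ ≤ m i + 2 := by rw [Int.ceil_le]; push_cast; exact h7
        omega
      · have : m i - 1 ≤ ⌊x i⌋ := by rw [Int.le_floor]; push_cast; exact h6
        omega
    have h5 : (F.filter fun m => x ∈ Qb m).card ≤ 4 ^ Fintype.card ι := by
      refine (Finset.card_le_card h4).trans ?_
      rw [Fintype.card_piFinset]
      calc ∏ i, (Finset.Icc (⌈x i⌉ - 2) (⌊x i⌋ + 1)).card ≤ ∏ _i : ι, 4 := by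
            refine Finset.prod_le_prod (fun _ _ => Nat.zero_le _) fun i _ => ?_
            rw [Int.card_Icc]
            have := Int.floor_le_ceil (x i)
            omega
        _ = 4 ^ Fintype.card ι := by rw [Finset.prod_const, Finset.card_univ]
    exact_mod_cast h5
  calc ∫⁻ x in H, ∑ m ∈ F, (Qb m).indicator (1 : (ι → ℝ) → ENNReal) x
      ≤ ∫⁻ _x in H, 4 ^ Fintype.card ι := lintegral_mono fun x => h2 x
    _ = _ := by rw [setLIntegral_const]

/-- the number of cubes met by a set in positive proportion -/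
theorem card_c (H : Set (ι → ℝ)) (F : Finset (ι → ℤ)) (c v : ℝ) (hc : 0 < c) (hv : 0 ≤ v)
    (hH : volume H ≤ ENNReal.ofReal v) (hF : ∀ m ∈ F, ENNReal.ofReal c ≤ volume (H ∩ Qb m)) :
    (F.card : ℝ) ≤ 4 ^ Fintype.card ι * v / c := by
  have h1 := overlap H F
  have h2 : (F.card : ENNReal) * ENNReal.ofReal c ≤ ∑ m ∈ F, volume (H ∩ Qb m) := by
    rw [← nsmul_eq_mul, ← Finset.sum_const]
    exact Finset.sum_le_sum hF
  have h3 : (F.card : ENNReal) * ENNReal.ofReal c ≤ 4 ^ Fintype.card ι * ENNReal.ofReal v :=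
    h2.trans (h1.trans (mul_le_mul_right hH _))
  have h4 : (4 : ENNReal) ^ Fintype.card ι = ENNReal.ofReal (4 ^ Fintype.card ι) := by
    rw [ENNReal.ofReal_pow (by norm_num)]; norm_num
  rw [h4, ← ENNReal.ofReal_natCast, ← ENNReal.ofReal_mul (by positivity),
    ← ENNReal.ofReal_mul (by positivity), ENNReal.ofReal_le_ofReal_iff (by positivity)] at h3
  rw [le_div_iff₀ hc]
  exact h3

omit [DecidableEq ι] in
/-- affine change of variables -/
theorem vol_pre (n : ℕ) (e : Fin n ≃ ι) (γ : ι → ℝ) (H : Set (ι → ℝ)) (hH : MeasurableSet H) :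
    volume {x : Fin n → ℝ | (fun i => γ i + x (e.symm i) / 10) ∈ H} =
      ENNReal.ofReal (10 ^ n) * volume H := by
  have hn : Fintype.card ι = n := by rw [← Fintype.card_congr e, Fintype.card_fin]
  set H1 : Set (ι → ℝ) := (fun y => γ + y) ⁻¹' H with hH1
  have h1 : volume H1 = volume H := measure_preimage_add _ _ _
  set H2 : Set (ι → ℝ) := (fun y => (1 / 10 : ℝ) • y) ⁻¹' H1 with hH2
  have h2 : volume H2 = ENNReal.ofReal (10 ^ n) * volume H := by
    rw [hH2, Measure.addHaar_preimage_smul _ (by norm_num), h1, Module.finrank_fintype_fun_eq_card,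
      hn]
    congr 2
    rw [abs_of_pos (by positivity)]
    rw [one_div, inv_pow, inv_inv]
  have hH2m : MeasurableSet H2 := by
    have h3 : Measurable fun y : ι → ℝ => γ + (1 / 10 : ℝ) • y := by fun_prop
    exact h3 hH
  rw [← h2]
  have h3 := (volume_measurePreserving_piCongrLeft (fun _ : ι => ℝ) e).measure_preimage
    hH2m.nullMeasurableSet
  rw [← h3]
  congr 1
  ext x
  have h4 : (fun i => γ i + x (e.symm i) / 10) =
      γ + (1 / 10 : ℝ) • (MeasurableEquiv.piCongrLeft (fun _ : ι => ℝ) e) x := by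
    funext i
    have h5 : (MeasurableEquiv.piCongrLeft (fun _ : ι => ℝ) e) x i = x (e.symm i) := by
      have h6 := Equiv.piCongrLeft_apply_apply (P := fun _ : ι => ℝ) e x (e.symm i)
      rw [Equiv.apply_symm_apply] at h6
      exact h6
    rw [Pi.add_apply, Pi.smul_apply, h5, smul_eq_mul]
    ring
  show (fun i => γ i + x (e.symm i) / 10) ∈ H ↔
    γ + (1 / 10 : ℝ) • (MeasurableEquiv.piCongrLeft (fun _ : ι => ℝ) e) x ∈ H
  rw [h4]

end Pool.Agent.Z72.SH.FinC
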