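import Pool.Agent.Z72.SH.Stm0

/-!
R2: the discrete Remez inequality in several variables (helper1, board t72).
-/

set_option autoImplicit false

namespace Pool.Agent.Z72.SH.R2

open Finset MeasureTheory

/-- `S_R1` for all small radii -/
def R1s (θ r C : ℝ) : Prop :=
  ∀ (f : ℂ → ℂ) (M m : ℝ) (E : Set ℝ), DifferentiableOn ℂ f (Metric.ball 0 1) →
  (∀ w ∈ Metric.ball (0 : ℂ) 1, ‖f w‖ ≤ M) → 0 < m → m ≤ M → E ⊆ Set.Icc (-r) r →
  ENNReal.ofReal r ≤ volume E → (∀ x ∈ E, ‖f x‖ ≤ m) →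
  ∀ x ∈ Set.Icc (-r) r, ‖f x‖ ≤ C * M ^ θ * m ^ (1 - θ)

theorem r1s (h : S_R1) (θ : ℝ) (hθ : 0 < θ) (hθ1 : θ < 1) : ∃ r₀ C : ℝ, 0 < r₀ ∧ r₀ ≤ 1 / 2 ∧
    0 < C ∧ ∀ r, 0 < r → r ≤ r₀ → R1s θ r C := by
  obtain ⟨r₀, C, hr0, hr2, hC, H⟩ := h θ hθ hθ1
  refine ⟨r₀, C, hr0, hr2, hC, ?_⟩
  intro r hr hrr f M m E hf hM hm hmM hE hv hEm x hx
  set s : ℝ := r / r₀ with hs
  have hs0 : 0 < s := by positivity
  have hs1 : s ≤ 1 := by rw [hs, div_le_one hr0]; exact hrr
  have hsr : s * r₀ = r := by rw [hs]; field_simp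
  have hmap : ∀ w ∈ Metric.ball (0 : ℂ) 1, (s : ℂ) * w ∈ Metric.ball (0 : ℂ) 1 := by
    intro w hw
    rw [mem_ball_zero_iff] at hw ⊢
    rw [norm_mul, Complex.norm_real, Real.norm_of_nonneg hs0.le]
    nlinarith [norm_nonneg w]
  have h1 := H (fun w => f (s * w)) M m ((fun y : ℝ => s * y) ⁻¹' E)
    (hf.comp (by fun_prop) hmap) (fun w hw => hM _ (hmap w hw)) hm hmM
    (by
      intro y hy
      have h2 := hE hy
      simp only [Set.mem_Icc] at h2 ⊢
      constructor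
      · by_contra h3
        push Not at h3
        have := mul_lt_mul_of_pos_left h3 hs0
        linarith [h2.1]
      · by_contra h3
        push Not at h3
        have := mul_lt_mul_of_pos_left h3 hs0
        linarith [h2.2])
    (by
      rw [Real.volume_preimage_mul_left hs0.ne']
      calc ENNReal.ofReal r₀ = ENNReal.ofReal |s⁻¹| * ENNReal.ofReal r := by
            rw [← ENNReal.ofReal_mul (abs_nonneg _), abs_of_pos (by positivity)]
            congr 1
            rw [← hsr]; field_simp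
        _ ≤ _ := mul_le_mul_right hv _)
    (by
      intro y hy
      have h2 := hEm _ hy
      push_cast at h2
      exact h2)
    (x / s)
    (by
      rw [Set.mem_Icc] at hx ⊢
      rw [le_div_iff₀ hs0, div_le_iff₀ hs0]
      constructor
      · nlinarith [hx.1]
      · nlinarith [hx.2])
  have h2 : (s : ℂ) * ((x / s : ℝ) : ℂ) = x := by
    rw [← Complex.ofReal_mul]; congr 1; field_simp
  simp only [h2] at h1
  exact h1

/-- the statement for a given radius -/
def P (n : ℕ) (θ r C : ℝ) : Prop :=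
  ∀ (f : (Fin n → ℂ) → ℂ) (M m : ℝ) (B : Set (Fin n → ℝ)),
  (∀ i, ∀ x : Fin n → ℝ, (∀ j, |x j| ≤ r) →
    DifferentiableOn ℂ (fun w => f (Function.update (fun j => (x j : ℂ)) i w)) (Metric.ball 0 1) ∧
    ∀ w ∈ Metric.ball (0 : ℂ) 1, ‖f (Function.update (fun j => (x j : ℂ)) i w)‖ ≤ M) →
  0 < m → m ≤ M → MeasurableSet B →
  (∀ x : Fin n → ℝ, (∀ j, |x j| ≤ r) → x ∉ B → ‖f (fun j => (x j : ℂ))‖ ≤ m) →
  volume (B ∩ {x | ∀ j, |x j| ≤ r}) < ENNReal.ofReal ((r / 2) ^ n) →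
  ∀ x : Fin n → ℝ, (∀ j, |x j| ≤ r) → ‖f (fun j => (x j : ℂ))‖ ≤ C * M ^ θ * m ^ (1 - θ)

theorem interp {M m a b : ℝ} (hm : 0 < m) (hmM : m ≤ M) (hab : a ≤ b) :
    M ^ a * m ^ (1 - a) ≤ M ^ b * m ^ (1 - b) := by
  have hM : 0 < M := hm.trans_le hmM
  have h1 : m ^ (1 - a) = m ^ (1 - b) * m ^ (b - a) := by
    rw [← Real.rpow_add hm]; congr 1; ring
  have h2 : M ^ b = M ^ a * M ^ (b - a) := by
    rw [← Real.rpow_add hM]; congr 1; ring
  rw [h1, h2]
  have h3 : m ^ (b - a) ≤ M ^ (b - a) := Real.rpow_le_rpow hm.le hmM (by linarith)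
  have h4 := mul_le_mul_of_nonneg_left h3
    (by positivity : 0 ≤ M ^ a * m ^ (1 - b))
  nlinarith [h4]

theorem base (θ r : ℝ) (hθ : 0 < θ) : P 0 θ r 1 := by
  intro f M m B _ hm hmM _ hB hv x hx
  have hx' : x ∉ B := by
    intro h
    have h1 : B ∩ {x : Fin 0 → ℝ | ∀ j, |x j| ≤ r} = Set.univ := by
      ext y
      have : y = x := Subsingleton.elim _ _
      subst this
      simp [h]
    rw [h1, pow_zero] at hv
    have h2 : (volume : Measure (Fin 0 → ℝ)) Set.univ = 1 := by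
      rw [MeasureTheory.volume_pi, Measure.pi_of_empty]
      simp
    rw [h2] at hv
    simp at hv
  have h1 := hB x hx hx'
  have h2 := interp hm hmM hθ.le
  rw [Real.rpow_zero, sub_zero, Real.rpow_one] at h2
  rw [one_mul]
  linarith

theorem cons_ofReal {n : ℕ} (t : ℝ) (x : Fin n → ℝ) :
    (fun j => ((Fin.cons t x : Fin (n + 1) → ℝ) j : ℂ)) =
      (Fin.cons (t : ℂ) (fun j => (x j : ℂ)) : Fin (n + 1) → ℂ) := by
  funext j
  refine Fin.cases ?_ (fun i => ?_) j
  · simp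
  · simp

theorem step (n : ℕ) (θ C₁ C₂ r : ℝ) (hr : 0 < r) (hr1 : r < 1) (hθ : 0 < θ) (hθ1 : θ < 1)
    (hC₁ : 0 < C₁) (hC₂ : 0 < C₂)
    (h1 : R1s (θ / 2) r C₁) (h2 : P n (θ / 2) r C₂) :
    P (n + 1) θ r (C₂ * C₁ ^ (1 - θ / 2)) := by
  intro f M m B hf hm hmM hB hBm hv x hx
  have hM : 0 < M := hm.trans_le hmM
  set box : Set (Fin (n + 1) → ℝ) := {x | ∀ j, |x j| ≤ r} with hbox
  have hboxm : MeasurableSet box := by
    have : box = ⋂ j, {x | |x j| ≤ r} := by ext; simp [hbox]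
    rw [this]
    exact MeasurableSet.iInter fun j =>
      measurableSet_le (by fun_prop) measurable_const
  set e := MeasurableEquiv.piFinSuccAbove (fun _ : Fin (n + 1) => ℝ) 0 with he
  have hmp := MeasureTheory.volume_preserving_piFinSuccAbove (fun _ : Fin (n + 1) => ℝ) 0
  have hes : ∀ (t : ℝ) (y : Fin n → ℝ), e.symm (t, y) = Fin.cons t y := by
    intro t y
    have h3 : e.symm (t, y) = Fin.insertNth (α := fun _ => ℝ) (0 : Fin (n + 1)) t y := rfl
    rw [h3, Fin.insertNth_zero']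
  set B1 : Set (ℝ × (Fin n → ℝ)) := e.symm ⁻¹' (B ∩ box) with hB1
  have hB1m : MeasurableSet B1 := e.symm.measurable (hB.inter hboxm)
  have hB1v : (volume.prod volume : Measure (ℝ × (Fin n → ℝ))) B1 = volume (B ∩ box) := by
    have h3 := (hmp.symm _).measure_preimage (hB.inter hboxm).nullMeasurableSet
    exact h3
  set F : (Fin n → ℝ) → ENNReal := fun y => volume ((fun t : ℝ => (t, y)) ⁻¹' B1) with hF
  have hFm : Measurable F := measurable_measure_prodMk_right hB1m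
  set B' : Set (Fin n → ℝ) := {y | ENNReal.ofReal r ≤ F y} with hB'
  have hB'm : MeasurableSet B' := measurableSet_le measurable_const hFm
  have hB'v : volume (B' ∩ {x | ∀ j, |x j| ≤ r}) < ENNReal.ofReal ((r / 2) ^ n) := by
    refine (measure_mono Set.inter_subset_left).trans_lt ?_
    by_contra hcon
    push Not at hcon
    have h3 := mul_meas_ge_le_lintegral (μ := (volume : Measure (Fin n → ℝ))) hFm
      (ENNReal.ofReal r)
    have h4 : ∫⁻ y, F y = volume (B ∩ box) := by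
      rw [← hB1v, Measure.prod_apply_symm hB1m]
    rw [h4] at h3
    have h5 : ENNReal.ofReal r * ENNReal.ofReal ((r / 2) ^ n) ≤ volume (B ∩ box) :=
      (mul_le_mul_right hcon _).trans h3
    have h6 := h5.trans_lt hv
    rw [← ENNReal.ofReal_mul hr.le, ENNReal.ofReal_lt_ofReal_iff (by positivity), pow_succ] at h6
    have h7 : 0 < (r / 2) ^ n := by positivity
    nlinarith
  set m1 : ℝ := min M (C₁ * M ^ (θ / 2) * m ^ (1 - θ / 2)) with hm1
  have hm1pos : 0 < m1 := lt_min hM (by positivity)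
  -- the slices
  have hslice : ∀ y : Fin n → ℝ, (∀ j, |y j| ≤ r) → y ∉ B' → ∀ t : ℝ, |t| ≤ r →
      ‖f (Fin.cons (t : ℂ) (fun j => (y j : ℂ)))‖ ≤ m1 := by
    intro y hy hyB t ht
    have hyc : ∀ s : ℝ, |s| ≤ r → ∀ j, |(Fin.cons s y : Fin (n + 1) → ℝ) j| ≤ r := by
      intro s hs j
      refine Fin.cases ?_ (fun i => ?_) j
      · simpa using hs
      · simpa using hy i
    obtain ⟨g1, g2⟩ := hf 0 (Fin.cons 0 y) (hyc 0 (by simpa using hr.le))
    have hup : ∀ w : ℂ, Function.update (fun j => ((Fin.cons 0 y : Fin (n + 1) → ℝ) j : ℂ)) 0 w =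
        (Fin.cons w (fun j => (y j : ℂ)) : Fin (n + 1) → ℂ) := by
      intro w
      rw [cons_ofReal, Fin.update_cons_zero]
    simp only [hup] at g1 g2
    have htb : (t : ℂ) ∈ Metric.ball (0 : ℂ) 1 := by
      rw [mem_ball_zero_iff, Complex.norm_real, Real.norm_eq_abs]; linarith
    refine le_min (g2 _ htb) ?_
    set S : Set ℝ := (fun t : ℝ => (t, y)) ⁻¹' B1 with hS
    have hSv : volume S < ENNReal.ofReal r := by
      have : ¬ (ENNReal.ofReal r ≤ F y) := hyB
      exact not_le.1 this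
    refine h1 (fun w => f (Fin.cons w (fun j => (y j : ℂ)))) M m (Set.Icc (-r) r \ S) g1 g2 hm hmM
      Set.sdiff_subset ?_ ?_ t (abs_le.1 ht)
    · by_contra hcon
      push Not at hcon
      have h3 : volume (Set.Icc (-r) r) ≤ volume (Set.Icc (-r) r \ S) + volume S := by
        refine (measure_mono ?_).trans (measure_union_le _ _)
        intro z hz
        by_cases hzS : z ∈ S
        · exact Or.inr hzS
        · exact Or.inl ⟨hz, hzS⟩
      rw [Real.volume_Icc] at h3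
      have h4 := h3.trans_lt (ENNReal.add_lt_add hcon hSv)
      rw [← ENNReal.ofReal_add hr.le hr.le] at h4
      have h5 : r - -r = r + r := by ring
      rw [h5] at h4
      exact lt_irrefl _ h4
    · intro s hs
      have hsr : |s| ≤ r := abs_le.2 hs.1
      have h3 := hBm (Fin.cons s y) (hyc s hsr) (by
        intro h4
        apply hs.2
        show e.symm (s, y) ∈ B ∩ box
        rw [hes]
        exact ⟨h4, hyc s hsr⟩)
      rw [cons_ofReal] at h3
      exact h3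
  -- the other variables
  obtain ⟨t, y, rfl⟩ : ∃ (t : ℝ) (y : Fin n → ℝ), x = Fin.cons t y :=
    ⟨x 0, Fin.tail x, (Fin.cons_self_tail x).symm⟩
  have ht : |t| ≤ r := by simpa using hx 0
  have hy : ∀ j, |y j| ≤ r := fun j => by simpa using hx j.succ
  have h3 := h2 (fun z => f (Fin.cons (t : ℂ) z)) M m1 B' (by
      intro i z hz
      have hz' : ∀ j, |(Fin.cons t z : Fin (n + 1) → ℝ) j| ≤ r := by
        intro j
        refine Fin.cases ?_ (fun i => ?_) j
        · simpa using ht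
        · simpa using hz i
      have h4 := hf i.succ (Fin.cons t z) hz'
      have h5 : ∀ w : ℂ, Function.update (fun j => ((Fin.cons t z : Fin (n + 1) → ℝ) j : ℂ))
          i.succ w = (Fin.cons (t : ℂ) (Function.update (fun j => (z j : ℂ)) i w) :
            Fin (n + 1) → ℂ) := by
        intro w
        rw [cons_ofReal, Fin.cons_update]
      simp only [h5] at h4
      exact h4) hm1pos (min_le_left _ _) hB'm
    (fun z hz hzB => hslice z hz hzB t ht) hB'v y hy
  rw [cons_ofReal]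
  refine h3.trans ?_
  have h4 : m1 ^ (1 - θ / 2) ≤ (C₁ * M ^ (θ / 2) * m ^ (1 - θ / 2)) ^ (1 - θ / 2) :=
    Real.rpow_le_rpow hm1pos.le (min_le_right _ _) (by linarith)
  rw [Real.mul_rpow (by positivity) (by positivity), Real.mul_rpow (by positivity) (by positivity),
    ← Real.rpow_mul hM.le, ← Real.rpow_mul hm.le] at h4
  have h5 := interp (M := M) (m := m) (a := θ / 2 + θ / 2 * (1 - θ / 2)) (b := θ) hm hmM
    (by nlinarith)
  have h6 : (1 - (θ / 2 + θ / 2 * (1 - θ / 2))) = (1 - θ / 2) * (1 - θ / 2) := by ring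
  rw [h6, Real.rpow_add hM] at h5
  calc C₂ * M ^ (θ / 2) * m1 ^ (1 - θ / 2)
      ≤ C₂ * M ^ (θ / 2) * (C₁ ^ (1 - θ / 2) * M ^ (θ / 2 * (1 - θ / 2)) *
          m ^ ((1 - θ / 2) * (1 - θ / 2))) := mul_le_mul_of_nonneg_left h4 (by positivity)
    _ = C₂ * C₁ ^ (1 - θ / 2) * (M ^ (θ / 2) * M ^ (θ / 2 * (1 - θ / 2)) *
          m ^ ((1 - θ / 2) * (1 - θ / 2))) := by ring
    _ ≤ C₂ * C₁ ^ (1 - θ / 2) * (M ^ θ * m ^ (1 - θ)) :=
        mul_le_mul_of_nonneg_left h5 (by positivity)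
    _ = _ := by ring

theorem all (h : S_R1) (n : ℕ) : ∀ θ : ℝ, 0 < θ → θ < 1 → ∃ r₀ C : ℝ, 0 < r₀ ∧ r₀ ≤ 1 / 2 ∧
    0 < C ∧ ∀ r, 0 < r → r ≤ r₀ → P n θ r C := by
  induction n with
  | zero =>
    intro θ hθ _
    exact ⟨1 / 2, 1, by norm_num, le_rfl, one_pos, fun r _ _ => base θ r hθ⟩
  | succ n ih =>
    intro θ hθ hθ1
    obtain ⟨r₁, C₁, hr1, hr1', hC1, H1⟩ := r1s h (θ / 2) (by linarith) (by linarith)
    obtain ⟨r₂, C₂, hr2, hr2', hC2, H2⟩ := ih (θ / 2) (by linarith) (by linarith)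
    refine ⟨min r₁ r₂, C₂ * C₁ ^ (1 - θ / 2), lt_min hr1 hr2, (min_le_left _ _).trans hr1',
      by positivity, fun r hr hrr => ?_⟩
    exact step n θ C₁ C₂ r hr (by have := hrr.trans (min_le_left _ _); linarith) hθ hθ1 hC1 hC2
      (H1 r hr (hrr.trans (min_le_left _ _))) (H2 r hr (hrr.trans (min_le_right _ _)))

end Pool.Agent.Z72.SH.R2

namespace Pool.Agent.Z72.SH

theorem t_R2 (h : S_R1) : S_R2 := by
  intro n θ hθ hθ1
  obtain ⟨r, C, hr, hr2, hC, H⟩ := R2.all h n θ hθ hθ1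
  exact ⟨r, C, hr, hr2, hC, H r hr le_rfl⟩

end Pool.Agent.Z72.SH
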