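import Pool.Agent.Z72.SH.Stm
import Pool.Agent.Z72.SH.Fin0
import Pool.Agent.Z72.SH.R2

/-!
FIN: all points outside few unit cubes (helper1, board t72).
-/

set_option autoImplicit false

namespace Pool.Agent.Z72.SH

open Complex Filter Topology MeasureTheory Set
open Pool.Agent.TH612.GS (mP DD vol_cube)
open Pool.Agent.TH612.CF (Zg GG Qs)

variable {k : ℕ}

theorem FS_real (S : ℝ) (γ : Fin k ⊕ Fin k → ℝ) : FS S (fun i => (γ i : ℂ)) = DD S γ := rfl

open FinC in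
theorem fin_core {θ r C : ℝ} (hr : 0 < r) (hr2 : r ≤ 1 / 2) (hP : R2.P (2 * k) θ r C)
    (M m T U S : ℝ) (hT : 3 ≤ T) (hUT : U ≤ T) (hm : 0 < m) (hmM : m ≤ M)
    (hD : ∀ c : Fin k ⊕ Fin k → ℂ, (∀ i, |(c i).im| < 1 / 10) → (∀ i, |(c i).re| < 3 * T) →
      (∀ p q, p ≠ q → 1 < |(c p).re - (c q).re|) →
      ‖FS S c‖ ≤ M ∧ ∀ i, DifferentiableAt ℂ (fun w => FS S (Function.update c i w)) (c i))
    (H : Set (Fin k ⊕ Fin k → ℝ)) (hH : MeasurableSet H)
    (hHm : ∀ γ : Fin k ⊕ Fin k → ℝ, (∀ i, 0 ≤ γ i ∧ γ i ≤ U) → γ ∉ H → ‖DD S γ‖ ≤ m)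
    (γ : Fin k ⊕ Fin k → ℝ) (h0 : ∀ i, 1 ≤ γ i ∧ γ i ≤ U - 1)
    (hsep : ∀ p q, p ≠ q → 4 ≤ |γ p - γ q|)
    (hvol : volume (H ∩ Qb (fun i => ⌊γ i⌋)) < ENNReal.ofReal ((r / 20) ^ (2 * k))) :
    ‖DD S γ‖ ≤ C * M ^ θ * m ^ (1 - θ) := by
  set e : Fin (2 * k) ≃ Fin k ⊕ Fin k := (finCongr (two_mul k)).trans finSumFinEquiv.symm with he
  set f : (Fin (2 * k) → ℂ) → ℂ := fun z => FS S (fun i => (γ i : ℂ) + z (e.symm i) / 10) with hf
  set B : Set (Fin (2 * k) → ℝ) := {x | (fun i => γ i + x (e.symm i) / 10) ∈ H} with hB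
  have hBm : MeasurableSet B := by
    have h1 : Measurable fun x : Fin (2 * k) → ℝ => (fun i => γ i + x (e.symm i) / 10 :
        Fin k ⊕ Fin k → ℝ) := by fun_prop
    exact h1 hH
  have hfreal : ∀ x : Fin (2 * k) → ℝ, f (fun j => (x j : ℂ)) =
      DD S (fun i => γ i + x (e.symm i) / 10) := by
    intro x
    rw [← FS_real, hf]
    simp only
    congr 1
    funext i
    push_cast
    rfl
  -- the shift vectors are admissible
  have hadm : ∀ u : Fin (2 * k) → ℂ, (∀ j, |(u j).re| ≤ 1 ∧ |(u j).im| < 1) →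
      (∀ i, |((γ i : ℂ) + u (e.symm i) / 10).im| < 1 / 10) ∧
      (∀ i, |((γ i : ℂ) + u (e.symm i) / 10).re| < 3 * T) ∧
      (∀ p q, p ≠ q → 1 < |((γ p : ℂ) + u (e.symm p) / 10).re -
        ((γ q : ℂ) + u (e.symm q) / 10).re|) := by
    intro u hu
    have him : ∀ i, ((γ i : ℂ) + u (e.symm i) / 10).im = (u (e.symm i)).im / 10 := by
      intro i
      have : u (e.symm i) / 10 = ((10 : ℝ)⁻¹ : ℝ) * u (e.symm i) := by
        push_cast; ring
      rw [this, Complex.add_im, Complex.ofReal_im, Complex.im_ofReal_mul]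
      ring
    have hre : ∀ i, ((γ i : ℂ) + u (e.symm i) / 10).re = γ i + (u (e.symm i)).re / 10 := by
      intro i
      have : u (e.symm i) / 10 = ((10 : ℝ)⁻¹ : ℝ) * u (e.symm i) := by
        push_cast; ring
      rw [this, Complex.add_re, Complex.ofReal_re, Complex.re_ofReal_mul]
      ring
    refine ⟨fun i => ?_, fun i => ?_, fun p q hpq => ?_⟩
    · rw [him, abs_div, abs_of_pos (by norm_num : (0 : ℝ) < 10)]
      have := (hu (e.symm i)).2
      linarith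
    · rw [hre]
      have h1 := abs_le.1 (hu (e.symm i)).1
      rw [abs_lt]
      have h2 := h0 i
      constructor <;> linarith [h1.1, h1.2, h2.1, h2.2]
    · rw [hre, hre]
      have h1 := abs_le.1 (hu (e.symm p)).1
      have h2 := abs_le.1 (hu (e.symm q)).1
      have h3 := hsep p q hpq
      have h4 : |γ p - γ q| ≤ |γ p + (u (e.symm p)).re / 10 - (γ q + (u (e.symm q)).re / 10)| +
          |(u (e.symm q)).re / 10 - (u (e.symm p)).re / 10| := by
        have := abs_add_le (γ p + (u (e.symm p)).re / 10 - (γ q + (u (e.symm q)).re / 10))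
          ((u (e.symm q)).re / 10 - (u (e.symm p)).re / 10)
        have h5 : γ p + (u (e.symm p)).re / 10 - (γ q + (u (e.symm q)).re / 10) +
          ((u (e.symm q)).re / 10 - (u (e.symm p)).re / 10) = γ p - γ q := by ring
        rwa [h5] at this
      have h5 : |(u (e.symm q)).re / 10 - (u (e.symm p)).re / 10| ≤ 1 / 5 := by
        rw [abs_le]; constructor <;> linarith [h1.1, h1.2, h2.1, h2.2]
      linarith
  have hupd : ∀ (i : Fin (2 * k)) (x : Fin (2 * k) → ℝ), (∀ j, |x j| ≤ r) → ∀ w : ℂ, ‖w‖ < 1 →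
      ∀ j, |(Function.update (fun j => (x j : ℂ)) i w j).re| ≤ 1 ∧
        |(Function.update (fun j => (x j : ℂ)) i w j).im| < 1 := by
    intro i x hx w hw j
    by_cases hj : j = i
    · subst hj
      rw [Function.update_self]
      exact ⟨(Complex.abs_re_le_norm w).trans hw.le, (Complex.abs_im_le_norm w).trans_lt hw⟩
    · rw [Function.update_of_ne hj]
      rw [Complex.ofReal_re, Complex.ofReal_im, abs_zero]
      exact ⟨by have := hx j; linarith, one_pos⟩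
  have h1 := hP f M m B ?_ hm hmM hBm ?_ ?_ (fun _ => 0) (by intro j; simpa using hr.le)
  · rw [hfreal (fun _ => 0)] at h1
    simpa using h1
  · intro i x hx
    constructor
    · intro w₀ hw₀
      rw [mem_ball_zero_iff] at hw₀
      apply DifferentiableAt.differentiableWithinAt
      obtain ⟨a1, a2, a3⟩ := hadm _ (hupd i x hx w₀ hw₀)
      have h2 := (hD _ a1 a2 a3).2 (e i)
      rw [Equiv.symm_apply_apply, Function.update_self] at h2
      have h3 : DifferentiableAt ℂ (fun w : ℂ => (γ (e i) : ℂ) + w / 10) w₀ := by fun_prop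
      have h4 := DifferentiableAt.comp w₀ h2 h3
      refine h4.congr_of_eventuallyEq (Eventually.of_forall fun w => ?_)
      simp only [Function.comp, hf]
      congr 1
      funext l
      by_cases hl : l = e i
      · subst hl
        rw [Function.update_self, Equiv.symm_apply_apply, Function.update_self]
      · rw [Function.update_of_ne hl]
        have hl' : e.symm l ≠ i := fun h => hl (by rw [← h, Equiv.apply_symm_apply])
        rw [Function.update_of_ne hl', Function.update_of_ne hl']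
    · intro w hw
      rw [mem_ball_zero_iff] at hw
      obtain ⟨a1, a2, a3⟩ := hadm _ (hupd i x hx w hw)
      exact (hD _ a1 a2 a3).1
  · intro x hx hxB
    rw [hfreal]
    refine hHm _ (fun i => ?_) hxB
    have h2 := abs_le.1 (hx (e.symm i))
    have h3 := h0 i
    constructor <;> linarith [h2.1, h2.2, h3.1, h3.2]
  · have h2 : B ∩ {x | ∀ j, |x j| ≤ r} ⊆
        {x | (fun i => γ i + x (e.symm i) / 10) ∈ H ∩ Qb (fun i => ⌊γ i⌋)} := by
      intro x hx
      refine ⟨hx.1, fun i => ?_⟩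
      have h2 := abs_le.1 (hx.2 (e.symm i))
      have h3 := Int.floor_le (γ i)
      have h4 := Int.lt_floor_add_one (γ i)
      constructor <;> linarith [h2.1, h2.2]
    refine (measure_mono h2).trans_lt ?_
    rw [vol_pre (2 * k) e γ _ (hH.inter (Qb_meas _))]
    have h3 : (r / 2) ^ (2 * k) = 10 ^ (2 * k) * (r / 20) ^ (2 * k) := by
      rw [← mul_pow]; congr 1; ring
    rw [h3, ENNReal.ofReal_mul (by positivity)]
    exact ENNReal.mul_lt_mul_right (by positivity) ENNReal.ofReal_ne_top hvol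

/-- FIN2: the good cubes are separated -/
def S_FIN2 : Prop := ∀ (k : ℕ) (κ : ℝ), 2 ≤ k → (2 * k - 3) / (6 * k - 6) < κ → ∃ δ T₀ : ℝ, 0 < δ ∧
  ∀ T U : ℝ, T₀ ≤ T → T ^ κ ≤ U → U ≤ T → ∃ E : Finset (Fin k ⊕ Fin k → ℤ),
  (E.card : ℝ) ≤ U ^ (2 * k) * T ^ (-δ) ∧
  ∀ γ : Fin k ⊕ Fin k → ℝ, (∀ i, 0 ≤ γ i ∧ γ i ≤ U) → (fun i => ⌊γ i⌋) ∉ E →
    (∀ p q, p ≠ q → 1 ≤ |γ p - γ q|) ∧ ∀ S : ℝ, 0 ≤ S → S ≤ T → ‖DD S γ‖ ≤ T ^ (1 - δ)

open FinC in
theorem t_FIN2 (hMU : S_MU) (hR2 : S_R2) (hR3 : S_R3) : S_FIN2 := by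
  classical
  intro k κ hk hκ
  have hk' : (2 : ℝ) ≤ k := by exact_mod_cast hk
  have hκ0 : 0 < κ := by
    have h1 : (0 : ℝ) ≤ (2 * k - 3) / (6 * k - 6) := div_nonneg (by linarith) (by linarith)
    linarith
  obtain ⟨δ, T₁, hδ, H1⟩ := hMU k κ hk hκ
  obtain ⟨C3, A, hC3, H3⟩ := hR3 k
  set δ₁ : ℝ := min δ (1 / 2) with hδ₁
  have hδ₁0 : 0 < δ₁ := lt_min hδ (by norm_num)
  have hδ₁δ : δ₁ ≤ δ := min_le_left _ _
  have hδ₁h : δ₁ ≤ 1 / 2 := min_le_right _ _
  set θ : ℝ := δ₁ / (4 * (A + 1)) with hθ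
  have hθ0 : 0 < θ := by positivity
  have hθA : (A + 1) * θ = δ₁ / 4 := by rw [hθ]; field_simp
  have hθ1 : θ < 1 := by
    have h1 : θ ≤ (A + 1) * θ := by
      have : (0 : ℝ) ≤ A := Nat.cast_nonneg _
      nlinarith
    linarith
  obtain ⟨r, C, hr, hr2, hC, HP⟩ := hR2 (2 * k) θ hθ0 hθ1
  set c : ℝ := (r / 20) ^ (2 * k) with hc
  have hc0 : 0 < c := by positivity
  set δ₂ : ℝ := min κ δ₁ / 2 with hδ₂
  have hδ₂0 : 0 < δ₂ := by have := lt_min hκ0 hδ₁0; rw [hδ₂]; linarith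
  have hδ₂κ : 2 * δ₂ ≤ κ := by have := min_le_left κ δ₁; rw [hδ₂]; linarith
  have hδ₂δ : 2 * δ₂ ≤ δ₁ := by have := min_le_right κ δ₁; rw [hδ₂]; linarith
  set K₁ : ℝ := (3 * (2 * k) + 9 * (2 * k) * (2 * k)) * 2 ^ (2 * k) + 4 ^ (2 * k) / c with hK₁
  set K : ℝ := max K₁ (C * (C3 + 1)) with hK
  obtain ⟨T₂, hT₂⟩ := Filter.eventually_atTop.1
    ((tendsto_rpow_atTop (by linarith : 0 < δ₂ / 2)).eventually_ge_atTop K)
  refine ⟨δ₂, max (max T₁ T₂) 3, hδ₂0, fun T U hT hU1 hU2 => ?_⟩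
  have hTT1 : T₁ ≤ T := (le_max_left _ _).trans ((le_max_left _ _).trans hT)
  have hTT2 : T₂ ≤ T := (le_max_right _ _).trans ((le_max_left _ _).trans hT)
  have hT3 : 3 ≤ T := (le_max_right _ _).trans hT
  have hT0 : 0 < T := by linarith
  have hT1 : 1 ≤ T := by linarith
  have hKT := hT₂ T hTT2
  have hU1' : 1 ≤ U := (Real.one_le_rpow hT1 hκ0.le).trans hU1
  have hU0 : 0 < U := by linarith
  set m₀ : ℝ := T ^ (1 - δ₁) with hm₀
  have hm₀0 : 0 < m₀ := by positivity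
  set Bad := BadU k T U m₀ with hBad
  have hBadv : volume Bad ≤ ENNReal.ofReal (U ^ (2 * k) * T ^ (-δ₁)) := by
    have h1 : Bad ⊆ BadU k T U (T ^ (1 - δ)) := by
      rintro γ ⟨h1, S, h2, h3, h4⟩
      refine ⟨h1, S, h2, h3, lt_of_le_of_lt ?_ h4⟩
      exact Real.rpow_le_rpow_of_exponent_le hT1 (by linarith)
    have h2 : volume Bad = mP (Fin k ⊕ Fin k) U Bad := vol_cube fun γ hγ => hγ.1
    rw [h2]
    refine (measure_mono h1).trans ((H1 T U hTT1 hU1 hU2).trans ?_)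
    refine ENNReal.ofReal_le_ofReal (mul_le_mul_of_nonneg_left ?_ (by positivity))
    exact Real.rpow_le_rpow_of_exponent_le hT1 (by linarith)
  set H := toMeasurable volume Bad with hH
  have hHm : MeasurableSet H := measurableSet_toMeasurable _ _
  have hHv : volume H ≤ ENNReal.ofReal (U ^ (2 * k) * T ^ (-δ₁)) := by
    rw [hH, measure_toMeasurable]; exact hBadv
  have hHB : Bad ⊆ H := subset_toMeasurable _ _
  set L : ℤ := ⌊U⌋ with hL
  have hL1 : 1 ≤ L := by rw [hL, Int.le_floor]; exact_mod_cast hU1'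
  have hLU : (L : ℝ) ≤ U := Int.floor_le U
  set Ea := (bx (Fin k ⊕ Fin k) L).filter fun m => ∃ i, m i ∈ ({0, L - 1, L} : Finset ℤ) with hEa
  set Eb := (bx (Fin k ⊕ Fin k) L).filter fun m => ∃ p q, p ≠ q ∧
    m p - m q ∈ Finset.Icc (-4 : ℤ) 4 with hEb
  set Ec := (bx (Fin k ⊕ Fin k) L).filter fun m => ENNReal.ofReal c ≤ volume (H ∩ Qb m) with hEc
  have hcard : Fintype.card (Fin k ⊕ Fin k) = 2 * k := by
    rw [Fintype.card_sum, Fintype.card_fin]; ring
  refine ⟨Ea ∪ Eb ∪ Ec, ?_, ?_⟩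
  · -- counting
    have ha := card_a (ι := Fin k ⊕ Fin k) L (by omega) ({0, L - 1, L} : Finset ℤ)
    have hb := card_b (ι := Fin k ⊕ Fin k) L (by omega) (Finset.Icc (-4 : ℤ) 4)
    have hcc := card_c H Ec c (U ^ (2 * k) * T ^ (-δ₁)) hc0 (by positivity) hHv
      (fun m hm => (Finset.mem_filter.1 hm).2)
    rw [hcard] at ha hb hcc
    have hV : ((({0, L - 1, L} : Finset ℤ)).card : ℝ) ≤ 3 := by
      exact_mod_cast Finset.card_le_three
    have hW : (((Finset.Icc (-4 : ℤ) 4)).card : ℝ) = 9 := by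
      have h1 : (Finset.Icc (-4 : ℤ) 4).card = 9 := by decide
      rw [h1]; norm_num
    rw [hW] at hb
    have hpw : ((L : ℝ) + 1) ^ (2 * k - 1) ≤ 2 ^ (2 * k) * U ^ (2 * k) * T ^ (-κ) := by
      have h1 : ((L : ℝ) + 1) ^ (2 * k - 1) ≤ (2 * U) ^ (2 * k - 1) := by
        have h2 : (0 : ℝ) ≤ L := by exact_mod_cast (by omega : (0 : ℤ) ≤ L)
        exact pow_le_pow_left₀ (by linarith) (by linarith) _
      have h2 : T ^ (-κ) * U ≥ 1 := by
        have h3 := mul_le_mul_of_nonneg_left hU1 (by positivity : 0 ≤ T ^ (-κ))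
        rw [← Real.rpow_add hT0, neg_add_cancel, Real.rpow_zero] at h3
        exact h3
      have h3 : (2 * U) ^ (2 * k) = (2 * U) ^ (2 * k - 1) * (2 * U) := by
        rw [← pow_succ]; congr 1; omega
      have h4 : 0 ≤ (2 * U) ^ (2 * k - 1) := by positivity
      calc ((L : ℝ) + 1) ^ (2 * k - 1) ≤ (2 * U) ^ (2 * k - 1) := h1
        _ ≤ (2 * U) ^ (2 * k - 1) * (2 * (T ^ (-κ) * U)) := by
            nlinarith
        _ = (2 * U) ^ (2 * k) * T ^ (-κ) := by rw [h3]; ring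
        _ = _ := by rw [mul_pow]
    have hT2 : T ^ (-κ) ≤ T ^ (-(2 * δ₂)) :=
      Real.rpow_le_rpow_of_exponent_le hT1 (by linarith)
    have hT3' : T ^ (-δ₁) ≤ T ^ (-(2 * δ₂)) :=
      Real.rpow_le_rpow_of_exponent_le hT1 (by linarith)
    have hpw0 : (0 : ℝ) ≤ ((L : ℝ) + 1) ^ (2 * k - 1) := by
      have : (0 : ℝ) ≤ L := by exact_mod_cast (by omega : (0 : ℤ) ≤ L)
      positivity
    have hpw2 : ((L : ℝ) + 1) ^ (2 * k - 1) ≤ 2 ^ (2 * k) * U ^ (2 * k) * T ^ (-(2 * δ₂)) :=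
      hpw.trans (mul_le_mul_of_nonneg_left hT2 (by positivity))
    have h1 : (((Ea ∪ Eb ∪ Ec).card : ℕ) : ℝ) ≤ Ea.card + Eb.card + Ec.card := by
      have h2 := Finset.card_union_le (Ea ∪ Eb) Ec
      have h3 := Finset.card_union_le Ea Eb
      have h4 : (Ea ∪ Eb ∪ Ec).card ≤ Ea.card + Eb.card + Ec.card := by omega
      exact_mod_cast h4
    have h2 : (Ea.card : ℝ) ≤ 3 * (2 * k) * (2 ^ (2 * k) * U ^ (2 * k) * T ^ (-(2 * δ₂))) := by
      refine ha.trans ?_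
      push_cast
      have h5 : (2 * (k : ℝ)) * ((({0, L - 1, L} : Finset ℤ)).card : ℝ) ≤ 3 * (2 * k) := by
        nlinarith
      exact mul_le_mul h5 hpw2 hpw0 (by positivity)
    have h3 : (Eb.card : ℝ) ≤ 9 * (2 * k) * (2 * k) *
        (2 ^ (2 * k) * U ^ (2 * k) * T ^ (-(2 * δ₂))) := by
      refine hb.trans ?_
      push_cast
      have h5 : (2 * (k : ℝ)) * (2 * k) * 9 ≤ 9 * (2 * k) * (2 * k) := by
        apply le_of_eq; ring
      exact mul_le_mul h5 hpw2 hpw0 (by positivity)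
    have h4 : (Ec.card : ℝ) ≤ 4 ^ (2 * k) / c * (U ^ (2 * k) * T ^ (-(2 * δ₂))) := by
      refine hcc.trans ?_
      rw [mul_div_right_comm]
      refine mul_le_mul_of_nonneg_left ?_ (by positivity)
      exact mul_le_mul_of_nonneg_left hT3' (by positivity)
    have h5 : (((Ea ∪ Eb ∪ Ec).card : ℕ) : ℝ) ≤ K₁ * (U ^ (2 * k) * T ^ (-(2 * δ₂))) := by
      refine h1.trans ((add_le_add (add_le_add h2 h3) h4).trans (le_of_eq ?_))
      rw [hK₁]; ring
    have h6 : K₁ ≤ T ^ δ₂ := by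
      refine (le_max_left K₁ (C * (C3 + 1))).trans (hKT.trans ?_)
      exact Real.rpow_le_rpow_of_exponent_le hT1 (by linarith)
    calc (((Ea ∪ Eb ∪ Ec).card : ℕ) : ℝ) ≤ K₁ * (U ^ (2 * k) * T ^ (-(2 * δ₂))) := h5
      _ ≤ T ^ δ₂ * (U ^ (2 * k) * T ^ (-(2 * δ₂))) :=
          mul_le_mul_of_nonneg_right h6 (by positivity)
      _ = U ^ (2 * k) * (T ^ δ₂ * T ^ (-(2 * δ₂))) := by ring
      _ = U ^ (2 * k) * T ^ (-δ₂) := by
          rw [← Real.rpow_add hT0]; congr 2; ring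
  · intro γ hγ hγE
    set mm : Fin k ⊕ Fin k → ℤ := fun i => ⌊γ i⌋ with hmm
    have hmem : mm ∈ bx (Fin k ⊕ Fin k) L := by
      refine Fintype.mem_piFinset.2 fun i => Finset.mem_Icc.2 ⟨Int.floor_nonneg.2 (hγ i).1, ?_⟩
      exact Int.floor_le_floor (hγ i).2
    have hna : ∀ i, mm i ∉ ({0, L - 1, L} : Finset ℤ) := by
      intro i hi
      apply hγE
      exact Finset.mem_union_left _ (Finset.mem_union_left _ (Finset.mem_filter.2 ⟨hmem, i, hi⟩))
    have hnb : ∀ p q, p ≠ q → mm p - mm q ∉ Finset.Icc (-4 : ℤ) 4 := by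
      intro p q hpq hi
      apply hγE
      exact Finset.mem_union_left _ (Finset.mem_union_right _
        (Finset.mem_filter.2 ⟨hmem, p, q, hpq, hi⟩))
    have hnc : volume (H ∩ Qb mm) < ENNReal.ofReal c := by
      by_contra hcon
      push Not at hcon
      apply hγE
      exact Finset.mem_union_right _ (Finset.mem_filter.2 ⟨hmem, hcon⟩)
    have hsp : ∀ p q, p ≠ q → 4 ≤ |γ p - γ q| := by
      intro p q hpq
      have h2 := hnb p q hpq
      rw [Finset.mem_Icc] at h2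
      have a1 : ((mm p : ℤ) : ℝ) ≤ γ p := Int.floor_le _
      have a2 : γ p < ((mm p : ℤ) : ℝ) + 1 := Int.lt_floor_add_one _
      have b1 : ((mm q : ℤ) : ℝ) ≤ γ q := Int.floor_le _
      have b2 : γ q < ((mm q : ℤ) : ℝ) + 1 := Int.lt_floor_add_one _
      have h3 : 5 ≤ mm p - mm q ∨ 5 ≤ mm q - mm p := by omega
      rcases h3 with h3 | h3
      · have h4 : (5 : ℝ) ≤ (mm p : ℝ) - mm q := by exact_mod_cast h3
        exact le_trans (by linarith) (le_abs_self _)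
      · have h4 : (5 : ℝ) ≤ (mm q : ℝ) - mm p := by exact_mod_cast h3
        exact le_trans (by linarith) (neg_le_abs _)
    refine ⟨fun p q hpq => le_trans (by norm_num) (hsp p q hpq), fun S hS0 hST => ?_⟩
    have hM1 : m₀ ≤ (C3 + 1) * T ^ (A + 1) := by
      have h1 : m₀ ≤ T ^ (1 : ℝ) := Real.rpow_le_rpow_of_exponent_le hT1 (by linarith)
      rw [Real.rpow_one] at h1
      have h2 : T ≤ T ^ (A + 1) := by
        calc T = T ^ 1 := (pow_one T).symm
          _ ≤ T ^ (A + 1) := pow_le_pow_right₀ hT1 (by omega)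
      have h3 : 0 < T ^ (A + 1) := by positivity
      nlinarith
    have h1 := fin_core (k := k) hr hr2 HP ((C3 + 1) * T ^ (A + 1)) m₀ T U S hT3 hU2 hm₀0 hM1
      (by
        intro c' a1 a2 a3
        obtain ⟨b1, b2⟩ := H3 T S c' hT3 hS0 hST a1 a2 a3
        refine ⟨b1.trans ?_, b2⟩
        exact mul_le_mul (by linarith) (pow_le_pow_right₀ hT1 (by omega)) (by positivity)
          (by positivity))
      H hHm
      (by
        intro γ' h2 h3
        by_contra hcon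
        push Not at hcon
        exact h3 (hHB ⟨h2, S, hS0, hST, hcon⟩))
      γ
      (by
        intro i
        have h2 := hna i
        simp only [Finset.mem_insert, Finset.mem_singleton, not_or] at h2
        have h3 := Finset.mem_Icc.1 (Fintype.mem_piFinset.1 hmem i)
        have h4 : 1 ≤ mm i := by omega
        have h5 : mm i + 2 ≤ L := by omega
        have h6 : ((1 : ℤ) : ℝ) ≤ mm i := by exact_mod_cast h4
        have h7 : ((mm i : ℤ) : ℝ) + 2 ≤ L := by exact_mod_cast h5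
        have h8 : ((mm i : ℤ) : ℝ) ≤ γ i := Int.floor_le _
        have h9 : γ i < ((mm i : ℤ) : ℝ) + 1 := Int.lt_floor_add_one _
        push_cast at h6
        constructor <;> linarith)
      hsp
      hnc
    refine h1.trans ?_
    have hC1 : 1 ≤ C3 + 1 := by linarith
    have h2 : ((C3 + 1) * T ^ (A + 1)) ^ θ ≤ (C3 + 1) * T ^ (δ₁ / 4) := by
      rw [Real.mul_rpow (by positivity) (by positivity)]
      have h3 : (T ^ (A + 1)) ^ θ = T ^ (δ₁ / 4) := by
        rw [← Real.rpow_natCast, ← Real.rpow_mul hT0.le, ← hθA]; push_cast; rfl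
      rw [h3]
      refine mul_le_mul_of_nonneg_right ?_ (by positivity)
      calc (C3 + 1) ^ θ ≤ (C3 + 1) ^ (1 : ℝ) := Real.rpow_le_rpow_of_exponent_le hC1 hθ1.le
        _ = C3 + 1 := Real.rpow_one _
    have h3 : m₀ ^ (1 - θ) ≤ T ^ (1 - δ₁) := by
      rw [hm₀, ← Real.rpow_mul hT0.le]
      apply Real.rpow_le_rpow_of_exponent_le hT1
      nlinarith
    have h4 : C * (C3 + 1) ≤ T ^ (δ₂ / 2) := (le_max_right _ _).trans hKT
    calc C * ((C3 + 1) * T ^ (A + 1)) ^ θ * m₀ ^ (1 - θ)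
        ≤ C * ((C3 + 1) * T ^ (δ₁ / 4)) * T ^ (1 - δ₁) := by
          refine mul_le_mul (mul_le_mul_of_nonneg_left h2 hC.le) h3 (by positivity)
            (by positivity)
      _ = C * (C3 + 1) * (T ^ (δ₁ / 4) * T ^ (1 - δ₁)) := by ring
      _ ≤ T ^ (δ₂ / 2) * (T ^ (δ₁ / 4) * T ^ (1 - δ₁)) :=
          mul_le_mul_of_nonneg_right h4 (by positivity)
      _ = T ^ (δ₂ / 2 + (δ₁ / 4 + (1 - δ₁))) := by
          rw [← Real.rpow_add hT0, ← Real.rpow_add hT0]
      _ ≤ T ^ (1 - δ₂) := by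
          apply Real.rpow_le_rpow_of_exponent_le hT1
          linarith

theorem t_FIN (hMU : S_MU) (hR2 : S_R2) (hR3 : S_R3) : S_FIN := by
  intro k κ hk hκ
  obtain ⟨δ, T₀, hδ, h⟩ := t_FIN2 hMU hR2 hR3 k κ hk hκ
  refine ⟨δ, T₀, hδ, fun T U h1 h2 h3 => ?_⟩
  obtain ⟨E, hE, h4⟩ := h T U h1 h2 h3
  exact ⟨E, hE, fun γ hγ hγE => (h4 γ hγ hγE).2⟩

end Pool.Agent.Z72.SH
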