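import Pool.Agent.Z72.SH.Stm

set_option autoImplicit false

/-! Project SH: the parameters. -/

namespace Pool.Agent.Z72.SH

open Complex Filter Topology MeasureTheory Set
open Pool.Agent.TH612.GS (log_ev)

noncomputable section

/-- the parameters -/
structure ParU (k : ℕ) (κ η δ θ C : ℝ) (B M₀ : ℕ) (T U y : ℝ) (N J : ℕ) : Prop where
  hU : 3 ≤ U
  hUT : U ≤ T
  hlog : 1 ≤ Real.log U
  hy16 : 16 ≤ y
  hC : C * Real.log T ^ B ≤ y
  hyU : y ^ 40 ≤ U ^ (1 / 2 : ℝ)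
  hM : M₀ ≤ N
  hN2 : 2 ≤ N
  hN : y ^ 320 / 2 ≤ N
  hNU : (N : ℝ) ≤ U ^ (1 / 2 : ℝ)
  hN1 : 2 * (N : ℝ) ^ (4 * k + 2) ≤ U
  hN3 : 2 * (N : ℝ) ^ (3 * k ^ 2) ≤ U
  hN4 : (N : ℝ) ^ (3 * k) ≤ U ^ (1 / 2 : ℝ)
  hN8 : (N : ℝ) ^ (-(1 / 8) : ℝ) ≤ 2 / y ^ 40
  hJ1 : 1 ≤ J
  hJl : y ^ 16 ≤ J
  hJu : (J : ℝ) ≤ 2 * y ^ 16
  hη : T ^ (-η) ≤ 1 / y ^ 20
  hδ : U ^ (-δ) ≤ 1 / y ^ 8
  hfin : T ^ (2 * κ * θ) ≤ y ^ 2

lemma paramsU (k : ℕ) (κ η δ : ℝ) (hκ : 0 < κ) (hη : 0 < η) (hδ : 0 < δ) : ∃ θ : ℝ, 0 < θ ∧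
    ∀ (C : ℝ) (B M₀ : ℕ), ∃ T₀ : ℝ, ∀ T U : ℝ, T₀ ≤ T → T ^ κ ≤ U → U ≤ T →
    ∃ (y : ℝ) (N J : ℕ), ParU k κ η δ θ C B M₀ T U y N J := by
  obtain ⟨D, hD⟩ : ∃ D : ℝ, D = (k:ℝ) ^ 2 + k + 1 := ⟨_, rfl⟩
  have hk0 : (0:ℝ) ≤ k := Nat.cast_nonneg k
  have hD1 : 1 ≤ D := by rw [hD]; nlinarith [sq_nonneg (k:ℝ)]
  obtain ⟨θ, hθ⟩ : ∃ θ : ℝ, θ = min (1 / (8 * D * 320)) (min (η / 20) (δ / 8)) := ⟨_, rfl⟩
  have hθ0 : 0 < θ := by
    rw [hθ]
    exact lt_min (by positivity) (lt_min (by positivity) (by positivity))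
  have hθ1 : θ ≤ 1 / (8 * D * 320) := by rw [hθ]; exact min_le_left _ _
  have hθ2 : θ ≤ η / 20 := by rw [hθ]; exact (min_le_right _ _).trans (min_le_left _ _)
  have hθ3 : θ ≤ δ / 8 := by rw [hθ]; exact (min_le_right _ _).trans (min_le_right _ _)
  have hθc : 320 * θ ≤ 1 / (8 * D) := by
    calc 320 * θ ≤ 320 * (1 / (8 * D * 320)) := by gcongr
      _ = 1 / (8 * D) := by field_simp
  have hθs : 320 * θ ≤ 1 / 8 := by
    refine hθc.trans ?_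
    rw [div_le_div_iff₀ (by positivity) (by norm_num)]; linarith
  refine ⟨θ, hθ0, fun C B M₀ => ?_⟩
  have ev1 := log_ev C B (θ := κ * θ) (by positivity)
  have ev2 : Tendsto (fun T : ℝ => T ^ (κ * θ)) atTop atTop := tendsto_rpow_atTop (by positivity)
  have ev3 := ev2.eventually_ge_atTop (16 + 2 * M₀)
  have ev4 := (tendsto_rpow_atTop hκ).eventually_ge_atTop 4
  obtain ⟨T0, hT0⟩ := eventually_atTop.1 (ev1.and (ev3.and (ev4.and (eventually_ge_atTop 4))))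
  refine ⟨T0, fun T U hT hTU hUT => ?_⟩
  obtain ⟨h1, h2, h3, h4⟩ := hT0 T hT
  have hTp : 0 < T := by linarith
  have hT1 : 1 ≤ T := by linarith
  have hU4 : 4 ≤ U := h3.trans hTU
  have hU0 : 0 < U := by linarith
  have hU1 : 1 ≤ U := by linarith
  obtain ⟨y, hy⟩ : ∃ y : ℝ, y = U ^ θ := ⟨_, rfl⟩
  have hyT : T ^ (κ * θ) ≤ y := by
    rw [hy, Real.rpow_mul hTp.le]
    exact Real.rpow_le_rpow (by positivity) hTU hθ0.le
  have hM0 : (0:ℝ) ≤ M₀ := Nat.cast_nonneg _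
  have hy16 : 16 ≤ y := by linarith
  have hy0 : 0 < y := by linarith
  have hy1 : 1 ≤ y := by linarith
  have ypow : ∀ n : ℕ, y ^ n = U ^ (θ * n) := by
    intro n
    rw [hy, ← Real.rpow_natCast, ← Real.rpow_mul hU0.le]
  have hyle : ∀ n : ℕ, 1 ≤ n → y ≤ y ^ n := fun n hn => le_self_pow₀ hy1 (by omega)
  have h320 : y ≤ y ^ 320 := hyle 320 (by norm_num)
  obtain ⟨N, hN⟩ : ∃ N : ℕ, N = ⌊y ^ 320⌋₊ := ⟨_, rfl⟩
  have hNle : (N : ℝ) ≤ y ^ 320 := by rw [hN]; exact Nat.floor_le (by positivity)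
  have hNge : y ^ 320 - 1 < N := by
    have := Nat.lt_floor_add_one (y ^ 320)
    rw [← hN] at this
    linarith
  have hNhalf : y ^ 320 / 2 ≤ N := by linarith
  have hN8 : (8:ℝ) ≤ N := by linarith
  have hNpow : ∀ m : ℕ, (m:ℝ) ≤ 4 * D → (N:ℝ) ^ m ≤ U ^ (1 / 2 : ℝ) := by
    intro m hm
    calc (N:ℝ) ^ m ≤ (y ^ 320) ^ m := by gcongr
      _ = U ^ (θ * (320 * m : ℕ)) := by rw [← pow_mul, ypow]
      _ ≤ U ^ (1 / 2 : ℝ) := by
          refine Real.rpow_le_rpow_of_exponent_le hU1 ?_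
          push_cast
          have : θ * (320 * m) = (320 * θ) * m := by ring
          rw [this]
          calc (320 * θ) * m ≤ (1 / (8 * D)) * (4 * D) := by gcongr
            _ = 1 / 2 := by field_simp; norm_num
  have hhalf : 2 * U ^ (1 / 2 : ℝ) ≤ U := by
    have e : U = U ^ (1 / 2 : ℝ) * U ^ (1 / 2 : ℝ) := by
      rw [← Real.rpow_add hU0]; norm_num
    have h4 : 2 ≤ U ^ (1 / 2 : ℝ) := by
      rw [← Real.sqrt_eq_rpow]
      exact Real.le_sqrt_of_sq_le (by linarith)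
    nlinarith
  obtain ⟨J, hJ⟩ : ∃ J : ℕ, J = ⌈y ^ 16⌉₊ := ⟨_, rfl⟩
  have hJl : y ^ 16 ≤ J := by rw [hJ]; exact Nat.le_ceil _
  have hJu' : (J : ℝ) < y ^ 16 + 1 := by rw [hJ]; exact Nat.ceil_lt_add_one (by positivity)
  have h16 : 1 ≤ y ^ 16 := one_le_pow₀ hy1
  refine ⟨y, N, J, ⟨by linarith, hUT, ?_, hy16, h1.trans hyT, ?_, ?_, ?_, hNhalf, ?_, ?_, ?_, ?_, ?_, ?_, hJl,
    by linarith, ?_, ?_, ?_⟩⟩
  · rw [Real.le_log_iff_exp_le hU0]
    exact (Real.exp_one_lt_d9.le.trans (by norm_num)).trans hU4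
  · rw [ypow]
    refine Real.rpow_le_rpow_of_exponent_le hU1 ?_
    push_cast
    nlinarith
  · have : (M₀:ℝ) ≤ N := by linarith
    exact_mod_cast this
  · have : (2:ℝ) ≤ N := by linarith
    exact_mod_cast this
  · have := hNpow 1 (by push_cast; linarith)
    rwa [pow_one] at this
  · refine (mul_le_mul_of_nonneg_left (hNpow (4 * k + 2) ?_) (by norm_num)).trans hhalf
    push_cast; rw [hD]; nlinarith
  · refine (mul_le_mul_of_nonneg_left (hNpow (3 * k ^ 2) ?_) (by norm_num)).trans hhalf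
    push_cast; rw [hD]; nlinarith
  · refine hNpow (3 * k) ?_
    push_cast; rw [hD]; nlinarith
  · have e3 : (y ^ 320 / 2 : ℝ) ^ (-(1 / 8) : ℝ) ≤ 2 / y ^ 40 := by
      rw [Real.div_rpow (by positivity) (by norm_num), Real.rpow_neg (by positivity),
        Real.rpow_neg (by norm_num)]
      have e4 : (y ^ 320 : ℝ) ^ (1 / 8 : ℝ) = y ^ 40 := by
        rw [← Real.rpow_natCast, ← Real.rpow_mul hy0.le, ← Real.rpow_natCast]
        norm_num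
      have e5 : (2:ℝ) ^ (1 / 8 : ℝ) ≤ 2 := by
        calc (2:ℝ) ^ (1 / 8 : ℝ) ≤ 2 ^ (1:ℝ) :=
              Real.rpow_le_rpow_of_exponent_le (by norm_num) (by norm_num)
          _ = 2 := Real.rpow_one 2
      rw [e4, div_inv_eq_mul, mul_comm, ← div_eq_mul_inv]
      gcongr
    refine le_trans ?_ e3
    exact Real.rpow_le_rpow_of_nonpos (by positivity) hNhalf (by norm_num)
  · have : (1:ℝ) ≤ J := by linarith
    exact_mod_cast this
  · have h5 : y ^ 20 ≤ T ^ η := by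
      rw [ypow]
      calc U ^ (θ * (20 : ℕ)) ≤ T ^ (θ * (20 : ℕ)) := Real.rpow_le_rpow hU0.le hUT (by positivity)
        _ ≤ T ^ η := Real.rpow_le_rpow_of_exponent_le hT1 (by push_cast; linarith)
    rw [Real.rpow_neg hTp.le, ← one_div]
    exact one_div_le_one_div_of_le (by positivity) h5
  · have h5 : y ^ 8 ≤ U ^ δ := by
      rw [ypow]
      exact Real.rpow_le_rpow_of_exponent_le hU1 (by push_cast; linarith)
    rw [Real.rpow_neg hU0.le, ← one_div]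
    exact one_div_le_one_div_of_le (by positivity) h5
  · calc T ^ (2 * κ * θ) = (T ^ (κ * θ)) ^ 2 := by
          rw [← Real.rpow_natCast, ← Real.rpow_mul hTp.le]
          congr 1
          push_cast
          ring
      _ ≤ y ^ 2 := by gcongr

end

end Pool.Agent.Z72.SH
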