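import Pool.Agent.Z72.SH.Stm
import Pool.Agent.N879.PU.Telu

set_option autoImplicit false
set_option linter.all false

/-!
Project SH (helper4): replacement of the factors of a product of functions of separately shifted variables,
one at a time, with window means depending on the base point.
-/

namespace Pool.Agent.Z72.SH

open Complex Filter Topology MeasureTheory Set
open Pool.Agent.TH612.GS (mP)
open Pool.Agent.N879.PZ (Wb)
open Pool.Agent.N879.PZ.Telcaux (mor lint1 meas_int wb_mul wb_int wb_int2 hyp)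
open Pool.Agent.N879.PU.Teluaux (pmom)
open Pool.Agent.TH521.GS (lint_prod lint_equiv)
open scoped ENNReal

noncomputable section

namespace Rwaux

/-- the coefficients -/
def cc (n : ℕ) : ℝ := 2 ^ (n + 1) - 2

lemma cc_succ (n : ℕ) : cc (n + 1) = 2 + 2 * cc n := by
  unfold cc
  ring

lemma cc_nonneg (n : ℕ) : 0 ≤ cc n := by
  unfold cc
  have : (1 : ℝ) ≤ 2 ^ n := one_le_pow₀ (by norm_num)
  rw [pow_succ]
  linarith

lemma cc_le (n : ℕ) : cc n ≤ 4 ^ n := by
  unfold cc
  have e : (4 : ℝ) ^ n = (2 ^ n) ^ 2 := by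
    rw [← pow_mul, mul_comm, pow_mul]
    norm_num
  rw [e, pow_succ]
  nlinarith [sq_nonneg ((2 : ℝ) ^ n - 1)]

/-- weighted integration over `t` -/
lemma wint2 {X : Type} [MeasurableSpace X] {μ : Measure X} [SFinite μ] {a b : ℝ}
    {V C : ℝ → ℝ} (hV : Measurable V) (hV0 : ∀ t, 0 ≤ V t) {h : ℝ → X → ℝ}
    (hm : Measurable (Function.uncurry h))
    (hi : ∀ t ∈ Icc a b, ∫⁻ x, ENNReal.ofReal (h t x) ∂μ ≤ ENNReal.ofReal (C t)) :
    ∫⁻ x, (∫⁻ t in Icc a b, ENNReal.ofReal (V t * h t x)) ∂μ ≤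
      ∫⁻ t in Icc a b, ENNReal.ofReal (V t * C t) := by
  have hm2 : Measurable (Function.uncurry fun (x : X) (t : ℝ) => ENNReal.ofReal (V t * h t x)) := by
    refine mor ((hV.comp measurable_snd).mul ?_)
    exact hm.comp measurable_swap
  rw [lintegral_lintegral_swap hm2.aemeasurable]
  refine lintegral_mono_ae ((ae_restrict_mem measurableSet_Icc).mono fun t ht => ?_)
  simp_rw [ENNReal.ofReal_mul (hV0 t)]
  rw [lintegral_const_mul' _ _ ENNReal.ofReal_ne_top]
  exact mul_le_mul' le_rfl (hi t ht)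

section

variable {a b U K : ℝ} {w : ℝ → ℝ}

lemma core (hK : 0 ≤ K) (hw : Continuous w) (hw0 : ∀ t, 0 ≤ w t) : ∀ (n : ℕ) (f g : Fin n → ℝ → ℂ),
    (∀ i, Continuous (f i)) → (∀ i, Continuous (g i)) →
    (∀ i, ∀ v : ℝ → ℂ, Wb a b v →
      ∫⁻ y, ENNReal.ofReal (‖∫ t in Icc a b, v t * (f i (t + y) - g i (t + y))‖ ^ 2)
        ∂(volume.restrict (Icc 0 U)) ≤
      ENNReal.ofReal K * ∫⁻ t in Icc a b, ENNReal.ofReal (‖v t‖ ^ 2)) →
    (∀ i, ∀ t ∈ Icc a b, ∫⁻ y, ENNReal.ofReal (‖f i (t + y)‖ ^ 2)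
      ∂(volume.restrict (Icc 0 U)) ≤ ENNReal.ofReal (w t)) →
    (∀ i, ∀ t ∈ Icc a b, ∫⁻ y, ENNReal.ofReal (‖g i (t + y)‖ ^ 2)
      ∂(volume.restrict (Icc 0 U)) ≤ ENNReal.ofReal (w t)) →
    ∀ (v : ℝ → ℂ), Wb a b v →
      ∫⁻ c, ENNReal.ofReal (‖∫ t in Icc a b, v t *
        (∏ j : Fin n, f j (t + c j) - ∏ j, g j (t + c j))‖ ^ 2) ∂(mP (Fin n) U) ≤
      ENNReal.ofReal (cc n * K) * ∫⁻ t in Icc a b, ENNReal.ofReal (‖v t‖ ^ 2 * w t ^ (n - 1)) := by
  intro n
  induction n with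
  | zero =>
    intro f g _ _ _ _ _ v _
    simp
  | succ n ih =>
    intro f g hf hg h1 h2 h3 v hv
    have hf0 := hf 0
    have hg0 := hg 0
    have hm0 : Measurable fun c : Fin (n + 1) → ℝ => ∫ t in Icc a b, v t *
        (∏ j, f j (t + c j) - ∏ j, g j (t + c j)) := by
      refine meas_int ((hv.1.comp measurable_snd).mul (Continuous.measurable ?_))
      fun_prop
    rw [lint_prod U _ (mor (hm0.norm.pow_const 2))]
    obtain ⟨S1, hS1⟩ : ∃ S1 : ℝ × (Fin n → ℝ) → ℂ, S1 = fun p => ∫ t in Icc a b,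
      (v t * ∏ j : Fin n, f j.succ (t + p.2 j)) * (f 0 (t + p.1) - g 0 (t + p.1)) := ⟨_, rfl⟩
    obtain ⟨S2, hS2⟩ : ∃ S2 : ℝ × (Fin n → ℝ) → ℂ, S2 = fun p => ∫ t in Icc a b,
      (v t * g 0 (t + p.1)) * (∏ j : Fin n, f j.succ (t + p.2 j) -
        ∏ j : Fin n, g j.succ (t + p.2 j)) := ⟨_, rfl⟩
    have c1 : Measurable fun p => ‖S1 p‖ ^ 2 := by
      rw [hS1]
      refine (meas_int (X := ℝ × (Fin n → ℝ)) (((hv.1.comp measurable_snd).mul
        (Continuous.measurable ?_)).mul (Continuous.measurable ?_))).norm.pow_const 2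
      · fun_prop
      · fun_prop
    have c2 : Measurable fun p => ‖S2 p‖ ^ 2 := by
      rw [hS2]
      refine (meas_int (X := ℝ × (Fin n → ℝ)) (((hv.1.comp measurable_snd).mul
        (Continuous.measurable ?_)).mul (Continuous.measurable ?_))).norm.pow_const 2
      · fun_prop
      · fun_prop
    have hle : ∀ p : ℝ × (Fin n → ℝ), ENNReal.ofReal (‖∫ t in Icc a b, v t *
        (∏ j, f j (t + (Fin.cons p.1 p.2 : Fin (n + 1) → ℝ) j) -
          ∏ j, g j (t + (Fin.cons p.1 p.2 : Fin (n + 1) → ℝ) j))‖ ^ 2) ≤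
        2 * ENNReal.ofReal (‖S1 p‖ ^ 2) + 2 * ENNReal.ofReal (‖S2 p‖ ^ 2) := by
      intro p
      have i1 : Integrable (fun t => (v t * ∏ j : Fin n, f j.succ (t + p.2 j)) *
          (f 0 (t + p.1) - g 0 (t + p.1))) (volume.restrict (Icc a b)) :=
        wb_int (wb_mul (wb_mul hv (by fun_prop)) (by fun_prop))
      have i2 : Integrable (fun t => (v t * g 0 (t + p.1)) *
          (∏ j : Fin n, f j.succ (t + p.2 j) - ∏ j : Fin n, g j.succ (t + p.2 j)))
          (volume.restrict (Icc a b)) :=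
        wb_int (wb_mul (wb_mul hv (by fun_prop)) (by fun_prop))
      have e1 : ∫ t in Icc a b, v t * (∏ j, f j (t + (Fin.cons p.1 p.2 : Fin (n + 1) → ℝ) j) -
          ∏ j, g j (t + (Fin.cons p.1 p.2 : Fin (n + 1) → ℝ) j)) = S1 p + S2 p := by
        rw [hS1, hS2]
        simp only
        rw [← integral_add i1 i2]
        congr 1
        funext t
        rw [Fin.prod_univ_succ, Fin.prod_univ_succ]
        simp only [Fin.cons_zero, Fin.cons_succ]
        ring
      rw [e1]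
      have e2 : ‖S1 p + S2 p‖ ^ 2 ≤ 2 * ‖S1 p‖ ^ 2 + 2 * ‖S2 p‖ ^ 2 := by
        have h4 := norm_add_le (S1 p) (S2 p)
        have h5 : ‖S1 p + S2 p‖ ^ 2 ≤ (‖S1 p‖ + ‖S2 p‖) ^ 2 := by gcongr
        nlinarith [sq_nonneg (‖S1 p‖ - ‖S2 p‖)]
      refine (ENNReal.ofReal_le_ofReal e2).trans ?_
      rw [ENNReal.ofReal_add (by positivity) (by positivity), ENNReal.ofReal_mul (by norm_num),
        ENNReal.ofReal_mul (by norm_num)]
      simp
    refine (lintegral_mono hle).trans ?_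
    rw [lintegral_add_left ((mor c1).const_mul 2), lintegral_const_mul _ (mor c1),
      lintegral_const_mul _ (mor c2)]
    obtain ⟨Q, hQ⟩ : ∃ Q : ℝ≥0∞, Q = ∫⁻ t in Icc a b, ENNReal.ofReal (‖v t‖ ^ 2 * w t ^ n) :=
      ⟨_, rfl⟩
    have hV0 : ∀ t, 0 ≤ ‖v t‖ ^ 2 := fun t => sq_nonneg _
    -- the first part
    have b1 : ∫⁻ p, ENNReal.ofReal (‖S1 p‖ ^ 2)
        ∂((volume.restrict (Icc 0 U)).prod (mP (Fin n) U)) ≤ ENNReal.ofReal K * Q := by
      rw [lintegral_prod_symm _ (mor c1).aemeasurable]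
      have e3 : ∀ γ : Fin n → ℝ, ∫⁻ x, ENNReal.ofReal (‖S1 (x, γ)‖ ^ 2)
          ∂(volume.restrict (Icc 0 U)) ≤
          ENNReal.ofReal K * ∫⁻ t in Icc a b,
            ENNReal.ofReal (‖v t‖ ^ 2 * ‖∏ j : Fin n, f j.succ (t + γ j)‖ ^ 2) := by
        intro γ
        have h4 := h1 0 (fun t => v t * ∏ j : Fin n, f j.succ (t + γ j))
          (wb_mul hv (by fun_prop))
        simp only [norm_mul, mul_pow] at h4
        rw [hS1]
        exact h4
      refine (lintegral_mono e3).trans ?_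
      rw [lintegral_const_mul' _ _ ENNReal.ofReal_ne_top, hQ]
      refine mul_le_mul' le_rfl ?_
      have cm : Measurable (Function.uncurry fun (t : ℝ) (γ : Fin n → ℝ) =>
          ‖∏ j : Fin n, f j.succ (t + γ j)‖ ^ 2) := by
        refine Continuous.measurable ?_
        fun_prop
      have cp : ∀ t ∈ Icc a b, ∫⁻ γ : Fin n → ℝ,
          ENNReal.ofReal (‖∏ j : Fin n, f j.succ (t + γ j)‖ ^ 2) ∂(mP (Fin n) U) ≤
          ENNReal.ofReal (w t ^ n) := fun t ht =>
        pmom (hw0 t) n (fun j y => f j.succ (t + y)) (fun j => by fun_prop)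
          fun j => h2 j.succ t ht
      exact wint2 (X := Fin n → ℝ) (μ := mP (Fin n) U) (a := a) (b := b) (C := fun t => w t ^ n)
        (hv.1.norm.pow_const 2) hV0
        (h := fun (t : ℝ) (γ : Fin n → ℝ) => ‖∏ j : Fin n, f j.succ (t + γ j)‖ ^ 2) cm cp
    -- the second part
    have b2 : ∫⁻ p, ENNReal.ofReal (‖S2 p‖ ^ 2)
        ∂((volume.restrict (Icc 0 U)).prod (mP (Fin n) U)) ≤
        ENNReal.ofReal (cc n * K) * Q := by
      rw [lintegral_prod _ (mor c2).aemeasurable]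
      have e3 : ∀ x : ℝ, ∫⁻ γ, ENNReal.ofReal (‖S2 (x, γ)‖ ^ 2) ∂(mP (Fin n) U) ≤
          ENNReal.ofReal (cc n * K) *
            ∫⁻ t in Icc a b, ENNReal.ofReal ((‖v t‖ ^ 2 * w t ^ (n - 1)) * ‖g 0 (t + x)‖ ^ 2) := by
        intro x
        have h4 := ih (fun j => f j.succ) (fun j => g j.succ) (fun j => hf j.succ)
          (fun j => hg j.succ) (fun j => h1 j.succ) (fun j => h2 j.succ) (fun j => h3 j.succ)
          (fun t => v t * g 0 (t + x)) (wb_mul hv (by fun_prop))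
        simp only [norm_mul, mul_pow] at h4
        rw [hS2]
        refine h4.trans (le_of_eq ?_)
        congr 1
        refine lintegral_congr fun t => ?_
        congr 1
        ring
      refine (lintegral_mono e3).trans ?_
      rw [lintegral_const_mul' _ _ ENNReal.ofReal_ne_top]
      rcases Nat.eq_zero_or_pos n with h0 | h0
      · subst h0
        simp [cc]
      rw [hQ]
      refine mul_le_mul' le_rfl ?_
      have cm : Measurable (Function.uncurry fun (t : ℝ) (x : ℝ) => ‖g 0 (t + x)‖ ^ 2) := by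
        refine Continuous.measurable ?_
        fun_prop
      refine (wint2 (X := ℝ) (μ := volume.restrict (Icc 0 U)) (a := a) (b := b) (C := w)
        (V := fun t => ‖v t‖ ^ 2 * w t ^ (n - 1))
        ((hv.1.norm.pow_const 2).mul (hw.measurable.pow_const _))
        (fun t => mul_nonneg (sq_nonneg _) (pow_nonneg (hw0 t) _))
        (h := fun (t : ℝ) (x : ℝ) => ‖g 0 (t + x)‖ ^ 2) cm (h3 0)).trans (le_of_eq ?_)
      refine lintegral_congr fun t => ?_
      congr 1
      obtain ⟨m, rfl⟩ : ∃ m, n = m + 1 := ⟨n - 1, by omega⟩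
      rw [Nat.add_sub_cancel, pow_succ (w t) m, mul_assoc]
    calc 2 * ∫⁻ p, ENNReal.ofReal (‖S1 p‖ ^ 2)
          ∂((volume.restrict (Icc 0 U)).prod (mP (Fin n) U)) +
        2 * ∫⁻ p, ENNReal.ofReal (‖S2 p‖ ^ 2)
          ∂((volume.restrict (Icc 0 U)).prod (mP (Fin n) U))
        ≤ 2 * (ENNReal.ofReal K * Q) + 2 * (ENNReal.ofReal (cc n * K) * Q) :=
          add_le_add (mul_le_mul' le_rfl b1) (mul_le_mul' le_rfl b2)
      _ = ENNReal.ofReal (2 * K + 2 * (cc n * K)) * Q := by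
          have t2 : 0 ≤ cc n * K := mul_nonneg (cc_nonneg n) hK
          rw [ENNReal.ofReal_add (mul_nonneg (by norm_num) hK) (mul_nonneg (by norm_num) t2),
            ENNReal.ofReal_mul (by norm_num : (0 : ℝ) ≤ 2),
            ENNReal.ofReal_mul (by norm_num : (0 : ℝ) ≤ 2), add_mul, mul_assoc, mul_assoc]
          simp
      _ = ENNReal.ofReal (cc (n + 1) * K) *
          ∫⁻ t in Icc a b, ENNReal.ofReal (‖v t‖ ^ 2 * w t ^ (n + 1 - 1)) := by
          rw [cc_succ, hQ, Nat.add_sub_cancel]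
          congr 2
          ring

end

end Rwaux

open Rwaux in
theorem t_RW : S_RW := by
  intro ι _ a b U K w f g v hab hU hK hw hw0 hf hg h1 h2 h3 hv
  set n := Fintype.card ι with hn
  have e : ι ≃ Fin n := Fintype.equivFin ι
  have key := core (a := a) (b := b) (U := U) hK hw hw0 n (fun j => f (e.symm j))
    (fun j => g (e.symm j)) (fun j => hf _) (fun j => hg _)
    (fun j => hyp hab hU (hf _) (hg _) hK (h1 _))
    (fun j t ht' => by
      have cf : Continuous fun y => ‖f (e.symm j) (t + y)‖ ^ 2 := by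
        have := hf (e.symm j)
        fun_prop
      rw [lint1 hU.le cf.continuousOn.integrableOn_Icc fun y => sq_nonneg _]
      exact ENNReal.ofReal_le_ofReal (h2 _ t ht'))
    (fun j t ht' => by
      have cg : Continuous fun y => ‖g (e.symm j) (t + y)‖ ^ 2 := by
        have := hg (e.symm j)
        fun_prop
      rw [lint1 hU.le cg.continuousOn.integrableOn_Icc fun y => sq_nonneg _]
      exact ENNReal.ofReal_le_ofReal (h3 _ t ht')) v hv
  have e1 : ∀ (h : ι → ℝ → ℂ) (γ : Fin n → ℝ) (t : ℝ),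
      ∏ j, h (e.symm j) (t + γ j) = ∏ i, h i (t + γ (e i)) := by
    intro h γ t
    rw [← Equiv.prod_comp e]
    simp
  have e2 : ∀ γ : ι → ℝ, ∫ t in a..b, v t * (∏ i, f i (t + γ i) - ∏ i, g i (t + γ i)) =
      ∫ t in Icc a b, v t * (∏ i, f i (t + γ i) - ∏ i, g i (t + γ i)) := by
    intro γ
    rw [intervalIntegral.integral_of_le hab, ← integral_Icc_eq_integral_Ioc]
  simp_rw [e2]
  have hm0 : Measurable fun c : ι → ℝ => ∫ t in Icc a b, v t *
      (∏ i, f i (t + c i) - ∏ i, g i (t + c i)) := by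
    refine meas_int ((hv.1.comp measurable_snd).mul (Continuous.measurable ?_))
    fun_prop
  rw [lint_equiv e U _ (mor (hm0.norm.pow_const 2))]
  simp only [e1] at key
  refine key.trans ?_
  have hint : IntegrableOn (fun t => ‖v t‖ ^ 2 * w t ^ (n - 1)) (Icc a b) := by
    obtain ⟨hm, M, hM⟩ := hv
    obtain ⟨C, hC⟩ := isCompact_Icc.exists_bound_of_continuousOn (s := Icc a b)
      (hw.pow (n - 1)).continuousOn
    refine Integrable.mono' (g := fun _ => M ^ 2 * C) (integrable_const _)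
      ((hm.norm.pow_const 2).mul (hw.measurable.pow_const _)).aestronglyMeasurable ?_
    refine (ae_restrict_mem measurableSet_Icc).mono fun t ht => ?_
    rw [norm_mul]
    refine mul_le_mul ?_ (hC t ht) (norm_nonneg _) (sq_nonneg _)
    rw [Real.norm_of_nonneg (by positivity)]
    exact pow_le_pow_left₀ (norm_nonneg _) (hM t ht) 2
  rw [lint1 hab hint fun t => mul_nonneg (sq_nonneg _) (pow_nonneg (hw0 t) _),
    ← ENNReal.ofReal_mul (mul_nonneg (cc_nonneg n) hK)]
  apply ENNReal.ofReal_le_ofReal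
  refine mul_le_mul_of_nonneg_right (mul_le_mul_of_nonneg_right (cc_le n) hK) ?_
  exact intervalIntegral.integral_nonneg hab fun t _ =>
    mul_nonneg (sq_nonneg _) (pow_nonneg (hw0 t) _)

end

end Pool.Agent.Z72.SH
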