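import Pool.Agent.Z72.SH.Stm0
import Pool.Agent.N879.PU.Stm
import Pool.Agent.TH612.GS.Asm3

set_option autoImplicit false

/-!
Project SH (helper72): shifted moments of zeta of order `2k` for shift vectors in `[0,U]^{2k}`, `T^κ ≤ U ≤ T`,
`κ > (2k-3)/(6k-6)`, outside few unit cubes. Definitions and statements.
-/

namespace Pool.Agent.Z72.SH

open Complex Filter Topology MeasureTheory Set
open Pool.Agent.TH612.GS (z zN PN mP SN SP GM zr Sep DD)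
open Pool.Agent.TH612.CF (Zg GG Qs)
open Pool.Agent.N879.PZ (Wb)

noncomputable section

/-! ### The second moment in short intervals -/

/-- VS: second moment of zeta in short intervals, exponent `1/3` -/
def S_VS : Prop := ∀ ε : ℝ, 0 < ε → ∃ C : ℝ, 0 < C ∧ ∀ T h : ℝ, 3 ≤ T → 0 ≤ h → h ≤ T →
  ∫ u in T..(T + h), ‖z u‖ ^ 2 ≤ C * T ^ ε * (h + T ^ (1 / 3 : ℝ))

/-- WM: moments of the window means -/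
def S_WM : Prop := ∀ ε : ℝ, 0 < ε → ∃ C : ℝ, 0 < C ∧ ∀ T U : ℝ, 3 ≤ U → U ≤ T →
  (∀ t ∈ Icc U T, ∫ c in (0 : ℝ)..U, ‖z (t + c)‖ ^ 2 ≤ C * T ^ ε * (U + T ^ (1 / 3 : ℝ))) ∧
  ∫ t in U..T, (∫ c in (0 : ℝ)..U, ‖z (t + c)‖ ^ 2) ^ 2 ≤ C * T ^ (1 + ε) * U ^ 2

/-! ### The replacement -/

/-- KD: zeta minus a short Dirichlet polynomial, as an operator on functions on `[U, T]` -/
def S_KD : Prop := ∃ (C : ℝ) (A : ℕ), 0 < C ∧ ∀ (T U : ℝ) (N : ℕ) (F : ℝ → ℂ), 3 ≤ U → U ≤ T → 1 ≤ N →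
  (N : ℝ) ≤ U → Wb U T F →
  ∫ c in (0 : ℝ)..U, ‖∫ t in U..T, F t * (z (t + c) - PN N (t + c))‖ ^ 2 ≤
    C * Real.log T ^ A * (T * U / N + T) * ∫ t in U..T, ‖F t‖ ^ 2

/-- RW: replacement of all the factors, with window means depending on `t` -/
def S_RW : Prop := ∀ (ι : Type) [Fintype ι] (a b U K : ℝ) (w : ℝ → ℝ) (f g : ι → ℝ → ℂ) (v : ℝ → ℂ), a ≤ b →
  0 < U → 0 ≤ K → Continuous w → (∀ t, 0 ≤ w t) → (∀ i, Continuous (f i)) → (∀ i, Continuous (g i)) →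
  (∀ i, ∀ F : ℝ → ℂ, Wb a b F → ∫ c in (0 : ℝ)..U, ‖∫ t in a..b, F t * (f i (t + c) - g i (t + c))‖ ^ 2 ≤
    K * ∫ t in a..b, ‖F t‖ ^ 2) →
  (∀ i, ∀ t ∈ Icc a b, ∫ c in (0 : ℝ)..U, ‖f i (t + c)‖ ^ 2 ≤ w t) →
  (∀ i, ∀ t ∈ Icc a b, ∫ c in (0 : ℝ)..U, ‖g i (t + c)‖ ^ 2 ≤ w t) → Wb a b v →
  ∫⁻ γ, ENNReal.ofReal (‖∫ t in a..b, v t * (∏ i, f i (t + γ i) - ∏ i, g i (t + γ i))‖ ^ 2) ∂(mP ι U) ≤
    ENNReal.ofReal (4 ^ Fintype.card ι * K * ∫ t in a..b, ‖v t‖ ^ 2 * w t ^ (Fintype.card ι - 1))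

/-- SWU: the terms with at least one swap are small on average over `[0,U]^{2k}` -/
def S_SWU : Prop := ∀ k : ℕ, ∃ C T₀ : ℝ, 0 < C ∧ 3 ≤ T₀ ∧ ∀ (T U S : ℝ)
  (π : Equiv.Perm (Fin k ⊕ Fin k)), T₀ ≤ T → 0 < U → U ≤ T → 0 ≤ S → S ≤ T →
  (∃ j, (π (Sum.inr j)).isLeft = true) →
  ∫⁻ γ, ENNReal.ofReal (‖∫ t in (0:ℝ)..S, GG t (fun i => (γ i : ℂ)) π‖ ^ 2)
    ∂(mP (Fin k ⊕ Fin k) U) ≤ ENNReal.ofReal (C * U ^ (2 * k - 1) * T ^ 2 * Real.log T ^ 2)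

/-- the exceptional set in the cube `[0,U]^{2k}` -/
def BadU (k : ℕ) (T U lam : ℝ) : Set (Fin k ⊕ Fin k → ℝ) :=
  {γ | (∀ i, 0 ≤ γ i ∧ γ i ≤ U) ∧ ∃ S : ℝ, 0 ≤ S ∧ S ≤ T ∧ lam < ‖DD S γ‖}

/-- MU: the exceptional set has small measure -/
def S_MU : Prop := ∀ (k : ℕ) (κ : ℝ), 2 ≤ k → (2 * k - 3) / (6 * k - 6) < κ → ∃ δ T₀ : ℝ, 0 < δ ∧
  ∀ T U : ℝ, T₀ ≤ T → T ^ κ ≤ U → U ≤ T →
  mP (Fin k ⊕ Fin k) U (BadU k T U (T ^ (1 - δ))) ≤ ENNReal.ofReal (U ^ (2 * k) * T ^ (-δ))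

/-! ### Complex shifts -/

variable {k : ℕ}

/-- the product of zeta values for complex shifts -/
def Zc (c : Fin k ⊕ Fin k → ℂ) (t : ℝ) : ℂ :=
  ∏ j : Fin k, riemannZeta (1 / 2 + I * (t + c (Sum.inl j))) * riemannZeta (1 / 2 - I * (t + c (Sum.inr j)))

/-- the integral for complex shifts -/
def FS (S : ℝ) (c : Fin k ⊕ Fin k → ℂ) : ℂ :=
  ∫ t in (0 : ℝ)..S, (Zc c t - ((Nat.factorial k : ℂ) ^ 2)⁻¹ * Qs t c)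

/-- complex shift vectors close to separated real ones -/
def Dom (k : ℕ) (T : ℝ) : Set (Fin k ⊕ Fin k → ℂ) :=
  {c | (∀ i, |(c i).im| ≤ 1 / 10) ∧ (∀ i, |(c i).re| ≤ 3 * T) ∧ ∀ p q, p ≠ q → 1 ≤ |(c p).re - (c q).re|}

/-- ZB: bounds and regularity of the product for complex shifts -/
def S_ZB : Prop := ∀ k : ℕ, ∃ (C : ℝ) (A : ℕ), 0 < C ∧ ∀ T : ℝ, 3 ≤ T →
  ContinuousOn (fun p : (Fin k ⊕ Fin k → ℂ) × ℝ => Zc p.1 p.2) (Dom k T ×ˢ Icc 0 T) ∧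
  ∀ (t : ℝ) (c : Fin k ⊕ Fin k → ℂ), 0 ≤ t → t ≤ T → c ∈ Dom k T →
  ‖Zc c t‖ ≤ C * T ^ A ∧ ∀ i, DifferentiableAt ℂ (fun w => Zc (Function.update c i w) t) (c i)

/-- QB: bounds and regularity of the main term for complex shifts -/
def S_QB : Prop := ∀ k : ℕ, ∃ (C : ℝ) (A : ℕ), 0 < C ∧ ∀ T : ℝ, 3 ≤ T →
  ContinuousOn (fun p : (Fin k ⊕ Fin k → ℂ) × ℝ => Qs p.2 p.1) (Dom k T ×ˢ Icc 0 T) ∧
  ∀ (t : ℝ) (c : Fin k ⊕ Fin k → ℂ), 0 ≤ t → t ≤ T → c ∈ Dom k T →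
  ‖Qs t c‖ ≤ C * T ^ A ∧ ∀ i, DifferentiableAt ℂ (fun w => Qs t (Function.update c i w)) (c i)

/-- R3: the integral is bounded and differentiable in each variable -/
def S_R3 : Prop := ∀ k : ℕ, ∃ (C : ℝ) (A : ℕ), 0 < C ∧ ∀ (T S : ℝ) (c : Fin k ⊕ Fin k → ℂ), 3 ≤ T → 0 ≤ S → S ≤ T →
  (∀ i, |(c i).im| < 1 / 10) → (∀ i, |(c i).re| < 3 * T) → (∀ p q, p ≠ q → 1 < |(c p).re - (c q).re|) →
  ‖FS S c‖ ≤ C * T ^ A ∧ ∀ i, DifferentiableAt ℂ (fun w => FS S (Function.update c i w)) (c i)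

/-- FIN: all points outside few unit cubes -/
def S_FIN : Prop := ∀ (k : ℕ) (κ : ℝ), 2 ≤ k → (2 * k - 3) / (6 * k - 6) < κ → ∃ δ T₀ : ℝ, 0 < δ ∧
  ∀ T U : ℝ, T₀ ≤ T → T ^ κ ≤ U → U ≤ T → ∃ E : Finset (Fin k ⊕ Fin k → ℤ),
  (E.card : ℝ) ≤ U ^ (2 * k) * T ^ (-δ) ∧
  ∀ γ : Fin k ⊕ Fin k → ℝ, (∀ i, 0 ≤ γ i ∧ γ i ≤ U) → (fun i => ⌊γ i⌋) ∉ E →
    ∀ S : ℝ, 0 ≤ S → S ≤ T → ‖DD S γ‖ ≤ T ^ (1 - δ)

end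

end Pool.Agent.Z72.SH
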